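import Pool.Agent.H79.Const4

/-!
The sharp lower bound.
-/

open Real MeasureTheory intervalIntegral Finset Filter Topology

namespace Pool.Agent.H79

/-- The sharp lower bound, in angles. -/
theorem lower_angles {ε : ℝ} (hε : 0 < ε) : ∀ᶠ n : ℕ in atTop, ∀ θ : Fin n → ℝ,
    (Function.Injective fun k => Real.cos (θ k)) → (∀ k, θ k ∈ Set.Icc 0 π) →
    2 - (1 / n) * (Real.Gamma (1 / 4) ^ 4 / (16 * π ^ 2) + ε) ≤
      energy (fun k => Real.cos (θ k)) := by
  have hpi := Real.pi_pos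
  obtain ⟨a₀, ha1, ha2, hnear⟩ := near_ge (K := 77) (ε := ε / 4) (by norm_num) (by positivity)
  obtain ⟨a, ha⟩ : ∃ a, a = max ((1 + a₀) / 2) (1 - ε / 4) := ⟨_, rfl⟩
  have h1 : a₀ < a := by rw [ha]; exact lt_of_lt_of_le (by linarith) (le_max_left _ _)
  have h2 : a < 1 := by rw [ha]; exact max_lt (by linarith) (by linarith)
  have h3 : 1 - ε / 4 ≤ a := by rw [ha]; exact le_max_right _ _
  have h0 : 0 ≤ a := by linarith
  have hfar := far_ge h0 h2 (K := 77) (ε := ε / 4) (by norm_num) (by positivity)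
  have hc := const_le h0 h2
  rw [const_closed] at hc
  filter_upwards [hnear a h1 h2, hfar, eventually_ge_atTop 1] with n g1 g2 hn θ hx hθ
  have hn' : (0 : ℝ) < n := by exact_mod_cast hn
  obtain ⟨c, hcdef⟩ : ∃ c, c = Real.Gamma (1 / 4) ^ 4 / (16 * π ^ 2) := ⟨_, rfl⟩
  have hc0 : 0 ≤ c := by rw [hcdef]; positivity
  rw [← hcdef] at hc ⊢
  rcases le_or_gt (energy (fun k => Real.cos (θ k))) 2 with h | h
  · have hE3 : energy (fun k => Real.cos (θ k)) ≤ 3 := by linarith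
    have hg := good_of_energy θ hx hθ hE3
    have h4 := sum_ff_le' hn θ hg
    have h5 : ∑ k, ∫ t in (0 : ℝ)..π, ff θ k t ^ 2 * Real.sin t ≤ 77 / n := by linarith
    have h6 := g1 θ hg hE3 h5
    have h7 := g2 θ hg hE3 h5
    rw [← near_add_far h0 h2 θ]
    have h8 : (1 / (n : ℝ)) * (1 / 2 * ((1 + a) / (1 - a)) - GG a / (2 * π)) ≤
        (1 / (n : ℝ)) * (c + (1 - a) / 2) := mul_le_mul_of_nonneg_left hc (by positivity)
    have h9 : (1 / (n : ℝ)) * ((1 - a) / 2) ≤ (1 / (n : ℝ)) * (ε / 2) :=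
      mul_le_mul_of_nonneg_left (by linarith) (by positivity)
    linarith
  · have : 0 ≤ (1 / (n : ℝ)) * (c + ε) := by positivity
    linarith

/-- The sharp lower bound for nodes. -/
theorem lower_nodes {ε : ℝ} (hε : 0 < ε) : ∀ᶠ n : ℕ in atTop, ∀ x : Fin n → ℝ,
    Function.Injective x → (∀ k, x k ∈ Set.Icc (-1 : ℝ) 1) →
    2 - (1 / n) * (Real.Gamma (1 / 4) ^ 4 / (16 * π ^ 2) + ε) ≤ energy x := by
  filter_upwards [lower_angles hε] with n hn x hx hx1
  obtain ⟨θ, h1, h2, h3⟩ := exists_angles x hx hx1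
  have := hn θ h3 h1
  rwa [h2] at this

end Pool.Agent.H79
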