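import Pool.Agent.H79.G11
import Pool.Agent.H79.Lower

/-!
The second order asymptotics of the minimal energy.
-/

open Real MeasureTheory intervalIntegral Finset Filter Topology

namespace Pool.Agent.H79

/-- The value attained by the Gegenbauer nodes. -/
noncomputable def Gn (n : ℕ) : ℝ := 2 + 1 / (2 * ((2 * n - 1 / 2) * hn2 n)) * Vn n

lemma exists_good_nodes {n : ℕ} (hn : 1 ≤ n) : ∃ x : Fin n → ℝ, Function.Injective x ∧
    (∀ k, x k ∈ Set.Icc (-1 : ℝ) 1) ∧ energy x = Gn n := by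
  obtain ⟨θ, h1, h2⟩ := exists_nodes hn
  exact ⟨fun k => Real.cos (θ k), nodes_inj θ h1, fun k => Real.cos_mem_Icc _,
    gegen_energy hn θ h1 h2⟩

lemma tendsto_Gn : Tendsto (fun n : ℕ => (n : ℝ) * (2 - Gn n)) atTop
    (𝓝 (Real.Gamma (1 / 4) ^ 4 / (16 * π ^ 2))) := by
  have hpi := Real.pi_pos
  rw [← const_closed]
  have h1 : Tendsto (fun n : ℕ => (n : ℝ) / (2 * n - 1 / 2)) atTop (𝓝 (1 / 2)) := by
    have k1 : Tendsto (fun n : ℕ => 2 * (n : ℝ) - 1 / 2) atTop atTop :=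
      tendsto_atTop_add_const_right _ _ (tendsto_natCast_atTop_atTop.const_mul_atTop two_pos)
    have k2 := (k1.const_div_atTop (1 / 4)).const_add (1 / 2)
    rw [add_zero] at k2
    refine k2.congr' ?_
    filter_upwards [eventually_ge_atTop 1] with n hn
    have hn' : (1 : ℝ) ≤ n := by exact_mod_cast hn
    have : 2 * (n : ℝ) - 1 / 2 ≠ 0 := by
      have : 0 < 2 * (n : ℝ) - 1 / 2 := by linarith
      exact this.ne'
    rw [eq_div_iff this, add_mul, div_mul_cancel₀ _ this]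
    ring
  have h2 := tendsto_hn2
  have h3 := tendsto_Vn
  have h4 : √2 * π / 2 ≠ 0 := by positivity
  have h5 := ((h1.mul (h2.inv₀ h4)).mul h3).const_mul (-(1 / 2))
  have e : -(1 / 2) * (1 / 2 * (√2 * π / 2)⁻¹ * -(2 * √2 * Tl 1)) = Tl 1 / π := by
    field_simp
  rw [e] at h5
  refine h5.congr' ?_
  filter_upwards [eventually_ge_atTop 1] with n hn
  have hn' : (1 : ℝ) ≤ n := by exact_mod_cast hn
  have k1 : 2 * (n : ℝ) - 1 / 2 ≠ 0 := by
    have : 0 < 2 * (n : ℝ) - 1 / 2 := by linarith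
    exact this.ne'
  have k2 := (hn2_pos hn).ne'
  unfold Gn
  rw [div_eq_mul_inv, one_div, mul_inv, mul_inv]
  ring

/-- Second order asymptotics of the minimal energy. -/
theorem asymptotics : Tendsto (fun n : ℕ => (n : ℝ) * (2 - minEnergy n)) atTop
    (𝓝 (Real.Gamma (1 / 4) ^ 4 / (16 * π ^ 2))) := by
  obtain ⟨c, hc⟩ : ∃ c, c = Real.Gamma (1 / 4) ^ 4 / (16 * π ^ 2) := ⟨_, rfl⟩
  have hG := tendsto_Gn
  rw [← hc] at hG ⊢
  rw [Metric.tendsto_atTop']
  intro ε hε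
  have h1 := lower_nodes (ε := ε / 2) (by positivity)
  have h2 := (hG.eventually (Ioi_mem_nhds (by linarith : c - ε < c)))
  rw [← hc] at h1
  obtain ⟨N, hN⟩ := eventually_atTop.1 ((h1.and h2).and (eventually_ge_atTop 1))
  refine ⟨N, fun n hn => ?_⟩
  obtain ⟨⟨g1, g2⟩, g3⟩ := hN n hn.le
  have hn' : (0 : ℝ) < n := by exact_mod_cast g3
  obtain ⟨x, hx1, hx2, hx3⟩ := exists_good_nodes g3
  have hmem : energy x ∈ {v : ℝ | ∃ x : Fin n → ℝ, Function.Injective x ∧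
      (∀ k, x k ∈ Set.Icc (-1 : ℝ) 1) ∧ v = energy x} := ⟨x, hx1, hx2, rfl⟩
  have hlow : 2 - (1 / n) * (c + ε / 2) ≤ minEnergy n := by
    refine le_csInf ⟨_, hmem⟩ ?_
    rintro v ⟨y, hy1, hy2, rfl⟩
    exact g1 y hy1 hy2
  have hup : minEnergy n ≤ Gn n := by
    rw [← hx3]
    refine csInf_le ?_ hmem
    refine ⟨2 - (1 / n) * (c + ε / 2), ?_⟩
    rintro v ⟨y, hy1, hy2, rfl⟩
    exact g1 y hy1 hy2
  rw [Real.dist_eq, abs_lt]
  constructor
  · have k1 : (n : ℝ) * (2 - Gn n) ≤ n * (2 - minEnergy n) :=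
      mul_le_mul_of_nonneg_left (by linarith) hn'.le
    have k2 : c - ε < (n : ℝ) * (2 - Gn n) := g2
    linarith
  · have k1 : (n : ℝ) * (2 - minEnergy n) ≤ n * ((1 / n) * (c + ε / 2)) :=
      mul_le_mul_of_nonneg_left (by linarith) hn'.le
    have k2 : (n : ℝ) * ((1 / n) * (c + ε / 2)) = c + ε / 2 := by field_simp
    linarith

end Pool.Agent.H79
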