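import Mathlib

/-!
Lagrange interpolation in the variable `cos θ`: basic definitions and the two exact identities.
-/

open Real MeasureTheory intervalIntegral Finset Polynomial

namespace Pool.Agent.H79

variable {n : ℕ}

/-- The `k`-th Lagrange basis polynomial for the nodes `x`, as a function. -/
noncomputable def ell (x : Fin n → ℝ) (k : Fin n) (t : ℝ) : ℝ :=
  ∏ i ∈ univ.erase k, (t - x i) / (x k - x i)

/-- The integral of the sum of the squared Lagrange basis polynomials. -/
noncomputable def energy (x : Fin n → ℝ) : ℝ :=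
  ∫ t in (-1 : ℝ)..1, ∑ k, ell x k t ^ 2

/-- The infimum of the energy over all choices of `n` distinct nodes in `[-1, 1]`. -/
noncomputable def minEnergy (n : ℕ) : ℝ :=
  sInf {v : ℝ | ∃ x : Fin n → ℝ, Function.Injective x ∧ (∀ k, x k ∈ Set.Icc (-1 : ℝ) 1) ∧
    v = energy x}

lemma ell_eq_basis (x : Fin n → ℝ) (k : Fin n) (t : ℝ) :
    ell x k t = (Lagrange.basis univ x k).eval t := by
  unfold ell Lagrange.basis Lagrange.basisDivisor
  rw [Polynomial.eval_prod]
  refine Finset.prod_congr rfl fun i _ => ?_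
  simp [div_eq_inv_mul]

lemma ell_self (x : Fin n → ℝ) (hx : Function.Injective x) (k : Fin n) : ell x k (x k) = 1 := by
  rw [ell_eq_basis]
  exact Lagrange.eval_basis_self (hx.injOn) (mem_univ k)

lemma ell_ne (x : Fin n → ℝ) {k j : Fin n} (h : j ≠ k) : ell x k (x j) = 0 := by
  unfold ell
  apply Finset.prod_eq_zero (i := j) (mem_erase.2 ⟨h, mem_univ j⟩)
  simp

lemma degree_basis (x : Fin n → ℝ) (hx : Function.Injective x) (k : Fin n) :
    (Lagrange.basis univ x k).degree < n := by
  rw [Lagrange.degree_basis hx.injOn (mem_univ k)]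
  have := k.2
  simp only [card_univ, Fintype.card_fin]
  exact_mod_cast Nat.sub_lt (by omega) one_pos

/-- Interpolation: a polynomial of degree less than `n` is reproduced. -/
lemma sum_eval_mul_ell (x : Fin n → ℝ) (hx : Function.Injective x) (P : ℝ[X])
    (hP : P.degree < n) (t : ℝ) : ∑ k, P.eval (x k) * ell x k t = P.eval t := by
  have h := Lagrange.eq_interpolate (s := univ) (v := x) (hx.injOn) (f := P) (by simpa using hP)
  conv_rhs => rw [h]
  rw [Lagrange.interpolate_apply, Polynomial.eval_finsetSum]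
  refine Finset.sum_congr rfl fun k _ => ?_
  simp [ell_eq_basis]

/-- The Lagrange basis in the variable `cos t` with nodes `cos (θ k)`. -/
noncomputable def E (θ : Fin n → ℝ) (k : Fin n) (t : ℝ) : ℝ :=
  ell (fun k => Real.cos (θ k)) k (Real.cos t)

lemma E_eq (θ : Fin n → ℝ) (k : Fin n) (t : ℝ) :
    E θ k t = (Lagrange.basis univ (fun k => Real.cos (θ k)) k).eval (Real.cos t) :=
  ell_eq_basis _ _ _

@[fun_prop]
lemma continuous_E (θ : Fin n → ℝ) (k : Fin n) : Continuous (E θ k) := by
  have : E θ k = fun t => (Lagrange.basis univ (fun k => Real.cos (θ k)) k).eval (Real.cos t) := by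
    funext t; exact E_eq θ k t
  rw [this]
  exact (Polynomial.continuous _).comp Real.continuous_cos

lemma E_self (θ : Fin n → ℝ) (hx : Function.Injective fun k => Real.cos (θ k)) (k : Fin n) :
    E θ k (θ k) = 1 := ell_self (fun k => Real.cos (θ k)) hx k

lemma E_ne (θ : Fin n → ℝ) {k j : Fin n} (h : j ≠ k) : E θ k (θ j) = 0 :=
  ell_ne (fun k => Real.cos (θ k)) h

/-- The identity of type A for the cosines. -/
lemma sum_cos_mul_E (θ : Fin n → ℝ) (hx : Function.Injective fun k => Real.cos (θ k)) {j : ℕ}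
    (hj : j < n) (t : ℝ) :
    ∑ k, Real.cos (j * θ k) * E θ k t = Real.cos (j * t) := by
  have h := sum_eval_mul_ell _ hx (Polynomial.Chebyshev.T ℝ j) (by
    refine lt_of_le_of_lt (Polynomial.degree_le_natDegree) ?_
    have h1 : (Polynomial.Chebyshev.T ℝ (j : ℤ)).natDegree ≤ j := by
      simp
    exact_mod_cast lt_of_le_of_lt h1 hj) (Real.cos t)
  simpa [Polynomial.Chebyshev.T_real_cos, E] using h

/-- Sine polynomials of degree at most `n`. -/
noncomputable def sineSpan (n : ℕ) : Submodule ℝ (ℝ → ℝ) :=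
  Submodule.span ℝ (Set.range fun j : Fin n => fun t : ℝ => Real.sin (((j : ℕ) + 1 : ℕ) * t))

lemma sin_mem_sineSpan {j n : ℕ} (h : j < n) :
    (fun t : ℝ => Real.sin ((j + 1 : ℕ) * t)) ∈ sineSpan n :=
  Submodule.subset_span ⟨⟨j, h⟩, rfl⟩

lemma sineSpan_mono {m n : ℕ} (h : m ≤ n) : sineSpan m ≤ sineSpan n := by
  unfold sineSpan
  rw [Submodule.span_le]
  rintro g ⟨j, rfl⟩
  exact sin_mem_sineSpan (lt_of_lt_of_le j.2 h)

lemma cos_mul_mem_sineSpan {n : ℕ} {g : ℝ → ℝ} (hg : g ∈ sineSpan n) :
    (fun t => Real.cos t * g t) ∈ sineSpan (n + 1) := by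
  unfold sineSpan at hg
  induction hg using Submodule.span_induction with
  | mem g hg =>
    obtain ⟨j, rfl⟩ := hg
    have h1 : (fun t : ℝ => Real.cos t * Real.sin (((j : ℕ) + 1 : ℕ) * t)) =
        (1 / 2 : ℝ) • (fun t : ℝ => Real.sin (((j : ℕ) + 1 + 1 : ℕ) * t)) +
        (1 / 2 : ℝ) • (fun t : ℝ => Real.sin ((j : ℕ) * t)) := by
      funext t
      simp only [Pi.add_apply, Pi.smul_apply, smul_eq_mul]
      push_cast
      have e1 : ((j : ℝ) + 1 + 1) * t = ((j : ℝ) + 1) * t + t := by ring
      have e2 : (j : ℝ) * t = ((j : ℝ) + 1) * t - t := by ring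
      rw [e1, e2, Real.sin_add, Real.sin_sub]
      ring
    rw [h1]
    refine Submodule.add_mem _ (Submodule.smul_mem _ _ ?_) (Submodule.smul_mem _ _ ?_)
    · exact sin_mem_sineSpan (by have := j.2; omega)
    · rcases Nat.eq_zero_or_pos (j : ℕ) with h0 | h0
      · have : (fun t : ℝ => Real.sin ((j : ℕ) * t)) = 0 := by
          funext t; simp [h0]
        rw [this]; exact Submodule.zero_mem _
      · obtain ⟨i, hi⟩ := Nat.exists_eq_succ_of_ne_zero h0.ne'
        rw [hi]
        exact sin_mem_sineSpan (by have := j.2; omega)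
  | zero =>
    have : (fun t : ℝ => Real.cos t * (0 : ℝ → ℝ) t) = 0 := by funext t; simp
    rw [this]; exact Submodule.zero_mem _
  | add f g _ _ hf hg =>
    have : (fun t : ℝ => Real.cos t * (f + g) t) =
      (fun t => Real.cos t * f t) + (fun t => Real.cos t * g t) := by
      funext t; simp [mul_add]
    rw [this]; exact Submodule.add_mem _ hf hg
  | smul c f _ hf =>
    have : (fun t : ℝ => Real.cos t * (c • f) t) = c • (fun t => Real.cos t * f t) := by
      funext t; simp; ring
    rw [this]; exact Submodule.smul_mem _ _ hf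

lemma cos_pow_mul_sin_mem (i : ℕ) :
    (fun t => Real.cos t ^ i * Real.sin t) ∈ sineSpan (i + 1) := by
  induction i with
  | zero =>
    have := sin_mem_sineSpan (j := 0) (n := 1) one_pos
    simpa using this
  | succ i ih =>
    have := cos_mul_mem_sineSpan ih
    have h2 : (fun t => Real.cos t * (Real.cos t ^ i * Real.sin t)) =
        (fun t => Real.cos t ^ (i + 1) * Real.sin t) := by
      funext t; ring
    rw [← h2]; exact this

lemma poly_mul_sin_mem (P : ℝ[X]) (hP : P.degree < n) :
    (fun t => P.eval (Real.cos t) * Real.sin t) ∈ sineSpan n := by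
  have h1 : (fun t : ℝ => P.eval (Real.cos t) * Real.sin t) =
      ∑ i ∈ P.support, P.coeff i • (fun t : ℝ => Real.cos t ^ i * Real.sin t) := by
    funext t
    rw [Polynomial.eval_eq_sum, Polynomial.sum, Finset.sum_apply, Finset.sum_mul]
    refine Finset.sum_congr rfl fun i _ => ?_
    simp; ring
  rw [h1]
  refine Submodule.sum_mem _ fun i hi => Submodule.smul_mem _ _ ?_
  have h2 : (i : WithBot ℕ) < n := lt_of_le_of_lt (Polynomial.le_degree_of_mem_supp i hi) hP
  have h3 : i < n := by exact_mod_cast h2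
  exact sineSpan_mono (by omega) (cos_pow_mul_sin_mem i)

/-- `P (cos t) sin t` is a sine polynomial. -/
lemma exists_sine (P : ℝ[X]) (hP : P.degree < n) :
    ∃ e : ℕ → ℝ, ∀ t : ℝ, P.eval (Real.cos t) * Real.sin t =
      ∑ j ∈ range n, e j * Real.sin ((j + 1 : ℕ) * t) := by
  have h := poly_mul_sin_mem P hP
  unfold sineSpan at h
  rw [Submodule.mem_span_range_iff_exists_fun] at h
  obtain ⟨c, hc⟩ := h
  refine ⟨fun j => if hj : j < n then c ⟨j, hj⟩ else 0, fun t => ?_⟩
  have h2 := congrFun hc t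
  simp only [Finset.sum_apply, Pi.smul_apply, smul_eq_mul] at h2
  rw [← h2, Finset.sum_range]
  refine Finset.sum_congr rfl fun j _ => ?_
  simp

/-! ### Orthogonality -/

lemma integral_sin_nat_mul {m : ℕ} (hm : m ≠ 0) (a : ℝ) :
    ∫ t in (0 : ℝ)..π, Real.cos (m * t + a) = (Real.sin (m * π + a) - Real.sin a) / m := by
  have hm' : (m : ℝ) ≠ 0 := by exact_mod_cast hm
  have : ∀ t ∈ Set.uIcc (0 : ℝ) π, HasDerivAt (fun t : ℝ => Real.sin (m * t + a) / m)
      (Real.cos (m * t + a)) t := by
    intro t _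
    have h1 : HasDerivAt (fun t : ℝ => (m : ℝ) * t + a) m t := by
      simpa using ((hasDerivAt_id t).const_mul (m : ℝ)).add_const a
    have h2 := (h1.sin).div_const (m : ℝ)
    rw [mul_div_cancel_right₀ _ hm'] at h2
    exact h2
  rw [intervalIntegral.integral_eq_sub_of_hasDerivAt this
    (Continuous.intervalIntegrable (by fun_prop) _ _)]
  simp; ring

lemma integral_cos_nat {m : ℕ} (hm : m ≠ 0) : ∫ t in (0 : ℝ)..π, Real.cos (m * t) = 0 := by
  have := integral_sin_nat_mul hm 0
  simpa using this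

lemma integral_cos_int {m : ℤ} (hm : m ≠ 0) : ∫ t in (0 : ℝ)..π, Real.cos (m * t) = 0 := by
  have h1 : ∀ t : ℝ, Real.cos (m * t) = Real.cos ((m.natAbs : ℕ) * t) := by
    intro t
    rcases Int.natAbs_eq m with h | h
    · conv_lhs => rw [h]
      simp
    · conv_lhs => rw [h]
      simp
  simp_rw [h1]
  exact integral_cos_nat (by simpa using hm)

lemma integral_sin_mul_sin (i j : ℕ) :
    ∫ t in (0 : ℝ)..π, Real.sin ((i + 1 : ℕ) * t) * Real.sin ((j + 1 : ℕ) * t) =
      if i = j then π / 2 else 0 := by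
  have h1 : ∀ t : ℝ, Real.sin ((i + 1 : ℕ) * t) * Real.sin ((j + 1 : ℕ) * t) =
      (Real.cos (((i : ℤ) - j : ℤ) * t) - Real.cos (((i : ℤ) + j + 2 : ℤ) * t)) / 2 := by
    intro t
    push_cast
    have e1 : ((i : ℝ) - j) * t = (i + 1) * t - (j + 1) * t := by ring
    have e2 : ((i : ℝ) + j + 2) * t = (i + 1) * t + (j + 1) * t := by ring
    rw [e1, e2, Real.cos_sub, Real.cos_add]; ring
  simp_rw [h1]
  rw [intervalIntegral.integral_div, intervalIntegral.integral_sub
    (Continuous.intervalIntegrable (by fun_prop) _ _)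
    (Continuous.intervalIntegrable (by fun_prop) _ _)]
  rw [integral_cos_int (m := (i : ℤ) + j + 2) (by omega)]
  split_ifs with h
  · subst h; simp
  · rw [integral_cos_int (by omega)]; simp

/-- Sine coefficients of `E θ k t * sin t`. -/
noncomputable def sc (θ : Fin n → ℝ) (k : Fin n) (j : ℕ) : ℝ :=
  (2 / π) * ∫ t in (0 : ℝ)..π, E θ k t * Real.sin t * Real.sin ((j + 1 : ℕ) * t)

lemma sc_spec (θ : Fin n → ℝ) (hx : Function.Injective fun k => Real.cos (θ k)) (k : Fin n)
    (t : ℝ) : E θ k t * Real.sin t = ∑ j ∈ range n, sc θ k j * Real.sin ((j + 1 : ℕ) * t) := by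
  obtain ⟨e, he⟩ := exists_sine (Lagrange.basis univ (fun k => Real.cos (θ k)) k)
    (degree_basis _ hx k)
  have he' : ∀ t, E θ k t * Real.sin t = ∑ j ∈ range n, e j * Real.sin ((j + 1 : ℕ) * t) := by
    intro t; rw [E_eq]; exact he t
  have : ∀ j ∈ range n, sc θ k j = e j := by
    intro j hj
    unfold sc
    have h1 : ∀ t, E θ k t * Real.sin t * Real.sin ((j + 1 : ℕ) * t) =
        ∑ i ∈ range n, e i * (Real.sin ((i + 1 : ℕ) * t) * Real.sin ((j + 1 : ℕ) * t)) := by
      intro t; rw [he', Finset.sum_mul]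
      exact Finset.sum_congr rfl fun i _ => by ring
    simp_rw [h1]
    rw [intervalIntegral.integral_finsetSum
      (fun i _ => Continuous.intervalIntegrable (by fun_prop) _ _)]
    simp_rw [intervalIntegral.integral_const_mul, integral_sin_mul_sin]
    simp only [mul_ite, mul_zero]
    rw [Finset.sum_ite_eq' (range n) j (fun i => e i * (π / 2))]
    simp only [hj, if_true]
    field_simp
  rw [he' t]
  exact Finset.sum_congr rfl fun j hj => by rw [this j hj]

lemma sc_zero (θ : Fin n → ℝ) (hx : Function.Injective fun k => Real.cos (θ k)) (k : Fin n)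
    {j : ℕ} (hj : n ≤ j) :
    ∫ t in (0 : ℝ)..π, E θ k t * Real.sin t * Real.sin ((j + 1 : ℕ) * t) = 0 := by
  have h1 : ∀ t, E θ k t * Real.sin t * Real.sin ((j + 1 : ℕ) * t) =
      ∑ i ∈ range n, sc θ k i * (Real.sin ((i + 1 : ℕ) * t) * Real.sin ((j + 1 : ℕ) * t)) := by
    intro t; rw [sc_spec θ hx, Finset.sum_mul]
    exact Finset.sum_congr rfl fun i _ => by ring
  simp_rw [h1]
  rw [intervalIntegral.integral_finsetSum
    (fun i _ => Continuous.intervalIntegrable (by fun_prop) _ _)]
  simp_rw [intervalIntegral.integral_const_mul, integral_sin_mul_sin]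
  refine Finset.sum_eq_zero fun i hi => ?_
  have : i ≠ j := by have := mem_range.1 hi; omega
  simp [this]

/-- The identity of type B. -/
lemma sum_sin_mul_sc (θ : Fin n → ℝ) (hx : Function.Injective fun k => Real.cos (θ k))
    (k : Fin n) :
    ∑ j ∈ range n, Real.sin ((j + 1 : ℕ) * θ k) *
      ∫ t in (0 : ℝ)..π, E θ k t * Real.sin t * Real.sin ((j + 1 : ℕ) * t) =
      π / 2 * Real.sin (θ k) := by
  have h := sc_spec θ hx k (θ k)
  rw [E_self θ hx, one_mul] at h
  rw [h, Finset.mul_sum]
  refine Finset.sum_congr rfl fun j _ => ?_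
  unfold sc
  field_simp

/-- Change of variables for the energy. -/
lemma energy_eq (θ : Fin n → ℝ) :
    energy (fun k => Real.cos (θ k)) = ∑ k, ∫ t in (0 : ℝ)..π, E θ k t ^ 2 * Real.sin t := by
  unfold energy
  have hc : Continuous fun t : ℝ => ∑ k, ell (fun k => Real.cos (θ k)) k t ^ 2 := by
    have : (fun t : ℝ => ∑ k, ell (fun k => Real.cos (θ k)) k t ^ 2) =
      fun t : ℝ => ∑ k, ((Lagrange.basis univ (fun k => Real.cos (θ k)) k).eval t) ^ 2 := by
      funext t
      exact Finset.sum_congr rfl fun k _ => by rw [ell_eq_basis]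
    rw [this]
    exact continuous_finsetSum _ fun k _ => (Polynomial.continuous _).pow 2
  have h1 := intervalIntegral.integral_comp_mul_deriv (a := 0) (b := π)
    (f := Real.cos) (f' := fun t => -Real.sin t)
    (g := fun t : ℝ => ∑ k, ell (fun k => Real.cos (θ k)) k t ^ 2)
    (fun t _ => Real.hasDerivAt_cos t) (by fun_prop) hc
  rw [Real.cos_zero, Real.cos_pi] at h1
  rw [intervalIntegral.integral_symm, ← h1, ← intervalIntegral.integral_neg]
  rw [← intervalIntegral.integral_finsetSum
    (fun k _ => Continuous.intervalIntegrable (by fun_prop) _ _)]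
  refine intervalIntegral.integral_congr fun t _ => ?_
  simp only [Function.comp_apply, E]
  rw [Finset.sum_mul, ← Finset.sum_neg_distrib]
  exact Finset.sum_congr rfl fun k _ => by ring

end Pool.Agent.H79
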