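import Pool.Agent.H79.Dker

/-!
Few nodes can cluster near the end points.
-/

open Real MeasureTheory intervalIntegral Finset

namespace Pool.Agent.H79

variable {n : ℕ}

/-- Chebyshev polynomials of the second kind as sums of cosines. -/
noncomputable def Uc (j : ℕ) (t : ℝ) : ℝ := ∑ i ∈ range (j + 1), Real.cos (((j : ℝ) - 2 * i) * t)

lemma sin_mul_Uc (j : ℕ) (t : ℝ) : Real.sin t * Uc j t = Real.sin ((j + 1 : ℕ) * t) := by
  have h1 : ∀ i ∈ range (j + 1), Real.sin t * Real.cos (((j : ℝ) - 2 * i) * t) =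
      (fun i : ℕ => Real.sin (((j : ℝ) + 1 - 2 * i) * t) / 2) i -
      (fun i : ℕ => Real.sin (((j : ℝ) + 1 - 2 * i) * t) / 2) (i + 1) := by
    intro i _
    simp only
    push_cast
    have e1 : ((j : ℝ) + 1 - 2 * i) * t = ((j : ℝ) - 2 * i) * t + t := by ring
    have e2 : ((j : ℝ) + 1 - 2 * (i + 1)) * t = ((j : ℝ) - 2 * i) * t - t := by ring
    rw [e1, e2, Real.sin_add, Real.sin_sub]
    ring
  unfold Uc
  rw [Finset.mul_sum, Finset.sum_congr rfl h1, Finset.sum_range_sub']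
  push_cast
  have e3 : ((j : ℝ) + 1 - 2 * ((j : ℝ) + 1)) * t = -(((j : ℝ) + 1) * t) := by ring
  have e4 : ((j : ℝ) + 1 - 2 * 0) * t = ((j : ℝ) + 1) * t := by ring
  rw [e3, e4, Real.sin_neg]
  ring

@[fun_prop]
lemma continuous_Uc (j : ℕ) : Continuous (Uc j) := by unfold Uc; fun_prop

lemma E_expand (θ : Fin n → ℝ) (hx : Function.Injective fun k => Real.cos (θ k)) (k : Fin n)
    (t : ℝ) : E θ k t = ∑ j ∈ range n, sc θ k j * Uc j t := by
  have hd : Dense {t : ℝ | Real.sin t ≠ 0} := by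
    have hcount : Set.Countable {t : ℝ | Real.sin t = 0} := by
      have : {t : ℝ | Real.sin t = 0} = Set.range fun m : ℤ => (m : ℝ) * π := by
        ext t
        simp [Real.sin_eq_zero_iff]
      rw [this]
      exact Set.countable_range _
    exact hcount.dense_compl ℝ
  have h1 : E θ k = fun t => ∑ j ∈ range n, sc θ k j * Uc j t := by
    refine Continuous.ext_on hd (by fun_prop) (by fun_prop) fun t ht => ?_
    have h2 := sc_spec θ hx k t
    have h3 : ∑ j ∈ range n, sc θ k j * Real.sin ((j + 1 : ℕ) * t) =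
        (∑ j ∈ range n, sc θ k j * Uc j t) * Real.sin t := by
      rw [Finset.sum_mul]
      refine Finset.sum_congr rfl fun j _ => ?_
      rw [← sin_mul_Uc]; ring
    rw [h3] at h2
    exact mul_right_cancel₀ ht h2
  exact congrFun h1 t

/-- Real part of the exponential expansion. -/
lemma cos_taylor (S : Finset (Fin n)) (c x : Fin n → ℝ) (p : ℕ)
    (hc : ∀ i < p, ∑ k ∈ S, c k * x k ^ (2 * i) = 0) (C T : ℝ) (hC : ∀ k ∈ S, |c k| ≤ C)
    (hT : ∀ k ∈ S, |x k| ≤ T) (hp : 4 * T ≤ p) (hT0 : 0 ≤ T) :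
    |∑ k ∈ S, c k * Real.cos (x k)| ≤ S.card * (C * (T ^ (2 * p) / (2 * p).factorial * 2)) := by
  set P : Fin n → ℂ := fun k => ∑ m ∈ range (2 * p), ((x k : ℂ) * Complex.I) ^ m / m.factorial
    with hP
  have h1 : (∑ k ∈ S, (c k : ℂ) * P k).re = 0 := by
    have e1 : ∑ k ∈ S, (c k : ℂ) * P k =
        ∑ m ∈ range (2 * p), (Complex.I ^ m / m.factorial) * ((∑ k ∈ S, c k * x k ^ m : ℝ) : ℂ) := by
      simp only [hP, Finset.mul_sum]
      rw [Finset.sum_comm]
      refine Finset.sum_congr rfl fun m _ => ?_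
      push_cast
      rw [Finset.mul_sum]
      refine Finset.sum_congr rfl fun k _ => ?_
      rw [mul_pow]; ring
    rw [e1, Complex.re_sum]
    refine Finset.sum_eq_zero fun m hm => ?_
    rcases Nat.even_or_odd' m with ⟨i, hi | hi⟩
    · have : i < p := by have := mem_range.1 hm; omega
      rw [hi, hc i this]; simp
    · rw [Complex.mul_re, Complex.ofReal_im, mul_zero, sub_zero]
      have : (Complex.I ^ m / (m.factorial : ℂ)).re = 0 := by
        have h2 : Complex.I ^ m = (((-1 : ℝ) ^ i : ℝ) : ℂ) * Complex.I := by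
          rw [hi, pow_succ, pow_mul, Complex.I_sq]; push_cast; ring
        rw [h2]
        have h3 : (((-1 : ℝ) ^ i : ℝ) : ℂ) * Complex.I / (m.factorial : ℂ) =
            ((((-1 : ℝ) ^ i) / m.factorial : ℝ) : ℂ) * Complex.I := by push_cast; ring
        rw [h3, Complex.re_ofReal_mul, Complex.I_re, mul_zero]
      rw [this, zero_mul]
  have h2 : ∑ k ∈ S, c k * Real.cos (x k) =
      (∑ k ∈ S, (c k : ℂ) * (Complex.exp ((x k : ℂ) * Complex.I) - P k)).re := by
    have : ∑ k ∈ S, (c k : ℂ) * (Complex.exp ((x k : ℂ) * Complex.I) - P k) =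
        ∑ k ∈ S, (c k : ℂ) * Complex.exp ((x k : ℂ) * Complex.I) - ∑ k ∈ S, (c k : ℂ) * P k := by
      rw [← Finset.sum_sub_distrib]
      exact Finset.sum_congr rfl fun k _ => by ring
    rw [this, Complex.sub_re, h1, sub_zero, Complex.re_sum]
    refine Finset.sum_congr rfl fun k _ => ?_
    rw [Complex.re_ofReal_mul, Complex.exp_ofReal_mul_I_re]
  rw [h2]
  refine (Complex.abs_re_le_norm _).trans ((norm_sum_le _ _).trans ?_)
  rw [← nsmul_eq_mul]
  refine Finset.sum_le_card_nsmul _ _ _ fun k hk => ?_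
  rw [norm_mul, Complex.norm_real, Real.norm_eq_abs]
  have hC0 : 0 ≤ C := (abs_nonneg _).trans (hC k hk)
  have hn1 : ‖(x k : ℂ) * Complex.I‖ = |x k| := by simp
  have h3 : ‖(x k : ℂ) * Complex.I‖ / (2 * p).succ ≤ 1 / 2 := by
    rw [hn1, div_le_div_iff₀ (by positivity) (by norm_num)]
    push_cast
    have := hT k hk
    linarith
  have h4 := Complex.exp_bound' h3
  rw [hn1] at h4
  refine mul_le_mul (hC k hk) (h4.trans ?_) (norm_nonneg _) hC0
  gcongr
  exact hT k hk

lemma abs_sc_le (θ : Fin n → ℝ) (k : Fin n)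
    (hI : ∫ t in (0 : ℝ)..π, E θ k t ^ 2 * Real.sin t ≤ 3) (j : ℕ) : |sc θ k j| ≤ 2 := by
  unfold sc
  rw [abs_mul, abs_of_pos (by positivity : (0 : ℝ) < 2 / π)]
  have h1 : |∫ t in (0 : ℝ)..π, E θ k t * Real.sin t * Real.sin ((j + 1 : ℕ) * t)| ≤
      ∫ t in (0 : ℝ)..π, (E θ k t ^ 2 * Real.sin t + Real.sin t) / 2 := by
    refine (intervalIntegral.abs_integral_le_integral_abs Real.pi_pos.le).trans ?_
    refine intervalIntegral.integral_mono_on Real.pi_pos.le
      (Continuous.intervalIntegrable (by fun_prop) _ _)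
      (Continuous.intervalIntegrable (by fun_prop) _ _) fun t ht => ?_
    have hs : 0 ≤ Real.sin t := Real.sin_nonneg_of_mem_Icc ht
    rw [abs_mul, abs_mul, abs_of_nonneg hs]
    have h2 := Real.abs_sin_le_one ((j + 1 : ℕ) * t)
    have h3 : |E θ k t| ≤ (E θ k t ^ 2 + 1) / 2 := by
      have := sq_nonneg (|E θ k t| - 1)
      have h4 := sq_abs (E θ k t)
      nlinarith
    calc |E θ k t| * Real.sin t * |Real.sin ((j + 1 : ℕ) * t)| ≤
        (E θ k t ^ 2 + 1) / 2 * Real.sin t * 1 := by gcongr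
      _ = _ := by ring
  rw [intervalIntegral.integral_div, intervalIntegral.integral_add
    (Continuous.intervalIntegrable (by fun_prop) _ _)
    (Continuous.intervalIntegrable (by fun_prop) _ _), integral_sin] at h1
  simp only [Real.cos_zero, Real.cos_pi] at h1
  have h5 : 2 / π ≤ 2 / 3 := by
    apply div_le_div_of_nonneg_left (by norm_num) (by norm_num) Real.pi_gt_three.le
  calc 2 / π * |∫ t in (0 : ℝ)..π, E θ k t * Real.sin t * Real.sin ((j + 1 : ℕ) * t)| ≤
      2 / 3 * 3 := by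
        refine mul_le_mul h5 ?_ (abs_nonneg _) (by norm_num)
        linarith
    _ = 2 := by norm_num

lemma cluster_aux (θ : Fin n → ℝ) (hx : Function.Injective fun k => Real.cos (θ k))
    (hsc : ∀ k j, |sc θ k j| ≤ 2) (ψ : Fin n → ℝ)
    (hψ : (∀ k, ψ k = θ k) ∨ (∀ k, ψ k = π - θ k)) (S : Finset (Fin n)) (T : ℝ) (hT0 : 0 ≤ T)
    (hT : ∀ k ∈ S, 0 ≤ ψ k ∧ n * ψ k ≤ T) (p : ℕ) (hcard : S.card = p + 1) (hp : 4 * T ≤ p) :
    1 ≤ 4 * (n : ℝ) ^ 2 * (p + 1) * (T ^ (2 * p) / (2 * p).factorial) := by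
  -- a nontrivial vector in the kernel
  let f : (S → ℝ) →ₗ[ℝ] (Fin p → ℝ) :=
    { toFun := fun c i => ∑ k : S, c k * ψ k ^ (2 * (i : ℕ))
      map_add' := by
        intro c d; funext i
        simp only [Pi.add_apply, add_mul, Finset.sum_add_distrib]
      map_smul' := by
        intro r c; funext i
        simp only [Pi.smul_apply, smul_eq_mul, RingHom.id_apply, Finset.mul_sum]
        exact Finset.sum_congr rfl fun k _ => by ring }
  have hker : LinearMap.ker f ≠ ⊥ := by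
    apply LinearMap.ker_ne_bot_of_finrank_lt
    simp [hcard]
  obtain ⟨c, hc, hc0⟩ := Submodule.exists_mem_ne_zero_of_ne_bot hker
  rw [LinearMap.mem_ker] at hc
  have hne : (univ : Finset S).Nonempty := by
    have : 0 < S.card := by omega
    obtain ⟨k, hk⟩ := Finset.card_pos.1 this
    exact ⟨⟨k, hk⟩, mem_univ _⟩
  obtain ⟨k₀, _, hk₀⟩ := Finset.exists_max_image univ (fun k : S => |c k|) hne
  have hck : 0 < |c k₀| := by
    rw [abs_pos]
    intro h
    apply hc0
    funext k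
    have := hk₀ k (mem_univ _)
    rw [h, abs_zero] at this
    exact abs_nonpos_iff.1 this
  -- extend by zero
  classical
  set d : Fin n → ℝ := fun k => if h : k ∈ S then c ⟨k, h⟩ else 0 with hd
  have hdS : ∀ g : Fin n → ℝ, ∑ k ∈ S, d k * g k = ∑ k : S, c k * g k := by
    intro g
    rw [← Finset.sum_coe_sort]
    refine Finset.sum_congr rfl fun k _ => ?_
    simp [hd, k.2]
  have hd1 : ∀ k ∈ S, |d k| ≤ |c k₀| := by
    intro k hk
    simp only [hd, hk, dif_pos]
    exact hk₀ ⟨k, hk⟩ (mem_univ _)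
  set B : ℝ := (p + 1) * (|c k₀| * (T ^ (2 * p) / (2 * p).factorial * 2)) with hB
  have hBpos : 0 ≤ B := by positivity
  have hcosψ : ∀ m : ℕ, m ≤ n → |∑ k ∈ S, d k * Real.cos (m * ψ k)| ≤ B := by
    intro m hm
    have := cos_taylor S d (fun k => m * ψ k) p (fun i hi => by
      have h1 := congrFun hc ⟨i, hi⟩
      simp only [f, LinearMap.coe_mk, AddHom.coe_mk, Pi.zero_apply] at h1
      have h2 : ∑ k ∈ S, d k * ((m : ℝ) * ψ k) ^ (2 * i) =
          (m : ℝ) ^ (2 * i) * ∑ k ∈ S, d k * ψ k ^ (2 * i) := by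
        rw [Finset.mul_sum]
        exact Finset.sum_congr rfl fun k _ => by rw [mul_pow]; ring
      rw [h2, hdS (fun k => ψ k ^ (2 * i)), h1, mul_zero]) |c k₀| T hd1 (fun k hk => by
        have h1 := hT k hk
        rw [abs_mul, Nat.abs_cast, abs_of_nonneg h1.1]
        refine le_trans ?_ h1.2
        have : (m : ℝ) ≤ n := by exact_mod_cast hm
        exact mul_le_mul_of_nonneg_right this h1.1) hp hT0
    rw [hcard] at this
    push_cast at this
    exact this
  have hcos : ∀ m : ℕ, m ≤ n → |∑ k ∈ S, d k * Real.cos (m * θ k)| ≤ B := by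
    intro m hm
    rcases hψ with h | h
    · have := hcosψ m hm
      simp_rw [h] at this
      exact this
    · have h1 := hcosψ m hm
      have h2 : ∑ k ∈ S, d k * Real.cos (m * ψ k) =
          (-1) ^ m * ∑ k ∈ S, d k * Real.cos (m * θ k) := by
        rw [Finset.mul_sum]
        refine Finset.sum_congr rfl fun k _ => ?_
        rw [h k, mul_sub, Real.cos_sub, Real.cos_nat_mul_pi, Real.sin_nat_mul_pi]
        ring
      rw [h2, abs_mul, abs_pow, abs_neg, abs_one, one_pow, one_mul] at h1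
      exact h1
  have hval : ∑ k ∈ S, d k * E θ k₀ (θ k) = c k₀ := by
    rw [Finset.sum_eq_single (k₀ : Fin n)]
    · rw [E_self θ hx, mul_one]
      simp [hd]
    · intro k _ hk
      rw [E_ne θ hk, mul_zero]
    · intro h; exact absurd k₀.2 h
  have hexp : ∑ k ∈ S, d k * E θ k₀ (θ k) = ∑ j ∈ range n, sc θ k₀ j *
      ∑ i ∈ range (j + 1), ∑ k ∈ S, d k * Real.cos (((j : ℝ) - 2 * i) * θ k) := by
    simp_rw [E_expand θ hx, Uc, Finset.mul_sum]
    rw [Finset.sum_comm]
    refine Finset.sum_congr rfl fun j _ => ?_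
    rw [Finset.sum_comm]
    exact Finset.sum_congr rfl fun i _ => Finset.sum_congr rfl fun k _ => by ring
  have hcos2 : ∀ j ∈ range n, ∀ i ∈ range (j + 1),
      |∑ k ∈ S, d k * Real.cos (((j : ℝ) - 2 * i) * θ k)| ≤ B := by
    intro j hj i hi
    have hj' := mem_range.1 hj
    have hi' := mem_range.1 hi
    have h1 : ∀ t : ℝ, Real.cos (((j : ℝ) - 2 * i) * t) =
        Real.cos ((((j : ℤ) - 2 * i).natAbs : ℕ) * t) := by
      intro t
      have h2 : (((j : ℝ) - 2 * i)) = (((j : ℤ) - 2 * i : ℤ) : ℝ) := by push_cast; ring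
      rw [h2]
      rcases Int.natAbs_eq ((j : ℤ) - 2 * i) with h | h
      · conv_lhs => rw [h]
        simp
      · conv_lhs => rw [h]
        simp
    simp_rw [h1]
    exact hcos _ (by omega)
  have hfin : |c k₀| ≤ 2 * (n : ℝ) ^ 2 * B := by
    rw [← hval, hexp]
    refine (Finset.abs_sum_le_sum_abs _ _).trans ?_
    calc ∑ j ∈ range n, |sc θ k₀ j * ∑ i ∈ range (j + 1), ∑ k ∈ S,
          d k * Real.cos (((j : ℝ) - 2 * i) * θ k)| ≤ ∑ j ∈ range n, 2 * (n * B) := by
          refine Finset.sum_le_sum fun j hj => ?_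
          rw [abs_mul]
          refine mul_le_mul (hsc _ _) ?_ (abs_nonneg _) (by norm_num)
          refine (Finset.abs_sum_le_sum_abs _ _).trans ?_
          calc ∑ i ∈ range (j + 1), |∑ k ∈ S, d k * Real.cos (((j : ℝ) - 2 * i) * θ k)| ≤
              ∑ i ∈ range (j + 1), B := Finset.sum_le_sum (hcos2 j hj)
            _ = (j + 1) * B := by simp
            _ ≤ n * B := by
              have : (j : ℝ) + 1 ≤ n := by exact_mod_cast mem_range.1 hj
              gcongr
      _ = 2 * (n : ℝ) ^ 2 * B := by simp; ring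
  have h9 : |c k₀| * 1 ≤
      |c k₀| * (4 * (n : ℝ) ^ 2 * (p + 1) * (T ^ (2 * p) / (2 * p).factorial)) := by
    rw [mul_one]
    calc |c k₀| ≤ 2 * (n : ℝ) ^ 2 * B := hfin
      _ = _ := by rw [hB]; ring
  exact le_of_mul_le_mul_left h9 hck

lemma exp_four_le : Real.exp 4 ≤ 64 := by
  have h1 : Real.exp 4 = Real.exp 1 ^ 4 := by
    rw [← Real.exp_nat_mul]; norm_num
  have h2 : Real.exp 1 ≤ 2.7182818286 := Real.exp_one_lt_d9.le
  rw [h1]
  calc Real.exp 1 ^ 4 ≤ 2.7182818286 ^ 4 := by gcongr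
    _ ≤ 64 := by norm_num

lemma factorial_bound (T : ℝ) (hT0 : 0 ≤ T) (p : ℕ) (hp : 4 * T ≤ p) :
    T ^ (2 * p) / (2 * p).factorial ≤ Real.exp (-(2 * p)) := by
  rcases Nat.eq_zero_or_pos p with h | h
  · subst h; simp
  have hp' : (0 : ℝ) < p := by exact_mod_cast h
  have h1 := Real.pow_div_factorial_le_exp (x := 2 * p) (by positivity) (2 * p)
  have h2 : T ^ (2 * p) ≤ (1 / 64) ^ p * (2 * p) ^ (2 * p) := by
    have h3 : T ≤ p / 4 := by linarith
    calc T ^ (2 * p) ≤ (p / 4) ^ (2 * p) := by gcongr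
      _ = (1 / 64) ^ p * (2 * p) ^ (2 * p) := by
        rw [pow_mul, pow_mul, ← mul_pow]; congr 1; ring
  calc T ^ (2 * p) / (2 * p).factorial ≤ (1 / 64) ^ p * (2 * p) ^ (2 * p) / (2 * p).factorial := by
        gcongr
    _ = (1 / 64) ^ p * ((2 * p) ^ (2 * p) / (2 * p).factorial) := by ring
    _ ≤ (1 / 64) ^ p * Real.exp (2 * p) := by
        gcongr
    _ ≤ Real.exp (-4 * p) * Real.exp (2 * p) := by
        gcongr
        have h5 : Real.exp (-4 * p) = (Real.exp (-4)) ^ p := by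
          rw [← Real.exp_nat_mul]; ring_nf
        rw [h5]
        have h6 : (1 / 64 : ℝ) ≤ Real.exp (-4) := by
          rw [Real.exp_neg, ← one_div]
          exact one_div_le_one_div_of_le (Real.exp_pos _) exp_four_le
        gcongr
    _ = Real.exp (-(2 * p)) := by rw [← Real.exp_add]; ring_nf

lemma log_le_two_sqrt {x : ℝ} (hx : 0 < x) : Real.log x ≤ 2 * (√x - 1) := by
  have h1 : Real.log x = 2 * Real.log (√x) := by
    rw [Real.log_sqrt hx.le]; ring
  have h2 := Real.log_le_sub_one_of_pos (Real.sqrt_pos.2 hx)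
  linarith

/-- Counting bound for the nodes close to an end point. -/
lemma cluster (θ : Fin n → ℝ) (hx : Function.Injective fun k => Real.cos (θ k))
    (hsc : ∀ k j, |sc θ k j| ≤ 2) (ψ : Fin n → ℝ)
    (hψ : (∀ k, ψ k = θ k) ∨ (∀ k, ψ k = π - θ k)) (hψ0 : ∀ k, 0 ≤ ψ k) (t : ℝ) (ht : 0 ≤ t) :
    ((univ.filter fun k => ψ k ≤ t).card : ℝ) ≤ 4 * n * t + 4 * √n := by
  set S := univ.filter fun k => ψ k ≤ t with hS
  rcases Nat.eq_zero_or_pos S.card with h0 | h0
  · rw [h0]; simp only [Nat.cast_zero]; positivity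
  obtain ⟨p, hp⟩ : ∃ p, S.card = p + 1 := ⟨S.card - 1, by omega⟩
  have hcn : S.card ≤ n := by
    have := Finset.card_le_univ S
    simpa using this
  have hn : 1 ≤ n := by omega
  have hn' : (1 : ℝ) ≤ n := by exact_mod_cast hn
  have hsq : 1 ≤ √(n : ℝ) := by rw [Real.one_le_sqrt]; exact hn'
  rw [hp]
  push_cast
  by_cases hpT : (p : ℝ) < 4 * (n * t)
  · linarith
  push Not at hpT
  have h1 := cluster_aux θ hx hsc ψ hψ S (n * t) (by positivity) (fun k hk => by
    rw [hS, mem_filter] at hk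
    exact ⟨hψ0 k, by have := hk.2; gcongr⟩) p hp hpT
  have h2 := factorial_bound (n * t) (by positivity) p hpT
  have hpn : (p : ℝ) + 1 ≤ n := by
    have : p + 1 ≤ n := by omega
    exact_mod_cast this
  have h3 : Real.exp (2 * p) ≤ 4 * (n : ℝ) ^ 3 := by
    have h4 : 1 ≤ 4 * (n : ℝ) ^ 2 * n * Real.exp (-(2 * p)) := by
      calc 1 ≤ _ := h1
        _ ≤ 4 * (n : ℝ) ^ 2 * n * Real.exp (-(2 * p)) := by gcongr
    rw [Real.exp_neg, ← div_eq_mul_inv, le_div_iff₀ (Real.exp_pos _), one_mul] at h4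
    calc _ ≤ _ := h4
      _ = _ := by ring
  have h4 : 2 * (p : ℝ) ≤ Real.log 4 + 3 * Real.log n := by
    have h5 := Real.log_le_log (Real.exp_pos _) h3
    rw [Real.log_exp, Real.log_mul (by norm_num) (by positivity), Real.log_pow] at h5
    exact_mod_cast h5
  have h5 := log_le_two_sqrt (x := n) (by positivity)
  have h6 : Real.log 4 ≤ 2 := by
    have := log_le_two_sqrt (x := 4) (by norm_num)
    have h7 : √(4 : ℝ) = 2 := by
      rw [show (4 : ℝ) = 2 ^ 2 by norm_num, Real.sqrt_sq (by norm_num)]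
    rw [h7] at this
    linarith
  have h8 : 0 ≤ 4 * (n : ℝ) * t := by positivity
  linarith

end Pool.Agent.H79
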