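import Pool.Agent.H79.Far4

/-!
The double integral as a series.
-/

open Real MeasureTheory intervalIntegral Finset Filter Topology

namespace Pool.Agent.H79

/-- Sine coefficients of the square root of sine. -/
noncomputable def SS (l : ℕ) : ℝ := ∫ t in (0 : ℝ)..π, √(Real.sin t) * Real.sin (l * t)

lemma ups_diff {a : ℝ} (ha0 : 0 ≤ a) (ha1 : a < 1) (φ t : ℝ) (N : ℕ) :
    ups a (φ - t) - ups a (φ + t) = 2 * a / (1 - a ^ 2) *
      (∑ i ∈ range N, 2 * a ^ (i + 1) * (Real.sin ((i + 1 : ℕ) * φ) * Real.sin ((i + 1 : ℕ) * t)) +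
      a ^ N * (Gp a N (φ - t) - Gp a N (φ + t))) := by
  have h1 : ∀ x, ups a x = 2 * a / (1 - a ^ 2) * (PC a x + 1 / 2) := by
    intro x
    rw [PC_eq ha0 ha1]
    unfold ups PK
    have h2 := (Del_pos ha0 ha1 x).ne'
    have h3 : 1 - a ^ 2 ≠ 0 := by nlinarith
    field_simp
    ring
  have h2 : ∀ x, PC a x = ∑ i ∈ range N, a ^ (i + 1) * Real.cos ((i + 1 : ℕ) * x) +
        a ^ N * Gp a N x := by
    intro x
    have h3 := geomB ha0 ha1 0 N x
    have : Gp a 0 x = PC a x := by unfold Gp; simp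
    rw [this] at h3
    simp only [zero_add] at h3
    rw [h3]; ring
  rw [h1, h1, h2 (φ - t), h2 (φ + t)]
  have h4 : ∑ i ∈ range N, 2 * a ^ (i + 1) * (Real.sin ((i + 1 : ℕ) * φ) *
      Real.sin ((i + 1 : ℕ) * t)) =
      ∑ i ∈ range N, a ^ (i + 1) * Real.cos ((i + 1 : ℕ) * (φ - t)) -
      ∑ i ∈ range N, a ^ (i + 1) * Real.cos ((i + 1 : ℕ) * (φ + t)) := by
    rw [← Finset.sum_sub_distrib]
    refine Finset.sum_congr rfl fun i _ => ?_
    rw [mul_sub, mul_add, Real.cos_sub, Real.cos_add]; ring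
  rw [h4]; ring

lemma abs_Gp_le {a : ℝ} (ha0 : 0 ≤ a) (ha1 : a < 1) (m : ℕ) (x : ℝ) :
    |Gp a m x| ≤ 3 / (1 - a) ^ 2 := by
  unfold Gp
  refine (abs_sub _ _).trans ?_
  rw [abs_mul, abs_mul]
  have hb : 0 < 1 - a := by linarith
  have h0 : ∀ x, |1 / Del a x| ≤ 1 / (1 - a) ^ 2 := by
    intro x
    have := Del_pos ha0 ha1 x
    rw [abs_of_pos (by positivity)]
    exact one_div_le_one_div_of_le (by positivity) (Del_ge ha0 x)
  have g1 := Real.abs_cos_le_one (m * x)
  have g2 := Real.abs_sin_le_one (m * x)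
  have hPC : |PC a x| ≤ 2 / (1 - a) ^ 2 := by
    have h1 : PC a x = (a * Real.cos x - a ^ 2) * (1 / Del a x) := by unfold PC; ring
    rw [h1, abs_mul]
    have h2 : |a * Real.cos x - a ^ 2| ≤ 2 := by
      have := Real.abs_cos_le_one x
      rw [abs_le] at this ⊢
      constructor <;> nlinarith [this.1, this.2]
    calc _ ≤ 2 * (1 / (1 - a) ^ 2) := mul_le_mul h2 (h0 x) (abs_nonneg _) (by norm_num)
      _ = _ := by ring
  have hQ : |QK a x| ≤ 1 / (1 - a) ^ 2 := by
    have h1 : QK a x = (a * Real.sin x) * (1 / Del a x) := by unfold QK; ring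
    rw [h1, abs_mul]
    have h2 : |a * Real.sin x| ≤ 1 := by
      have := Real.abs_sin_le_one x
      rw [abs_le] at this ⊢
      constructor <;> nlinarith [this.1, this.2]
    calc _ ≤ 1 * (1 / (1 - a) ^ 2) := mul_le_mul h2 (h0 x) (abs_nonneg _) (by norm_num)
      _ = _ := by ring
  calc _ ≤ 1 * (2 / (1 - a) ^ 2) + 1 * (1 / (1 - a) ^ 2) :=
        add_le_add (mul_le_mul g1 hPC (abs_nonneg _) (by norm_num))
          (mul_le_mul g2 hQ (abs_nonneg _) (by norm_num))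
    _ = _ := by ring

lemma GG_near {a : ℝ} (ha0 : 0 ≤ a) (ha1 : a < 1) (N : ℕ) :
    |GG a - 4 * a / (1 - a ^ 2) * ∑ i ∈ range N, a ^ (i + 1) * SS (i + 1) ^ 2| ≤
      a ^ N * (2 * a / (1 - a ^ 2) * (6 / (1 - a) ^ 2) * π * π) := by
  have hb : 0 < 1 - a := by linarith
  have hb2 : 0 < 1 - a ^ 2 := by nlinarith
  have hpi := Real.pi_pos
  have hcG := continuous_Gp ha0 ha1 N
  -- remainder
  obtain ⟨R, hR⟩ : ∃ R : ℝ → ℝ → ℝ, R = fun φ t => √(Real.sin φ) * √(Real.sin t) *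
    (2 * a / (1 - a ^ 2) * (a ^ N * (Gp a N (φ - t) - Gp a N (φ + t)))) := ⟨_, rfl⟩
  have hRc : ∀ φ, Continuous fun t => R φ t := by intro φ; rw [hR]; fun_prop
  have hRc2 : Continuous (Function.uncurry R) := by
    rw [hR]
    simp only [Function.uncurry_def]
    fun_prop
  have hR1 : ∀ φ t, |R φ t| ≤ a ^ N * (2 * a / (1 - a ^ 2) * (6 / (1 - a) ^ 2)) := by
    intro φ t
    rw [hR]
    simp only
    have hx0 : 0 ≤ √(Real.sin φ) := Real.sqrt_nonneg _
    have hy0 : 0 ≤ √(Real.sin t) := Real.sqrt_nonneg _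
    have hx1 : √(Real.sin φ) ≤ 1 := by rw [Real.sqrt_le_one]; exact Real.sin_le_one _
    have hy1 : √(Real.sin t) ≤ 1 := by rw [Real.sqrt_le_one]; exact Real.sin_le_one _
    rw [abs_mul, abs_mul, abs_mul, abs_mul, abs_of_nonneg hx0, abs_of_nonneg hy0,
      abs_of_nonneg (by positivity : 0 ≤ 2 * a / (1 - a ^ 2)),
      abs_of_nonneg (by positivity : 0 ≤ a ^ N)]
    have h1 : |Gp a N (φ - t) - Gp a N (φ + t)| ≤ 6 / (1 - a) ^ 2 := by
      refine (abs_sub _ _).trans ?_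
      have g1 := abs_Gp_le ha0 ha1 N (φ - t)
      have g2 := abs_Gp_le ha0 ha1 N (φ + t)
      have : 6 / (1 - a) ^ 2 = 3 / (1 - a) ^ 2 + 3 / (1 - a) ^ 2 := by ring
      linarith
    calc √(Real.sin φ) * √(Real.sin t) * (2 * a / (1 - a ^ 2) *
        (a ^ N * |Gp a N (φ - t) - Gp a N (φ + t)|)) ≤
        1 * (2 * a / (1 - a ^ 2) * (a ^ N * (6 / (1 - a) ^ 2))) := by
          refine mul_le_mul (mul_le_one₀ hx1 hy0 hy1) ?_ (by positivity) zero_le_one
          gcongr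
      _ = _ := by ring
  have hinner : ∀ φ, ∫ t in (0 : ℝ)..π, g2 a φ t =
      4 * a / (1 - a ^ 2) * ∑ i ∈ range N, a ^ (i + 1) * (√(Real.sin φ) *
        Real.sin ((i + 1 : ℕ) * φ)) * SS (i + 1) + ∫ t in (0 : ℝ)..π, R φ t := by
    intro φ
    have h1 : ∀ t, g2 a φ t = ∑ i ∈ range N, (4 * a / (1 - a ^ 2) * (a ^ (i + 1) *
        (√(Real.sin φ) * Real.sin ((i + 1 : ℕ) * φ)))) * (√(Real.sin t) *
        Real.sin ((i + 1 : ℕ) * t)) + R φ t := by
      intro t
      rw [hR]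
      unfold g2
      rw [ups_diff ha0 ha1 φ t N]
      simp only
      rw [mul_add, mul_add, Finset.mul_sum, Finset.mul_sum]
      congr 1
      refine Finset.sum_congr rfl fun i _ => ?_
      ring
    have hc1 : Continuous fun t => ∑ i ∈ range N, (4 * a / (1 - a ^ 2) * (a ^ (i + 1) *
        (√(Real.sin φ) * Real.sin ((i + 1 : ℕ) * φ)))) * (√(Real.sin t) *
        Real.sin ((i + 1 : ℕ) * t)) := by fun_prop
    simp_rw [h1]
    rw [intervalIntegral.integral_add (hc1.intervalIntegrable _ _)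
      ((hRc φ).intervalIntegrable _ _), intervalIntegral.integral_finsetSum
      (fun i _ => Continuous.intervalIntegrable (by fun_prop) _ _)]
    congr 1
    rw [Finset.mul_sum]
    refine Finset.sum_congr rfl fun i _ => ?_
    rw [intervalIntegral.integral_const_mul]
    unfold SS
    ring
  have hRR : Continuous fun φ => ∫ t in (0 : ℝ)..π, R φ t :=
    intervalIntegral.continuous_parametric_intervalIntegral_of_continuous' hRc2 0 π
  have hmain : GG a - 4 * a / (1 - a ^ 2) * ∑ i ∈ range N, a ^ (i + 1) * SS (i + 1) ^ 2 =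
      ∫ φ in (0 : ℝ)..π, ∫ t in (0 : ℝ)..π, R φ t := by
    unfold GG
    simp_rw [hinner]
    rw [intervalIntegral.integral_add (Continuous.intervalIntegrable (by fun_prop) _ _)
      (hRR.intervalIntegrable _ _), intervalIntegral.integral_const_mul,
      intervalIntegral.integral_finsetSum
      (fun i _ => Continuous.intervalIntegrable (by fun_prop) _ _)]
    have : ∀ i ∈ range N, ∫ φ in (0 : ℝ)..π, a ^ (i + 1) * (√(Real.sin φ) *
        Real.sin ((i + 1 : ℕ) * φ)) * SS (i + 1) = a ^ (i + 1) * SS (i + 1) ^ 2 := by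
      intro i _
      rw [intervalIntegral.integral_mul_const, intervalIntegral.integral_const_mul]
      unfold SS
      ring
    rw [Finset.sum_congr rfl this]
    ring
  rw [hmain]
  have hi : ∀ φ, |∫ t in (0 : ℝ)..π, R φ t| ≤
      a ^ N * (2 * a / (1 - a ^ 2) * (6 / (1 - a) ^ 2)) * π := by
    intro φ
    have := intervalIntegral.norm_integral_le_of_norm_le_const (a := 0) (b := π)
      (f := fun t => R φ t) (C := a ^ N * (2 * a / (1 - a ^ 2) * (6 / (1 - a) ^ 2)))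
      (fun t _ => by rw [Real.norm_eq_abs]; exact hR1 φ t)
    rwa [Real.norm_eq_abs, sub_zero, abs_of_pos hpi] at this
  have := intervalIntegral.norm_integral_le_of_norm_le_const (a := 0) (b := π)
      (f := fun φ => ∫ t in (0 : ℝ)..π, R φ t)
      (C := a ^ N * (2 * a / (1 - a ^ 2) * (6 / (1 - a) ^ 2)) * π)
      (fun φ _ => by rw [Real.norm_eq_abs]; exact hi φ)
  rw [Real.norm_eq_abs, sub_zero, abs_of_pos hpi] at this
  refine this.trans_eq (by ring)

lemma GG_tendsto {a : ℝ} (ha0 : 0 ≤ a) (ha1 : a < 1) :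
    Tendsto (fun N => 4 * a / (1 - a ^ 2) * ∑ i ∈ range N, a ^ (i + 1) * SS (i + 1) ^ 2)
      atTop (𝓝 (GG a)) := by
  rw [tendsto_iff_norm_sub_tendsto_zero]
  have h1 : Tendsto (fun N : ℕ => a ^ N * (2 * a / (1 - a ^ 2) * (6 / (1 - a) ^ 2) * π * π))
      atTop (𝓝 0) := by
    have := (tendsto_pow_atTop_nhds_zero_of_lt_one ha0 ha1).mul_const
      (2 * a / (1 - a ^ 2) * (6 / (1 - a) ^ 2) * π * π)
    rwa [zero_mul] at this
  refine squeeze_zero (fun N => norm_nonneg _) (fun N => ?_) h1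
  rw [Real.norm_eq_abs, abs_sub_comm]
  exact GG_near ha0 ha1 N

end Pool.Agent.H79
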