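import Pool.Agent.H79.Const1

/-!
Recurrence and sums of the sine coefficients.
-/

open Real MeasureTheory intervalIntegral Finset Filter Topology

namespace Pool.Agent.H79

lemma SS_zero : SS 0 = 0 := by unfold SS; simp

/-- Recurrence. -/
lemma SS_rec (l : ℕ) : (2 * (l : ℝ) + 5) * SS (l + 2) = (2 * (l : ℝ) - 1) * SS l := by
  have hpi := Real.pi_pos
  set F : ℝ → ℝ := fun t => Real.sin t * √(Real.sin t) * Real.sin ((l + 1 : ℕ) * t) with hF
  have hFc : Continuous F := by rw [hF]; fun_prop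
  set F' : ℝ → ℝ := fun t => √(Real.sin t) * (3 / 2 * Real.cos t * Real.sin ((l + 1 : ℕ) * t) +
    (l + 1) * (Real.sin t * Real.cos ((l + 1 : ℕ) * t))) with hF'
  have hF'c : Continuous F' := by rw [hF']; fun_prop
  have hd : ∀ t ∈ Set.Ioo 0 π, HasDerivAt F (F' t) t := by
    intro t ht
    have hs : 0 < Real.sin t := Real.sin_pos_of_mem_Ioo ht
    have h1 : HasDerivAt (fun t => √(Real.sin t)) (Real.cos t / (2 * √(Real.sin t))) t :=
      (Real.hasDerivAt_sin t).sqrt hs.ne'
    have h2 : HasDerivAt (fun t => Real.sin ((l + 1 : ℕ) * t))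
        (Real.cos ((l + 1 : ℕ) * t) * ((l + 1 : ℕ) * 1)) t :=
      ((hasDerivAt_id t).const_mul ((l + 1 : ℕ) : ℝ)).sin
    have h3 := ((Real.hasDerivAt_sin t).mul h1).mul h2
    refine h3.congr_deriv ?_
    rw [hF']
    simp only [Pi.mul_apply]
    have h4 : √(Real.sin t) ^ 2 = Real.sin t := Real.sq_sqrt hs.le
    have h5 : 0 < √(Real.sin t) := Real.sqrt_pos.2 hs
    push_cast
    set x := √(Real.sin t)
    rw [← h4]
    field_simp
    ring
  have hint := intervalIntegral.integral_eq_sub_of_hasDerivAt_of_le hpi.le hFc.continuousOn hd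
    (hF'c.intervalIntegrable _ _)
  have hF0 : F 0 = 0 := by rw [hF]; simp
  have hFπ : F π = 0 := by rw [hF]; simp
  rw [hF0, hFπ, sub_zero] at hint
  have hF'2 : ∀ t, F' t = ((2 * l + 5) / 4) * (√(Real.sin t) * Real.sin ((l + 2 : ℕ) * t)) -
      ((2 * l - 1) / 4) * (√(Real.sin t) * Real.sin (l * t)) := by
    intro t
    rw [hF']
    simp only
    push_cast
    have e1 : ((l : ℝ) + 2) * t = (l + 1) * t + t := by ring
    have e2 : (l : ℝ) * t = (l + 1) * t - t := by ring
    rw [e1, e2, Real.sin_add, Real.sin_sub]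
    ring
  simp_rw [hF'2] at hint
  rw [intervalIntegral.integral_sub (Continuous.intervalIntegrable (by fun_prop) _ _)
    (Continuous.intervalIntegrable (by fun_prop) _ _), intervalIntegral.integral_const_mul,
    intervalIntegral.integral_const_mul] at hint
  unfold SS
  linarith

lemma SS_even (k : ℕ) : SS (2 * k) = 0 := by
  induction k with
  | zero => exact SS_zero
  | succ k ih =>
    have h := SS_rec (2 * k)
    rw [ih, mul_zero] at h
    have h2 : (2 * ((2 * k : ℕ) : ℝ) + 5) ≠ 0 := by positivity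
    have h3 : 2 * (k + 1) = 2 * k + 2 := by ring
    rw [h3]
    exact (mul_eq_zero.1 h).resolve_left h2

/-- Telescoping quantity. -/
noncomputable def Tl (l : ℕ) : ℝ := (2 * (l : ℝ) + 1) ^ 2 / 8 * SS l ^ 2

lemma Tl_sub (l : ℕ) : Tl l - Tl (l + 2) = l * SS l ^ 2 := by
  have h := SS_rec l
  unfold Tl
  push_cast
  have h2 : (2 * ((l : ℝ) + 2) + 1) ^ 2 * SS (l + 2) ^ 2 = ((2 * (l : ℝ) - 1) * SS l) ^ 2 := by
    rw [← h]; ring
  linear_combination (-1 / 8) * h2

lemma Tl_nonneg (l : ℕ) : 0 ≤ Tl l := by unfold Tl; positivity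

lemma Tl_even (k : ℕ) : Tl (2 * k) = 0 := by unfold Tl; rw [SS_even]; simp

lemma sum_l_SS (N : ℕ) : ∑ i ∈ range N, ((i : ℝ) + 1) * SS (i + 1) ^ 2 =
    Tl 1 - Tl (N + 1) - Tl (N + 2) := by
  induction N with
  | zero =>
    have := Tl_even 1
    simp only [mul_one] at this
    simp [this]
  | succ N ih =>
    rw [Finset.sum_range_succ, ih]
    have := Tl_sub (N + 1)
    push_cast at this
    have h2 : N + 1 + 2 = N + 3 := by ring
    rw [h2] at this
    have h3 : N + 1 + 1 = N + 2 := by ring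
    rw [h3]
    linarith

/-- Decay of the telescoping quantity. -/
lemma Tl_odd_le (k : ℕ) : Tl (2 * k + 1) ≤ Tl 1 / (4 * k + 1) := by
  induction k with
  | zero => simp
  | succ k ih =>
    have h := SS_rec (2 * k + 1)
    have h2 : Tl (2 * (k + 1) + 1) * (4 * k + 3) ^ 2 = Tl (2 * k + 1) * (4 * k + 1) ^ 2 := by
      unfold Tl
      have h3 : 2 * (k + 1) + 1 = 2 * k + 1 + 2 := by ring
      rw [h3]
      push_cast at h ⊢
      have h4 : (2 * (2 * (k : ℝ) + 1 + 2) + 1) ^ 2 * SS (2 * k + 1 + 2) ^ 2 =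
          ((2 * (2 * (k : ℝ) + 1) - 1) * SS (2 * k + 1)) ^ 2 := by rw [← h]; ring
      linear_combination ((4 * (k : ℝ) + 3) ^ 2 / 8) * h4
    have hk : (0 : ℝ) ≤ k := Nat.cast_nonneg k
    have h3 : 0 < (4 * (k : ℝ) + 3) ^ 2 := by positivity
    have h4 : Tl (2 * (k + 1) + 1) = Tl (2 * k + 1) * ((4 * k + 1) ^ 2 / (4 * k + 3) ^ 2) := by
      field_simp
      linarith
    rw [h4]
    have hT := Tl_nonneg 1
    calc Tl (2 * k + 1) * ((4 * (k : ℝ) + 1) ^ 2 / (4 * k + 3) ^ 2) ≤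
        Tl 1 / (4 * k + 1) * ((4 * (k : ℝ) + 1) ^ 2 / (4 * k + 3) ^ 2) :=
          mul_le_mul_of_nonneg_right ih (by positivity)
      _ = Tl 1 * ((4 * k + 1) / (4 * k + 3) ^ 2) := by field_simp
      _ ≤ Tl 1 * (1 / (4 * ((k + 1 : ℕ) : ℝ) + 1)) := by
          refine mul_le_mul_of_nonneg_left ?_ hT
          push_cast
          rw [div_le_div_iff₀ h3 (by positivity)]
          nlinarith
      _ = _ := by ring

lemma Tl_le (l : ℕ) : Tl l ≤ Tl 1 / (l : ℝ) ∨ l = 0 := by
  rcases Nat.even_or_odd' l with ⟨k, rfl | rfl⟩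
  · rcases Nat.eq_zero_or_pos k with rfl | hk
    · right; rfl
    · left
      rw [Tl_even]
      have := Tl_nonneg 1
      positivity
  · left
    refine (Tl_odd_le k).trans ?_
    refine div_le_div_of_nonneg_left (Tl_nonneg 1) (by positivity) ?_
    push_cast
    have : (0 : ℝ) ≤ k := Nat.cast_nonneg k
    linarith

lemma tendsto_Tl : Tendsto Tl atTop (𝓝 0) := by
  have h1 : Tendsto (fun l : ℕ => Tl 1 / (l : ℝ)) atTop (𝓝 0) :=
    tendsto_const_div_atTop_nhds_zero_nat _
  refine squeeze_zero' (Eventually.of_forall Tl_nonneg) ?_ h1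
  filter_upwards [eventually_ge_atTop 1] with l hl
  rcases Tl_le l with h | h
  · exact h
  · omega

/-- The weighted sum of squares. -/
lemma hasSum_l_SS : HasSum (fun i : ℕ => ((i : ℝ) + 1) * SS (i + 1) ^ 2) (Tl 1) := by
  rw [hasSum_iff_tendsto_nat_of_nonneg (fun i => by positivity)]
  simp_rw [sum_l_SS]
  have h1 := (tendsto_add_atTop_iff_nat 1).2 tendsto_Tl
  have h2 := (tendsto_add_atTop_iff_nat 2).2 tendsto_Tl
  have := ((tendsto_const_nhds (x := Tl 1)).sub h1).sub h2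
  simpa using this

end Pool.Agent.H79
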