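import Pool.Agent.H79.Const2

/-!
Parseval for the square root of sine.
-/

open Real MeasureTheory intervalIntegral Finset Filter Topology

namespace Pool.Agent.H79

/-- Odd extension of the square root of sine. -/
noncomputable def fo (x : ℝ) : ℝ := √(max (Real.sin x) 0) - √(max (-Real.sin x) 0)

@[fun_prop]
lemma continuous_fo : Continuous fo := by unfold fo; fun_prop

lemma fo_neg (x : ℝ) : fo (-x) = -fo x := by
  unfold fo; rw [Real.sin_neg, neg_neg]; ring

lemma fo_eq {x : ℝ} (hx : x ∈ Set.Icc 0 π) : fo x = √(Real.sin x) := by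
  have h := Real.sin_nonneg_of_mem_Icc hx
  unfold fo
  rw [max_eq_left h, max_eq_right (by linarith), Real.sqrt_zero, sub_zero]

lemma fourier_fo (m : ℤ) (hab : -π < π) :
    fourierCoeffOn hab (fun x => (fo x : ℂ)) m =
      -(Complex.I / π) * ((∫ t in (0 : ℝ)..π, √(Real.sin t) * Real.sin (m * t) : ℝ) : ℂ) := by
  have hpi := Real.pi_pos
  have hpi' : (π : ℂ) ≠ 0 := by exact_mod_cast hpi.ne'
  rw [fourierCoeffOn_eq_integral]
  have h1 : ∀ x : ℝ, fourier (-m) (x : AddCircle (π - -π)) • (fo x : ℂ) =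
      Complex.exp (-(Complex.I * (m * x))) * fo x := by
    intro x
    rw [fourier_coe_apply, smul_eq_mul]
    congr 2
    push_cast
    field_simp
    ring
  simp_rw [h1]
  set g : ℝ → ℂ := fun x => Complex.exp (-(Complex.I * (m * x))) * fo x with hg
  have hgc : Continuous g := by rw [hg]; fun_prop
  have h2 : ∫ x in (-π)..π, g x = (∫ x in (0 : ℝ)..π, g (-x)) + ∫ x in (0 : ℝ)..π, g x := by
    rw [intervalIntegral.integral_comp_neg, neg_zero,
      intervalIntegral.integral_add_adjacent_intervals (hgc.intervalIntegrable _ _)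
        (hgc.intervalIntegrable _ _)]
  have hgn : Continuous fun x => g (-x) := hgc.comp continuous_neg
  rw [h2, ← intervalIntegral.integral_add (hgn.intervalIntegrable _ _)
    (hgc.intervalIntegrable _ _)]
  have h3 : ∫ x in (0 : ℝ)..π, (g (-x) + g x) =
      ∫ x in (0 : ℝ)..π, ((-2 * Complex.I) * ((√(Real.sin x) * Real.sin (m * x) : ℝ) : ℂ)) := by
    refine intervalIntegral.integral_congr fun x hx => ?_
    rw [Set.uIcc_of_le hpi.le] at hx
    simp only [hg]
    rw [fo_neg, fo_eq hx]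
    push_cast
    have e1 : -(Complex.I * ((m : ℂ) * -(x : ℂ))) = ((m : ℂ) * x) * Complex.I := by ring
    have e2 : -(Complex.I * ((m : ℂ) * (x : ℂ))) = (-((m : ℂ) * x)) * Complex.I := by ring
    rw [e1, e2, Complex.exp_mul_I, Complex.exp_mul_I, Complex.cos_neg, Complex.sin_neg]
    ring
  rw [h3, intervalIntegral.integral_const_mul, intervalIntegral.integral_ofReal]
  rw [Complex.real_smul]
  push_cast
  field_simp
  ring

/-- Parseval. -/
lemma hasSum_SS : HasSum (fun i : ℕ => SS (i + 1) ^ 2) π := by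
  have hpi := Real.pi_pos
  have hab : -π < π := by linarith
  have hL2 : MemLp (fun x => (fo x : ℂ)) 2 (volume.restrict (Set.Ioc (-π) π)) := by
    refine MemLp.of_bound (by fun_prop) 2 (Eventually.of_forall fun x => ?_)
    rw [Complex.norm_real, Real.norm_eq_abs]
    unfold fo
    refine (abs_sub _ _).trans ?_
    rw [abs_of_nonneg (Real.sqrt_nonneg _), abs_of_nonneg (Real.sqrt_nonneg _)]
    have h1 : √(max (Real.sin x) 0) ≤ 1 := by
      rw [Real.sqrt_le_one]; exact max_le (Real.sin_le_one _) zero_le_one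
    have h2 : √(max (-Real.sin x) 0) ≤ 1 := by
      rw [Real.sqrt_le_one]; exact max_le (by linarith [Real.neg_one_le_sin x]) zero_le_one
    linarith
  have hP := hasSum_sq_fourierCoeffOn hab hL2
  have hval : (π - -π)⁻¹ • ∫ x in (-π)..π, ‖(fo x : ℂ)‖ ^ 2 = 2 / π := by
    have h1 : ∀ x, ‖(fo x : ℂ)‖ ^ 2 = fo x ^ 2 := by
      intro x
      rw [Complex.norm_real, Real.norm_eq_abs, sq_abs]
    simp_rw [h1]
    have hgc : Continuous fun x => fo x ^ 2 := by fun_prop
    have h2 : ∫ x in (-π)..π, fo x ^ 2 = (∫ x in (0 : ℝ)..π, fo (-x) ^ 2) +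
        ∫ x in (0 : ℝ)..π, fo x ^ 2 := by
      rw [intervalIntegral.integral_comp_neg (fun x => fo x ^ 2), neg_zero,
        intervalIntegral.integral_add_adjacent_intervals (hgc.intervalIntegrable _ _)
          (hgc.intervalIntegrable _ _)]
    have h3 : ∫ x in (0 : ℝ)..π, fo x ^ 2 = 2 := by
      rw [intervalIntegral.integral_congr (g := fun x => Real.sin x)]
      · rw [integral_sin]; simp; norm_num
      · intro x hx
        rw [Set.uIcc_of_le hpi.le] at hx
        simp only
        rw [fo_eq hx, Real.sq_sqrt (Real.sin_nonneg_of_mem_Icc hx)]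
    have h4 : ∫ x in (0 : ℝ)..π, fo (-x) ^ 2 = 2 := by
      simp_rw [fo_neg, neg_sq]
      exact h3
    rw [h2, h3, h4, smul_eq_mul]
    field_simp
    ring
  rw [hval] at hP
  have hnorm : ∀ m : ℤ, ‖fourierCoeffOn hab (fun x => (fo x : ℂ)) m‖ ^ 2 =
      (∫ t in (0 : ℝ)..π, √(Real.sin t) * Real.sin (m * t)) ^ 2 / π ^ 2 := by
    intro m
    rw [fourier_fo, norm_mul, norm_neg, norm_div, Complex.norm_I, Complex.norm_real,
      Complex.norm_real, Real.norm_eq_abs, Real.norm_eq_abs, mul_pow, sq_abs, div_pow, sq_abs]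
    ring
  simp_rw [hnorm] at hP
  have h5 := hP.nat_add_neg
  have h6 : ∀ k : ℕ, (∫ t in (0 : ℝ)..π, √(Real.sin t) * Real.sin ((k : ℤ) * t)) ^ 2 / π ^ 2 +
      (∫ t in (0 : ℝ)..π, √(Real.sin t) * Real.sin ((-(k : ℤ) : ℤ) * t)) ^ 2 / π ^ 2 =
      2 / π ^ 2 * SS k ^ 2 := by
    intro k
    have e1 : ∫ t in (0 : ℝ)..π, √(Real.sin t) * Real.sin ((k : ℤ) * t) = SS k := by
      unfold SS; push_cast; rfl
    have e2 : ∫ t in (0 : ℝ)..π, √(Real.sin t) * Real.sin ((-(k : ℤ) : ℤ) * t) = -SS k := by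
      unfold SS
      rw [← intervalIntegral.integral_neg]
      refine intervalIntegral.integral_congr fun t _ => ?_
      push_cast
      rw [neg_mul, Real.sin_neg]; ring
    rw [e1, e2]; ring
  simp_rw [h6] at h5
  have h7 : (∫ t in (0 : ℝ)..π, √(Real.sin t) * Real.sin ((0 : ℤ) * t)) = 0 := by simp
  rw [h7] at h5
  have h8 := h5.mul_left (π ^ 2 / 2)
  have h9 : HasSum (fun k : ℕ => SS k ^ 2) π := by
    have e3 : (fun i => π ^ 2 / 2 * (2 / π ^ 2 * SS i ^ 2)) = fun i => SS i ^ 2 := by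
      funext k; field_simp
    have e4 : π ^ 2 / 2 * (2 / π + 0 ^ 2 / π ^ 2) = π := by field_simp; ring
    rwa [e3, e4] at h8
  have h10 := (hasSum_nat_add_iff' 1).2 h9
  simpa [SS_zero] using h10

end Pool.Agent.H79
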