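import Pool.Agent.H79.Const3

/-!
The constant.
-/

open Real MeasureTheory intervalIntegral Finset Filter Topology

namespace Pool.Agent.H79

lemma GG_ge {a : ℝ} (ha0 : 0 ≤ a) (ha1 : a < 1) :
    4 * a / (1 - a ^ 2) * (π - (1 - a) * Tl 1) ≤ GG a := by
  have hb2 : 0 < 1 - a ^ 2 := by nlinarith
  have h1 := GG_tendsto ha0 ha1
  have h2 := hasSum_SS.tendsto_sum_nat
  have h3 := hasSum_l_SS.tendsto_sum_nat
  have h4 := (h2.sub (h3.const_mul (1 - a))).const_mul (4 * a / (1 - a ^ 2))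
  refine le_of_tendsto_of_tendsto' h4 h1 fun N => ?_
  refine mul_le_mul_of_nonneg_left ?_ (by positivity)
  rw [Finset.mul_sum, ← Finset.sum_sub_distrib]
  refine Finset.sum_le_sum fun i _ => ?_
  have h5 := one_add_mul_le_pow (a := a - 1) (by linarith) (i + 1)
  have h6 : 1 + (a - 1) = a := by ring
  rw [h6] at h5
  push_cast at h5
  have h7 := mul_le_mul_of_nonneg_right h5 (sq_nonneg (SS (i + 1)))
  linarith

lemma const_le {a : ℝ} (ha0 : 0 ≤ a) (ha1 : a < 1) :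
    1 / 2 * ((1 + a) / (1 - a)) - GG a / (2 * π) ≤ Tl 1 / π + (1 - a) / 2 := by
  have hpi := Real.pi_pos
  have hb : 0 < 1 - a := by linarith
  have hb2 : 0 < 1 - a ^ 2 := by nlinarith
  have hT := Tl_nonneg 1
  have h1 := div_le_div_of_nonneg_right (GG_ge ha0 ha1) (by positivity : 0 ≤ 2 * π)
  have h2 : 1 / 2 * ((1 + a) / (1 - a)) - 4 * a / (1 - a ^ 2) * (π - (1 - a) * Tl 1) / (2 * π) =
      (1 - a) / (2 * (1 + a)) + Tl 1 / π * (2 * a / (1 + a)) := by
    have e : 1 - a ^ 2 = (1 - a) * (1 + a) := by ring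
    have hb3 : 0 < 1 + a := by linarith
    rw [e]
    field_simp
    ring
  have h3 : (1 - a) / (2 * (1 + a)) ≤ (1 - a) / 2 :=
    div_le_div_of_nonneg_left hb.le (by norm_num) (by linarith)
  have h4 : 2 * a / (1 + a) ≤ 1 := by rw [div_le_one (by linarith)]; linarith
  have h5 : Tl 1 / π * (2 * a / (1 + a)) ≤ Tl 1 / π * 1 :=
    mul_le_mul_of_nonneg_left h4 (by positivity)
  linarith

lemma GG_le {a : ℝ} (ha0 : 0 ≤ a) (ha1 : a < 1) (N : ℕ) :
    GG a ≤ 4 * a / (1 - a ^ 2) * (π - (1 - a) * (a ^ N *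
      ∑ i ∈ range N, ((i : ℝ) + 1) * SS (i + 1) ^ 2)) := by
  have hb : 0 < 1 - a := by linarith
  have hb2 : 0 < 1 - a ^ 2 := by nlinarith
  have h1 := GG_tendsto ha0 ha1
  have h2 := hasSum_SS.tendsto_sum_nat
  have h4 := (h2.sub_const ((1 - a) * (a ^ N *
      ∑ i ∈ range N, ((i : ℝ) + 1) * SS (i + 1) ^ 2))).const_mul (4 * a / (1 - a ^ 2))
  refine le_of_tendsto_of_tendsto h1 h4 ?_
  filter_upwards [eventually_ge_atTop N] with M hM
  refine mul_le_mul_of_nonneg_left ?_ (by positivity)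
  have key : (1 - a) * (a ^ N * ∑ i ∈ range N, ((i : ℝ) + 1) * SS (i + 1) ^ 2) ≤
      ∑ i ∈ range M, (1 - a ^ (i + 1)) * SS (i + 1) ^ 2 := by
    calc (1 - a) * (a ^ N * ∑ i ∈ range N, ((i : ℝ) + 1) * SS (i + 1) ^ 2) ≤
        ∑ i ∈ range N, (1 - a ^ (i + 1)) * SS (i + 1) ^ 2 := by
          rw [Finset.mul_sum, Finset.mul_sum]
          refine Finset.sum_le_sum fun i hi => ?_
          have hiN : i + 1 ≤ N := mem_range.1 hi
          have g1 : (1 - a) * (a ^ N * ((i : ℝ) + 1)) ≤ 1 - a ^ (i + 1) := by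
            have g2 : (∑ j ∈ range (i + 1), a ^ j) * (1 - a) = 1 - a ^ (i + 1) := by
              have := geom_sum_mul a (i + 1)
              linarith
            rw [← g2, mul_comm (1 - a)]
            refine mul_le_mul_of_nonneg_right ?_ hb.le
            calc a ^ N * ((i : ℝ) + 1) = ∑ j ∈ range (i + 1), a ^ N := by
                  rw [Finset.sum_const, card_range, nsmul_eq_mul]; push_cast; ring
              _ ≤ _ := Finset.sum_le_sum fun j hj =>
                  pow_le_pow_of_le_one ha0 ha1.le (by have := mem_range.1 hj; omega)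
          have g3 := mul_le_mul_of_nonneg_right g1 (sq_nonneg (SS (i + 1)))
          calc _ = (1 - a) * (a ^ N * ((i : ℝ) + 1)) * SS (i + 1) ^ 2 := by ring
            _ ≤ _ := g3
      _ ≤ _ := by
          refine Finset.sum_le_sum_of_subset_of_nonneg (range_mono hM) fun i _ _ => ?_
          have : a ^ (i + 1) ≤ 1 := pow_le_one₀ ha0 ha1.le
          have h9 : 0 ≤ 1 - a ^ (i + 1) := by linarith
          positivity
  have h5 : ∑ i ∈ range M, (1 - a ^ (i + 1)) * SS (i + 1) ^ 2 =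
      ∑ i ∈ range M, SS (i + 1) ^ 2 - ∑ i ∈ range M, a ^ (i + 1) * SS (i + 1) ^ 2 := by
    rw [← Finset.sum_sub_distrib]
    exact Finset.sum_congr rfl fun i _ => by ring
  linarith

lemma const_ge {ε : ℝ} (hε : 0 < ε) : ∃ a₀ < 1, ∀ a, a₀ < a → a < 1 → 0 ≤ a →
    Tl 1 / π - ε ≤ 1 / 2 * ((1 + a) / (1 - a)) - GG a / (2 * π) := by
  have hpi := Real.pi_pos
  have h3 := hasSum_l_SS.tendsto_sum_nat
  obtain ⟨N, hN⟩ := (h3.eventually (Ioi_mem_nhds (by nlinarith : Tl 1 - π * ε < Tl 1))).exists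
  obtain ⟨Q, hQ⟩ : ∃ Q, Q = ∑ i ∈ range N, ((i : ℝ) + 1) * SS (i + 1) ^ 2 := ⟨_, rfl⟩
  have hQ1 : Tl 1 - π * ε < Q := by rw [hQ]; exact hN
  have hcont : ContinuousAt (fun a : ℝ => Q / π * a ^ N * (2 * a / (1 + a))) 1 := by
    refine ContinuousAt.mul (by fun_prop) (ContinuousAt.div (by fun_prop) (by fun_prop) ?_)
    norm_num
  have hval : Tl 1 / π - ε < Q / π * 1 ^ N * (2 * 1 / (1 + 1)) := by
    rw [one_pow]
    have : Tl 1 / π - ε = (Tl 1 - π * ε) / π := by field_simp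
    rw [this]
    have := div_lt_div_of_pos_right hQ1 hpi
    linarith
  have hev := hcont.eventually (Ioi_mem_nhds hval)
  rw [Metric.eventually_nhds_iff] at hev
  obtain ⟨ρ, hρ, hball⟩ := hev
  refine ⟨1 - ρ, by linarith, fun a ha1 ha2 ha0 => ?_⟩
  have h4 : Tl 1 / π - ε < Q / π * a ^ N * (2 * a / (1 + a)) := hball (by
    rw [Real.dist_eq, abs_lt]; constructor <;> linarith)
  have hb : 0 < 1 - a := by linarith
  have hb2 : 0 < 1 - a ^ 2 := by nlinarith
  have h5 := GG_le ha0 ha2 N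
  rw [← hQ] at h5
  have h1 := div_le_div_of_nonneg_right h5 (by positivity : 0 ≤ 2 * π)
  have h2 : 1 / 2 * ((1 + a) / (1 - a)) - 4 * a / (1 - a ^ 2) *
      (π - (1 - a) * (a ^ N * Q)) / (2 * π) =
      (1 - a) / (2 * (1 + a)) + Q / π * a ^ N * (2 * a / (1 + a)) := by
    have e : 1 - a ^ 2 = (1 - a) * (1 + a) := by ring
    have hb3 : 0 < 1 + a := by linarith
    rw [e]
    field_simp
    ring
  have h3 : 0 ≤ (1 - a) / (2 * (1 + a)) := by positivity
  linarith

lemma SS_one : SS 1 = 2 * √2 * (Real.Gamma (5 / 4) ^ 2 / Real.Gamma (5 / 2)) := by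
  have hpi := Real.pi_pos
  have h1 : SS 1 = ∫ u in (0 : ℝ)..1, 2 * √√(4 * (u * (1 - u))) := by
    have hsub := intervalIntegral.integral_comp_mul_deriv (a := 0) (b := π)
      (f := fun t => (1 - Real.cos t) / 2) (f' := fun t => Real.sin t / 2)
      (g := fun u => 2 * √√(4 * (u * (1 - u))))
      (fun t _ => by
        have := ((Real.hasDerivAt_cos t).const_sub 1).div_const 2
        simpa using this)
      (by fun_prop) (by fun_prop)
    have e0 : (1 - Real.cos 0) / 2 = 0 := by simp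
    have e1 : (1 - Real.cos π) / 2 = 1 := by simp
    simp only [e0, e1] at hsub
    rw [← hsub]
    unfold SS
    refine intervalIntegral.integral_congr fun t ht => ?_
    rw [Set.uIcc_of_le hpi.le] at ht
    have hs := Real.sin_nonneg_of_mem_Icc ht
    simp only [Function.comp_apply]
    have e2 : 4 * ((1 - Real.cos t) / 2 * (1 - (1 - Real.cos t) / 2)) = Real.sin t ^ 2 := by
      have := Real.sin_sq_add_cos_sq t
      linarith
    rw [e2, Real.sqrt_sq hs]
    push_cast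
    rw [one_mul]; ring
  have h2 : ∫ u in (0 : ℝ)..1, 2 * √√(4 * (u * (1 - u))) =
      2 * √2 * ∫ u in (0 : ℝ)..1, u ^ (1 / 4 : ℝ) * (1 - u) ^ (1 / 4 : ℝ) := by
    rw [← intervalIntegral.integral_const_mul]
    refine intervalIntegral.integral_congr fun u hu => ?_
    rw [Set.uIcc_of_le zero_le_one] at hu
    have hu0 := hu.1
    have hu1 : 0 ≤ 1 - u := by linarith [hu.2]
    have e1 : √(4 * (u * (1 - u))) = 2 * √(u * (1 - u)) := by
      rw [Real.sqrt_mul (by norm_num)]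
      congr 1
      rw [show (4 : ℝ) = 2 ^ 2 by norm_num]
      exact Real.sqrt_sq (by norm_num)
    have e2 : √√(u * (1 - u)) = u ^ (1 / 4 : ℝ) * (1 - u) ^ (1 / 4 : ℝ) := by
      rw [← Real.mul_rpow hu0 hu1, Real.sqrt_eq_rpow, Real.sqrt_eq_rpow,
        ← Real.rpow_mul (mul_nonneg hu0 hu1)]
      norm_num
    rw [e1, Real.sqrt_mul (by norm_num), e2]; ring
  have h3 : (∫ u in (0 : ℝ)..1, u ^ (1 / 4 : ℝ) * (1 - u) ^ (1 / 4 : ℝ)) =
      ProbabilityTheory.beta (5 / 4) (5 / 4) := by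
    rw [ProbabilityTheory.beta_eq_betaIntegralReal _ _ (by norm_num) (by norm_num)]
    unfold Complex.betaIntegral
    have e1 : ∫ x in (0 : ℝ)..1, (x : ℂ) ^ (((5 / 4 : ℝ) : ℂ) - 1) *
        (1 - (x : ℂ)) ^ (((5 / 4 : ℝ) : ℂ) - 1) =
        ∫ x in (0 : ℝ)..1, ((x ^ (1 / 4 : ℝ) * (1 - x) ^ (1 / 4 : ℝ) : ℝ) : ℂ) := by
      refine intervalIntegral.integral_congr fun u hu => ?_
      rw [Set.uIcc_of_le zero_le_one] at hu
      have hu0 := hu.1
      have hu1 : 0 ≤ 1 - u := by linarith [hu.2]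
      have e2 : (((5 / 4 : ℝ) : ℂ) - 1) = ((1 / 4 : ℝ) : ℂ) := by push_cast; norm_num
      rw [e2]
      push_cast
      rw [Complex.ofReal_cpow hu0, Complex.ofReal_cpow hu1]
      push_cast
      rfl
    rw [e1, intervalIntegral.integral_ofReal, Complex.ofReal_re]
  rw [h1, h2, h3]
  unfold ProbabilityTheory.beta
  have : (5 / 4 : ℝ) + 5 / 4 = 5 / 2 := by norm_num
  rw [this]; ring

/-- The constant in closed form. -/
lemma const_closed : Tl 1 / π = Real.Gamma (1 / 4) ^ 4 / (16 * π ^ 2) := by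
  have hpi := Real.pi_pos
  have h1 : Real.Gamma (5 / 4) = 1 / 4 * Real.Gamma (1 / 4) := by
    have := Real.Gamma_add_one (s := 1 / 4) (by norm_num)
    rw [← this]; norm_num
  have h2 : Real.Gamma (5 / 2) = 3 / 4 * √π := by
    have g1 := Real.Gamma_add_one (s := 1 / 2) (by norm_num)
    have g2 := Real.Gamma_add_one (s := 3 / 2) (by norm_num)
    have e1 : (3 / 2 : ℝ) + 1 = 5 / 2 := by norm_num
    have e2 : (1 / 2 : ℝ) + 1 = 3 / 2 := by norm_num
    rw [e1] at g2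
    rw [e2] at g1
    rw [g2, g1, Real.Gamma_one_half_eq]; ring
  unfold Tl
  rw [SS_one, h1, h2]
  have h3 : √π ^ 2 = π := Real.sq_sqrt hpi.le
  have h4 : √(2 : ℝ) ^ 2 = 2 := Real.sq_sqrt (by norm_num)
  have h5 : 0 < √π := Real.sqrt_pos.2 hpi
  push_cast
  have h6 : (2 * √2 * ((1 / 4 * Real.Gamma (1 / 4)) ^ 2 / (3 / 4 * √π))) ^ 2 =
      4 * √2 ^ 2 * ((1 / 4 * Real.Gamma (1 / 4)) ^ 4 / (9 / 16 * √π ^ 2)) := by
    field_simp
    ring
  rw [h6, h3, h4]
  field_simp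
  ring

end Pool.Agent.H79
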