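import Pool.Agent.H79.Osc

/-!
Estimates for the Dirichlet type kernel `D`.
-/

open Real MeasureTheory intervalIntegral Finset

namespace Pool.Agent.H79

variable {n : ℕ}

lemma S_closed (n : ℕ) (t : ℝ) :
    2 * Real.sin (t / 2) * (∑ j ∈ range n, Real.cos (j * t) - 1 / 2 + Real.cos (n * t) / 2) =
      Real.sin (n * t) * Real.cos (t / 2) := by
  induction n with
  | zero => simp
  | succ m ih =>
    rw [Finset.sum_range_succ]
    have e1 : 2 * Real.sin (t / 2) * (∑ j ∈ range m, Real.cos (j * t) + Real.cos (m * t) - 1 / 2 +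
        Real.cos ((m + 1 : ℕ) * t) / 2) =
        2 * Real.sin (t / 2) * (∑ j ∈ range m, Real.cos (j * t) - 1 / 2 + Real.cos (m * t) / 2) +
        Real.sin (t / 2) * (Real.cos (m * t) + Real.cos ((m + 1 : ℕ) * t)) := by ring
    rw [e1, ih]
    push_cast
    have e2 : ((m : ℝ) + 1) * t = m * t + 2 * (t / 2) := by ring
    rw [e2, Real.sin_add, Real.cos_add, Real.sin_two_mul, Real.cos_two_mul]
    have h := Real.sin_sq_add_cos_sq (t / 2)
    have h2 : Real.sin (t / 2) ^ 2 = 1 - Real.cos (t / 2) ^ 2 := by linarith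
    linear_combination (-2 * Real.cos (t / 2) * Real.sin (m * t)) * h

lemma D_closed (hn : 1 ≤ n) (t : ℝ) :
    2 * n * Real.sin (t / 2) * D n t = Real.sin (n * t) * Real.cos (t / 2) := by
  rw [← S_closed]
  unfold D
  have : (n : ℝ) ≠ 0 := by positivity
  field_simp

lemma abs_D_le_one (hn : 1 ≤ n) (t : ℝ) : |D n t| ≤ 1 := by
  unfold D
  have hn' : (0 : ℝ) < n := by exact_mod_cast hn
  rw [abs_mul, abs_of_pos (by positivity : (0 : ℝ) < 1 / n), ← le_div_iff₀' (by positivity)]
  obtain ⟨m, rfl⟩ := Nat.exists_eq_succ_of_ne_zero (by omega : n ≠ 0)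
  simp only [Nat.succ_eq_add_one] at *
  rw [Finset.sum_range_succ']
  have h1 : |∑ j ∈ range m, Real.cos ((j + 1 : ℕ) * t)| ≤ m := by
    refine (Finset.abs_sum_le_sum_abs _ _).trans ?_
    calc ∑ j ∈ range m, |Real.cos ((j + 1 : ℕ) * t)| ≤ ∑ j ∈ range m, (1 : ℝ) :=
          Finset.sum_le_sum fun j _ => Real.abs_cos_le_one _
      _ = m := by simp
  have h2 := Real.abs_cos_le_one ((m + 1 : ℕ) * t)
  have h3 : Real.cos (((0 : ℕ) : ℝ) * t) = 1 := by simp
  rw [h3]
  rw [abs_le] at h1 h2 ⊢
  push_cast at *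
  have h4 : 1 / (1 / ((m : ℝ) + 1)) = m + 1 := by field_simp
  rw [h4]
  constructor <;> linarith [h1.1, h1.2, h2.1, h2.2]

lemma D_neg (t : ℝ) : D n (-t) = D n t := by
  unfold D; simp

lemma D_periodic (n : ℕ) : Function.Periodic (D n) (2 * π) := by
  intro t
  unfold D
  have h : ∀ j : ℕ, Real.cos (j * (t + 2 * π)) = Real.cos (j * t) := by
    intro j
    rw [mul_add, Real.cos_add_nat_mul_two_pi]
  simp_rw [h]

lemma mul_cos_le_sin {x : ℝ} (h0 : 0 ≤ x) (h1 : x ≤ π / 2) : x * Real.cos x ≤ Real.sin x := by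
  rcases eq_or_lt_of_le h1 with h | h
  · subst h; simp
  · have hc : 0 < Real.cos x := Real.cos_pos_of_mem_Ioo ⟨by linarith [Real.pi_pos], h⟩
    have := Real.le_tan h0 h
    rw [Real.tan_eq_sin_div_cos, le_div_iff₀ hc] at this
    exact this

lemma D_mul_le (hn : 1 ≤ n) {u : ℝ} (h0 : 0 ≤ u) (h1 : u ≤ π) : n * |D n u| * u ≤ 1 := by
  have hcl := D_closed hn u
  have hn' : (0 : ℝ) < n := by exact_mod_cast hn
  have hs : 0 ≤ Real.sin (u / 2) := Real.sin_nonneg_of_nonneg_of_le_pi (by linarith) (by linarith)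
  have hc : 0 ≤ Real.cos (u / 2) := Real.cos_nonneg_of_mem_Icc ⟨by linarith, by linarith⟩
  have habs : 2 * n * Real.sin (u / 2) * |D n u| = |Real.sin (n * u)| * Real.cos (u / 2) := by
    have h := congrArg (fun z : ℝ => |z|) hcl
    simp only [abs_mul, Nat.abs_cast] at h
    rw [abs_of_nonneg hs, abs_of_nonneg hc, abs_of_pos (by norm_num : (0:ℝ) < 2)] at h
    exact h
  have hm := mul_cos_le_sin (x := u / 2) (by linarith) (by linarith)
  have hs1 := Real.abs_sin_le_one (n * u)
  rcases eq_or_lt_of_le hc with h | h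
  · have hs' : Real.sin (u / 2) ≠ 0 := by
      intro h2
      have := Real.sin_sq_add_cos_sq (u / 2)
      rw [h2, ← h] at this
      norm_num at this
    have hD : |D n u| = 0 := by
      rw [← h, mul_zero] at habs
      have h3 : 2 * (n : ℝ) * Real.sin (u / 2) ≠ 0 := by positivity
      exact (mul_eq_zero.1 habs).resolve_left h3
    rw [hD]; simp
  · have h4 : n * |D n u| * (u * Real.cos (u / 2)) ≤ Real.cos (u / 2) := by
      calc n * |D n u| * (u * Real.cos (u / 2)) = 2 * n * |D n u| * (u / 2 * Real.cos (u / 2)) := by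
            ring
        _ ≤ 2 * n * |D n u| * Real.sin (u / 2) := by gcongr
        _ = |Real.sin (n * u)| * Real.cos (u / 2) := by rw [← habs]; ring
        _ ≤ 1 * Real.cos (u / 2) := by gcongr
        _ = Real.cos (u / 2) := one_mul _
    have h5 : (n * |D n u| * u) * Real.cos (u / 2) ≤ 1 * Real.cos (u / 2) := by
      rw [one_mul]; calc _ = _ := by ring
        _ ≤ _ := h4
    exact le_of_mul_le_mul_right h5 h

lemma integral_cos_mul_cos' (i j : ℕ) :
    ∫ t in (0 : ℝ)..π, Real.cos (i * t) * Real.cos (j * t) =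
      if i = j then (if i = 0 then π else π / 2) else 0 := by
  have h1 : ∀ t : ℝ, Real.cos (i * t) * Real.cos (j * t) =
      (Real.cos (((i : ℤ) - j : ℤ) * t) + Real.cos (((i : ℤ) + j : ℤ) * t)) / 2 := by
    intro t
    push_cast
    have e1 : ((i : ℝ) - j) * t = i * t - j * t := by ring
    have e2 : ((i : ℝ) + j) * t = i * t + j * t := by ring
    rw [e1, e2, Real.cos_sub, Real.cos_add]; ring
  simp_rw [h1]
  rw [intervalIntegral.integral_div, intervalIntegral.integral_add
    (Continuous.intervalIntegrable (by fun_prop) _ _)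
    (Continuous.intervalIntegrable (by fun_prop) _ _)]
  split_ifs with h h2
  · subst h; subst h2; simp
  · subst h
    rw [integral_cos_int (m := (i : ℤ) + i) (by omega)]
    simp
  · rw [integral_cos_int (by omega), integral_cos_int (by omega)]; simp

lemma integral_cos_sum_sq (w : ℕ → ℝ) (N : ℕ) :
    ∫ t in (0 : ℝ)..π, (∑ j ∈ range N, w j * Real.cos (j * t)) ^ 2 =
      ∑ j ∈ range N, w j ^ 2 * (if j = 0 then π else π / 2) := by
  have h1 : ∀ t : ℝ, (∑ j ∈ range N, w j * Real.cos (j * t)) ^ 2 =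
      ∑ i ∈ range N, ∑ j ∈ range N, (w i * w j) * (Real.cos (i * t) * Real.cos (j * t)) := by
    intro t
    rw [sq, Finset.sum_mul_sum]
    exact Finset.sum_congr rfl fun i _ => Finset.sum_congr rfl fun j _ => by ring
  simp_rw [h1]
  rw [intervalIntegral.integral_finsetSum
      (fun i _ => Continuous.intervalIntegrable (by fun_prop) _ _)]
  refine Finset.sum_congr rfl fun i hi => ?_
  rw [intervalIntegral.integral_finsetSum
      (fun i _ => Continuous.intervalIntegrable (by fun_prop) _ _)]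
  simp_rw [intervalIntegral.integral_const_mul, integral_cos_mul_cos', mul_ite, mul_zero]
  rw [Finset.sum_ite_eq (range N) i]
  simp only [hi, if_true]
  split_ifs <;> ring

lemma D_eq_sum (hn : 1 ≤ n) (t : ℝ) :
    D n t = ∑ j ∈ range (n + 1), ((1 / n) * (1 - (if j = 0 then 1 / 2 else 0) -
      (if j = n then 1 / 2 else 0))) * Real.cos (j * t) := by
  unfold D
  have e1 : ∀ j : ℕ, ((1 / (n : ℝ)) * (1 - (if j = 0 then 1 / 2 else 0) -
      (if j = n then 1 / 2 else 0))) * Real.cos (j * t) = (1 / n) * (Real.cos (j * t) -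
      (if j = 0 then 1 / 2 * Real.cos (j * t) else 0) -
      (if j = n then 1 / 2 * Real.cos (j * t) else 0)) := by
    intro j; split_ifs <;> ring
  simp_rw [e1]
  rw [← Finset.mul_sum, Finset.sum_sub_distrib, Finset.sum_sub_distrib, Finset.sum_ite_eq',
    Finset.sum_ite_eq', Finset.sum_range_succ]
  simp
  left; ring

lemma integral_D_sq_zero_pi (hn : 1 ≤ n) :
    ∫ t in (0 : ℝ)..π, D n t ^ 2 = π / (2 * n ^ 2) * (n - 1 / 4) := by
  have hn' : (n : ℝ) ≠ 0 := by positivity
  have h1 : ∀ t, D n t ^ 2 = (∑ j ∈ range (n + 1), ((1 / n) * (1 - (if j = 0 then 1 / 2 else 0) -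
      (if j = n then 1 / 2 else 0))) * Real.cos (j * t)) ^ 2 := fun t => by rw [← D_eq_sum hn t]
  simp_rw [h1]
  rw [integral_cos_sum_sq]
  have h2 : ∀ j ∈ range (n + 1), ((1 / (n : ℝ)) * (1 - (if j = 0 then 1 / 2 else 0) -
      (if j = n then 1 / 2 else 0))) ^ 2 * (if j = 0 then π else π / 2) =
      (1 / n ^ 2) * (π / 2) * (1 - (if j = 0 then 1 / 2 else 0) -
      (if j = n then 3 / 4 else 0)) := by
    intro j _
    have : ¬ ((0 : ℕ) = n) := by omega
    split_ifs with h3 h4 h5
    · omega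
    · ring
    · ring
    · ring
  rw [Finset.sum_congr rfl h2, ← Finset.mul_sum, Finset.sum_sub_distrib, Finset.sum_sub_distrib,
    Finset.sum_ite_eq', Finset.sum_ite_eq']
  simp
  field_simp
  ring

lemma integral_D_sq (hn : 1 ≤ n) :
    ∫ t in (-π)..π, D n t ^ 2 = π / n ^ 2 * (n - 1 / 4) := by
  rw [← intervalIntegral.integral_add_adjacent_intervals (b := 0)
    (Continuous.intervalIntegrable (by fun_prop) _ _)
    (Continuous.intervalIntegrable (by fun_prop) _ _)]
  have h1 : ∫ t in (-π)..0, D n t ^ 2 = ∫ t in (0 : ℝ)..π, D n t ^ 2 := by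
    have := intervalIntegral.integral_comp_neg (a := 0) (b := π) (fun t => D n t ^ 2)
    simp only [D_neg, neg_zero] at this
    exact this.symm
  rw [h1, integral_D_sq_zero_pi hn]
  ring

/-- first moment bound with an even weight `v`. -/
lemma moment_aux (hn : 1 ≤ n) (v : ℝ → ℝ) (hv : Continuous v) (hev : ∀ t, v (-t) = v t)
    (h0 : ∀ t, 0 ≤ v t) {φ : ℝ} (hφ0 : 0 ≤ φ) (hφ1 : φ ≤ π / 2) :
    ∫ u in (-φ)..(π - φ), v u * D n u ^ 2 * u ≤ ∫ u in φ..π, v u * D n u ^ 2 * u := by
  have hc : Continuous fun u => v u * D n u ^ 2 * u := by fun_prop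
  rw [← intervalIntegral.integral_add_adjacent_intervals (b := φ)
    (hc.intervalIntegrable _ _) (hc.intervalIntegrable _ _)]
  have h1 : ∫ u in (-φ)..φ, v u * D n u ^ 2 * u = 0 := by
    have := intervalIntegral.integral_comp_neg (a := -φ) (b := φ) (fun u => v u * D n u ^ 2 * u)
    simp only [D_neg, neg_neg, hev, mul_neg, intervalIntegral.integral_neg] at this
    linarith
  rw [h1, zero_add, ← intervalIntegral.integral_add_adjacent_intervals (a := φ) (b := π - φ)
    (c := π) (hc.intervalIntegrable _ _) (hc.intervalIntegrable _ _)]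
  have h2 : 0 ≤ ∫ u in (π - φ)..π, v u * D n u ^ 2 * u := by
    refine intervalIntegral.integral_nonneg (by linarith) fun u hu => ?_
    have : 0 ≤ u := by have := hu.1; linarith
    have := h0 u
    positivity
  linarith

/-- The logarithmic weight. -/
noncomputable def L (n : ℕ) (φ : ℝ) : ℝ := Real.log (π / max (min φ (π - φ)) (1 / n))

lemma moment_bound (hn : 1 ≤ n) (v : ℝ → ℝ) (hv : Continuous v)
    (h0 : ∀ t, 0 ≤ v t) (h1 : ∀ t, v t ≤ 1) {φ : ℝ} (hφ0 : 0 ≤ φ) (hφ1 : φ ≤ π / 2) :
    ∫ u in φ..π, v u * D n u ^ 2 * u ≤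
      (1 / n ^ 2) * (1 / 2 + Real.log (π / max φ (1 / n))) := by
  have hn' : (1 : ℝ) ≤ n := by exact_mod_cast hn
  have hc : Continuous fun u => v u * D n u ^ 2 * u := by fun_prop
  set c := max φ (1 / (n : ℝ)) with hcdef
  have hcpos : 0 < c := lt_of_lt_of_le (by positivity) (le_max_right _ _)
  have hcpi : c ≤ π := by
    refine max_le (by linarith [Real.pi_pos]) ?_
    have : 1 / (n : ℝ) ≤ 1 := by rw [div_le_one (by positivity)]; exact hn'
    linarith [Real.pi_gt_three]
  have hφc : φ ≤ c := le_max_left _ _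
  rw [← intervalIntegral.integral_add_adjacent_intervals (b := c)
    (hc.intervalIntegrable _ _) (hc.intervalIntegrable _ _)]
  have e1 : ∫ u in φ..c, v u * D n u ^ 2 * u ≤ (1 / n ^ 2) * (1 / 2) := by
    have h2 : ∫ u in φ..c, v u * D n u ^ 2 * u ≤ ∫ u in φ..c, u := by
      refine intervalIntegral.integral_mono_on hφc (hc.intervalIntegrable _ _)
        (continuous_id.intervalIntegrable _ _) fun u hu => ?_
      have hu0 : 0 ≤ u := hφ0.trans hu.1
      have h3 : D n u ^ 2 ≤ 1 := by
        rw [← sq_abs]; have := abs_D_le_one hn u; have := abs_nonneg (D n u); nlinarith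
      have h4 : v u * D n u ^ 2 ≤ 1 := by
        have := h0 u; have := h1 u; have := sq_nonneg (D n u); nlinarith
      nlinarith
    rw [integral_id] at h2
    refine h2.trans ?_
    rcases le_total φ (1 / (n : ℝ)) with h | h
    · have : c = 1 / n := max_eq_right h
      rw [this]
      have : (1 / (n : ℝ)) ^ 2 = 1 / n ^ 2 := by rw [div_pow, one_pow]
      rw [this]
      have := sq_nonneg φ
      linarith
    · have : c = φ := max_eq_left h
      rw [this]
      have : 0 ≤ (1 / (n : ℝ) ^ 2) * (1 / 2) := by positivity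
      linarith
  have e2 : ∫ u in c..π, v u * D n u ^ 2 * u ≤ (1 / n ^ 2) * Real.log (π / c) := by
    have h2 : ∫ u in c..π, v u * D n u ^ 2 * u ≤ ∫ u in c..π, (1 / n ^ 2) * u⁻¹ := by
      refine intervalIntegral.integral_mono_on hcpi (hc.intervalIntegrable _ _)
        ?_ fun u hu => ?_
      · refine ContinuousOn.intervalIntegrable ?_
        rw [Set.uIcc_of_le hcpi]
        refine ContinuousOn.mul continuousOn_const (continuousOn_id.inv₀ fun u hu => ?_)
        have := hu.1
        exact (lt_of_lt_of_le hcpos this).ne'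
      · have hu0 : 0 < u := lt_of_lt_of_le hcpos hu.1
        have h3 := D_mul_le hn hu0.le hu.2
        have h4 : (n * |D n u| * u) ^ 2 ≤ 1 := by
          have : 0 ≤ n * |D n u| * u := by positivity
          nlinarith
        have h5 : D n u ^ 2 * u ≤ (1 / n ^ 2) * u⁻¹ := by
          rw [mul_pow, mul_pow, sq_abs] at h4
          have h6 : (1 / (n : ℝ) ^ 2) * u⁻¹ = 1 / (n ^ 2 * u) := by
            field_simp
          rw [h6, le_div_iff₀ (by positivity)]
          calc D n u ^ 2 * u * (n ^ 2 * u) = n ^ 2 * D n u ^ 2 * u ^ 2 := by ring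
            _ ≤ 1 := h4
        have h6 : v u * D n u ^ 2 * u ≤ D n u ^ 2 * u := by
          have := h1 u
          have h7 : 0 ≤ D n u ^ 2 * u := by positivity
          calc v u * D n u ^ 2 * u = v u * (D n u ^ 2 * u) := by ring
            _ ≤ 1 * (D n u ^ 2 * u) := by gcongr
            _ = _ := one_mul _
        exact h6.trans h5
    rw [intervalIntegral.integral_const_mul, integral_inv_of_pos hcpos (by positivity)] at h2
    exact h2
  calc _ ≤ (1 / (n : ℝ) ^ 2) * (1 / 2) + (1 / n ^ 2) * Real.log (π / c) := add_le_add e1 e2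
    _ = _ := by ring

lemma sin_le_tangent {θ φ : ℝ} (hθ : θ ∈ Set.Icc 0 π) (hφ : φ ∈ Set.Icc 0 π) :
    Real.sin θ ≤ Real.sin φ + (θ - φ) * Real.cos φ := by
  have hc := strictConcaveOn_sin_Icc.concaveOn
  rcases lt_trichotomy θ φ with h | h | h
  · have := hc.le_slope_of_hasDerivAt hθ hφ h (Real.hasDerivAt_sin φ)
    rw [slope_def_field, le_div_iff₀ (by linarith)] at this
    linarith
  · subst h; simp
  · have := hc.slope_le_of_hasDerivAt hφ hθ h (Real.hasDerivAt_sin φ)
    rw [slope_def_field, div_le_iff₀ (by linarith)] at this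
    linarith

/-- The weighted second moment of the kernel, with an even periodic weight `v`. -/
lemma weighted_norm_bound (v : ℝ → ℝ) (hv : Continuous v) (hev : ∀ t, v (-t) = v t)
    (hper : Function.Periodic v (2 * π)) (h0 : ∀ t, 0 ≤ v t) {φ : ℝ} (hφ : φ ∈ Set.Icc 0 π) :
    ∫ t in (0 : ℝ)..π, v (φ - t) * D n (φ - t) ^ 2 * Real.sin t ≤
      (∫ u in (-π)..π, v u * D n u ^ 2) * Real.sin φ +
        |∫ u in (-(min φ (π - φ)))..(π - min φ (π - φ)), v u * D n u ^ 2 * u| := by
  have hc : Continuous fun u => v u * D n u ^ 2 := by fun_prop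
  have hsin : 0 ≤ Real.sin φ := Real.sin_nonneg_of_mem_Icc hφ
  have h1 : ∫ t in (0 : ℝ)..π, v (φ - t) * D n (φ - t) ^ 2 * Real.sin t ≤
      ∫ t in (0 : ℝ)..π, v (φ - t) * D n (φ - t) ^ 2 * (Real.sin φ + (t - φ) * Real.cos φ) := by
    refine intervalIntegral.integral_mono_on Real.pi_pos.le
      (Continuous.intervalIntegrable (by fun_prop) _ _)
      (Continuous.intervalIntegrable (by fun_prop) _ _) fun t ht => ?_
    have := h0 (φ - t)
    have h2 := sin_le_tangent ht hφ
    gcongr
  refine h1.trans ?_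
  have h2 : ∀ t, v (φ - t) * D n (φ - t) ^ 2 * (Real.sin φ + (t - φ) * Real.cos φ) =
      Real.sin φ * (v (φ - t) * D n (φ - t) ^ 2) - Real.cos φ *
        (v (φ - t) * D n (φ - t) ^ 2 * (φ - t)) := by
    intro t; ring
  simp_rw [h2]
  rw [intervalIntegral.integral_sub
    (Continuous.intervalIntegrable (by fun_prop) _ _)
    (Continuous.intervalIntegrable (by fun_prop) _ _),
    intervalIntegral.integral_const_mul, intervalIntegral.integral_const_mul,
    intervalIntegral.integral_comp_sub_left (fun u => v u * D n u ^ 2) φ,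
    intervalIntegral.integral_comp_sub_left (fun u => v u * D n u ^ 2 * u) φ, sub_zero]
  have h3 : ∫ u in (φ - π)..φ, v u * D n u ^ 2 ≤ ∫ u in (-π)..π, v u * D n u ^ 2 := by
    have hp : Function.Periodic (fun u => v u * D n u ^ 2) (2 * π) := by
      intro u
      simp only [hper u, D_periodic n u]
    have h4 := hp.intervalIntegral_add_eq (-π) (φ - π)
    have e1 : -π + 2 * π = π := by ring
    have e2 : φ - π + 2 * π = φ + π := by ring
    rw [e1, e2] at h4
    rw [h4, ← intervalIntegral.integral_add_adjacent_intervals (a := φ - π) (b := φ)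
      (c := φ + π) (hc.intervalIntegrable _ _) (hc.intervalIntegrable _ _)]
    have : 0 ≤ ∫ u in φ..(φ + π), v u * D n u ^ 2 :=
      intervalIntegral.integral_nonneg (by linarith [Real.pi_pos]) fun u _ => by
        have := h0 u; positivity
    linarith
  have h5 : -(Real.cos φ * ∫ u in (φ - π)..φ, v u * D n u ^ 2 * u) ≤
      |∫ u in (-(min φ (π - φ)))..(π - min φ (π - φ)), v u * D n u ^ 2 * u| := by
    have h6 : |∫ u in (φ - π)..φ, v u * D n u ^ 2 * u| =
        |∫ u in (-(min φ (π - φ)))..(π - min φ (π - φ)), v u * D n u ^ 2 * u| := by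
      rcases le_total φ (π - φ) with h | h
      · rw [min_eq_left h]
        have := intervalIntegral.integral_comp_neg (a := φ - π) (b := φ)
          (fun u => v u * D n u ^ 2 * u)
        simp only [D_neg, hev, mul_neg, intervalIntegral.integral_neg, neg_sub] at this
        rw [← this, abs_neg]
      · rw [min_eq_right h]
        congr 2 <;> ring
    rw [← h6]
    calc -(Real.cos φ * ∫ u in (φ - π)..φ, v u * D n u ^ 2 * u) ≤
        |Real.cos φ * ∫ u in (φ - π)..φ, v u * D n u ^ 2 * u| := neg_le_abs _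
      _ = |Real.cos φ| * |∫ u in (φ - π)..φ, v u * D n u ^ 2 * u| := abs_mul _ _
      _ ≤ 1 * |∫ u in (φ - π)..φ, v u * D n u ^ 2 * u| := by
        gcongr; exact Real.abs_cos_le_one φ
      _ = _ := one_mul _
  nlinarith [mul_le_mul_of_nonneg_left h3 hsin]

end Pool.Agent.H79
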