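import Pool.Agent.H79.Near3

/-!
Equidistribution of the nodes.
-/

open Real MeasureTheory intervalIntegral Finset Filter Topology

namespace Pool.Agent.H79

variable {n : ℕ}

lemma Aker_zero_eq (hn : 1 ≤ n) (φ t : ℝ) : Aker 0 n φ t =
    (D n (φ - t) + D n (φ + t)) / 2 -
      1 / (4 * n) * (Real.cos (n * (φ - t)) + Real.cos (n * (φ + t))) := by
  unfold Aker D
  have hn' : (n : ℝ) ≠ 0 := by positivity
  have e1 : ∑ j ∈ range n, (1 - (0 : ℝ) ^ (n - j)) * (Real.cos (j * φ) * Real.cos (j * t)) =
      (∑ j ∈ range n, Real.cos (j * (φ - t)) + ∑ j ∈ range n, Real.cos (j * (φ + t))) / 2 := by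
    rw [← Finset.sum_add_distrib, Finset.sum_div]
    refine Finset.sum_congr rfl fun j hj => ?_
    have := mem_range.1 hj
    rw [zero_pow (by omega), mul_sub, mul_add, Real.cos_sub, Real.cos_add]; ring
  rw [e1, zero_pow (by omega)]
  generalize ∑ j ∈ range n, Real.cos (j * (φ - t)) = A
  generalize ∑ j ∈ range n, Real.cos (j * (φ + t)) = B
  field_simp
  ring

lemma Bker_zero_eq (hn : 1 ≤ n) (φ t : ℝ) : Bker 0 n φ t =
    (D n (φ - t) - D n (φ + t)) / 2 +
      1 / (4 * n) * (Real.cos (n * (φ - t)) - Real.cos (n * (φ + t))) := by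
  have h1 := F0_eq hn φ t
  have h2 := Aker_zero_eq hn φ t
  unfold F0 at h1
  have hn' : (n : ℝ) ≠ 0 := by positivity
  have : Bker 0 n φ t = D n (φ - t) - 1 / (2 * n) * Real.cos (n * (φ + t)) - Aker 0 n φ t := by
    linarith
  rw [this, h2]
  field_simp
  ring

lemma abs_D_mul_sin (hn : 1 ≤ n) {φ t : ℝ} (hφ : φ ∈ Set.Icc 0 π) (ht : t ∈ Set.Icc 0 π) :
    |D n (φ + t)| * Real.sin t ≤ 1 / n := by
  have hn' : (0 : ℝ) < n := by exact_mod_cast hn
  have h1 := sin_le_two_sin hφ ht
  have h2 := D_closed hn (φ + t)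
  have hs0 := Real.sin_nonneg_of_mem_Icc ht
  have hs : 0 ≤ Real.sin ((φ + t) / 2) := by linarith
  have h3 : 2 * n * Real.sin ((φ + t) / 2) * |D n (φ + t)| ≤ 1 := by
    have h := congrArg (fun z : ℝ => |z|) h2
    simp only [abs_mul, Nat.abs_cast] at h
    rw [abs_of_nonneg hs, abs_of_pos (by norm_num : (0:ℝ) < 2)] at h
    rw [h]
    have h4 := Real.abs_sin_le_one (n * (φ + t))
    have h5 := Real.abs_cos_le_one ((φ + t) / 2)
    have h6 := abs_nonneg (Real.sin (n * (φ + t)))
    have h7 := abs_nonneg (Real.cos ((φ + t) / 2))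
    nlinarith
  rw [le_div_iff₀ hn']
  have h4 := abs_nonneg (D n (φ + t))
  calc |D n (φ + t)| * Real.sin t * n ≤ |D n (φ + t)| * (2 * Real.sin ((φ + t) / 2)) * n := by
        gcongr
    _ = 2 * n * Real.sin ((φ + t) / 2) * |D n (φ + t)| := by ring
    _ ≤ 1 := h3

lemma integral_D_shift (hn : 1 ≤ n) (φ : ℝ) : ∫ t in (0 : ℝ)..π, D n (φ + t) ^ 2 ≤ π / n := by
  have hn' : (0 : ℝ) < n := by exact_mod_cast hn
  rw [intervalIntegral.integral_comp_add_left (fun u => D n u ^ 2) φ, add_zero]
  have hper : Function.Periodic (fun u => D n u ^ 2) (2 * π) := by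
    intro t; simp only [D_periodic n t]
  have h1 := hper.intervalIntegral_add_eq (-π) φ
  have e : -π + 2 * π = π := by ring
  rw [e, integral_D_sq hn] at h1
  have h2 : π / n ^ 2 * ((n : ℝ) - 1 / 4) ≤ π / n := by
    have : π / n ^ 2 * ((n : ℝ) - 1 / 4) = π / n - π / (4 * n ^ 2) := by field_simp
    rw [this]
    have : 0 ≤ π / (4 * (n : ℝ) ^ 2) := by positivity
    linarith
  rw [h1, ← intervalIntegral.integral_add_adjacent_intervals (a := φ) (b := φ + π)
    (c := φ + 2 * π) (Continuous.intervalIntegrable (by fun_prop) _ _)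
    (Continuous.intervalIntegrable (by fun_prop) _ _)] at h2
  have : 0 ≤ ∫ u in (φ + π)..(φ + 2 * π), D n u ^ 2 :=
    intervalIntegral.integral_nonneg (by linarith [Real.pi_pos]) fun u _ => sq_nonneg _
  linarith

lemma integral_D_refl (hn : 1 ≤ n) {φ : ℝ} (hφ : φ ∈ Set.Icc 0 π) :
    ∫ t in (0 : ℝ)..π, D n (φ + t) ^ 2 * Real.sin t ≤ 4 / (n * √n) := by
  have hn' : (0 : ℝ) < n := by exact_mod_cast hn
  have hs : 0 < √(n : ℝ) := Real.sqrt_pos.2 hn'
  have hss : √(n : ℝ) * √n = n := Real.mul_self_sqrt hn'.le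
  calc ∫ t in (0 : ℝ)..π, D n (φ + t) ^ 2 * Real.sin t ≤
      ∫ t in (0 : ℝ)..π, (1 / n) * ((√n * D n (φ + t) ^ 2 + 1 / √n) / 2) := by
        refine intervalIntegral.integral_mono_on Real.pi_pos.le
          (Continuous.intervalIntegrable (by fun_prop) _ _)
          (Continuous.intervalIntegrable (by fun_prop) _ _) fun t ht => ?_
        have h1 := abs_D_mul_sin hn hφ ht
        have h2 : |D n (φ + t)| ≤ (√n * D n (φ + t) ^ 2 + 1 / √n) / 2 := by
          rw [← sq_abs]
          set y := |D n (φ + t)|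
          have h3 : (√n * y ^ 2 + 1 / √n) / 2 - y = (√(n : ℝ) * y - 1) ^ 2 / (2 * √n) := by
            field_simp
            ring
          have h4 : 0 ≤ (√(n : ℝ) * y - 1) ^ 2 / (2 * √n) := by positivity
          linarith
        calc D n (φ + t) ^ 2 * Real.sin t = (|D n (φ + t)| * Real.sin t) * |D n (φ + t)| := by
              rw [← sq_abs]; ring
          _ ≤ (1 / n) * |D n (φ + t)| := by gcongr
          _ ≤ _ := by gcongr
    _ = (1 / n) * ((√n * (∫ t in (0 : ℝ)..π, D n (φ + t) ^ 2) + π * (1 / √n)) / 2) := by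
        rw [intervalIntegral.integral_const_mul, intervalIntegral.integral_div,
          intervalIntegral.integral_add (Continuous.intervalIntegrable (by fun_prop) _ _)
          (Continuous.intervalIntegrable (by fun_prop) _ _),
          intervalIntegral.integral_const_mul, intervalIntegral.integral_const]
        simp
    _ ≤ (1 / n) * ((√n * (π / n) + π * (1 / √n)) / 2) := by
        have := integral_D_shift hn φ
        gcongr
    _ = π / (n * √n) := by
        have h1 : √(n : ℝ) * (π / n) = π * (1 / √n) := by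
          field_simp
          rw [sq, hss]
        rw [h1]; field_simp; ring
    _ ≤ 4 / (n * √n) := by
        have := Real.pi_le_four
        gcongr

/-- Quantitative equidistribution. -/
lemma equi_quant (hn : 1 ≤ n) (θ : Fin n → ℝ) (hg : Good θ)
    (hE : energy (fun k => Real.cos (θ k)) ≤ 3) (q : ℝ → ℝ) (hq : Continuous q) (M Λ : ℝ)
    (hM : ∀ t ∈ Set.Icc 0 π, |q t| ≤ M) (hΛ0 : 0 ≤ Λ)
    (hΛ : ∀ s ∈ Set.Icc 0 π, ∀ t ∈ Set.Icc 0 π, |q s - q t| ≤ Λ * |s - t|) :
    |(∫ t in (0 : ℝ)..π, q t * Aker 0 n t t * Real.sin t) -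
      π / (2 * n) * ∑ k, q (θ k) * Real.sin (θ k)| ≤
      √3 * √((3 / 2 * Λ ^ 2 + 18 * M ^ 2) / √n) := by
  have hn1 : (1 : ℝ) ≤ n := by exact_mod_cast hn
  have hn' : (0 : ℝ) < n := by linarith
  have hs : 0 < √(n : ℝ) := Real.sqrt_pos.2 hn'
  have hsn : √(n : ℝ) ≤ n := by
    rw [Real.sqrt_le_left hn'.le]; nlinarith
  have hM0 : 0 ≤ M := (abs_nonneg _).trans (hM 0 ⟨le_rfl, Real.pi_pos.le⟩)
  have h1 : (∫ t in (0 : ℝ)..π, q t * Aker 0 n t t * Real.sin t) -
      π / (2 * n) * ∑ k, q (θ k) * Real.sin (θ k) =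
      ∑ k, ∫ t in (0 : ℝ)..π, E θ k t * (q t * Aker 0 n (θ k) t - q (θ k) * Bker 0 n (θ k) t) *
        Real.sin t := by
    rw [← sum_integral_Aker 0 hn θ hg.inj q hq, Finset.mul_sum, ← Finset.sum_sub_distrib]
    refine Finset.sum_congr rfl fun k _ => ?_
    have h2 : π / (2 * n) * (q (θ k) * Real.sin (θ k)) =
        q (θ k) * (π / (2 * n) * Real.sin (θ k)) := by ring
    rw [h2, ← integral_Bker 0 θ hg.inj k, ← intervalIntegral.integral_const_mul,
      ← intervalIntegral.integral_sub
      (Continuous.intervalIntegrable (by fun_prop) _ _)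
      (Continuous.intervalIntegrable (by fun_prop) _ _)]
    refine intervalIntegral.integral_congr fun t _ => ?_
    ring
  rw [h1]
  refine (cs_sum univ (fun k => E θ k)
    (fun k t => q t * Aker 0 n (θ k) t - q (θ k) * Bker 0 n (θ k) t)
    (fun k => by fun_prop) (fun k => by fun_prop) Real.sin Real.continuous_sin
    (fun t ht => Real.sin_nonneg_of_mem_Icc ht)).trans ?_
  rw [energy_eq] at hE
  have h3 : ∀ k, ∫ t in (0 : ℝ)..π,
      (q t * Aker 0 n (θ k) t - q (θ k) * Bker 0 n (θ k) t) ^ 2 * Real.sin t ≤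
      (1 / n) * ((3 / 2 * Λ ^ 2 + 18 * M ^ 2) / √n) := by
    intro k
    have hφ := hg.mem k
    calc ∫ t in (0 : ℝ)..π,
        (q t * Aker 0 n (θ k) t - q (θ k) * Bker 0 n (θ k) t) ^ 2 * Real.sin t ≤
        ∫ t in (0 : ℝ)..π, ((3 / 4 * Λ ^ 2 / n ^ 2 + 3 * M ^ 2 / n ^ 2) * Real.sin t +
          3 * M ^ 2 * (D n (θ k + t) ^ 2 * Real.sin t)) := by
          refine intervalIntegral.integral_mono_on Real.pi_pos.le
            (Continuous.intervalIntegrable (by fun_prop) _ _)
            (Continuous.intervalIntegrable (by fun_prop) _ _) fun t ht => ?_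
          have hst := Real.sin_nonneg_of_mem_Icc ht
          have e1 : q t * Aker 0 n (θ k) t - q (θ k) * Bker 0 n (θ k) t =
              (q t - q (θ k)) / 2 * D n (θ k - t) + (q t + q (θ k)) / 2 * D n (θ k + t) +
              1 / (4 * n) * (-(q t * (Real.cos (n * (θ k - t)) + Real.cos (n * (θ k + t)))) -
                q (θ k) * (Real.cos (n * (θ k - t)) - Real.cos (n * (θ k + t)))) := by
            rw [Aker_zero_eq hn, Bker_zero_eq hn]; ring
          set x := (q t - q (θ k)) / 2 * D n (θ k - t) with hx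
          set y := (q t + q (θ k)) / 2 * D n (θ k + t) with hy
          set z := 1 / (4 * (n : ℝ)) * (-(q t * (Real.cos (n * (θ k - t)) +
            Real.cos (n * (θ k + t)))) -
                q (θ k) * (Real.cos (n * (θ k - t)) - Real.cos (n * (θ k + t)))) with hz
          have hx2 : x ^ 2 ≤ 1 / 4 * Λ ^ 2 / n ^ 2 := by
            have g1 : n * |D n (θ k - t)| * |θ k - t| ≤ 1 := by
              have habs : |θ k - t| ≤ π := by
                rw [abs_le]; constructor <;> linarith [hφ.1, hφ.2, ht.1, ht.2]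
              have := D_mul_le hn (abs_nonneg (θ k - t)) habs
              rcases abs_choice (θ k - t) with h | h
              · rw [h] at this
                rw [h]; exact this
              · rw [h, D_neg] at this
                rw [h]; exact this
            have g2 := hΛ t ht (θ k) hφ
            have g3 : |x| ≤ 1 / 2 * Λ / n := by
              rw [hx, abs_mul, abs_div, abs_two, le_div_iff₀ hn']
              have g4 : |t - θ k| = |θ k - t| := abs_sub_comm _ _
              rw [g4] at g2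
              calc |q t - q (θ k)| / 2 * |D n (θ k - t)| * n ≤
                  (Λ * |θ k - t|) / 2 * |D n (θ k - t)| * n := by gcongr
                _ = Λ / 2 * (n * |D n (θ k - t)| * |θ k - t|) := by ring
                _ ≤ Λ / 2 * 1 := by gcongr
                _ = _ := by ring
            rw [← sq_abs]
            calc |x| ^ 2 ≤ (1 / 2 * Λ / n) ^ 2 := by gcongr
              _ = _ := by ring
          have hy2 : y ^ 2 ≤ M ^ 2 * D n (θ k + t) ^ 2 := by
            rw [hy, mul_pow]
            refine mul_le_mul_of_nonneg_right ?_ (sq_nonneg _)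
            rw [← sq_abs]
            have g1 : |(q t + q (θ k)) / 2| ≤ M := by
              rw [abs_div, abs_two]
              have := abs_add_le (q t) (q (θ k))
              have := hM t ht
              have := hM (θ k) hφ
              linarith
            gcongr
          have hz2 : z ^ 2 ≤ M ^ 2 / n ^ 2 := by
            have g1 : |z| ≤ M / n := by
              rw [hz, abs_mul, abs_of_pos (by positivity : (0 : ℝ) < 1 / (4 * n))]
              have c1 := Real.abs_cos_le_one (n * (θ k - t))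
              have c2 := Real.abs_cos_le_one (n * (θ k + t))
              have g2 : |-(q t * (Real.cos (n * (θ k - t)) + Real.cos (n * (θ k + t)))) -
                q (θ k) * (Real.cos (n * (θ k - t)) - Real.cos (n * (θ k + t)))| ≤ 4 * M := by
                refine (abs_sub _ _).trans ?_
                rw [abs_neg, abs_mul, abs_mul]
                have d1 : |Real.cos (n * (θ k - t)) + Real.cos (n * (θ k + t))| ≤ 2 :=
                  (abs_add_le _ _).trans (by linarith)
                have d2 : |Real.cos (n * (θ k - t)) - Real.cos (n * (θ k + t))| ≤ 2 :=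
                  (abs_sub _ _).trans (by linarith)
                calc _ ≤ M * 2 + M * 2 := add_le_add
                      (mul_le_mul (hM t ht) d1 (abs_nonneg _) hM0)
                      (mul_le_mul (hM (θ k) hφ) d2 (abs_nonneg _) hM0)
                  _ = _ := by ring
              calc 1 / (4 * (n : ℝ)) * _ ≤ 1 / (4 * n) * (4 * M) := by gcongr
                _ = _ := by field_simp
            rw [← sq_abs]
            calc |z| ^ 2 ≤ (M / n) ^ 2 := by gcongr
              _ = _ := by ring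
          rw [e1]
          have h5 : (x + y + z) ^ 2 ≤ 3 * (x ^ 2 + y ^ 2 + z ^ 2) := by
            nlinarith [sq_nonneg (x - y), sq_nonneg (x - z), sq_nonneg (y - z)]
          calc (x + y + z) ^ 2 * Real.sin t ≤ (3 * (1 / 4 * Λ ^ 2 / n ^ 2 +
                M ^ 2 * D n (θ k + t) ^ 2 + M ^ 2 / n ^ 2)) * Real.sin t := by
                refine mul_le_mul_of_nonneg_right (h5.trans ?_) hst
                gcongr
            _ = _ := by ring
      _ = (3 / 4 * Λ ^ 2 / n ^ 2 + 3 * M ^ 2 / n ^ 2) * 2 +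
          3 * M ^ 2 * ∫ t in (0 : ℝ)..π, D n (θ k + t) ^ 2 * Real.sin t := by
          rw [intervalIntegral.integral_add (Continuous.intervalIntegrable (by fun_prop) _ _)
            (Continuous.intervalIntegrable (by fun_prop) _ _),
            intervalIntegral.integral_const_mul, intervalIntegral.integral_const_mul,
            integral_sin]
          norm_num
      _ ≤ (3 / 4 * Λ ^ 2 / n ^ 2 + 3 * M ^ 2 / n ^ 2) * 2 + 3 * M ^ 2 * (4 / (n * √n)) := by
          have := integral_D_refl hn hφ
          gcongr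
      _ ≤ _ := by
          have g1 : 1 / (n : ℝ) ^ 2 ≤ 1 / (n * √n) := by
            apply one_div_le_one_div_of_le (by positivity)
            rw [sq]; gcongr
          have e2 : (3 / 4 * Λ ^ 2 / (n : ℝ) ^ 2 + 3 * M ^ 2 / n ^ 2) * 2 + 3 * M ^ 2 * (4 / (n * √n)) =
              (3 / 2 * Λ ^ 2 + 6 * M ^ 2) * (1 / n ^ 2) + 12 * M ^ 2 * (1 / (n * √n)) := by ring
          have e3 : (1 / (n : ℝ)) * ((3 / 2 * Λ ^ 2 + 18 * M ^ 2) / √n) =
              (3 / 2 * Λ ^ 2 + 6 * M ^ 2) * (1 / (n * √n)) + 12 * M ^ 2 * (1 / (n * √n)) := by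
            field_simp; ring
          rw [e2, e3]
          have g2 : 0 ≤ 3 / 2 * Λ ^ 2 + 6 * M ^ 2 := by positivity
          have := mul_le_mul_of_nonneg_left g1 g2
          linarith
  have h4 : ∑ k, ∫ t in (0 : ℝ)..π,
      (q t * Aker 0 n (θ k) t - q (θ k) * Bker 0 n (θ k) t) ^ 2 * Real.sin t ≤
      (3 / 2 * Λ ^ 2 + 18 * M ^ 2) / √n := by
    calc _ ≤ ∑ k : Fin n, (1 / (n : ℝ)) * ((3 / 2 * Λ ^ 2 + 18 * M ^ 2) / √n) :=
          Finset.sum_le_sum fun k _ => h3 k
      _ = _ := by
        rw [Finset.sum_const, Finset.card_univ, Fintype.card_fin, nsmul_eq_mul]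
        field_simp
  gcongr

lemma Aker_diag_bound (hn : 1 ≤ n) (q : ℝ → ℝ) (hq : Continuous q) (M : ℝ)
    (hM : ∀ t ∈ Set.Icc 0 π, |q t| ≤ M) :
    |(∫ t in (0 : ℝ)..π, q t * Aker 0 n t t * Real.sin t) -
      (∫ t in (0 : ℝ)..π, q t * Real.sin t) / 2| ≤ 2 * M / n := by
  have hn1 : (1 : ℝ) ≤ n := by exact_mod_cast hn
  have hn' : (0 : ℝ) < n := by linarith
  have hM0 : 0 ≤ M := (abs_nonneg _).trans (hM 0 ⟨le_rfl, Real.pi_pos.le⟩)
  rw [← intervalIntegral.integral_div, ← intervalIntegral.integral_sub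
      (Continuous.intervalIntegrable (by fun_prop) _ _)
      (Continuous.intervalIntegrable (by fun_prop) _ _)]
  have hD0 : D n 0 = 1 := by
    unfold D
    simp
    field_simp
  refine (intervalIntegral.abs_integral_le_integral_abs Real.pi_pos.le).trans ?_
  calc ∫ t in (0 : ℝ)..π, |q t * Aker 0 n t t * Real.sin t - q t * Real.sin t / 2| ≤
      ∫ t in (0 : ℝ)..π, M * (1 / (2 * n) * Real.sin t + 1 / (4 * n)) := by
        refine intervalIntegral.integral_mono_on Real.pi_pos.le
          (Continuous.intervalIntegrable (by fun_prop) _ _)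
          (Continuous.intervalIntegrable (by fun_prop) _ _) fun t ht => ?_
        have hst := Real.sin_nonneg_of_mem_Icc ht
        rw [Aker_zero_eq hn, sub_self, hD0]
        have e1 : q t * ((1 + D n (t + t)) / 2 -
            1 / (4 * (n : ℝ)) * (Real.cos (n * 0) + Real.cos (n * (t + t)))) * Real.sin t -
            q t * Real.sin t / 2 = q t * ((D n (t + t) * Real.sin t) / 2 -
            1 / (4 * (n : ℝ)) * ((1 + Real.cos (n * (t + t))) * Real.sin t)) := by
          rw [mul_zero, Real.cos_zero]; ring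
        rw [e1, abs_mul]
        refine mul_le_mul (hM t ht) ?_ (abs_nonneg _) hM0
        refine (abs_sub _ _).trans ?_
        have g1 : |D n (t + t) * Real.sin t / 2| ≤ 1 / (4 * n) := by
          have h2 := D_closed hn (t + t)
          have e2 : (t + t) / 2 = t := by ring
          rw [e2] at h2
          have h3 : 2 * n * (|D n (t + t)| * Real.sin t) ≤ 1 := by
            have h := congrArg (fun z : ℝ => |z|) h2
            simp only [abs_mul, Nat.abs_cast] at h
            rw [abs_of_nonneg hst, abs_of_pos (by norm_num : (0:ℝ) < 2)] at h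
            have h4 := Real.abs_sin_le_one (n * (t + t))
            have h5 := Real.abs_cos_le_one t
            have h6 := abs_nonneg (Real.sin (n * (t + t)))
            have h7 := abs_nonneg (Real.cos t)
            nlinarith
          rw [abs_div, abs_mul, abs_of_nonneg hst, abs_two]
          rw [div_le_div_iff₀ (by norm_num) (by positivity)]
          nlinarith
        have g2 : |1 / (4 * (n : ℝ)) * ((1 + Real.cos (n * (t + t))) * Real.sin t)| ≤
            1 / (2 * n) * Real.sin t := by
          have c1 := Real.neg_one_le_cos (n * (t + t))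
          have c2 := Real.cos_le_one (n * (t + t))
          rw [abs_of_nonneg (by
            have : 0 ≤ 1 + Real.cos (n * (t + t)) := by linarith
            positivity)]
          calc 1 / (4 * (n : ℝ)) * ((1 + Real.cos (n * (t + t))) * Real.sin t) ≤
              1 / (4 * n) * (2 * Real.sin t) := by gcongr; linarith
            _ = _ := by ring
        linarith
    _ = M * (1 / n + π / (4 * n)) := by
        rw [intervalIntegral.integral_const_mul, intervalIntegral.integral_add
          (Continuous.intervalIntegrable (by fun_prop) _ _)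
          (Continuous.intervalIntegrable (by fun_prop) _ _),
          intervalIntegral.integral_const_mul, integral_sin, intervalIntegral.integral_const]
        simp
        left
        field_simp
        ring
    _ ≤ 2 * M / n := by
        have : 1 / (n : ℝ) + π / (4 * n) ≤ 2 / n := by
          rw [show (2 : ℝ) / n = 1 / n + 1 / n by ring]
          have : π / (4 * (n : ℝ)) ≤ 1 / n := by
            rw [div_le_div_iff₀ (by positivity) hn']
            have := Real.pi_le_four
            nlinarith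
          linarith
        calc _ ≤ M * (2 / n) := by gcongr
          _ = _ := by ring

lemma equi_lip (hn : 1 ≤ n) (θ : Fin n → ℝ) (hg : Good θ)
    (hE : energy (fun k => Real.cos (θ k)) ≤ 3) (q : ℝ → ℝ) (hq : Continuous q) (M Λ : ℝ)
    (hM : ∀ t ∈ Set.Icc 0 π, |q t| ≤ M) (hΛ0 : 0 ≤ Λ)
    (hΛ : ∀ s ∈ Set.Icc 0 π, ∀ t ∈ Set.Icc 0 π, |q s - q t| ≤ Λ * |s - t|) :
    |π / n * (∑ k, q (θ k) * Real.sin (θ k)) - ∫ t in (0 : ℝ)..π, q t * Real.sin t| ≤
      2 * (√3 * √((3 / 2 * Λ ^ 2 + 18 * M ^ 2) / √n)) + 4 * M / n := by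
  have h1 := equi_quant hn θ hg hE q hq M Λ hM hΛ0 hΛ
  have h2 := Aker_diag_bound hn q hq M hM
  have e1 : π / (n : ℝ) * (∑ k, q (θ k) * Real.sin (θ k)) =
      2 * (π / (2 * n) * ∑ k, q (θ k) * Real.sin (θ k)) := by ring
  have e2 : 4 * M / (n : ℝ) = 2 * (2 * M / n) := by ring
  rw [e1, e2]
  rw [abs_le] at *
  constructor <;> linarith [h1.1, h1.2, h2.1, h2.2]

lemma tendsto_equi_bound (C M : ℝ) :
    Tendsto (fun n : ℕ => 2 * (√3 * √(C / √(n : ℝ))) + 4 * M / n) atTop (𝓝 0) := by
  have h0 : Tendsto (fun n : ℕ => √(n : ℝ)) atTop atTop :=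
    Real.tendsto_sqrt_atTop.comp tendsto_natCast_atTop_atTop
  have h1 : Tendsto (fun n : ℕ => C / √(n : ℝ)) atTop (𝓝 0) := h0.const_div_atTop C
  have h2 : Tendsto (fun n : ℕ => √(C / √(n : ℝ))) atTop (𝓝 0) := by
    have := (Real.continuous_sqrt.tendsto 0).comp h1
    rwa [Real.sqrt_zero] at this
  have h3 : Tendsto (fun n : ℕ => 4 * M / (n : ℝ)) atTop (𝓝 0) :=
    tendsto_natCast_atTop_atTop.const_div_atTop _
  have h4 := ((h2.const_mul √3).const_mul 2).add h3
  simpa using h4

/-- Equidistribution for a continuous function. -/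
lemma equidist (q : ℝ → ℝ) (hq : Continuous q) {ε : ℝ} (hε : 0 < ε) :
    ∀ᶠ n : ℕ in atTop, ∀ θ : Fin n → ℝ, Good θ → energy (fun k => Real.cos (θ k)) ≤ 3 →
      |π / n * (∑ k, q (θ k) * Real.sin (θ k)) - ∫ t in (0 : ℝ)..π, q t * Real.sin t| ≤ ε := by
  -- the constant function
  have hconst : ∀ᶠ n : ℕ in atTop, ∀ θ : Fin n → ℝ, Good θ →
      energy (fun k => Real.cos (θ k)) ≤ 3 → π / n * ∑ k, Real.sin (θ k) ≤ 3 := by
    have h1 := (tendsto_equi_bound (3 / 2 * 0 ^ 2 + 18 * 1 ^ 2) 1).eventually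
      (Iio_mem_nhds one_pos)
    filter_upwards [h1, eventually_ge_atTop 1] with n h2 hn θ hg hE
    have h3 := equi_lip hn θ hg hE (fun _ => 1) continuous_const 1 0 (fun _ _ => by simp) le_rfl
      (fun _ _ _ _ => by simp)
    have h4 : ∫ t in (0 : ℝ)..π, (1 : ℝ) * Real.sin t = 2 := by
      simp
      norm_num
    rw [h4] at h3
    simp only [one_mul] at h3
    have h5 := (abs_le.1 h3).2
    have h2' : 2 * (√3 * √((3 / 2 * 0 ^ 2 + 18 * 1 ^ 2) / √(n : ℝ))) + 4 * 1 / n < 1 := h2
    linarith
  -- polynomial approximation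
  obtain ⟨p, hp⟩ := exists_polynomial_near_of_continuousOn 0 π q hq.continuousOn (ε / 8)
    (by positivity)
  obtain ⟨M, hM⟩ : ∃ M, ∀ t ∈ Set.Icc 0 π, |p.eval t| ≤ M := by
    obtain ⟨M, hM⟩ := isCompact_Icc.exists_bound_of_continuousOn
      (s := Set.Icc (0 : ℝ) π) (f := fun t => p.eval t) p.continuous.continuousOn
    exact ⟨M, fun t ht => hM t ht⟩
  obtain ⟨Λ, hΛ⟩ : ∃ Λ, ∀ t ∈ Set.Icc 0 π, |p.derivative.eval t| ≤ Λ := by
    obtain ⟨M, hM⟩ := isCompact_Icc.exists_bound_of_continuousOn
      (s := Set.Icc (0 : ℝ) π) (f := fun t => p.derivative.eval t)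
      p.derivative.continuous.continuousOn
    exact ⟨M, fun t ht => hM t ht⟩
  have hΛ0 : 0 ≤ Λ := (abs_nonneg _).trans (hΛ 0 ⟨le_rfl, Real.pi_pos.le⟩)
  have hlip : ∀ s ∈ Set.Icc 0 π, ∀ t ∈ Set.Icc 0 π,
      |p.eval s - p.eval t| ≤ Λ * |s - t| := by
    intro s hs t ht
    have := (convex_Icc (0 : ℝ) π).norm_image_sub_le_of_norm_hasDerivWithin_le
      (f := fun t => p.eval t) (f' := fun t => p.derivative.eval t) (C := Λ)
      (fun x _ => (p.hasDerivAt x).hasDerivWithinAt) (fun x hx => hΛ x hx) ht hs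
    exact this
  have h1 := (tendsto_equi_bound (3 / 2 * Λ ^ 2 + 18 * M ^ 2) M).eventually
      (Iio_mem_nhds (by positivity : 0 < ε / 4))
  filter_upwards [h1, hconst, eventually_ge_atTop 1] with n h2 h3 hn θ hg hE
  have hn' : (0 : ℝ) < n := by exact_mod_cast hn
  have h2' : 2 * (√3 * √((3 / 2 * Λ ^ 2 + 18 * M ^ 2) / √(n : ℝ))) + 4 * M / n < ε / 4 := h2
  have h4 := equi_lip hn θ hg hE (fun t => p.eval t) p.continuous M Λ hM hΛ0 hlip
  have h5 : |π / n * (∑ k, q (θ k) * Real.sin (θ k)) -
      π / n * (∑ k, p.eval (θ k) * Real.sin (θ k))| ≤ ε / 8 * 3 := by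
    rw [← mul_sub, ← Finset.sum_sub_distrib, abs_mul, abs_of_pos (by positivity : 0 < π / (n : ℝ))]
    calc π / n * |∑ k, (q (θ k) * Real.sin (θ k) - p.eval (θ k) * Real.sin (θ k))| ≤
        π / n * ∑ k, ε / 8 * Real.sin (θ k) := by
          refine mul_le_mul_of_nonneg_left ((Finset.abs_sum_le_sum_abs _ _).trans
            (Finset.sum_le_sum fun k _ => ?_)) (by positivity)
          have hs := Real.sin_nonneg_of_mem_Icc (hg.mem k)
          rw [← sub_mul, abs_mul, abs_of_nonneg hs, abs_sub_comm]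
          have := hp (θ k) (hg.mem k)
          gcongr
      _ = ε / 8 * (π / n * ∑ k, Real.sin (θ k)) := by rw [← Finset.mul_sum]; ring
      _ ≤ ε / 8 * 3 := by
          have := h3 θ hg hE
          gcongr
  have h6 : |(∫ t in (0 : ℝ)..π, q t * Real.sin t) - ∫ t in (0 : ℝ)..π, p.eval t * Real.sin t| ≤
      ε / 8 * 2 := by
    have hpc := p.continuous
    rw [← intervalIntegral.integral_sub
      (Continuous.intervalIntegrable (by fun_prop) _ _)
      (Continuous.intervalIntegrable (by fun_prop) _ _)]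
    refine (intervalIntegral.abs_integral_le_integral_abs Real.pi_pos.le).trans ?_
    calc ∫ t in (0 : ℝ)..π, |q t * Real.sin t - p.eval t * Real.sin t| ≤
        ∫ t in (0 : ℝ)..π, ε / 8 * Real.sin t := by
          refine intervalIntegral.integral_mono_on Real.pi_pos.le
            (Continuous.intervalIntegrable (by fun_prop) _ _)
            (Continuous.intervalIntegrable (by fun_prop) _ _) fun t ht => ?_
          have hs := Real.sin_nonneg_of_mem_Icc ht
          rw [← sub_mul, abs_mul, abs_of_nonneg hs, abs_sub_comm]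
          have := hp t ht
          gcongr
      _ = _ := by
        rw [intervalIntegral.integral_const_mul, integral_sin]
        norm_num
  rw [abs_le] at *
  constructor <;> linarith [h4.1, h4.2, h5.1, h5.2, h6.1, h6.2]

end Pool.Agent.H79
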