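import Pool.Agent.H79.NearMain

/-!
Far part: factorisation and the arithmetic-geometric mean inequality.
-/

open Real MeasureTheory intervalIntegral Finset Filter Topology

namespace Pool.Agent.H79

variable {n : ℕ}

/-- The squared node polynomial. -/
noncomputable def WW (θ : Fin n → ℝ) (t : ℝ) : ℝ := (∏ i, (Real.cos t - Real.cos (θ i))) ^ 2

/-- The inverse squared derivative of the node polynomial. -/
noncomputable def mu (θ : Fin n → ℝ) (k : Fin n) : ℝ :=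
  (1 / ∏ i ∈ univ.erase k, (Real.cos (θ k) - Real.cos (θ i))) ^ 2

lemma mu_nonneg (θ : Fin n → ℝ) (k : Fin n) : 0 ≤ mu θ k := sq_nonneg _

lemma WW_nonneg (θ : Fin n → ℝ) (t : ℝ) : 0 ≤ WW θ t := sq_nonneg _

@[fun_prop]
lemma continuous_WW (θ : Fin n → ℝ) : Continuous (WW θ) := by unfold WW; fun_prop

lemma factor (θ : Fin n → ℝ) (k : Fin n) (t : ℝ) :
    (Real.cos t - Real.cos (θ k)) ^ 2 * E θ k t ^ 2 = WW θ t * mu θ k := by
  unfold WW mu E ell
  rw [Finset.prod_div_distrib, ← Finset.mul_prod_erase univ _ (mem_univ k)]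
  ring

/-- The limiting kernel. -/
noncomputable def g2 (a φ t : ℝ) : ℝ :=
  √(Real.sin φ) * √(Real.sin t) * (ups a (φ - t) - ups a (φ + t))

lemma ups_sub {a : ℝ} (ha0 : 0 ≤ a) (ha1 : a < 1) (φ t : ℝ) :
    ups a (φ - t) - ups a (φ + t) =
      ups a (φ - t) * (4 * a * (Real.sin φ * Real.sin t) / Del a (φ + t)) := by
  have h1 := (Del_pos ha0 ha1 (φ - t)).ne'
  have h2 := (Del_pos ha0 ha1 (φ + t)).ne'
  unfold ups
  rw [div_sub_div _ _ h1 h2, div_mul_div_comm]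
  congr 1
  unfold Del
  rw [Real.cos_add, Real.cos_sub]
  ring

lemma ups_nonneg {a : ℝ} (ha0 : 0 ≤ a) (ha1 : a < 1) (t : ℝ) : 0 ≤ ups a t := by
  unfold ups; have := Del_pos ha0 ha1 t; positivity

lemma g2_nonneg {a φ t : ℝ} (ha0 : 0 ≤ a) (ha1 : a < 1) (hφ : φ ∈ Set.Icc 0 π)
    (ht : t ∈ Set.Icc 0 π) : 0 ≤ g2 a φ t := by
  unfold g2
  rw [ups_sub ha0 ha1]
  have h1 := Real.sin_nonneg_of_mem_Icc hφ
  have h2 := Real.sin_nonneg_of_mem_Icc ht
  have h3 := Del_pos ha0 ha1 (φ + t)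
  have h4 := ups_nonneg ha0 ha1 (φ - t)
  positivity

lemma g2_symm (a φ t : ℝ) : g2 a φ t = g2 a t φ := by
  unfold g2 ups
  have h1 : Del a (φ - t) = Del a (t - φ) := by rw [← Del_neg, neg_sub]
  rw [h1, add_comm φ t]; ring

lemma cos_sub_cos_sq (φ t : ℝ) : (Real.cos t - Real.cos φ) ^ 2 =
    4 * Real.sin ((φ - t) / 2) ^ 2 * Real.sin ((φ + t) / 2) ^ 2 := by
  rw [Real.cos_sub_cos]
  have h1 : (t - φ) / 2 = -((φ - t) / 2) := by ring
  have h2 : (t + φ) / 2 = (φ + t) / 2 := by ring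
  rw [h1, h2, Real.sin_neg]; ring

/-- Pointwise comparison of the far weight with the limiting kernel. -/
lemma pointwise {a φ t : ℝ} (ha0 : 0 ≤ a) (ha1 : a < 1) (hφ : 0 ≤ Real.sin φ)
    (ht : 0 ≤ Real.sin t) :
    g2 a φ t * (Real.cos t - Real.cos φ) ^ 2 ≤
      (1 - nu a (φ - t)) * (√(Real.sin φ) ^ 3 * √(Real.sin t) ^ 3) := by
  have hD := Del_pos ha0 ha1 (φ + t)
  have hD2 := Del_eq a (φ + t)
  unfold g2
  rw [ups_sub ha0 ha1, cos_sub_cos_sq, one_sub_nu ha0 ha1]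
  set x := √(Real.sin φ) with hx
  set y := √(Real.sin t) with hy
  have hx2 : Real.sin φ = x ^ 2 := (Real.sq_sqrt hφ).symm
  have hy2 : Real.sin t = y ^ 2 := (Real.sq_sqrt ht).symm
  have hx0 : 0 ≤ x := Real.sqrt_nonneg _
  have hy0 : 0 ≤ y := Real.sqrt_nonneg _
  rw [hx2, hy2]
  have hu := ups_nonneg ha0 ha1 (φ - t)
  set A := Real.sin ((φ - t) / 2)
  set B := Real.sin ((φ + t) / 2)
  have h1 : 4 * a * B ^ 2 / Del a (φ + t) ≤ 1 := by
    rw [div_le_one hD, hD2]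
    have := sq_nonneg (1 - a)
    linarith
  calc x * y * (ups a (φ - t) * (4 * a * (x ^ 2 * y ^ 2) / Del a (φ + t))) * (4 * A ^ 2 * B ^ 2) =
      (4 * A ^ 2 * ups a (φ - t) * (x ^ 3 * y ^ 3)) * (4 * a * B ^ 2 / Del a (φ + t)) := by ring
    _ ≤ (4 * A ^ 2 * ups a (φ - t) * (x ^ 3 * y ^ 3)) * 1 := by
      refine mul_le_mul_of_nonneg_left h1 ?_
      positivity
    _ = _ := by ring

/-- Data of the cells. -/
structure Cells (ι : Type) [Fintype ι] (a c ℓ G₀ ω : ℝ) where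
  χ : ι → ℝ → ℝ
  G : ι → ι → ℝ
  cont : ∀ i, Continuous (χ i)
  nonneg : ∀ i t, 0 ≤ χ i t
  sum_le : ∀ t, ∑ i, χ i t ≤ 1
  supp : ∀ i t, χ i t ≠ 0 → t ∈ Set.Icc 0 π ∧ c ≤ Real.sin t
  diam : ∀ i s t, χ i s ≠ 0 → χ i t ≠ 0 → |s - t| ≤ ℓ
  G_nonneg : ∀ i j, 0 ≤ G i j
  G_le : ∀ i j, G i j ≤ G₀
  G_symm : ∀ i j, G i j = G j i
  G_g2 : ∀ i j φ t, χ i φ ≠ 0 → χ j t ≠ 0 → G i j ≤ g2 a φ t
  H_ge : ∀ i φ t, χ i φ ≠ 0 → χ i t ≠ 0 →
    1 - ω ≤ Real.cos ((φ - t) / 2) ^ 2 * Real.sin ((φ + t) / 2) ^ 2 * Real.sin t /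
      (√(Real.sin φ) ^ 3 * √(Real.sin t) ^ 3)

variable {ι : Type} [Fintype ι] {a c ℓ G₀ ω : ℝ}

/-- The inverse weight `(sin t)^(-3/2)`, cut off. -/
noncomputable def pw (c t : ℝ) : ℝ := 1 / √(max (Real.sin t) c) ^ 3

lemma pw_cont (hc : 0 < c) : Continuous (pw c) := by
  unfold pw
  refine continuous_const.div (by fun_prop) fun t => ?_
  have : 0 < max (Real.sin t) c := lt_of_lt_of_le hc (le_max_right _ _)
  positivity

lemma pw_nonneg (c t : ℝ) : 0 ≤ pw c t := by unfold pw; positivity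

lemma pw_eq {t : ℝ} (h : c ≤ Real.sin t) : pw c t = 1 / √(Real.sin t) ^ 3 := by
  unfold pw; rw [max_eq_left h]

noncomputable def Wi (C : Cells ι a c ℓ G₀ ω) (θ : Fin n → ℝ) (i : ι) : ℝ :=
  ∫ t in (0 : ℝ)..π, C.χ i t * pw c t * (WW θ t * Real.sin t)

noncomputable def mui (C : Cells ι a c ℓ G₀ ω) (θ : Fin n → ℝ) (j : ι) : ℝ :=
  ∑ k, C.χ j (θ k) * pw c (θ k) * mu θ k

lemma Wi_nonneg (C : Cells ι a c ℓ G₀ ω) (θ : Fin n → ℝ) (i : ι) : 0 ≤ Wi C θ i :=
  intervalIntegral.integral_nonneg Real.pi_pos.le fun t ht => by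
    have h1 := C.nonneg i t
    have h2 := pw_nonneg c t
    have h3 := WW_nonneg θ t
    have h4 := Real.sin_nonneg_of_mem_Icc ht
    positivity

lemma mui_nonneg (C : Cells ι a c ℓ G₀ ω) (θ : Fin n → ℝ) (i : ι) : 0 ≤ mui C θ i :=
  Finset.sum_nonneg fun k _ => by
    have h1 := C.nonneg i (θ k)
    have h2 := pw_nonneg c (θ k)
    have h3 := mu_nonneg θ k
    positivity

lemma chi_le_one (C : Cells ι a c ℓ G₀ ω) (i : ι) (t : ℝ) : C.χ i t ≤ 1 :=
  (Finset.single_le_sum (f := fun i => C.χ i t) (fun i _ => C.nonneg i t) (mem_univ i)).trans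
    (C.sum_le t)

/-- Step 1 and 2: the far part dominates the cell sum. -/
lemma far_ge_cells (ha0 : 0 ≤ a) (ha1 : a < 1) (hc : 0 < c) (C : Cells ι a c ℓ G₀ ω)
    (θ : Fin n → ℝ) (hθ : ∀ k, θ k ∈ Set.Icc 0 π) :
    ∑ i, ∑ j, C.G i j * (Wi C θ i * mui C θ j) ≤ far a θ := by
  have hcnu := continuous_nu ha0 ha1
  have hcp := pw_cont hc
  have hcχ := C.cont
  have h1 : ∑ i, ∑ j, C.G i j * (Wi C θ i * mui C θ j) =
      ∑ k, ∫ t in (0 : ℝ)..π, (∑ i, ∑ j, C.G i j * (C.χ i t * pw c t) *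
        (C.χ j (θ k) * pw c (θ k))) * ((Real.cos t - Real.cos (θ k)) ^ 2 * E θ k t ^ 2) *
        Real.sin t := by
    have e1 : ∀ k t, (∑ i, ∑ j, C.G i j * (C.χ i t * pw c t) *
        (C.χ j (θ k) * pw c (θ k))) * ((Real.cos t - Real.cos (θ k)) ^ 2 * E θ k t ^ 2) *
        Real.sin t = ∑ i, ∑ j, (C.G i j * (C.χ j (θ k) * pw c (θ k) * mu θ k)) *
          (C.χ i t * pw c t * (WW θ t * Real.sin t)) := by
      intro k t
      rw [factor, Finset.sum_mul, Finset.sum_mul]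
      refine Finset.sum_congr rfl fun i _ => ?_
      rw [Finset.sum_mul, Finset.sum_mul]
      exact Finset.sum_congr rfl fun j _ => by ring
    simp_rw [e1]
    have e2 : ∀ k : Fin n, ∫ t in (0 : ℝ)..π, ∑ i, ∑ j,
        (C.G i j * (C.χ j (θ k) * pw c (θ k) * mu θ k)) *
          (C.χ i t * pw c t * (WW θ t * Real.sin t)) =
        ∑ i, ∑ j, (C.G i j * (C.χ j (θ k) * pw c (θ k) * mu θ k)) * Wi C θ i := by
      intro k
      rw [intervalIntegral.integral_finsetSum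
        (fun i _ => Continuous.intervalIntegrable (by fun_prop) _ _)]
      refine Finset.sum_congr rfl fun i _ => ?_
      rw [intervalIntegral.integral_finsetSum
        (fun i _ => Continuous.intervalIntegrable (by fun_prop) _ _)]
      refine Finset.sum_congr rfl fun j _ => ?_
      rw [intervalIntegral.integral_const_mul]
      rfl
    simp_rw [e2]
    symm
    rw [Finset.sum_comm]
    refine Finset.sum_congr rfl fun i _ => ?_
    rw [Finset.sum_comm]
    refine Finset.sum_congr rfl fun j _ => ?_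
    unfold mui
    rw [Finset.mul_sum, Finset.mul_sum]
    exact Finset.sum_congr rfl fun k _ => by ring
  rw [h1]
  unfold far
  refine Finset.sum_le_sum fun k _ => ?_
  refine intervalIntegral.integral_mono_on Real.pi_pos.le
    (Continuous.intervalIntegrable (by fun_prop) _ _)
    (Continuous.intervalIntegrable (by fun_prop) _ _) fun t ht => ?_
  have hs := Real.sin_nonneg_of_mem_Icc ht
  refine mul_le_mul_of_nonneg_right ?_ hs
  have hnu : 0 ≤ 1 - nu a (θ k - t) := by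
    have := nu_le_one ha0 ha1 (θ k - t); linarith
  have h2 : ∀ i j, C.G i j * (C.χ i t * pw c t) * (C.χ j (θ k) * pw c (θ k)) *
      (Real.cos t - Real.cos (θ k)) ^ 2 ≤ C.χ i t * C.χ j (θ k) * (1 - nu a (θ k - t)) := by
    intro i j
    by_cases hi : C.χ i t = 0
    · rw [hi]; simp
    by_cases hj : C.χ j (θ k) = 0
    · rw [hj]; simp
    have s1 := (C.supp i t hi).2
    have s2 := (C.supp j (θ k) hj).2
    have hst : 0 < Real.sin t := lt_of_lt_of_le hc s1
    have hsk : 0 < Real.sin (θ k) := lt_of_lt_of_le hc s2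
    have hG := C.G_g2 i j t (θ k) hi hj
    rw [g2_symm] at hG
    have hp := pointwise ha0 ha1 hsk.le hst.le
    rw [pw_eq s1, pw_eq s2]
    have hx : 0 < √(Real.sin t) := Real.sqrt_pos.2 hst
    have hy : 0 < √(Real.sin (θ k)) := Real.sqrt_pos.2 hsk
    have g1 := C.nonneg i t
    have g2 := C.nonneg j (θ k)
    have h3 : C.G i j * (Real.cos t - Real.cos (θ k)) ^ 2 ≤
        (1 - nu a (θ k - t)) * (√(Real.sin (θ k)) ^ 3 * √(Real.sin t) ^ 3) := by
      refine le_trans ?_ hp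
      exact mul_le_mul_of_nonneg_right hG (sq_nonneg _)
    calc C.G i j * (C.χ i t * (1 / √(Real.sin t) ^ 3)) *
          (C.χ j (θ k) * (1 / √(Real.sin (θ k)) ^ 3)) * (Real.cos t - Real.cos (θ k)) ^ 2 =
          (C.χ i t * C.χ j (θ k) * (1 / (√(Real.sin t) ^ 3 * √(Real.sin (θ k)) ^ 3))) *
          (C.G i j * (Real.cos t - Real.cos (θ k)) ^ 2) := by
            field_simp
      _ ≤ (C.χ i t * C.χ j (θ k) * (1 / (√(Real.sin t) ^ 3 * √(Real.sin (θ k)) ^ 3))) *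
          ((1 - nu a (θ k - t)) * (√(Real.sin (θ k)) ^ 3 * √(Real.sin t) ^ 3)) := by
            refine mul_le_mul_of_nonneg_left h3 (by positivity)
      _ = _ := by
            field_simp
  calc (∑ i, ∑ j, C.G i j * (C.χ i t * pw c t) * (C.χ j (θ k) * pw c (θ k))) *
        ((Real.cos t - Real.cos (θ k)) ^ 2 * E θ k t ^ 2) =
        (∑ i, ∑ j, C.G i j * (C.χ i t * pw c t) * (C.χ j (θ k) * pw c (θ k)) *
        (Real.cos t - Real.cos (θ k)) ^ 2) * E θ k t ^ 2 := by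
          rw [← mul_assoc, Finset.sum_mul]
          congr 1
          refine Finset.sum_congr rfl fun i _ => ?_
          rw [Finset.sum_mul]
    _ ≤ (∑ i, ∑ j, C.χ i t * C.χ j (θ k) * (1 - nu a (θ k - t))) * E θ k t ^ 2 := by
          refine mul_le_mul_of_nonneg_right ?_ (sq_nonneg _)
          exact Finset.sum_le_sum fun i _ => Finset.sum_le_sum fun j _ => h2 i j
    _ = ((∑ i, C.χ i t) * (∑ j, C.χ j (θ k))) * (1 - nu a (θ k - t)) * E θ k t ^ 2 := by
          have h9 : ∑ i, ∑ j, C.χ i t * C.χ j (θ k) * (1 - nu a (θ k - t)) =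
              (∑ i, C.χ i t) * (∑ j, C.χ j (θ k)) * (1 - nu a (θ k - t)) := by
            rw [Finset.sum_mul_sum, Finset.sum_mul]
            refine Finset.sum_congr rfl fun i _ => ?_
            rw [Finset.sum_mul]
          rw [h9]
    _ ≤ 1 * (1 - nu a (θ k - t)) * E θ k t ^ 2 := by
          have g1 := C.sum_le t
          have g2 := C.sum_le (θ k)
          have g3 : 0 ≤ ∑ i, C.χ i t := Finset.sum_nonneg fun i _ => C.nonneg i t
          have g4 : 0 ≤ ∑ i, C.χ i (θ k) := Finset.sum_nonneg fun i _ => C.nonneg i (θ k)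
          have g5 : (∑ i, C.χ i t) * (∑ j, C.χ j (θ k)) ≤ 1 := by nlinarith
          gcongr
    _ = _ := by rw [one_mul]

/-- Step 3: arithmetic-geometric mean inequality. -/
lemma amgm (C : Cells ι a c ℓ G₀ ω) (θ : Fin n → ℝ) :
    ∑ i, ∑ j, C.G i j * (√(Wi C θ i * mui C θ i) * √(Wi C θ j * mui C θ j)) ≤
      ∑ i, ∑ j, C.G i j * (Wi C θ i * mui C θ j) := by
  have h1 : ∑ i, ∑ j, C.G i j * (Wi C θ i * mui C θ j) =
      ∑ i, ∑ j, C.G i j * ((Wi C θ i * mui C θ j + Wi C θ j * mui C θ i) / 2) := by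
    have h2 : ∑ i, ∑ j, C.G i j * (Wi C θ i * mui C θ j) =
        ∑ i, ∑ j, C.G i j * (Wi C θ j * mui C θ i) := by
      rw [Finset.sum_comm]
      refine Finset.sum_congr rfl fun i _ => Finset.sum_congr rfl fun j _ => ?_
      rw [C.G_symm]
    have h3 : ∑ i, ∑ j, C.G i j * ((Wi C θ i * mui C θ j + Wi C θ j * mui C θ i) / 2) =
        (∑ i, ∑ j, C.G i j * (Wi C θ i * mui C θ j) +
        ∑ i, ∑ j, C.G i j * (Wi C θ j * mui C θ i)) / 2 := by
      rw [← Finset.sum_add_distrib, Finset.sum_div]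
      refine Finset.sum_congr rfl fun i _ => ?_
      rw [← Finset.sum_add_distrib, Finset.sum_div]
      exact Finset.sum_congr rfl fun j _ => by ring
    rw [h3, ← h2]; ring
  rw [h1]
  refine Finset.sum_le_sum fun i _ => Finset.sum_le_sum fun j _ => ?_
  refine mul_le_mul_of_nonneg_left ?_ (C.G_nonneg i j)
  have a1 := Wi_nonneg C θ i
  have a2 := Wi_nonneg C θ j
  have b1 := mui_nonneg C θ i
  have b2 := mui_nonneg C θ j
  set x := √(Wi C θ i * mui C θ j) with hx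
  set y := √(Wi C θ j * mui C θ i) with hy
  have hx2 : Wi C θ i * mui C θ j = x ^ 2 := (Real.sq_sqrt (by positivity)).symm
  have hy2 : Wi C θ j * mui C θ i = y ^ 2 := (Real.sq_sqrt (by positivity)).symm
  have hxy : √(Wi C θ i * mui C θ i) * √(Wi C θ j * mui C θ j) = x * y := by
    rw [hx, hy, ← Real.sqrt_mul (by positivity), ← Real.sqrt_mul (by positivity)]
    congr 1; ring
  rw [hxy, hx2, hy2]
  nlinarith [sq_nonneg (x - y)]

/-- The diagonal products as sums over the nodes. -/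
lemma Y_eq (hc : 0 < c) (C : Cells ι a c ℓ G₀ ω) (θ : Fin n → ℝ) (i : ι) :
    Wi C θ i * mui C θ i = ∑ k, ∫ t in (0 : ℝ)..π, E θ k t ^ 2 *
      (C.χ i (θ k) * pw c (θ k) * (C.χ i t * pw c t) *
      ((Real.cos t - Real.cos (θ k)) ^ 2 * Real.sin t)) := by
  have hcp := pw_cont hc
  have hcχ := C.cont
  unfold mui
  rw [Finset.mul_sum]
  refine Finset.sum_congr rfl fun k _ => ?_
  unfold Wi
  rw [← intervalIntegral.integral_mul_const]
  refine intervalIntegral.integral_congr fun t _ => ?_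
  have h := factor θ k t
  linear_combination (-(C.χ i (θ k) * pw c (θ k) * (C.χ i t * pw c t) * Real.sin t)) * h

end Pool.Agent.H79
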