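import Pool.Agent.H79.Far1

/-!
Far part: lower bound for the cell sum.
-/

open Real MeasureTheory intervalIntegral Finset Filter Topology

namespace Pool.Agent.H79

variable {n : ℕ}

/-- Cauchy-Schwarz for sums of integrals with weights depending on the index. -/
lemma cs_sum_w {κ : Type*} (S : Finset κ) (f g w : κ → ℝ → ℝ) (hf : ∀ k, Continuous (f k))
    (hg : ∀ k, Continuous (g k)) (hw : ∀ k, Continuous (w k))
    (hw0 : ∀ k, ∀ t ∈ Set.Icc 0 π, 0 ≤ w k t) :
    |∑ k ∈ S, ∫ t in (0 : ℝ)..π, f k t * g k t * w k t| ≤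
      √(∑ k ∈ S, ∫ t in (0 : ℝ)..π, f k t ^ 2 * w k t) *
      √(∑ k ∈ S, ∫ t in (0 : ℝ)..π, g k t ^ 2 * w k t) := by
  have hnn : ∀ (k : κ) (h : ℝ → ℝ), 0 ≤ ∫ t in (0 : ℝ)..π, h t ^ 2 * w k t := fun k h =>
    intervalIntegral.integral_nonneg Real.pi_pos.le fun t ht => by
      have := hw0 k t ht
      positivity
  refine quad_cs (Finset.sum_nonneg fun k _ => hnn _ _) (Finset.sum_nonneg fun k _ => hnn _ _)
    fun x => ?_
  have h1 : ∑ k ∈ S, ∫ t in (0 : ℝ)..π, (f k t - x * g k t) ^ 2 * w k t =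
      ∑ k ∈ S, (∫ t in (0 : ℝ)..π, f k t ^ 2 * w k t) -
      2 * x * ∑ k ∈ S, (∫ t in (0 : ℝ)..π, f k t * g k t * w k t) +
      x ^ 2 * ∑ k ∈ S, (∫ t in (0 : ℝ)..π, g k t ^ 2 * w k t) := by
    rw [Finset.mul_sum, Finset.mul_sum, ← Finset.sum_sub_distrib, ← Finset.sum_add_distrib]
    refine Finset.sum_congr rfl fun k _ => ?_
    have := hf k
    have := hg k
    have := hw k
    rw [← intervalIntegral.integral_const_mul, ← intervalIntegral.integral_const_mul,
      ← intervalIntegral.integral_sub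
      (Continuous.intervalIntegrable (by fun_prop) _ _)
      (Continuous.intervalIntegrable (by fun_prop) _ _), ← intervalIntegral.integral_add
      (Continuous.intervalIntegrable (by fun_prop) _ _)
      (Continuous.intervalIntegrable (by fun_prop) _ _)]
    refine intervalIntegral.integral_congr fun t _ => ?_
    ring
  rw [← h1]
  exact Finset.sum_nonneg fun k _ => hnn _ _

/-- Reverse triangle inequality. -/
lemma rev_tri {κ : Type*} (S : Finset κ) (e f w : κ → ℝ → ℝ) (he : ∀ k, Continuous (e k))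
    (hf : ∀ k, Continuous (f k)) (hw : ∀ k, Continuous (w k))
    (hw0 : ∀ k, ∀ t ∈ Set.Icc 0 π, 0 ≤ w k t) :
    √(∑ k ∈ S, ∫ t in (0 : ℝ)..π, (e k t - f k t) ^ 2 * w k t) ≤
      √(∑ k ∈ S, ∫ t in (0 : ℝ)..π, e k t ^ 2 * w k t) +
      √(∑ k ∈ S, ∫ t in (0 : ℝ)..π, f k t ^ 2 * w k t) := by
  have hnn : ∀ (k : κ) (h : ℝ → ℝ), 0 ≤ ∫ t in (0 : ℝ)..π, h t ^ 2 * w k t := fun k h =>
    intervalIntegral.integral_nonneg Real.pi_pos.le fun t ht => by
      have := hw0 k t ht
      positivity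
  rw [Real.sqrt_le_left (by positivity)]
  have h1 : ∑ k ∈ S, ∫ t in (0 : ℝ)..π, (e k t - f k t) ^ 2 * w k t =
      ∑ k ∈ S, (∫ t in (0 : ℝ)..π, e k t ^ 2 * w k t) -
      2 * ∑ k ∈ S, (∫ t in (0 : ℝ)..π, e k t * f k t * w k t) +
      ∑ k ∈ S, (∫ t in (0 : ℝ)..π, f k t ^ 2 * w k t) := by
    rw [Finset.mul_sum, ← Finset.sum_sub_distrib, ← Finset.sum_add_distrib]
    refine Finset.sum_congr rfl fun k _ => ?_
    have := hf k
    have := he k
    have := hw k
    rw [← intervalIntegral.integral_const_mul, ← intervalIntegral.integral_sub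
      (Continuous.intervalIntegrable (by fun_prop) _ _)
      (Continuous.intervalIntegrable (by fun_prop) _ _), ← intervalIntegral.integral_add
      (Continuous.intervalIntegrable (by fun_prop) _ _)
      (Continuous.intervalIntegrable (by fun_prop) _ _)]
    refine intervalIntegral.integral_congr fun t _ => ?_
    ring
  have h2 := cs_sum_w S e f w he hf hw hw0
  have h3 := (abs_le.1 h2).1
  set A := ∑ k ∈ S, (∫ t in (0 : ℝ)..π, e k t ^ 2 * w k t) with hA
  set B := ∑ k ∈ S, (∫ t in (0 : ℝ)..π, f k t ^ 2 * w k t) with hB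
  have hA0 : 0 ≤ A := Finset.sum_nonneg fun k _ => hnn _ _
  have hB0 : 0 ≤ B := Finset.sum_nonneg fun k _ => hnn _ _
  rw [h1]
  have h4 : (√A + √B) ^ 2 = A + 2 * (√A * √B) + B := by
    have e1 := Real.sq_sqrt hA0
    have e2 := Real.sq_sqrt hB0
    nlinarith
  rw [h4]
  linarith

/-- The error with respect to the kernel `D`. -/
noncomputable def fd (θ : Fin n → ℝ) (k : Fin n) (t : ℝ) : ℝ := E θ k t - D n (θ k - t)

@[fun_prop]
lemma continuous_fd (θ : Fin n → ℝ) (k : Fin n) : Continuous (fd θ k) := by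
  unfold fd; fun_prop

lemma sum_fd_le (hn : 1 ≤ n) (θ : Fin n → ℝ) {K : ℝ}
    (hK : ∑ k, ∫ t in (0 : ℝ)..π, ff θ k t ^ 2 * Real.sin t ≤ K / n) :
    ∑ k, ∫ t in (0 : ℝ)..π, fd θ k t ^ 2 * Real.sin t ≤ (2 * K + 1) / n := by
  have hn' : (0 : ℝ) < n := by exact_mod_cast hn
  have h1 : ∀ k, ∫ t in (0 : ℝ)..π, fd θ k t ^ 2 * Real.sin t ≤
      2 * (∫ t in (0 : ℝ)..π, ff θ k t ^ 2 * Real.sin t) + 1 / n ^ 2 := by
    intro k
    calc ∫ t in (0 : ℝ)..π, fd θ k t ^ 2 * Real.sin t ≤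
        ∫ t in (0 : ℝ)..π, (2 * (ff θ k t ^ 2 * Real.sin t) + 1 / (2 * n ^ 2) * Real.sin t) := by
          refine intervalIntegral.integral_mono_on Real.pi_pos.le
            (Continuous.intervalIntegrable (by fun_prop) _ _)
            (Continuous.intervalIntegrable (by fun_prop) _ _) fun t ht => ?_
          have hs := Real.sin_nonneg_of_mem_Icc ht
          have e1 : fd θ k t = ff θ k t - 1 / (2 * n) * Real.cos (n * (θ k + t)) := by
            unfold fd ff F0; ring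
          have h2 : (1 / (2 * (n : ℝ)) * Real.cos (n * (θ k + t))) ^ 2 ≤ 1 / (4 * n ^ 2) := by
            have := Real.cos_sq_le_one (n * (θ k + t))
            calc (1 / (2 * (n : ℝ)) * Real.cos (n * (θ k + t))) ^ 2 =
                1 / (4 * (n : ℝ) ^ 2) * Real.cos (n * (θ k + t)) ^ 2 := by ring
              _ ≤ 1 / (4 * (n : ℝ) ^ 2) * 1 := by gcongr
              _ = _ := mul_one _
          have h3 : fd θ k t ^ 2 ≤ 2 * ff θ k t ^ 2 + 1 / (2 * n ^ 2) := by
            rw [e1]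
            set x := ff θ k t
            set y := 1 / (2 * (n : ℝ)) * Real.cos (n * (θ k + t))
            have h4 : (1 : ℝ) / (2 * n ^ 2) = 2 * (1 / (4 * n ^ 2)) := by ring
            rw [h4]
            nlinarith [sq_nonneg (x + y)]
          calc fd θ k t ^ 2 * Real.sin t ≤ (2 * ff θ k t ^ 2 + 1 / (2 * n ^ 2)) * Real.sin t := by
                gcongr
            _ = _ := by ring
      _ = _ := by
          rw [intervalIntegral.integral_add
            (Continuous.intervalIntegrable (by fun_prop) _ _)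
            (Continuous.intervalIntegrable (by fun_prop) _ _),
            intervalIntegral.integral_const_mul, intervalIntegral.integral_const_mul,
            integral_sin]
          simp only [Real.cos_zero, Real.cos_pi]
          ring
  calc _ ≤ ∑ k, (2 * (∫ t in (0 : ℝ)..π, ff θ k t ^ 2 * Real.sin t) + 1 / (n : ℝ) ^ 2) :=
        Finset.sum_le_sum fun k _ => h1 k
    _ = 2 * (∑ k, ∫ t in (0 : ℝ)..π, ff θ k t ^ 2 * Real.sin t) + 1 / n := by
        rw [Finset.sum_add_distrib, ← Finset.mul_sum, Finset.sum_const, Finset.card_univ,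
          Fintype.card_fin, nsmul_eq_mul]
        field_simp
    _ ≤ 2 * (K / n) + 1 / n := by gcongr
    _ = _ := by ring

variable {ι : Type} [Fintype ι] {a c ℓ G₀ ω : ℝ}

/-- The weight of the cell `i`. -/
noncomputable def wt (C : Cells ι a c ℓ G₀ ω) (θ : Fin n → ℝ) (i : ι) (k : Fin n) (t : ℝ) : ℝ :=
  C.χ i (θ k) * pw c (θ k) * (C.χ i t * pw c t) *
      ((Real.cos t - Real.cos (θ k)) ^ 2 * Real.sin t)

lemma wt_cont (hc : 0 < c) (C : Cells ι a c ℓ G₀ ω) (θ : Fin n → ℝ) (i : ι) (k : Fin n) :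
    Continuous (wt C θ i k) := by
  have hcp := pw_cont hc
  have hcχ := C.cont
  unfold wt
  fun_prop

lemma wt_nonneg (C : Cells ι a c ℓ G₀ ω) (θ : Fin n → ℝ) (i : ι) (k : Fin n) {t : ℝ}
    (ht : t ∈ Set.Icc 0 π) : 0 ≤ wt C θ i k t := by
  have h1 := C.nonneg i (θ k)
  have h2 := C.nonneg i t
  have h3 := pw_nonneg c (θ k)
  have h4 := pw_nonneg c t
  have h5 := Real.sin_nonneg_of_mem_Icc ht
  unfold wt
  positivity

/-- Error part. -/
noncomputable def Bi (C : Cells ι a c ℓ G₀ ω) (θ : Fin n → ℝ) (i : ι) : ℝ :=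
  √(∑ k, ∫ t in (0 : ℝ)..π, fd θ k t ^ 2 * wt C θ i k t)

noncomputable def Ai (C : Cells ι a c ℓ G₀ ω) (θ : Fin n → ℝ) (i : ι) : ℝ :=
  √(∑ k, ∫ t in (0 : ℝ)..π, D n (θ k - t) ^ 2 * wt C θ i k t)

lemma Ai_le (hc : 0 < c) (C : Cells ι a c ℓ G₀ ω) (θ : Fin n → ℝ) (i : ι) :
    Ai C θ i ≤ √(Wi C θ i * mui C θ i) + Bi C θ i := by
  rw [Y_eq hc]
  have h := rev_tri univ (fun k => E θ k) (fun k => fd θ k) (fun k => wt C θ i k)
    (fun k => by fun_prop) (fun k => by fun_prop) (fun k => wt_cont hc C θ i k)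
    (fun k t ht => wt_nonneg C θ i k ht)
  have e1 : ∀ k t, E θ k t - fd θ k t = D n (θ k - t) := by
    intro k t; unfold fd; ring
  simp_rw [e1] at h
  exact h

lemma chi_integral_le (C : Cells ι a c ℓ G₀ ω) :
    ∑ i, ∫ t in (0 : ℝ)..π, C.χ i t ≤ π := by
  have hcχ := C.cont
  rw [← intervalIntegral.integral_finsetSum
      (fun i _ => Continuous.intervalIntegrable (by fun_prop) _ _)]
  calc ∫ t in (0 : ℝ)..π, ∑ i, C.χ i t ≤ ∫ t in (0 : ℝ)..π, (1 : ℝ) := by
        refine intervalIntegral.integral_mono_on Real.pi_pos.le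
          (Continuous.intervalIntegrable (by fun_prop) _ _)
          (Continuous.intervalIntegrable (by fun_prop) _ _) fun t ht => C.sum_le t
    _ = π := by simp

/-- Lower bound for the main part. -/
lemma Ai_ge (hn : 1 ≤ n) (hc : 0 < c) (hω : ω ≤ 1) (C : Cells ι a c ℓ G₀ ω) (θ : Fin n → ℝ)
    (i : ι) {τ : ℝ} (hτ : (∫ t in (0 : ℝ)..π, C.χ i t) - τ ≤ π / n * ∑ k, C.χ i (θ k))
    (hJ : J (C.χ i) (n + n) ≤ τ) :
    √((1 - ω) / (2 * π * n)) * max 0 ((∫ t in (0 : ℝ)..π, C.χ i t) - τ) ≤ Ai C θ i := by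
  have hn' : (0 : ℝ) < n := by exact_mod_cast hn
  have hcp := pw_cont hc
  have hcχ := C.cont
  set I := ∫ t in (0 : ℝ)..π, C.χ i t with hI
  rcases le_total (I - τ) 0 with h0 | h0
  · rw [max_eq_left h0, mul_zero]
    exact Real.sqrt_nonneg _
  rw [max_eq_right h0]
  unfold Ai
  apply Real.le_sqrt_of_sq_le
  rw [mul_pow, Real.sq_sqrt (by have : 0 ≤ 1 - ω := by linarith
                                positivity)]
  have h1 : ∀ k, C.χ i (θ k) * ((1 - ω) / (2 * n ^ 2) * (I - τ)) ≤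
      ∫ t in (0 : ℝ)..π, D n (θ k - t) ^ 2 * wt C θ i k t := by
    intro k
    have hwc := wt_cont hc C θ i k
    have h2 : ∫ t in (0 : ℝ)..π, C.χ i (θ k) * ((1 - ω) / n ^ 2) *
        (C.χ i t * Real.sin (n * (θ k - t)) ^ 2) ≤
        ∫ t in (0 : ℝ)..π, D n (θ k - t) ^ 2 * wt C θ i k t := by
      refine intervalIntegral.integral_mono_on Real.pi_pos.le
        (Continuous.intervalIntegrable (by fun_prop) _ _)
        (Continuous.intervalIntegrable (by fun_prop) _ _) fun t ht => ?_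
      by_cases hk : C.χ i (θ k) = 0
      · unfold wt; rw [hk]; simp
      by_cases hi : C.χ i t = 0
      · unfold wt; rw [hi]; simp
      have s1 := (C.supp i t hi).2
      have s2 := (C.supp i (θ k) hk).2
      have hst : 0 < Real.sin t := lt_of_lt_of_le hc s1
      have hsk : 0 < Real.sin (θ k) := lt_of_lt_of_le hc s2
      have hx : 0 < √(Real.sin t) := Real.sqrt_pos.2 hst
      have hy : 0 < √(Real.sin (θ k)) := Real.sqrt_pos.2 hsk
      have hH := C.H_ge i (θ k) t hk hi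
      have hcl := D_closed hn (θ k - t)
      have h3 : D n (θ k - t) ^ 2 * (Real.cos t - Real.cos (θ k)) ^ 2 =
          1 / n ^ 2 * (Real.sin (n * (θ k - t)) ^ 2 * (Real.cos ((θ k - t) / 2) ^ 2 *
            Real.sin ((θ k + t) / 2) ^ 2)) := by
        rw [cos_sub_cos_sq]
        have h4 : (2 * n * Real.sin ((θ k - t) / 2) * D n (θ k - t)) ^ 2 =
          (Real.sin (n * (θ k - t)) * Real.cos ((θ k - t) / 2)) ^ 2 := by rw [hcl]
        have h5 : D n (θ k - t) ^ 2 * (4 * Real.sin ((θ k - t) / 2) ^ 2 *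
            Real.sin ((θ k + t) / 2) ^ 2) = 1 / n ^ 2 *
            ((2 * n * Real.sin ((θ k - t) / 2) * D n (θ k - t)) ^ 2 *
            Real.sin ((θ k + t) / 2) ^ 2) := by
          field_simp
          ring
        rw [h5, h4]; ring
      have g1 := C.nonneg i t
      have g2 := C.nonneg i (θ k)
      unfold wt
      rw [pw_eq s1, pw_eq s2]
      calc C.χ i (θ k) * ((1 - ω) / n ^ 2) * (C.χ i t * Real.sin (n * (θ k - t)) ^ 2) =
          (C.χ i (θ k) * C.χ i t * (1 / n ^ 2) * Real.sin (n * (θ k - t)) ^ 2) * (1 - ω) := by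
            ring
        _ ≤ (C.χ i (θ k) * C.χ i t * (1 / n ^ 2) * Real.sin (n * (θ k - t)) ^ 2) *
            (Real.cos ((θ k - t) / 2) ^ 2 * Real.sin ((θ k + t) / 2) ^ 2 * Real.sin t /
            (√(Real.sin (θ k)) ^ 3 * √(Real.sin t) ^ 3)) := by
            refine mul_le_mul_of_nonneg_left hH (by positivity)
        _ = C.χ i (θ k) * C.χ i t * (1 / (√(Real.sin (θ k)) ^ 3 * √(Real.sin t) ^ 3)) *
            Real.sin t * (1 / n ^ 2 * (Real.sin (n * (θ k - t)) ^ 2 *
            (Real.cos ((θ k - t) / 2) ^ 2 * Real.sin ((θ k + t) / 2) ^ 2))) := by ring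
        _ = _ := by rw [← h3]; field_simp
    refine le_trans ?_ h2
    rw [intervalIntegral.integral_const_mul]
    have h6 : ∫ t in (0 : ℝ)..π, C.χ i t * Real.sin (n * (θ k - t)) ^ 2 =
        I / 2 - (∫ t in (0 : ℝ)..π, C.χ i t * Real.cos ((n + n : ℕ) * t + (-(2 * n * θ k)))) / 2 := by
      rw [hI, ← intervalIntegral.integral_div, ← intervalIntegral.integral_div,
        ← intervalIntegral.integral_sub
        (Continuous.intervalIntegrable (by fun_prop) _ _)
        (Continuous.intervalIntegrable (by fun_prop) _ _)]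
      refine intervalIntegral.integral_congr fun t _ => ?_
      have e1 : ((n + n : ℕ) : ℝ) * t + (-(2 * n * θ k)) = -(2 * (n * (θ k - t))) := by
        push_cast; ring
      have e2 := Real.sin_sq_eq_half_sub (n * (θ k - t))
      simp only [e1, Real.cos_neg]
      rw [e2]
      ring
    have h7 := (abs_le.1 (abs_integral_cos_le (C.χ i) (C.cont i) (n + n) (-(2 * n * θ k)))).2
    rw [h6]
    have g2 := C.nonneg i (θ k)
    have g3 : 0 ≤ (1 - ω) / (n : ℝ) ^ 2 := by
      have : 0 ≤ 1 - ω := by linarith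
      positivity
    calc C.χ i (θ k) * ((1 - ω) / (2 * n ^ 2) * (I - τ)) =
        C.χ i (θ k) * ((1 - ω) / n ^ 2) * ((I - τ) / 2) := by ring
      _ ≤ _ := by
        refine mul_le_mul_of_nonneg_left ?_ (mul_nonneg g2 g3)
        linarith
  calc (1 - ω) / (2 * π * n) * (I - τ) ^ 2 =
      ((1 - ω) / (2 * n ^ 2) * (I - τ)) * ((n / π) * (I - τ)) := by
        field_simp
    _ ≤ ((1 - ω) / (2 * n ^ 2) * (I - τ)) * ((n / π) * (π / n * ∑ k, C.χ i (θ k))) := by
        have g3 : 0 ≤ (1 - ω) / (2 * (n : ℝ) ^ 2) * (I - τ) := by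
          have : 0 ≤ 1 - ω := by linarith
          positivity
        gcongr
    _ = ∑ k, C.χ i (θ k) * ((1 - ω) / (2 * n ^ 2) * (I - τ)) := by
        rw [← Finset.sum_mul]
        have := Real.pi_pos.ne'
        field_simp
    _ ≤ _ := Finset.sum_le_sum fun k _ => h1 k

lemma sum_Bi_sq_le (hc : 0 < c) (C : Cells ι a c ℓ G₀ ω) (θ : Fin n → ℝ) :
    ∑ i, Bi C θ i ^ 2 ≤ ℓ ^ 2 / c ^ 3 * ∑ k, ∫ t in (0 : ℝ)..π, fd θ k t ^ 2 * Real.sin t := by
  have hcχ := C.cont
  have h1 : ∀ i, Bi C θ i ^ 2 = ∑ k, ∫ t in (0 : ℝ)..π, fd θ k t ^ 2 * wt C θ i k t := by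
    intro i
    unfold Bi
    refine Real.sq_sqrt (Finset.sum_nonneg fun k _ => ?_)
    refine intervalIntegral.integral_nonneg Real.pi_pos.le fun t ht => ?_
    have := wt_nonneg C θ i k ht
    positivity
  simp_rw [h1]
  rw [Finset.sum_comm, Finset.mul_sum]
  refine Finset.sum_le_sum fun k _ => ?_
  have hwc := fun i => wt_cont hc C θ i k
  rw [← intervalIntegral.integral_finsetSum
      (fun i _ => Continuous.intervalIntegrable (by have := hwc i; fun_prop) _ _),
    ← intervalIntegral.integral_const_mul]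
  refine intervalIntegral.integral_mono_on Real.pi_pos.le
    (Continuous.intervalIntegrable (continuous_finsetSum _ fun i _ => by
      have := hwc i; fun_prop) _ _)
    (Continuous.intervalIntegrable (by fun_prop) _ _) fun t ht => ?_
  have hs := Real.sin_nonneg_of_mem_Icc ht
  have hℓ : 0 ≤ ℓ ^ 2 / c ^ 3 := by positivity
  have h2 : ∀ i, wt C θ i k t ≤ C.χ i t * (ℓ ^ 2 / c ^ 3 * Real.sin t) := by
    intro i
    have g1 := C.nonneg i t
    have g2 := C.nonneg i (θ k)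
    by_cases hk : C.χ i (θ k) = 0
    · unfold wt; rw [hk]; simp only [zero_mul]; positivity
    by_cases hi : C.χ i t = 0
    · unfold wt; rw [hi]; simp
    have s3 := C.diam i t (θ k) hi hk
    have s4 := Real.abs_cos_sub_cos_le t (θ k)
    have s5 : (Real.cos t - Real.cos (θ k)) ^ 2 ≤ ℓ ^ 2 := by
      rw [← sq_abs]
      have := abs_nonneg (Real.cos t - Real.cos (θ k))
      have h6 := s4.trans s3
      gcongr
    have s6 := chi_le_one C i (θ k)
    have hpw : ∀ x, pw c x ≤ 1 / √c ^ 3 := by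
      intro x
      unfold pw
      have h7 : √c ≤ √(max (Real.sin x) c) := Real.sqrt_le_sqrt (le_max_right _ _)
      have h8 : 0 < √c := Real.sqrt_pos.2 hc
      gcongr
    have h9 : (1 / √c ^ 3) * (1 / √c ^ 3) = 1 / c ^ 3 := by
      have h10 : √c ^ 3 * √c ^ 3 = c ^ 3 := by
        rw [← mul_pow, Real.mul_self_sqrt hc.le]
      rw [div_mul_div_comm, one_mul, h10]
    have p1 := hpw (θ k)
    have p2 := hpw t
    have p3 := pw_nonneg c (θ k)
    have p4 := pw_nonneg c t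
    unfold wt
    calc C.χ i (θ k) * pw c (θ k) * (C.χ i t * pw c t) *
          ((Real.cos t - Real.cos (θ k)) ^ 2 * Real.sin t) ≤
          1 * (1 / √c ^ 3) * (C.χ i t * (1 / √c ^ 3)) * (ℓ ^ 2 * Real.sin t) := by
            gcongr
      _ = C.χ i t * (((1 / √c ^ 3) * (1 / √c ^ 3)) * ℓ ^ 2 * Real.sin t) := by ring
      _ = _ := by rw [h9]; ring
  calc ∑ i, fd θ k t ^ 2 * wt C θ i k t ≤
      ∑ i, fd θ k t ^ 2 * (C.χ i t * (ℓ ^ 2 / c ^ 3 * Real.sin t)) :=
        Finset.sum_le_sum fun i _ => mul_le_mul_of_nonneg_left (h2 i) (sq_nonneg _)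
    _ = (∑ i, C.χ i t) * (ℓ ^ 2 / c ^ 3 * (fd θ k t ^ 2 * Real.sin t)) := by
        rw [Finset.sum_mul]
        exact Finset.sum_congr rfl fun i _ => by ring
    _ ≤ 1 * (ℓ ^ 2 / c ^ 3 * (fd θ k t ^ 2 * Real.sin t)) := by
        have := C.sum_le t
        gcongr
    _ = _ := one_mul _

/-- The explicit lower bound for the far part. -/
lemma far_explicit (hn : 1 ≤ n) (ha0 : 0 ≤ a) (ha1 : a < 1) (hc : 0 < c) (hℓ : 0 ≤ ℓ)
    (hG₀ : 0 ≤ G₀) (hω : ω ≤ 1)
    (hω0 : 0 ≤ ω) (C : Cells ι a c ℓ G₀ ω) (θ : Fin n → ℝ) (hθ : ∀ k, θ k ∈ Set.Icc 0 π)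
    {τ K : ℝ} (hτ0 : 0 ≤ τ) (hK0 : 0 ≤ K)
    (hτ : ∀ i, (∫ t in (0 : ℝ)..π, C.χ i t) - τ ≤ π / n * ∑ k, C.χ i (θ k))
    (hJ : ∀ i, J (C.χ i) (n + n) ≤ τ)
    (hK : ∑ k, ∫ t in (0 : ℝ)..π, ff θ k t ^ 2 * Real.sin t ≤ K / n) :
    (1 / n) * ((1 - ω) / (2 * π) * (∑ i, ∑ j, C.G i j *
      (max 0 ((∫ t in (0 : ℝ)..π, C.χ i t) - τ) * max 0 ((∫ t in (0 : ℝ)..π, C.χ j t) - τ))) -
      4 * G₀ * (√(Fintype.card ι) * ℓ) * √((2 * K + 1) / c ^ 3)) ≤ far a θ := by
  have hn' : (0 : ℝ) < n := by exact_mod_cast hn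
  have hpi := Real.pi_pos
  refine le_trans ?_ (far_ge_cells ha0 ha1 hc C θ hθ)
  refine le_trans ?_ (amgm C θ)
  set α := √((1 - ω) / (2 * π * n)) with hα
  have hα0 : 0 ≤ α := Real.sqrt_nonneg _
  have h1ω : 0 ≤ 1 - ω := by linarith
  have hα2 : α ^ 2 = (1 - ω) / (2 * π * n) := Real.sq_sqrt (by positivity)
  set v : ι → ℝ := fun i => max 0 ((∫ t in (0 : ℝ)..π, C.χ i t) - τ) with hv
  have hv0 : ∀ i, 0 ≤ v i := fun i => le_max_left _ _
  set B := Bi C θ with hB
  have hB0 : ∀ i, 0 ≤ B i := fun i => Real.sqrt_nonneg _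
  set Y : ι → ℝ := fun i => √(Wi C θ i * mui C θ i) with hY
  have hY0 : ∀ i, 0 ≤ Y i := fun i => Real.sqrt_nonneg _
  have hYge : ∀ i, α * v i - B i ≤ Y i := by
    intro i
    have g1 := Ai_ge hn hc hω C θ i (hτ i) (hJ i)
    have g2 := Ai_le hc C θ i
    have g3 : α * v i ≤ Y i + B i := g1.trans g2
    linarith
  have hprod : ∀ i j, α * v i * (α * v j) - α * v i * B j - α * v j * B i ≤ Y i * Y j := by
    intro i j
    have x1 := mul_nonneg hα0 (hv0 i)
    have x2 := mul_nonneg hα0 (hv0 j)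
    set p := α * v i
    set q := α * v j
    have y1 := hYge i
    have y2 := hYge j
    have b1 := hB0 i
    have b2 := hB0 j
    have z1 := hY0 i
    have z2 := hY0 j
    rcases le_total p (B i) with h | h
    · have : p * q - p * B j - q * B i ≤ 0 := by
        have h3 : q * p ≤ q * B i := mul_le_mul_of_nonneg_left h x2
        have h4 : 0 ≤ p * B j := mul_nonneg x1 b2
        linarith
      exact this.trans (mul_nonneg z1 z2)
    · rcases le_total q (B j) with h' | h'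
      · have : p * q - p * B j - q * B i ≤ 0 := by
          have h3 : p * q ≤ p * B j := mul_le_mul_of_nonneg_left h' x1
          have h4 : 0 ≤ q * B i := mul_nonneg x2 b1
          linarith
        exact this.trans (mul_nonneg z1 z2)
      · have h5 : (p - B i) * (q - B j) ≤ Y i * Y j :=
          mul_le_mul y1 y2 (by linarith) z1
        have h6 : 0 ≤ B i * B j := mul_nonneg b1 b2
        nlinarith
  -- sums
  have hsumv : ∑ i, v i ≤ π := by
    calc ∑ i, v i ≤ ∑ i, ∫ t in (0 : ℝ)..π, C.χ i t := by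
          refine Finset.sum_le_sum fun i _ => max_le ?_ (by linarith)
          exact intervalIntegral.integral_nonneg Real.pi_pos.le fun t _ => C.nonneg i t
      _ ≤ π := chi_integral_le C
  have hsumB : ∑ i, B i ≤ √(Fintype.card ι) * √(ℓ ^ 2 / c ^ 3 * ((2 * K + 1) / n)) := by
    have g1 := Real.sum_mul_le_sqrt_mul_sqrt univ (fun _ : ι => (1 : ℝ)) B
    simp only [one_mul, one_pow, Finset.sum_const, nsmul_eq_mul, mul_one, Finset.card_univ] at g1
    refine g1.trans ?_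
    have g2 := sum_Bi_sq_le hc C θ
    have g3 := sum_fd_le hn θ hK
    have g4 : ∑ i, B i ^ 2 ≤ ℓ ^ 2 / c ^ 3 * ((2 * K + 1) / n) := by
      refine g2.trans ?_
      gcongr
    gcongr
  have hcross : ∑ i, ∑ j, C.G i j * (α * v i * B j) ≤ G₀ * α * ((∑ i, v i) * ∑ j, B j) := by
    calc ∑ i, ∑ j, C.G i j * (α * v i * B j) ≤ ∑ i, ∑ j, G₀ * (α * v i * B j) := by
          refine Finset.sum_le_sum fun i _ => Finset.sum_le_sum fun j _ => ?_
          exact mul_le_mul_of_nonneg_right (C.G_le i j)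
            (mul_nonneg (mul_nonneg hα0 (hv0 i)) (hB0 j))
      _ = _ := by
          rw [Finset.sum_mul_sum, Finset.mul_sum]
          refine Finset.sum_congr rfl fun i _ => ?_
          rw [Finset.mul_sum]
          exact Finset.sum_congr rfl fun j _ => by ring
  have hcross2 : ∑ i, ∑ j, C.G i j * (α * v j * B i) = ∑ i, ∑ j, C.G i j * (α * v i * B j) := by
    rw [Finset.sum_comm]
    refine Finset.sum_congr rfl fun i _ => Finset.sum_congr rfl fun j _ => ?_
    rw [C.G_symm]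
  have hmain : α ^ 2 * (∑ i, ∑ j, C.G i j * (v i * v j)) -
      2 * (∑ i, ∑ j, C.G i j * (α * v i * B j)) ≤ ∑ i, ∑ j, C.G i j * (Y i * Y j) := by
    have e1 : α ^ 2 * (∑ i, ∑ j, C.G i j * (v i * v j)) -
        2 * (∑ i, ∑ j, C.G i j * (α * v i * B j)) =
        ∑ i, ∑ j, C.G i j * (α * v i * (α * v j) - α * v i * B j - α * v j * B i) := by
      have e2 : ∑ i, ∑ j, C.G i j * (α * v i * (α * v j) - α * v i * B j - α * v j * B i) =
          ∑ i, ∑ j, α ^ 2 * (C.G i j * (v i * v j)) - ∑ i, ∑ j, C.G i j * (α * v i * B j) -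
          ∑ i, ∑ j, C.G i j * (α * v j * B i) := by
        rw [← Finset.sum_sub_distrib, ← Finset.sum_sub_distrib]
        refine Finset.sum_congr rfl fun i _ => ?_
        rw [← Finset.sum_sub_distrib, ← Finset.sum_sub_distrib]
        exact Finset.sum_congr rfl fun j _ => by ring
      rw [e2, hcross2, Finset.mul_sum]
      have e3 : ∀ i, α ^ 2 * ∑ j, C.G i j * (v i * v j) =
          ∑ j, α ^ 2 * (C.G i j * (v i * v j)) := fun i => by rw [Finset.mul_sum]
      simp_rw [e3]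
      ring
    rw [e1]
    refine Finset.sum_le_sum fun i _ => Finset.sum_le_sum fun j _ => ?_
    exact mul_le_mul_of_nonneg_left (hprod i j) (C.G_nonneg i j)
  refine le_trans ?_ hmain
  have hsumv0 : 0 ≤ ∑ i, v i := Finset.sum_nonneg fun i _ => hv0 i
  have hsumB0 : 0 ≤ ∑ i, B i := Finset.sum_nonneg fun i _ => hB0 i
  have h8 : G₀ * α * ((∑ i, v i) * ∑ j, B j) ≤
      (1 / n) * (2 * G₀ * (√(Fintype.card ι) * ℓ) * √((2 * K + 1) / c ^ 3)) := by
    have g1 : α ≤ √(1 / (2 * π * n)) := by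
      apply Real.sqrt_le_sqrt
      gcongr
      linarith
    have g2 : √(ℓ ^ 2 / c ^ 3 * ((2 * K + 1) / n)) = ℓ * √((2 * K + 1) / c ^ 3) * √(1 / n) := by
      have : ℓ ^ 2 / c ^ 3 * ((2 * K + 1) / n) = ℓ ^ 2 * ((2 * K + 1) / c ^ 3) * (1 / n) := by ring
      rw [this, Real.sqrt_mul (by positivity), Real.sqrt_mul (by positivity), Real.sqrt_sq hℓ]
    have g3 : √(1 / (2 * π * n)) * √(1 / (n : ℝ)) * π ≤ (1 / n) * 2 := by
      have e1 : √(1 / (2 * π * n)) = √(1 / (2 * π)) * √(1 / (n : ℝ)) := by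
        rw [← Real.sqrt_mul (by positivity)]; congr 1; field_simp
      have e2 : √(1 / (n : ℝ)) * √(1 / (n : ℝ)) = 1 / n := Real.mul_self_sqrt (by positivity)
      have e3 : √(1 / (2 * π)) * π ≤ 2 := by
        have e4 : √(1 / (2 * π)) * π = √(π / 2) := by
          have : π = √(π ^ 2) := (Real.sqrt_sq hpi.le).symm
          conv_lhs => rw [this, ← Real.sqrt_mul (by positivity)]
          congr 1
          rw [Real.sqrt_sq hpi.le]
          field_simp
        rw [e4, Real.sqrt_le_left (by norm_num)]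
        linarith [Real.pi_le_four]
      calc √(1 / (2 * π * n)) * √(1 / (n : ℝ)) * π =
          (√(1 / (n : ℝ)) * √(1 / (n : ℝ))) * (√(1 / (2 * π)) * π) := by rw [e1]; ring
        _ ≤ (1 / n) * 2 := by rw [e2]; gcongr
    calc G₀ * α * ((∑ i, v i) * ∑ j, B j) ≤
        G₀ * √(1 / (2 * π * n)) * (π * (√(Fintype.card ι) *
          √(ℓ ^ 2 / c ^ 3 * ((2 * K + 1) / n)))) := by gcongr
      _ = (√(1 / (2 * π * n)) * √(1 / (n : ℝ)) * π) *
          (G₀ * (√(Fintype.card ι) * ℓ) * √((2 * K + 1) / c ^ 3)) := by rw [g2]; ring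
      _ ≤ ((1 / n) * 2) * (G₀ * (√(Fintype.card ι) * ℓ) * √((2 * K + 1) / c ^ 3)) := by
          gcongr
      _ = _ := by ring
  have h9 : (1 / (n : ℝ)) * ((1 - ω) / (2 * π) * (∑ i, ∑ j, C.G i j * (v i * v j))) =
      α ^ 2 * (∑ i, ∑ j, C.G i j * (v i * v j)) := by
    rw [hα2]; field_simp
  have h10 : (1 / (n : ℝ)) * ((1 - ω) / (2 * π) * (∑ i, ∑ j, C.G i j * (v i * v j)) -
      4 * G₀ * (√(Fintype.card ι) * ℓ) * √((2 * K + 1) / c ^ 3)) =
      (1 / (n : ℝ)) * ((1 - ω) / (2 * π) * (∑ i, ∑ j, C.G i j * (v i * v j))) -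
      2 * ((1 / n) * (2 * G₀ * (√(Fintype.card ι) * ℓ) * √((2 * K + 1) / c ^ 3))) := by ring
  rw [h10, h9]
  linarith

end Pool.Agent.H79
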