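import Pool.Agent.H79.Far2

/-!
Far part: the limit for fixed cells, and the comparison with the double integral.
-/

open Real MeasureTheory intervalIntegral Finset Filter Topology

namespace Pool.Agent.H79

variable {n : ℕ}

lemma tendsto_J (h : ℝ → ℝ) (hh : Continuous h) : Tendsto (fun m => J h m) atTop (𝓝 0) := by
  have key : ∀ u : ℕ → ℝ, (∃ C, ∀ M, ∑ m ∈ range M, u m ^ 2 ≤ C) →
      Tendsto (fun m => |u m|) atTop (𝓝 0) := by
    rintro u ⟨C, hC⟩
    have h1 : Summable fun m => u m ^ 2 :=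
      summable_of_sum_range_le (fun m => sq_nonneg _) hC
    have h2 := h1.tendsto_atTop_zero
    have h3 := (Real.continuous_sqrt.tendsto 0).comp h2
    rw [Real.sqrt_zero] at h3
    refine h3.congr fun m => ?_
    simp only [Function.comp_apply]
    exact Real.sqrt_sq_eq_abs _
  have h1 := key (fun m => ∫ t in (0 : ℝ)..π, h t * Real.cos ((m + 1 : ℕ) * t))
    ⟨_, bessel_cos h hh⟩
  have h2 := key (fun m => ∫ t in (0 : ℝ)..π, h t * Real.sin ((m + 1 : ℕ) * t))
    ⟨_, bessel_sin h hh⟩
  have h3 := h1.add h2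
  rw [add_zero] at h3
  have h4 : Tendsto (fun m => J h (m + 1)) atTop (𝓝 0) := h3
  exact (tendsto_add_atTop_iff_nat 1).1 h4

variable {ι : Type} [Fintype ι] {a c ℓ G₀ ω : ℝ}

lemma chi_equi (hc : 0 < c) (C : Cells ι a c ℓ G₀ ω) (i : ι) {τ : ℝ} (hτ : 0 < τ) :
    ∀ᶠ n : ℕ in atTop, ∀ θ : Fin n → ℝ, Good θ → energy (fun k => Real.cos (θ k)) ≤ 3 →
      (∫ t in (0 : ℝ)..π, C.χ i t) - τ ≤ π / n * ∑ k, C.χ i (θ k) := by
  have hχ := C.cont i
  have hpos : ∀ t, 0 < max (Real.sin t) c := fun t => lt_of_lt_of_le hc (le_max_right _ _)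
  have hq : Continuous fun t => C.χ i t / max (Real.sin t) c :=
    hχ.div (by fun_prop) fun t => (hpos t).ne'
  have hmul : ∀ t, C.χ i t / max (Real.sin t) c * Real.sin t = C.χ i t := by
    intro t
    by_cases h : C.χ i t = 0
    · rw [h]; simp
    · have hs := (C.supp i t h).2
      rw [max_eq_left hs]
      have : Real.sin t ≠ 0 := (lt_of_lt_of_le hc hs).ne'
      field_simp
  filter_upwards [equidist _ hq hτ] with n h1 θ hg hE
  have h2 := (abs_le.1 (h1 θ hg hE)).1
  simp_rw [hmul] at h2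
  linarith

/-- The far part for fixed cells. -/
lemma far_cells (ha0 : 0 ≤ a) (ha1 : a < 1) (hc : 0 < c) (hℓ : 0 ≤ ℓ)
    (hG₀ : 0 ≤ G₀) (hω : ω ≤ 1) (hω0 : 0 ≤ ω) (C : Cells ι a c ℓ G₀ ω) {K ε : ℝ} (hK0 : 0 ≤ K)
    (hε : 0 < ε) :
    ∀ᶠ n : ℕ in atTop, ∀ θ : Fin n → ℝ, Good θ → energy (fun k => Real.cos (θ k)) ≤ 3 →
      ∑ k, ∫ t in (0 : ℝ)..π, ff θ k t ^ 2 * Real.sin t ≤ K / n →
    (1 / n) * ((1 - ω) / (2 * π) * (∑ i, ∑ j, C.G i j *
      ((∫ t in (0 : ℝ)..π, C.χ i t) * (∫ t in (0 : ℝ)..π, C.χ j t))) -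
      4 * G₀ * (√(Fintype.card ι) * ℓ) * √((2 * K + 1) / c ^ 3) - ε) ≤ far a θ := by
  set I : ι → ℝ := fun i => ∫ t in (0 : ℝ)..π, C.χ i t with hI
  have hI0 : ∀ i, 0 ≤ I i := fun i =>
    intervalIntegral.integral_nonneg Real.pi_pos.le fun t _ => C.nonneg i t
  -- choose `τ`
  set Φ : ℝ → ℝ := fun τ => (1 - ω) / (2 * π) * (∑ i, ∑ j, C.G i j *
      (max 0 (I i - τ) * max 0 (I j - τ))) with hΦ
  have hΦc : Continuous Φ := by rw [hΦ]; fun_prop
  have hΦ0 : Φ 0 = (1 - ω) / (2 * π) * (∑ i, ∑ j, C.G i j * (I i * I j)) := by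
    simp only [hΦ, sub_zero]
    congr 1
    refine Finset.sum_congr rfl fun i _ => Finset.sum_congr rfl fun j _ => ?_
    rw [max_eq_right (hI0 i), max_eq_right (hI0 j)]
  have hev : ∀ᶠ τ in 𝓝 (0 : ℝ), Φ 0 - ε < Φ τ :=
    hΦc.continuousAt.eventually (Ioi_mem_nhds (by linarith))
  rw [Metric.eventually_nhds_iff] at hev
  obtain ⟨ρ, hρ, hball⟩ := hev
  set τ := ρ / 2 with hτdef
  have hτ : 0 < τ := by positivity
  have hΦτ : Φ 0 - ε < Φ τ := hball (by
    rw [Real.dist_eq, sub_zero, abs_of_pos hτ]; linarith)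
  have e1 : ∀ᶠ n : ℕ in atTop, ∀ i, ∀ θ : Fin n → ℝ, Good θ →
      energy (fun k => Real.cos (θ k)) ≤ 3 → I i - τ ≤ π / n * ∑ k, C.χ i (θ k) :=
    Filter.eventually_all.2 fun i => chi_equi hc C i hτ
  have e2 : ∀ᶠ n : ℕ in atTop, ∀ i, J (C.χ i) (n + n) ≤ τ := by
    refine Filter.eventually_all.2 fun i => ?_
    have h1 := tendsto_J (C.χ i) (C.cont i)
    have h2 : Tendsto (fun n : ℕ => n + n) atTop atTop :=
      tendsto_atTop_mono (fun n => Nat.le_add_left n n) tendsto_id
    have h3 := (h1.comp h2).eventually (Iio_mem_nhds hτ)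
    filter_upwards [h3] with n h4
    exact le_of_lt h4
  filter_upwards [e1, e2, eventually_ge_atTop 1] with n h1 h2 hn θ hg hE hK
  have hn' : (0 : ℝ) < n := by exact_mod_cast hn
  have h3 := far_explicit hn ha0 ha1 hc hℓ hG₀ hω hω0 C θ hg.mem hτ.le hK0
    (fun i => h1 i θ hg hE) h2 hK
  refine le_trans ?_ h3
  refine mul_le_mul_of_nonneg_left ?_ (by positivity)
  have h4 : Φ τ = (1 - ω) / (2 * π) * (∑ i, ∑ j, C.G i j *
      (max 0 ((∫ t in (0 : ℝ)..π, C.χ i t) - τ) * max 0 ((∫ t in (0 : ℝ)..π, C.χ j t) - τ))) := rfl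
  rw [← h4]
  rw [hΦ0] at hΦτ
  linarith

lemma continuous_g2 (ha0 : 0 ≤ a) (ha1 : a < 1) : Continuous fun p : ℝ × ℝ => g2 a p.1 p.2 := by
  unfold g2
  have := continuous_ups ha0 ha1
  fun_prop

/-- The double integral of the limiting kernel. -/
noncomputable def GG (a : ℝ) : ℝ := ∫ φ in (0 : ℝ)..π, ∫ t in (0 : ℝ)..π, g2 a φ t

/-- Deterministic comparison. -/
lemma GG_le_cells [DecidableEq ι] (ha0 : 0 ≤ a) (ha1 : a < 1) (C : Cells ι a c ℓ G₀ ω) {κ : ℝ}
    (hκ : 0 ≤ κ) (hG : ∀ φ ∈ Set.Icc 0 π, ∀ t ∈ Set.Icc 0 π, g2 a φ t ≤ G₀)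
    (hclose : ∀ i j, i ≠ j → ∀ φ t, C.χ i φ ≠ 0 → C.χ j t ≠ 0 → g2 a φ t ≤ C.G i j + κ) :
    GG a ≤ (∑ i, ∑ j, C.G i j *
      ((∫ t in (0 : ℝ)..π, C.χ i t) * (∫ t in (0 : ℝ)..π, C.χ j t))) + κ * π ^ 2 +
      G₀ * (π ^ 2 - ((∑ i, ∫ t in (0 : ℝ)..π, C.χ i t) ^ 2 -
        ∑ i, (∫ t in (0 : ℝ)..π, C.χ i t) ^ 2)) := by
  have hχ := C.cont
  have hcg := continuous_g2 ha0 ha1
  set I : ι → ℝ := fun i => ∫ t in (0 : ℝ)..π, C.χ i t with hI
  -- pointwise bound
  have hpt : ∀ φ ∈ Set.Icc 0 π, ∀ t ∈ Set.Icc 0 π, g2 a φ t ≤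
      (∑ i, ∑ j, C.G i j * (C.χ i φ * C.χ j t)) + κ +
      G₀ * (1 - ((∑ i, C.χ i φ) * (∑ j, C.χ j t) - ∑ i, C.χ i φ * C.χ i t)) := by
    intro φ hφ t ht
    set Z := (∑ i, C.χ i φ) * (∑ j, C.χ j t) - ∑ i, C.χ i φ * C.χ i t with hZ
    have hZ2 : Z = ∑ i, ∑ j, (if i = j then 0 else C.χ i φ * C.χ j t) := by
      rw [hZ, Finset.sum_mul_sum]
      rw [← Finset.sum_sub_distrib]
      refine Finset.sum_congr rfl fun i _ => ?_
      have e1 : ∑ j, C.χ i φ * C.χ j t = ∑ j, (if i = j then 0 else C.χ i φ * C.χ j t) +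
          ∑ j, (if i = j then C.χ i φ * C.χ j t else 0) := by
        rw [← Finset.sum_add_distrib]
        refine Finset.sum_congr rfl fun j _ => ?_
        split_ifs <;> ring
      rw [e1, Finset.sum_ite_eq univ i]
      simp
    have hZ0 : 0 ≤ Z := by
      rw [hZ2]
      refine Finset.sum_nonneg fun i _ => Finset.sum_nonneg fun j _ => ?_
      split_ifs
      · exact le_rfl
      · exact mul_nonneg (C.nonneg _ _) (C.nonneg _ _)
    have hZ1 : Z ≤ 1 := by
      have g1 := C.sum_le φ
      have g7 := C.sum_le t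
      have g3 : 0 ≤ ∑ i, C.χ i φ := Finset.sum_nonneg fun i _ => C.nonneg i φ
      have g4 : 0 ≤ ∑ i, C.χ i t := Finset.sum_nonneg fun i _ => C.nonneg i t
      have g5 : 0 ≤ ∑ i, C.χ i φ * C.χ i t :=
        Finset.sum_nonneg fun i _ => mul_nonneg (C.nonneg _ _) (C.nonneg _ _)
      have g6 : (∑ i, C.χ i φ) * (∑ j, C.χ j t) ≤ 1 := by nlinarith
      linarith
    have h1 : g2 a φ t * Z ≤ (∑ i, ∑ j, C.G i j * (C.χ i φ * C.χ j t)) + κ * Z := by
      rw [hZ2, Finset.mul_sum, Finset.mul_sum, ← Finset.sum_add_distrib]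
      refine Finset.sum_le_sum fun i _ => ?_
      rw [Finset.mul_sum, Finset.mul_sum, ← Finset.sum_add_distrib]
      refine Finset.sum_le_sum fun j _ => ?_
      by_cases hij : i = j
      · subst hij
        simp only [if_true, mul_zero, add_zero]
        exact mul_nonneg (C.G_nonneg _ _) (mul_nonneg (C.nonneg _ _) (C.nonneg _ _))
      · simp only [hij, if_false]
        by_cases hi : C.χ i φ = 0
        · rw [hi]; simp
        by_cases hj : C.χ j t = 0
        · rw [hj]; simp
        have h2 := hclose i j hij φ t hi hj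
        have h3 : 0 ≤ C.χ i φ * C.χ j t := mul_nonneg (C.nonneg _ _) (C.nonneg _ _)
        nlinarith
    have h2 : g2 a φ t * (1 - Z) ≤ G₀ * (1 - Z) :=
      mul_le_mul_of_nonneg_right (hG φ hφ t ht) (by linarith)
    clear hZ2
    clear_value Z
    have h3 : κ * Z ≤ κ := by
      have := mul_le_mul_of_nonneg_left hZ1 hκ
      linarith
    have h4 : g2 a φ t = g2 a φ t * Z + g2 a φ t * (1 - Z) := by ring
    generalize (∑ i, ∑ j, C.G i j * (C.χ i φ * C.χ j t)) = S at h1 ⊢
    linarith
  -- inner integral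
  have hin : ∀ φ ∈ Set.Icc 0 π, ∫ t in (0 : ℝ)..π, g2 a φ t ≤
      (∑ i, ∑ j, C.G i j * (C.χ i φ * I j)) + κ * π +
      G₀ * (π - ((∑ i, C.χ i φ) * (∑ j, I j) - ∑ i, C.χ i φ * I i)) := by
    intro φ hφ
    have hgc : Continuous fun t => g2 a φ t := by
      have hu := continuous_ups ha0 ha1
      unfold g2
      fun_prop
    calc ∫ t in (0 : ℝ)..π, g2 a φ t ≤ ∫ t in (0 : ℝ)..π,
        ((∑ i, ∑ j, C.G i j * (C.χ i φ * C.χ j t)) + κ +
      G₀ * (1 - ((∑ i, C.χ i φ) * (∑ j, C.χ j t) - ∑ i, C.χ i φ * C.χ i t))) := by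
          refine intervalIntegral.integral_mono_on Real.pi_pos.le
            (hgc.intervalIntegrable _ _)
            (Continuous.intervalIntegrable (by fun_prop) _ _) fun t ht => hpt φ hφ t ht
      _ = _ := by
          rw [intervalIntegral.integral_add
            (Continuous.intervalIntegrable (by fun_prop) _ _)
            (Continuous.intervalIntegrable (by fun_prop) _ _), intervalIntegral.integral_add
            (Continuous.intervalIntegrable (by fun_prop) _ _)
            (Continuous.intervalIntegrable (by fun_prop) _ _),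
            intervalIntegral.integral_const_mul, intervalIntegral.integral_sub
            (Continuous.intervalIntegrable (by fun_prop) _ _)
            (Continuous.intervalIntegrable (by fun_prop) _ _), intervalIntegral.integral_sub
            (Continuous.intervalIntegrable (by fun_prop) _ _)
            (Continuous.intervalIntegrable (by fun_prop) _ _),
            intervalIntegral.integral_const_mul,
            intervalIntegral.integral_finsetSum
              (fun i _ => Continuous.intervalIntegrable (by fun_prop) _ _),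
            intervalIntegral.integral_finsetSum
              (fun i _ => Continuous.intervalIntegrable (by fun_prop) _ _),
            intervalIntegral.integral_finsetSum
              (fun i _ => Continuous.intervalIntegrable (by fun_prop) _ _)]
          have e1 : ∀ i, ∫ t in (0 : ℝ)..π, ∑ j, C.G i j * (C.χ i φ * C.χ j t) =
              ∑ j, C.G i j * (C.χ i φ * I j) := by
            intro i
            rw [intervalIntegral.integral_finsetSum
              (fun i _ => Continuous.intervalIntegrable (by fun_prop) _ _)]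
            refine Finset.sum_congr rfl fun j _ => ?_
            rw [intervalIntegral.integral_const_mul, intervalIntegral.integral_const_mul]
          have e2 : ∀ i, ∫ t in (0 : ℝ)..π, C.χ i φ * C.χ i t = C.χ i φ * I i := by
            intro i
            rw [intervalIntegral.integral_const_mul]
          simp_rw [e1, e2]
          rw [intervalIntegral.integral_const, intervalIntegral.integral_const]
          simp only [smul_eq_mul, sub_zero, mul_one]
          ring
  -- outer integral
  have hout : Continuous fun φ => ∫ t in (0 : ℝ)..π, g2 a φ t :=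
    intervalIntegral.continuous_parametric_intervalIntegral_of_continuous' hcg 0 π
  unfold GG
  calc ∫ φ in (0 : ℝ)..π, ∫ t in (0 : ℝ)..π, g2 a φ t ≤ ∫ φ in (0 : ℝ)..π,
      ((∑ i, ∑ j, C.G i j * (C.χ i φ * I j)) + κ * π +
      G₀ * (π - ((∑ i, C.χ i φ) * (∑ j, I j) - ∑ i, C.χ i φ * I i))) := by
        refine intervalIntegral.integral_mono_on Real.pi_pos.le
          (hout.intervalIntegrable _ _)
          (Continuous.intervalIntegrable (by fun_prop) _ _) fun φ hφ => hin φ hφ
    _ = _ := by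
        have e1 : ∀ i, ∫ φ in (0 : ℝ)..π, ∑ j, C.G i j * (C.χ i φ * I j) =
            ∑ j, C.G i j * (I i * I j) := by
          intro i
          rw [intervalIntegral.integral_finsetSum
            (fun i _ => Continuous.intervalIntegrable (by fun_prop) _ _)]
          refine Finset.sum_congr rfl fun j _ => ?_
          rw [intervalIntegral.integral_const_mul, intervalIntegral.integral_mul_const]
        have e2 : ∀ i, ∫ φ in (0 : ℝ)..π, C.χ i φ * I i = I i ^ 2 := by
          intro i
          rw [intervalIntegral.integral_mul_const, sq]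
        have f1 : ∫ φ in (0 : ℝ)..π, ∑ i, ∑ j, C.G i j * (C.χ i φ * I j) =
            ∑ i, ∑ j, C.G i j * (I i * I j) := by
          rw [intervalIntegral.integral_finsetSum
            (fun i _ => Continuous.intervalIntegrable (by fun_prop) _ _)]
          exact Finset.sum_congr rfl fun i _ => e1 i
        have f2 : ∫ φ in (0 : ℝ)..π, ∑ i, C.χ i φ * I i = ∑ i, I i ^ 2 := by
          rw [intervalIntegral.integral_finsetSum
            (fun i _ => Continuous.intervalIntegrable (by fun_prop) _ _)]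
          exact Finset.sum_congr rfl fun i _ => e2 i
        have f3 : ∫ φ in (0 : ℝ)..π, (∑ i, C.χ i φ) * (∑ j, I j) = (∑ i, I i) * (∑ j, I j) := by
          rw [intervalIntegral.integral_mul_const, intervalIntegral.integral_finsetSum
            (fun i _ => Continuous.intervalIntegrable (by fun_prop) _ _)]
        have f4 : ∫ φ in (0 : ℝ)..π, (π - ((∑ i, C.χ i φ) * (∑ j, I j) - ∑ i, C.χ i φ * I i)) =
            π * π - ((∑ i, I i) * (∑ j, I j) - ∑ i, I i ^ 2) := by
          rw [intervalIntegral.integral_sub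
            (Continuous.intervalIntegrable (by fun_prop) _ _)
            (Continuous.intervalIntegrable (by fun_prop) _ _), intervalIntegral.integral_sub
            (Continuous.intervalIntegrable (by fun_prop) _ _)
            (Continuous.intervalIntegrable (by fun_prop) _ _), f2, f3,
            intervalIntegral.integral_const]
          simp only [smul_eq_mul, sub_zero]
        rw [intervalIntegral.integral_add
          (Continuous.intervalIntegrable (by fun_prop) _ _)
          (Continuous.intervalIntegrable (by fun_prop) _ _), intervalIntegral.integral_add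
          (Continuous.intervalIntegrable (by fun_prop) _ _)
          (Continuous.intervalIntegrable (by fun_prop) _ _), f1,
          intervalIntegral.integral_const,
          intervalIntegral.integral_const_mul, f4]
        simp only [smul_eq_mul, sub_zero]
        ring

end Pool.Agent.H79
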