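import Pool.Agent.H79.Far3

/-!
Far part: construction of the cells and the final lower bound of the far part.
-/

open Real MeasureTheory intervalIntegral Finset Filter Topology

namespace Pool.Agent.H79

variable {n : ℕ}

/-- Clamp to the unit interval. -/
noncomputable def TT (x : ℝ) : ℝ := max 0 (min 1 x)

lemma TT_nonneg (x : ℝ) : 0 ≤ TT x := le_max_left _ _

lemma TT_le_one (x : ℝ) : TT x ≤ 1 := max_le zero_le_one (min_le_left _ _)

lemma TT_eq_one {x : ℝ} (hx : 1 ≤ x) : TT x = 1 := by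
  unfold TT; rw [min_eq_left hx, max_eq_right zero_le_one]

lemma TT_eq_zero {x : ℝ} (hx : x ≤ 0) : TT x = 0 := by
  unfold TT; rw [min_eq_right (by linarith), max_eq_left hx]

@[fun_prop]
lemma continuous_TT : Continuous TT := by unfold TT; fun_prop

/-- A trapezoidal bump. -/
noncomputable def bump (s ℓ w t : ℝ) : ℝ := TT ((t - s) / w) * TT ((s + ℓ - t) / w)

@[fun_prop]
lemma continuous_bump (s ℓ w : ℝ) : Continuous (bump s ℓ w) := by unfold bump; fun_prop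

lemma bump_nonneg (s ℓ w t : ℝ) : 0 ≤ bump s ℓ w t := mul_nonneg (TT_nonneg _) (TT_nonneg _)

lemma bump_le_one (s ℓ w t : ℝ) : bump s ℓ w t ≤ 1 :=
  mul_le_one₀ (TT_le_one _) (TT_nonneg _) (TT_le_one _)

lemma bump_supp {s ℓ w t : ℝ} (hw : 0 < w) (h : bump s ℓ w t ≠ 0) : s < t ∧ t < s + ℓ := by
  constructor
  · by_contra hc
    push Not at hc
    apply h
    unfold bump
    rw [TT_eq_zero (div_nonpos_of_nonpos_of_nonneg (by linarith) hw.le), zero_mul]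
  · by_contra hc
    push Not at hc
    apply h
    unfold bump
    rw [TT_eq_zero (x := (s + ℓ - t) / w) (div_nonpos_of_nonpos_of_nonneg (by linarith) hw.le),
      mul_zero]

lemma bump_eq_one {s ℓ w t : ℝ} (hw : 0 < w) (h1 : s + w ≤ t) (h2 : t ≤ s + ℓ - w) :
    bump s ℓ w t = 1 := by
  unfold bump
  rw [TT_eq_one ((le_div_iff₀ hw).2 (by linarith)), TT_eq_one ((le_div_iff₀ hw).2 (by linarith)),
    mul_one]

lemma integral_bump_ge {s ℓ w : ℝ} (hw : 0 < w) (hwl : 2 * w ≤ ℓ) (hs : 0 ≤ s)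
    (hsl : s + ℓ ≤ π) : ℓ - 2 * w ≤ ∫ t in (0 : ℝ)..π, bump s ℓ w t := by
  have hc := continuous_bump s ℓ w
  have h1 : ∫ t in (s + w)..(s + ℓ - w), bump s ℓ w t = ℓ - 2 * w := by
    rw [intervalIntegral.integral_congr (g := fun _ => (1 : ℝ))]
    · simp; ring
    · intro t ht
      rw [Set.uIcc_of_le (by linarith)] at ht
      exact bump_eq_one hw ht.1 ht.2
  rw [← h1]
  refine intervalIntegral.integral_mono_interval (by linarith) (by linarith) (by linarith) ?_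
    (hc.intervalIntegrable _ _)
  exact Eventually.of_forall fun t => bump_nonneg _ _ _ _

/-- The kernel in the cell condition. -/
noncomputable def Hc (c : ℝ) (p : ℝ × ℝ) : ℝ :=
  Real.cos ((p.1 - p.2) / 2) ^ 2 * Real.sin ((p.1 + p.2) / 2) ^ 2 * Real.sin p.2 *
    (pw c p.1 * pw c p.2)

lemma continuous_Hc {c : ℝ} (hc : 0 < c) : Continuous (Hc c) := by
  have := pw_cont hc
  unfold Hc
  fun_prop

lemma Hc_diag {c t : ℝ} (hc : 0 < c) (ht : c ≤ Real.sin t) : Hc c (t, t) = 1 := by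
  unfold Hc
  simp only [sub_self, zero_div, Real.cos_zero, one_pow, one_mul, add_self_div_two]
  rw [pw_eq ht]
  have hs : 0 < Real.sin t := lt_of_lt_of_le hc ht
  have h1 : √(Real.sin t) ^ 2 = Real.sin t := Real.sq_sqrt hs.le
  have h2 : 0 < √(Real.sin t) := Real.sqrt_pos.2 hs
  set x := √(Real.sin t)
  rw [← h1]
  field_simp

lemma g2_le {a φ t : ℝ} (ha0 : 0 ≤ a) (ha1 : a < 1) : g2 a φ t ≤ 1 / (1 - a) ^ 2 := by
  unfold g2
  have hu1 := ups_nonneg ha0 ha1 (φ - t)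
  have hu2 := ups_nonneg ha0 ha1 (φ + t)
  have hx0 : 0 ≤ √(Real.sin φ) := Real.sqrt_nonneg _
  have hy0 : 0 ≤ √(Real.sin t) := Real.sqrt_nonneg _
  have hx1 : √(Real.sin φ) ≤ 1 := by rw [Real.sqrt_le_one]; exact Real.sin_le_one _
  have hy1 : √(Real.sin t) ≤ 1 := by rw [Real.sqrt_le_one]; exact Real.sin_le_one _
  have h1 : ups a (φ - t) ≤ 1 / (1 - a) ^ 2 := by
    unfold ups
    have h2 : (1 - a) ^ 2 ≤ Del a (φ - t) := by
      rw [Del_eq]
      have : 0 ≤ 4 * a * Real.sin ((φ - t) / 2) ^ 2 := by positivity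
      linarith
    have h3 : 0 < (1 - a) ^ 2 := by have : 0 < 1 - a := by linarith
                                    positivity
    exact div_le_div₀ zero_le_one ha1.le h3 h2
  calc √(Real.sin φ) * √(Real.sin t) * (ups a (φ - t) - ups a (φ + t)) ≤
      √(Real.sin φ) * √(Real.sin t) * ups a (φ - t) := by
        refine mul_le_mul_of_nonneg_left (by linarith) (by positivity)
    _ ≤ 1 * ups a (φ - t) :=
        mul_le_mul_of_nonneg_right (mul_le_one₀ hx1 hy0 hy1) hu1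
    _ ≤ _ := by rw [one_mul]; exact h1

lemma integral_bump_le {s ℓ w : ℝ} (hw : 0 < w) (hℓ : 0 ≤ ℓ) (hs : 0 ≤ s)
    (hsl : s + ℓ ≤ π) : ∫ t in (0 : ℝ)..π, bump s ℓ w t ≤ ℓ := by
  have hc := continuous_bump s ℓ w
  have h1 : ∫ t in (0 : ℝ)..s, bump s ℓ w t = 0 := by
    rw [intervalIntegral.integral_congr (g := fun _ => (0 : ℝ))]
    · simp
    · intro t ht
      rw [Set.uIcc_of_le hs] at ht
      by_contra h
      have := (bump_supp hw h).1
      linarith [ht.2]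
  have h3 : ∫ t in (s + ℓ)..π, bump s ℓ w t = 0 := by
    rw [intervalIntegral.integral_congr (g := fun _ => (0 : ℝ))]
    · simp
    · intro t ht
      rw [Set.uIcc_of_le hsl] at ht
      by_contra h
      have := (bump_supp hw h).2
      linarith [ht.1]
  have h2 : ∫ t in s..(s + ℓ), bump s ℓ w t ≤ ∫ t in s..(s + ℓ), (1 : ℝ) := by
    refine intervalIntegral.integral_mono_on (by linarith)
      (hc.intervalIntegrable _ _) (Continuous.intervalIntegrable (by fun_prop) _ _) fun t _ =>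
      bump_le_one _ _ _ _
  have h4 : ∫ t in s..(s + ℓ), (1 : ℝ) = ℓ := by simp
  rw [← intervalIntegral.integral_add_adjacent_intervals (hc.intervalIntegrable 0 (s + ℓ))
    (hc.intervalIntegrable (s + ℓ) π),
    ← intervalIntegral.integral_add_adjacent_intervals (hc.intervalIntegrable 0 s)
    (hc.intervalIntegrable s (s + ℓ)), h1, h3]
  linarith

lemma sin_ge_of_mem {δ t : ℝ} (hδ0 : 0 < δ) (hδ1 : δ < π / 2) (h1 : δ ≤ t) (h2 : t ≤ π - δ) :
    Real.sin δ ≤ Real.sin t := by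
  rcases le_total t (π / 2) with h | h
  · exact Real.sin_le_sin_of_le_of_le_pi_div_two (by linarith) h h1
  · rw [← Real.sin_pi_sub t]
    exact Real.sin_le_sin_of_le_of_le_pi_div_two (by linarith) (by linarith) (by linarith)

/-- The cells. -/
lemma exists_cells {a : ℝ} (ha0 : 0 ≤ a) (ha1 : a < 1) {δ ω κ : ℝ} (hδ0 : 0 < δ)
    (hδ1 : δ < π / 2) (hω : 0 < ω) (hκ : 0 < κ) :
    ∀ᶠ N : ℕ in atTop, ∃ C : Cells (Fin N) a (Real.sin δ) ((π - 2 * δ) / N) (1 / (1 - a) ^ 2) ω,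
      (∀ i j, i ≠ j → ∀ φ t, C.χ i φ ≠ 0 → C.χ j t ≠ 0 → g2 a φ t ≤ C.G i j + κ) ∧
      (π - 2 * δ - π / N ≤ ∑ i, ∫ t in (0 : ℝ)..π, C.χ i t) ∧
      (∑ i, (∫ t in (0 : ℝ)..π, C.χ i t) ^ 2 ≤ π ^ 2 / N) := by
  have hpi := Real.pi_pos
  have hc0 : 0 < Real.sin δ := Real.sin_pos_of_pos_of_lt_pi hδ0 (by linarith)
  have hK : IsCompact (Set.Icc (0 : ℝ) π ×ˢ Set.Icc (0 : ℝ) π) := isCompact_Icc.prod isCompact_Icc
  have u1 := Metric.uniformContinuousOn_iff.1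
    (hK.uniformContinuousOn_of_continuous (continuous_g2 ha0 ha1).continuousOn) (κ / 2)
    (by positivity)
  have u2 := Metric.uniformContinuousOn_iff.1
    (hK.uniformContinuousOn_of_continuous (continuous_Hc hc0).continuousOn) ω hω
  obtain ⟨η1, hη1, u1⟩ := u1
  obtain ⟨η2, hη2, u2⟩ := u2
  have hlim : Tendsto (fun N : ℕ => (π - 2 * δ) / (N : ℝ)) atTop (𝓝 0) :=
    tendsto_const_div_atTop_nhds_zero_nat _
  filter_upwards [eventually_ge_atTop 1, hlim.eventually (Iio_mem_nhds hη1),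
    hlim.eventually (Iio_mem_nhds hη2)] with N hN hl1 hl2
  have hN' : (0 : ℝ) < N := by exact_mod_cast hN
  have hN1 : (1 : ℝ) ≤ N := by exact_mod_cast hN
  obtain ⟨ℓ, hℓ⟩ : ∃ ℓ, ℓ = (π - 2 * δ) / (N : ℝ) := ⟨_, rfl⟩
  rw [← hℓ] at hl1 hl2 ⊢
  have hℓ0 : 0 < ℓ := by rw [hℓ]; exact div_pos (by linarith) hN'
  have hNℓ : N * ℓ = π - 2 * δ := by rw [hℓ]; field_simp
  obtain ⟨w, hw⟩ : ∃ w, w = ℓ / (4 * (N : ℝ)) := ⟨_, rfl⟩
  have hw0 : 0 < w := by rw [hw]; positivity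
  have hwl : 2 * w ≤ ℓ := by
    rw [hw]
    have : ℓ / (4 * N) ≤ ℓ / 4 := by
      apply div_le_div_of_nonneg_left hℓ0.le (by norm_num)
      linarith
    linarith
  obtain ⟨s, hs⟩ : ∃ s : ℕ → ℝ, s = fun i : ℕ => δ + (i : ℝ) * ℓ := ⟨_, rfl⟩
  have hsδ : ∀ i, δ ≤ s i := by
    intro i; rw [hs]; have : (0 : ℝ) ≤ i * ℓ := by positivity
    linarith
  have hsπ : ∀ i, i < N → s i + ℓ ≤ π - δ := by
    intro i hi
    have h1 : ((i : ℝ) + 1) ≤ N := by exact_mod_cast hi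
    have h2 : ((i : ℝ) + 1) * ℓ ≤ N * ℓ := mul_le_mul_of_nonneg_right h1 hℓ0.le
    rw [hs]
    simp only
    linarith
  have hstep : ∀ i j : ℕ, i < j → s i + ℓ ≤ s j := by
    intro i j hij
    have h1 : ((i : ℝ) + 1) ≤ j := by exact_mod_cast hij
    have h2 : ((i : ℝ) + 1) * ℓ ≤ j * ℓ := mul_le_mul_of_nonneg_right h1 hℓ0.le
    rw [hs]
    simp only
    linarith
  have hsupp : ∀ i, i < N → ∀ t, bump (s i) ℓ w t ≠ 0 → δ ≤ t ∧ t ≤ π - δ := by
    intro i hi t ht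
    obtain ⟨h1, h2⟩ := bump_supp hw0 ht
    exact ⟨(hsδ i).trans h1.le, h2.le.trans (hsπ i hi)⟩
  have hmem : ∀ t, δ ≤ t ∧ t ≤ π - δ → t ∈ Set.Icc 0 π := fun t h =>
    ⟨by linarith [h.1], by linarith [h.2]⟩
  have hsmem : ∀ i, i < N → s i ∈ Set.Icc 0 π := fun i hi =>
    hmem _ ⟨hsδ i, by have := hsπ i hi; linarith⟩
  have hcmp : ∀ i, i < N → ∀ j, j < N → ∀ φ t, bump (s i) ℓ w φ ≠ 0 → bump (s j) ℓ w t ≠ 0 →
      |g2 a φ t - g2 a (s i) (s j)| < κ / 2 := by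
    intro i hi j hj φ t h1 h2
    have h3 := u1 (φ, t) ⟨hmem _ (hsupp i hi φ h1), hmem _ (hsupp j hj t h2)⟩
      (s i, s j) ⟨hsmem i hi, hsmem j hj⟩ ?_
    · rwa [Real.dist_eq] at h3
    · obtain ⟨h4, h5⟩ := bump_supp hw0 h1
      obtain ⟨h6, h7⟩ := bump_supp hw0 h2
      rw [Prod.dist_eq, max_lt_iff, Real.dist_eq, Real.dist_eq]
      simp only
      exact ⟨abs_lt.2 ⟨by linarith, by linarith⟩, abs_lt.2 ⟨by linarith, by linarith⟩⟩
  have hg0 : ∀ φ t, δ ≤ φ ∧ φ ≤ π - δ → δ ≤ t ∧ t ≤ π - δ → 0 ≤ g2 a φ t := fun φ t h1 h2 =>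
    g2_nonneg ha0 ha1 (hmem _ h1) (hmem _ h2)
  have hG0 : (0 : ℝ) ≤ 1 / (1 - a) ^ 2 := by positivity
  refine ⟨{ χ := fun i t => bump (s i) ℓ w t
            G := fun i j => max 0 (g2 a (s i) (s j) - κ / 2)
            cont := fun i => continuous_bump _ _ _
            nonneg := fun i t => bump_nonneg _ _ _ _
            sum_le := ?_
            supp := ?_
            diam := ?_
            G_nonneg := fun i j => le_max_left _ _
            G_le := ?_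
            G_symm := ?_
            G_g2 := ?_
            H_ge := ?_ }, ?_, ?_, ?_⟩
  · intro t
    by_cases h : ∃ i : Fin N, bump (s i) ℓ w t ≠ 0
    · obtain ⟨i, hi⟩ := h
      rw [Finset.sum_eq_single i]
      · exact bump_le_one _ _ _ _
      · intro j _ hji
        by_contra hj
        obtain ⟨h4, h5⟩ := bump_supp hw0 hi
        obtain ⟨h6, h7⟩ := bump_supp hw0 hj
        have hne : (j : ℕ) ≠ i := fun h => hji (Fin.ext h)
        rcases lt_or_gt_of_ne hne with h | h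
        · have := hstep _ _ h; linarith
        · have := hstep _ _ h; linarith
      · intro h; exact absurd (mem_univ i) h
    · push Not at h
      rw [Finset.sum_eq_zero fun i _ => h i]
      exact zero_le_one
  · intro i t ht
    have h1 := hsupp i i.2 t ht
    exact ⟨hmem _ h1, sin_ge_of_mem hδ0 hδ1 h1.1 h1.2⟩
  · intro i x t hx ht
    obtain ⟨h4, h5⟩ := bump_supp hw0 hx
    obtain ⟨h6, h7⟩ := bump_supp hw0 ht
    exact abs_le.2 ⟨by linarith, by linarith⟩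
  · intro i j
    refine max_le hG0 ?_
    have := g2_le (φ := s i) (t := s j) ha0 ha1
    linarith
  · intro i j
    rw [g2_symm]
  · intro i j φ t hi hj
    have h1 := hcmp i i.2 j j.2 φ t hi hj
    refine max_le (hg0 φ t (hsupp i i.2 φ hi) (hsupp j j.2 t hj)) ?_
    have := (abs_lt.1 h1).1
    linarith
  · intro i φ t hi ht
    have m1 := hsupp i i.2 φ hi
    have m2 := hsupp i i.2 t ht
    have s1 := sin_ge_of_mem hδ0 hδ1 m1.1 m1.2
    have s2 := sin_ge_of_mem hδ0 hδ1 m2.1 m2.2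
    have h3 := u2 (φ, t) ⟨hmem _ m1, hmem _ m2⟩ (t, t) ⟨hmem _ m2, hmem _ m2⟩ ?_
    · rw [Real.dist_eq, Hc_diag hc0 s2] at h3
      have h4 := (abs_lt.1 h3).1
      have h5 : Hc (Real.sin δ) (φ, t) =
          Real.cos ((φ - t) / 2) ^ 2 * Real.sin ((φ + t) / 2) ^ 2 * Real.sin t /
            (√(Real.sin φ) ^ 3 * √(Real.sin t) ^ 3) := by
        unfold Hc
        simp only
        rw [pw_eq s1, pw_eq s2]
        rw [div_eq_mul_inv (Real.cos ((φ - t) / 2) ^ 2 * Real.sin ((φ + t) / 2) ^ 2 * Real.sin t),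
          mul_inv]
        simp only [one_div]
      rw [← h5]
      linarith
    · obtain ⟨h4, h5⟩ := bump_supp hw0 hi
      obtain ⟨h6, h7⟩ := bump_supp hw0 ht
      rw [Prod.dist_eq, max_lt_iff, Real.dist_eq, Real.dist_eq]
      simp only [sub_self, abs_zero]
      exact ⟨abs_lt.2 ⟨by linarith, by linarith⟩, hη2⟩
  · intro i j _ φ t hi hj
    simp only at hi hj ⊢
    have h1 := hcmp i i.2 j j.2 φ t hi hj
    have := (abs_lt.1 h1).2
    have := le_max_right 0 (g2 a (s i) (s j) - κ / 2)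
    linarith
  · simp only
    have h1 : ∀ i : Fin N, ℓ - 2 * w ≤ ∫ t in (0 : ℝ)..π, bump (s i) ℓ w t := fun i =>
      integral_bump_ge hw0 hwl (hδ0.le.trans (hsδ i)) (by have := hsπ i i.2; linarith)
    have h2 : ∑ i : Fin N, (ℓ - 2 * w) ≤ ∑ i : Fin N, ∫ t in (0 : ℝ)..π, bump (s i) ℓ w t :=
      Finset.sum_le_sum fun i _ => h1 i
    refine le_trans ?_ h2
    rw [Finset.sum_const, card_univ, Fintype.card_fin, nsmul_eq_mul, mul_sub, hNℓ]
    have h3 : N * (2 * w) = ℓ / 2 := by rw [hw]; field_simp; norm_num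
    have h4 : ℓ ≤ π / N := by
      rw [hℓ]; exact div_le_div_of_nonneg_right (by linarith) hN'.le
    rw [h3]; linarith
  · simp only
    have h1 : ∀ i : Fin N, (∫ t in (0 : ℝ)..π, bump (s i) ℓ w t) ^ 2 ≤ ℓ ^ 2 := fun i => by
      have g1 := integral_bump_le hw0 hℓ0.le (hδ0.le.trans (hsδ i))
        (by have := hsπ i i.2; linarith)
      have g2 : 0 ≤ ∫ t in (0 : ℝ)..π, bump (s i) ℓ w t :=
        intervalIntegral.integral_nonneg hpi.le fun t _ => bump_nonneg _ _ _ _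
      exact pow_le_pow_left₀ g2 g1 2
    have h2 : ∑ i : Fin N, (∫ t in (0 : ℝ)..π, bump (s i) ℓ w t) ^ 2 ≤ ∑ i : Fin N, ℓ ^ 2 :=
      Finset.sum_le_sum fun i _ => h1 i
    refine le_trans h2 ?_
    rw [Finset.sum_const, card_univ, Fintype.card_fin, nsmul_eq_mul]
    have h3 : N * ℓ ^ 2 = (π - 2 * δ) ^ 2 / N := by
      rw [← hNℓ]; field_simp
    rw [h3]
    apply div_le_div_of_nonneg_right _ hN'.le
    exact pow_le_pow_left₀ (by linarith) (by linarith) 2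

/-- The lower bound of the far part. -/
theorem far_ge {a : ℝ} (ha0 : 0 ≤ a) (ha1 : a < 1) {K ε : ℝ} (hK0 : 0 ≤ K) (hε : 0 < ε) :
    ∀ᶠ n : ℕ in atTop, ∀ θ : Fin n → ℝ, Good θ → energy (fun k => Real.cos (θ k)) ≤ 3 →
      ∑ k, ∫ t in (0 : ℝ)..π, ff θ k t ^ 2 * Real.sin t ≤ K / n →
    (1 / n) * (GG a / (2 * π) - ε) ≤ far a θ := by
  have hpi := Real.pi_pos
  have hpi3 := Real.pi_gt_three
  have h1a : 0 < 1 - a := by linarith
  obtain ⟨G₀, hG₀⟩ : ∃ G₀, G₀ = 1 / (1 - a) ^ 2 := ⟨_, rfl⟩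
  have hG0 : 0 < G₀ := by rw [hG₀]; positivity
  obtain ⟨e, he⟩ : ∃ e, e = ε / 3 := ⟨_, rfl⟩
  have he0 : 0 < e := by rw [he]; positivity
  obtain ⟨δ, hδ⟩ : ∃ δ, δ = min (π / 4) (e / (4 * π * G₀)) := ⟨_, rfl⟩
  have hδ0 : 0 < δ := by rw [hδ]; exact lt_min (by positivity) (by positivity)
  have hδ1 : δ < π / 2 := by
    rw [hδ]; exact lt_of_le_of_lt (min_le_left _ _) (by linarith)
  have hδ2 : G₀ * (4 * π * δ) ≤ e := by
    have h1 : δ ≤ e / (4 * π * G₀) := by rw [hδ]; exact min_le_right _ _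
    have h2 : 0 < 4 * π * G₀ := by positivity
    rw [le_div_iff₀ h2] at h1
    linarith
  obtain ⟨ω, hω⟩ : ∃ ω, ω = min 1 (e / (G₀ * π ^ 2)) := ⟨_, rfl⟩
  have hω0 : 0 < ω := by rw [hω]; exact lt_min zero_lt_one (by positivity)
  have hω1 : ω ≤ 1 := by rw [hω]; exact min_le_left _ _
  have hω2 : ω * (G₀ * π ^ 2) ≤ e := by
    have h1 : ω ≤ e / (G₀ * π ^ 2) := by rw [hω]; exact min_le_right _ _
    have h2 : 0 < G₀ * π ^ 2 := by positivity
    rwa [le_div_iff₀ h2] at h1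
  obtain ⟨κ, hκ⟩ : ∃ κ, κ = e / π ^ 2 := ⟨_, rfl⟩
  have hκ0 : 0 < κ := by rw [hκ]; positivity
  have hκ2 : κ * π ^ 2 = e := by rw [hκ]; field_simp
  obtain ⟨c, hc⟩ : ∃ c, c = Real.sin δ := ⟨_, rfl⟩
  have hc0 : 0 < c := by rw [hc]; exact Real.sin_pos_of_pos_of_lt_pi hδ0 (by linarith)
  -- choose the number of cells
  have hcells := exists_cells ha0 ha1 hδ0 hδ1 hω0 hκ0
  have hlim1 : Tendsto (fun N : ℕ => G₀ * (3 * π ^ 2) / (N : ℝ)) atTop (𝓝 0) :=
    tendsto_const_div_atTop_nhds_zero_nat _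
  have hlim2 : Tendsto (fun N : ℕ => 4 * G₀ * ((π - 2 * δ) * (√(N : ℝ))⁻¹) *
      √((2 * K + 1) / c ^ 3)) atTop (𝓝 0) := by
    have h1 : Tendsto (fun N : ℕ => (√(N : ℝ))⁻¹) atTop (𝓝 0) :=
      tendsto_inv_atTop_zero.comp (Real.tendsto_sqrt_atTop.comp tendsto_natCast_atTop_atTop)
    have h2 := ((h1.const_mul (π - 2 * δ)).const_mul (4 * G₀)).mul_const (√((2 * K + 1) / c ^ 3))
    simpa using h2
  obtain ⟨N, ⟨C, hC1, hC2, hC3⟩, hN1, hN2, hN3⟩ :=
    (hcells.and ((hlim1.eventually (Iio_mem_nhds he0)).and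
      ((hlim2.eventually (Iio_mem_nhds he0)).and (eventually_ge_atTop 1)))).exists
  have hN' : (0 : ℝ) < N := by exact_mod_cast hN3
  have hN1' : G₀ * (3 * π ^ 2) / (N : ℝ) < e := hN1
  have hN2' : 4 * G₀ * ((π - 2 * δ) * (√(N : ℝ))⁻¹) * √((2 * K + 1) / c ^ 3) < e := hN2
  have hℓ0 : 0 ≤ (π - 2 * δ) / (N : ℝ) := div_nonneg (by linarith) hN'.le
  have hGG := fun φ t => g2_le (φ := φ) (t := t) ha0 ha1
  subst hc
  subst hG₀
  have hdet := GG_le_cells ha0 ha1 C hκ0.le (fun φ _ t _ => hGG φ t) hC1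
  filter_upwards [far_cells ha0 ha1 hc0 hℓ0 hG0.le hω1 hω0.le C hK0 he0,
    eventually_ge_atTop 1] with n hn hn1 θ hg hE hK
  have hn' : (0 : ℝ) < n := by exact_mod_cast hn1
  refine le_trans ?_ (hn θ hg hE hK)
  refine mul_le_mul_of_nonneg_left ?_ (by positivity)
  have hLπ := chi_integral_le C
  rw [Fintype.card_fin]
  have hS1 : (∑ i, ∑ j, C.G i j *
      ((∫ t in (0 : ℝ)..π, C.χ i t) * (∫ t in (0 : ℝ)..π, C.χ j t))) ≤ 1 / (1 - a) ^ 2 * π ^ 2 := by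
    have hI0 : ∀ i, 0 ≤ ∫ t in (0 : ℝ)..π, C.χ i t := fun i =>
      intervalIntegral.integral_nonneg Real.pi_pos.le fun t _ => C.nonneg i t
    calc (∑ i, ∑ j, C.G i j *
      ((∫ t in (0 : ℝ)..π, C.χ i t) * (∫ t in (0 : ℝ)..π, C.χ j t))) ≤
        ∑ i, ∑ j, (1 / (1 - a) ^ 2) *
          ((∫ t in (0 : ℝ)..π, C.χ i t) * (∫ t in (0 : ℝ)..π, C.χ j t)) :=
          Finset.sum_le_sum fun i _ => Finset.sum_le_sum fun j _ =>
            mul_le_mul_of_nonneg_right (C.G_le i j) (mul_nonneg (hI0 i) (hI0 j))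
      _ = (1 / (1 - a) ^ 2) * ((∑ i, ∫ t in (0 : ℝ)..π, C.χ i t) *
          (∑ i, ∫ t in (0 : ℝ)..π, C.χ i t)) := by
          rw [Finset.sum_mul_sum, Finset.mul_sum]
          exact Finset.sum_congr rfl fun i _ => by rw [Finset.mul_sum]
      _ ≤ _ := by
          refine mul_le_mul_of_nonneg_left ?_ hG0.le
          exact (mul_le_mul hLπ hLπ (Finset.sum_nonneg fun i _ => hI0 i) hpi.le).trans_eq
            (by ring)
  generalize (∑ i, ∑ j, C.G i j *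
      ((∫ t in (0 : ℝ)..π, C.χ i t) * (∫ t in (0 : ℝ)..π, C.χ j t))) = S at hS1 hdet ⊢
  generalize (∑ i, (∫ t in (0 : ℝ)..π, C.χ i t) ^ 2) = Q at hdet hC3
  generalize (∑ i, ∫ t in (0 : ℝ)..π, C.χ i t) = L at hLπ hC2 hdet
  have hsq : √(N : ℝ) * ((π - 2 * δ) / N) = (π - 2 * δ) * (√(N : ℝ))⁻¹ := by
    have h1 : 0 < √(N : ℝ) := Real.sqrt_pos.2 hN'
    have h2 : √(N : ℝ) ^ 2 = N := Real.sq_sqrt hN'.le
    rw [div_eq_mul_inv]
    nth_rewrite 2 [← h2]
    field_simp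
  rw [hsq]
  have hNN : π / (N : ℝ) * π = π ^ 2 / N := by ring
  have hN4 : 1 / (1 - a) ^ 2 * (3 * (π ^ 2 / (N : ℝ))) < e := by
    have : 1 / (1 - a) ^ 2 * (3 * (π ^ 2 / (N : ℝ))) = 1 / (1 - a) ^ 2 * (3 * π ^ 2) / (N : ℝ) := by
      ring
    rw [this]; exact hN1'
  have hx0 : 0 ≤ π / (N : ℝ) := by positivity
  have hLL : π ^ 2 - (L ^ 2 - Q) ≤ 4 * π * δ + 3 * (π ^ 2 / N) := by
    have h1 : π ^ 2 - L ^ 2 ≤ 2 * π * (2 * δ + π / N) := by
      have h2 : π ^ 2 - L ^ 2 ≤ 2 * π * (π - L) := by nlinarith [sq_nonneg (π - L)]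
      have h3 : π - L ≤ 2 * δ + π / N := by linarith
      have h4 : 2 * π * (π - L) ≤ 2 * π * (2 * δ + π / N) :=
        mul_le_mul_of_nonneg_left h3 (by positivity)
      linarith
    linarith
  have hdet2 : GG a ≤ S + e + (e + e) := by
    have h1 := mul_le_mul_of_nonneg_left hLL hG0.le
    linarith
  have hωS : S - e ≤ (1 - ω) * S := by
    have h1 : ω * S ≤ ω * (1 / (1 - a) ^ 2 * π ^ 2) := mul_le_mul_of_nonneg_left hS1 hω0.le
    linarith
  have hfin : GG a / (2 * π) - e ≤ (1 - ω) / (2 * π) * S := by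
    have h1 : (1 - ω) / (2 * π) * S = ((1 - ω) * S) / (2 * π) := by ring
    rw [h1]
    have h2 : (GG a - 4 * e) / (2 * π) ≤ ((1 - ω) * S) / (2 * π) :=
      div_le_div_of_nonneg_right (by linarith) (by positivity)
    have h3 : 4 * e / (2 * π) ≤ e := by
      rw [div_le_iff₀ (by positivity)]
      nlinarith
    have h4 : (GG a - 4 * e) / (2 * π) = GG a / (2 * π) - 4 * e / (2 * π) := by ring
    linarith
  linarith

end Pool.Agent.H79
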