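import Pool.Agent.H79.Const4

/-!
The Gegenbauer coefficients.
-/

open Real MeasureTheory intervalIntegral Finset Filter Topology

namespace Pool.Agent.H79

/-- Taylor coefficients of `(1 - z)^(1/4)`. -/
noncomputable def ga : ℕ → ℝ
  | 0 => 1
  | j + 1 => ga j * ((j : ℝ) - 1 / 4) / (j + 1)

lemma ga_zero : ga 0 = 1 := rfl

lemma ga_one : ga 1 = -1 / 4 := by
  show ga 0 * ((0 : ℕ) - 1 / 4) / ((0 : ℕ) + 1) = _
  rw [ga_zero]; norm_num

lemma ga_succ (j : ℕ) : ((j : ℝ) + 1) * ga (j + 1) = ((j : ℝ) - 1 / 4) * ga j := by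
  show ((j : ℝ) + 1) * (ga j * ((j : ℝ) - 1 / 4) / (j + 1)) = _
  have : (j : ℝ) + 1 ≠ 0 := by positivity
  field_simp

lemma ga_neg (j : ℕ) : ga (j + 1) < 0 := by
  induction j with
  | zero => rw [ga_one]; norm_num
  | succ j ih =>
    have h := ga_succ (j + 1)
    push_cast at h
    have h1 : (0 : ℝ) < (j : ℝ) + 1 + 1 := by positivity
    have h2 : (0 : ℝ) < (j : ℝ) + 1 - 1 / 4 := by
      have : (0 : ℝ) ≤ j := Nat.cast_nonneg j
      linarith
    by_contra hc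
    push Not at hc
    have h3 : 0 ≤ ((j : ℝ) + 1 + 1) * ga (j + 1 + 1) := mul_nonneg h1.le hc
    have h4 : ((j : ℝ) + 1 - 1 / 4) * ga (j + 1) < 0 := mul_neg_of_pos_of_neg h2 ih
    linarith

lemma ga_ne (j : ℕ) : ga j ≠ 0 := by
  rcases j with _ | j
  · rw [ga_zero]; norm_num
  · exact (ga_neg j).ne

/-- Partial sums. -/
lemma sum_ga (n : ℕ) : ∑ i ∈ range (n + 1), ga i = -4 * ((n : ℝ) + 1) * ga (n + 1) := by
  induction n with
  | zero => simp [ga_zero, ga_one]; norm_num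
  | succ n ih =>
    rw [Finset.sum_range_succ, ih]
    have h := ga_succ (n + 1)
    push_cast at h ⊢
    linarith

/-- Growth of the coefficients. -/
lemma ga_decay (n : ℕ) : (((n : ℝ) + 1) * ga (n + 1)) ^ 4 ≤ 1 / ((n : ℝ) + 1) := by
  induction n with
  | zero => rw [Nat.cast_zero, zero_add, one_mul, ga_one]; norm_num
  | succ n ih =>
    have h := ga_succ (n + 1)
    push_cast at h ⊢
    have hn : (0 : ℝ) ≤ n := Nat.cast_nonneg n
    have h1 : ((n : ℝ) + 1 + 1) * ga (n + 1 + 1) =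
        (((n : ℝ) + 1 - 1 / 4) / (n + 1)) * (((n : ℝ) + 1) * ga (n + 1)) := by
      rw [h]; field_simp
    rw [h1, mul_pow]
    have h2 : (((n : ℝ) + 1 - 1 / 4) / (n + 1)) ^ 4 ≤ (n + 1) / (n + 1 + 1) := by
      rw [div_pow, div_le_div_iff₀ (by positivity) (by positivity)]
      nlinarith [hn, pow_nonneg hn 2, pow_nonneg hn 3, pow_nonneg hn 4, pow_nonneg hn 5]
    calc _ ≤ (((n : ℝ) + 1) / (n + 1 + 1)) * (1 / (n + 1)) :=
          mul_le_mul h2 ih (by positivity) (by positivity)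
      _ = _ := by field_simp

/-- Convolution square. -/
noncomputable def gb (n : ℕ) : ℝ := ∑ i ∈ range (n + 1), ga i * ga (n - i)

lemma gb_moment (n : ℕ) : ∑ i ∈ range (n + 1), (i : ℝ) * (ga i * ga (n - i)) = (n : ℝ) / 2 * gb n := by
  have h1 : ∑ i ∈ range (n + 1), (i : ℝ) * (ga i * ga (n - i)) =
      ∑ i ∈ range (n + 1), ((n : ℝ) - i) * (ga i * ga (n - i)) := by
    rw [← Finset.sum_range_reflect]
    refine Finset.sum_congr rfl fun i hi => ?_
    have hi' : i ≤ n := Nat.lt_succ_iff.1 (mem_range.1 hi)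
    have e1 : n + 1 - 1 - i = n - i := by omega
    have e2 : n - (n - i) = i := by omega
    rw [e1, e2, Nat.cast_sub hi']
    ring
  have h2 : ∑ i ∈ range (n + 1), ((n : ℝ) - i) * (ga i * ga (n - i)) =
      n * gb n - ∑ i ∈ range (n + 1), (i : ℝ) * (ga i * ga (n - i)) := by
    unfold gb
    rw [Finset.mul_sum, ← Finset.sum_sub_distrib]
    exact Finset.sum_congr rfl fun i _ => by ring
  linarith

lemma gb_succ (n : ℕ) : ((n : ℝ) + 1) * gb (n + 1) = ((n : ℝ) - 1 / 2) * gb n := by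
  have h1 := gb_moment (n + 1)
  rw [Finset.sum_range_succ'] at h1
  have h2 : ∑ i ∈ range (n + 1), ((i + 1 : ℕ) : ℝ) * (ga (i + 1) * ga (n + 1 - (i + 1))) =
      ∑ i ∈ range (n + 1), ((i : ℝ) - 1 / 4) * (ga i * ga (n - i)) := by
    refine Finset.sum_congr rfl fun i _ => ?_
    have e1 : n + 1 - (i + 1) = n - i := by omega
    rw [e1]
    have := ga_succ i
    push_cast
    linear_combination ga (n - i) * this
  rw [h2] at h1
  have h3 : ∑ i ∈ range (n + 1), ((i : ℝ) - 1 / 4) * (ga i * ga (n - i)) =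
      (n : ℝ) / 2 * gb n - 1 / 4 * gb n := by
    rw [← gb_moment]
    unfold gb
    rw [Finset.mul_sum, ← Finset.sum_sub_distrib]
    exact Finset.sum_congr rfl fun i _ => by ring
  rw [h3] at h1
  push_cast at h1
  linarith

lemma gb_neg (n : ℕ) : gb (n + 1) < 0 := by
  induction n with
  | zero =>
    have h := gb_succ 0
    have h0 : gb 0 = 1 := by unfold gb; simp [ga_zero]
    rw [h0] at h
    push_cast at h
    linarith
  | succ n ih =>
    have h := gb_succ (n + 1)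
    push_cast at h
    have h1 : (0 : ℝ) < (n : ℝ) + 1 + 1 := by positivity
    have h2 : (0 : ℝ) < (n : ℝ) + 1 - 1 / 2 := by
      have : (0 : ℝ) ≤ n := Nat.cast_nonneg n
      linarith
    by_contra hc
    push Not at hc
    have h3 : 0 ≤ ((n : ℝ) + 1 + 1) * gb (n + 1 + 1) := mul_nonneg h1.le hc
    have h4 : ((n : ℝ) + 1 - 1 / 2) * gb (n + 1) < 0 := mul_neg_of_pos_of_neg h2 ih
    linarith

/-- Normalised coefficients of the node polynomial. -/
noncomputable def gc (n j : ℕ) : ℝ := ga j * ga (n - j) / (2 * ga n)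

lemma gc_symm {n j : ℕ} (hj : j ≤ n) : gc n (n - j) = gc n j := by
  unfold gc
  have : n - (n - j) = j := by omega
  rw [this, mul_comm (ga (n - j))]

lemma gc_zero (n : ℕ) : gc n 0 = 1 / 2 := by
  unfold gc
  rw [ga_zero, Nat.sub_zero]
  have := ga_ne n
  field_simp

lemma gc_neg {n j : ℕ} (h1 : 0 < j) (h2 : j < n) : gc n j < 0 := by
  unfold gc
  obtain ⟨i, rfl⟩ : ∃ i, j = i + 1 := ⟨j - 1, by omega⟩
  obtain ⟨m, hm⟩ : ∃ m, n - (i + 1) = m + 1 := ⟨n - (i + 1) - 1, by omega⟩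
  obtain ⟨p, rfl⟩ : ∃ p, n = p + 1 := ⟨n - 1, by omega⟩
  rw [hm]
  have g1 := ga_neg i
  have g2 := ga_neg m
  have g3 := ga_neg p
  exact div_neg_of_pos_of_neg (mul_pos_of_neg_of_neg g1 g2) (by linarith)

lemma sum_gc_pos {n : ℕ} (hn : 1 ≤ n) : 0 < ∑ j ∈ range (n + 1), gc n j := by
  obtain ⟨p, rfl⟩ : ∃ p, n = p + 1 := ⟨n - 1, by omega⟩
  have h1 : ∑ j ∈ range (p + 1 + 1), gc (p + 1) j = gb (p + 1) / (2 * ga (p + 1)) := by
    unfold gb gc
    rw [Finset.sum_div]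
  rw [h1]
  have g1 := ga_neg p
  exact div_pos_of_neg_of_neg (gb_neg p) (by linarith)

/-- Recurrence of the coefficients in the form used for the differential equation. -/
lemma gc_rec (n j : ℕ) (hj : j + 1 ≤ n) :
    ((j : ℝ) + 1) * ((n : ℝ) - (j + 1) - 1 / 4) * gc n (j + 1) =
      ((n : ℝ) - j) * ((j : ℝ) - 1 / 4) * gc n j := by
  unfold gc
  have h1 := ga_succ j
  have h2 := ga_succ (n - (j + 1))
  have e1 : n - (j + 1) + 1 = n - j := by omega
  have e2 : ((n - (j + 1) : ℕ) : ℝ) = (n : ℝ) - (j + 1) := by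
    rw [Nat.cast_sub hj]; push_cast; ring
  rw [e1, e2] at h2
  have h3 := ga_ne n
  have h4 : ((j : ℝ) + 1) * ((n : ℝ) - (j + 1) - 1 / 4) * (ga (j + 1) * ga (n - (j + 1))) =
      ((n : ℝ) - j) * ((j : ℝ) - 1 / 4) * (ga j * ga (n - j)) := by
    linear_combination (((n : ℝ) - (j + 1) - 1 / 4) * ga (n - (j + 1))) * h1 -
      (((j : ℝ) - 1 / 4) * ga j) * h2
  calc _ = (((j : ℝ) + 1) * ((n : ℝ) - (j + 1) - 1 / 4) * (ga (j + 1) * ga (n - (j + 1)))) /
        (2 * ga n) := by ring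
    _ = _ := by rw [h4]; ring

end Pool.Agent.H79
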