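import Pool.Agent.H79.G9

/-!
Dominating function of the triple series.
-/

open Real MeasureTheory intervalIntegral Finset Filter Topology

namespace Pool.Agent.H79

/-- Decay function. -/
noncomputable def ph (m : ℝ) : ℝ := 1 / √|m| ^ 3

lemma ph_nonneg (m : ℝ) : 0 ≤ ph m := by unfold ph; positivity

lemma ph_eq (m : ℝ) : ph m = |m| ^ (-(3 / 2) : ℝ) := by
  unfold ph
  rw [Real.rpow_neg (abs_nonneg m), one_div, Real.sqrt_eq_rpow, ← Real.rpow_natCast,
    ← Real.rpow_mul (abs_nonneg m)]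
  norm_num

lemma summable_ph : Summable fun m : ℤ => ph (m : ℝ) := by
  have h := Real.summable_abs_int_rpow (b := 3 / 2) (by norm_num)
  refine h.congr fun m => ?_
  rw [ph_eq]

lemma summable_ph_nat : Summable fun i : ℕ => ph (i : ℝ) := by
  have h := summable_ph.comp_injective (i := fun i : ℕ => (i : ℤ)) Nat.cast_injective
  refine h.congr fun i => ?_
  simp

lemma ph_young {x m : ℝ} (hx : 0 < x) (hm : 0 < |m|) : 1 / √x * (1 / |m|) ≤ ph x + ph m := by
  unfold ph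
  rw [abs_of_pos hx]
  obtain ⟨a, ha⟩ : ∃ a, a = √x := ⟨_, rfl⟩
  obtain ⟨b, hb⟩ : ∃ b, b = √|m| := ⟨_, rfl⟩
  have ha0 : 0 < a := by rw [ha]; exact Real.sqrt_pos.2 hx
  have hb0 : 0 < b := by rw [hb]; exact Real.sqrt_pos.2 hm
  have hb2 : |m| = b ^ 2 := by rw [hb]; exact (Real.sq_sqrt (abs_nonneg m)).symm
  rw [← ha, ← hb, hb2]
  have h1 : 1 / a * (1 / b ^ 2) = 1 / (a * b ^ 2) := by field_simp
  rw [h1]
  rcases le_total a b with h | h
  · have h2 : 1 / (a * b ^ 2) ≤ 1 / a ^ 3 := by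
      apply one_div_le_one_div_of_le (by positivity)
      calc a ^ 3 = a * a ^ 2 := by ring
        _ ≤ a * b ^ 2 := by gcongr
    have h3 : 0 ≤ 1 / b ^ 3 := by positivity
    linarith
  · have h2 : 1 / (a * b ^ 2) ≤ 1 / b ^ 3 := by
      apply one_div_le_one_div_of_le (by positivity)
      calc b ^ 3 = b * b ^ 2 := by ring
        _ ≤ a * b ^ 2 := by gcongr
    have h3 : 0 ≤ 1 / a ^ 3 := by positivity
    linarith

lemma i_SS_le {i : ℕ} (hi : 1 ≤ i) : |(i : ℝ) * SS i| ≤ √(2 * Tl 1) * (1 / √i) := by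
  have hi' : (0 : ℝ) < i := by exact_mod_cast hi
  have h1 : Tl i ≤ Tl 1 / i := by
    rcases Tl_le i with h | h
    · exact h
    · omega
  have h2 : ((i : ℝ) * SS i) ^ 2 ≤ 2 * Tl 1 * (1 / i) := by
    have h3 : ((i : ℝ) * SS i) ^ 2 ≤ 2 * Tl i := by
      unfold Tl
      have h4 : (i : ℝ) ^ 2 ≤ 2 * ((2 * (i : ℝ) + 1) ^ 2 / 8) := by nlinarith
      calc ((i : ℝ) * SS i) ^ 2 = (i : ℝ) ^ 2 * SS i ^ 2 := by ring
        _ ≤ 2 * ((2 * (i : ℝ) + 1) ^ 2 / 8) * SS i ^ 2 :=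
          mul_le_mul_of_nonneg_right h4 (sq_nonneg _)
        _ = _ := by ring
    calc _ ≤ _ := h3
      _ ≤ 2 * (Tl 1 / i) := by linarith
      _ = _ := by ring
  have h5 : √(2 * Tl 1) * (1 / √(i : ℝ)) = √(2 * Tl 1 * (1 / i)) := by
    have h6 : 0 ≤ 2 * Tl 1 := by have := Tl_nonneg 1; positivity
    rw [Real.sqrt_mul h6 (1 / (i : ℝ)), Real.sqrt_div zero_le_one (i : ℝ), Real.sqrt_one]
  rw [h5]
  exact Real.abs_le_sqrt h2

/-- Dominating function. -/
noncomputable def bnd (p : (ℕ × ℕ) × ℕ) : ℝ :=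
  |ga p.1.1| * |ga p.1.2| * (|(p.2 : ℝ) * SS p.2| * (1 / |(p.2 : ℝ) + 2 * p.1.1 - 2 * p.1.2|))

lemma bnd_nonneg (p : (ℕ × ℕ) × ℕ) : 0 ≤ bnd p := by unfold bnd; positivity

lemma summable_bnd : Summable bnd := by
  have hΦ := summable_ph
  have s1 : Summable fun p : (ℕ × ℕ) × ℕ => (|ga p.1.1| * |ga p.1.2|) * ph (p.2 : ℝ) :=
    summable_pair.mul_of_nonneg summable_ph_nat (fun p => by positivity) (fun i => ph_nonneg _)
  have s2 : Summable fun p : (ℕ × ℕ) × ℕ => (|ga p.1.1| * |ga p.1.2|) *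
      ph ((p.2 : ℝ) + 2 * p.1.1 - 2 * p.1.2) := by
    have hinj : ∀ q : ℕ × ℕ, Function.Injective fun i : ℕ => ((i : ℤ) + 2 * q.1 - 2 * q.2) := by
      intro q a b hab
      simp only at hab
      omega
    have hcast : ∀ (q : ℕ × ℕ) (i : ℕ), ph ((i : ℝ) + 2 * q.1 - 2 * q.2) =
        ph (((i : ℤ) + 2 * q.1 - 2 * q.2 : ℤ) : ℝ) := by
      intro q i; push_cast; rfl
    rw [summable_prod_of_nonneg]
    · constructor
      · intro q
        simp only
        refine Summable.mul_left _ ?_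
        have := hΦ.comp_injective (hinj q)
        refine this.congr fun i => ?_
        rw [hcast]
        rfl
      · simp only
        refine Summable.of_nonneg_of_le (f := fun q : ℕ × ℕ => (|ga q.1| * |ga q.2|) *
          ∑' m : ℤ, ph (m : ℝ)) (fun q => ?_) (fun q => ?_) (summable_pair.mul_right _)
        · exact tsum_nonneg fun i => mul_nonneg (by positivity) (ph_nonneg _)
        · rw [tsum_mul_left]
          refine mul_le_mul_of_nonneg_left ?_ (by positivity)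
          have := tsum_comp_le_tsum_of_inj hΦ (fun m => ph_nonneg _) (hinj q)
          refine le_trans (le_of_eq ?_) this
          refine tsum_congr fun i => ?_
          rw [hcast]
          rfl
    · intro p
      exact mul_nonneg (by positivity) (ph_nonneg _)
  have s3 := (s1.add s2).mul_left (√(2 * Tl 1))
  refine Summable.of_nonneg_of_le bnd_nonneg (fun p => ?_) s3
  unfold bnd
  have hR : 0 ≤ √(2 * Tl 1) * (|ga p.1.1| * |ga p.1.2| * ph (p.2 : ℝ) +
      |ga p.1.1| * |ga p.1.2| * ph ((p.2 : ℝ) + 2 * p.1.1 - 2 * p.1.2)) := by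
    have := ph_nonneg (p.2 : ℝ)
    have := ph_nonneg ((p.2 : ℝ) + 2 * p.1.1 - 2 * p.1.2)
    positivity
  rcases Nat.eq_zero_or_pos p.2 with h | h
  · rw [h, Nat.cast_zero] at hR ⊢
    simp only [zero_mul, abs_zero, mul_zero]
    exact hR
  · by_cases hm : (p.2 : ℝ) + 2 * p.1.1 - 2 * p.1.2 = 0
    · rw [hm] at hR ⊢
      simp only [abs_zero, div_zero, mul_zero]
      exact hR
    · have hm' : 0 < |(p.2 : ℝ) + 2 * p.1.1 - 2 * p.1.2| := abs_pos.2 hm
      have hi' : (0 : ℝ) < p.2 := by exact_mod_cast h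
      have h1 := i_SS_le h
      have h2 := ph_young hi' hm'
      calc |ga p.1.1| * |ga p.1.2| * (|(p.2 : ℝ) * SS p.2| *
          (1 / |(p.2 : ℝ) + 2 * p.1.1 - 2 * p.1.2|)) ≤
          |ga p.1.1| * |ga p.1.2| * ((√(2 * Tl 1) * (1 / √(p.2 : ℝ))) *
          (1 / |(p.2 : ℝ) + 2 * p.1.1 - 2 * p.1.2|)) := by gcongr
        _ = (√(2 * Tl 1) * (|ga p.1.1| * |ga p.1.2|)) * (1 / √(p.2 : ℝ) *
          (1 / |(p.2 : ℝ) + 2 * p.1.1 - 2 * p.1.2|)) := by ring
        _ ≤ (√(2 * Tl 1) * (|ga p.1.1| * |ga p.1.2|)) * (ph (p.2 : ℝ) +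
          ph ((p.2 : ℝ) + 2 * p.1.1 - 2 * p.1.2)) := by gcongr
        _ = _ := by ring

end Pool.Agent.H79
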