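import Pool.Agent.H79.G10

/-!
Limit of the bilinear form.
-/

open Real MeasureTheory intervalIntegral Finset Filter Topology

namespace Pool.Agent.H79

open Polynomial (C X derivative)
open Polynomial.Chebyshev (T U)

/-- The bilinear form. -/
noncomputable def Vn (n : ℕ) : ℝ :=
  ∫ t in (0 : ℝ)..π, (Wp n).eval (Real.cos t) * ((W1 n).eval (Real.cos t) * Real.sin t)

/-- Elementary integral. -/
noncomputable def Jc (A B : ℤ) : ℝ := ∫ t in (0 : ℝ)..π, Real.cos (A * t) * Real.sin (B * t)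

/-- Terms of the triple sum. -/
noncomputable def fv (n : ℕ) (p : (ℕ × ℕ) × ℕ) : ℝ :=
  if p.2 < n - 2 * p.1.1 then gg n p.1.1 * gg n p.1.2 * ((4 * p.2 * SS p.2) *
    Jc ((n - 2 * p.1.2 : ℕ) : ℤ) (((n - 2 * p.1.1 : ℕ) : ℤ) - p.2)) else 0

lemma W1_eval_cos (n : ℕ) (t : ℝ) : (W1 n).eval (Real.cos t) * Real.sin t =
    ∑ l ∈ range (n + 1), gg n l * ∑ i ∈ range (n - 2 * l), (4 * i * SS i) *
      Real.sin (((((n - 2 * l : ℕ) : ℤ) - i : ℤ) : ℝ) * t) := by
  unfold W1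
  rw [Polynomial.eval_finsetSum, Finset.sum_mul]
  refine Finset.sum_congr rfl fun l _ => ?_
  rw [Polynomial.eval_mul, Polynomial.eval_C, Polynomial.eval_finsetSum, mul_assoc,
    Finset.sum_mul]
  congr 1
  refine Finset.sum_congr rfl fun i _ => ?_
  rw [Polynomial.eval_mul, Polynomial.eval_C, mul_assoc, Polynomial.Chebyshev.U_real_cos]
  congr 2
  push_cast
  ring

lemma Wp_eval_cos' (n : ℕ) (t : ℝ) : (Wp n).eval (Real.cos t) =
    ∑ l ∈ range (n + 1), gg n l * Real.cos ((((n - 2 * l : ℕ) : ℤ) : ℝ) * t) := by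
  rw [Wp_fold, Polynomial.eval_finsetSum]
  refine Finset.sum_congr rfl fun l _ => ?_
  rw [Polynomial.eval_mul, Polynomial.eval_C, Polynomial.Chebyshev.T_real_cos]

lemma Vn_eq (n : ℕ) : Vn n = ∑' p, fv n p := by
  have h1 : Vn n = ∑ p ∈ (range (n + 1) ×ˢ range (n + 1)) ×ˢ range (n + 1), fv n p := by
    rw [Finset.sum_product, Finset.sum_product]
    unfold Vn
    simp_rw [W1_eval_cos, Wp_eval_cos']
    have h2 : ∀ t : ℝ, (∑ l ∈ range (n + 1), gg n l * Real.cos ((((n - 2 * l : ℕ) : ℤ) : ℝ) * t)) *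
        (∑ l ∈ range (n + 1), gg n l * ∑ i ∈ range (n - 2 * l), (4 * i * SS i) *
      Real.sin (((((n - 2 * l : ℕ) : ℤ) - i : ℤ) : ℝ) * t)) =
      ∑ l ∈ range (n + 1), ∑ l' ∈ range (n + 1), ∑ i ∈ range (n - 2 * l),
        gg n l * gg n l' * (4 * i * SS i) * (Real.cos ((((n - 2 * l' : ℕ) : ℤ) : ℝ) * t) *
          Real.sin (((((n - 2 * l : ℕ) : ℤ) - i : ℤ) : ℝ) * t)) := by
      intro t
      rw [mul_comm, Finset.sum_mul_sum]
      refine Finset.sum_congr rfl fun l _ => Finset.sum_congr rfl fun l' _ => ?_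
      rw [mul_assoc, Finset.sum_mul, Finset.mul_sum]
      refine Finset.sum_congr rfl fun i _ => ?_
      ring
    simp_rw [h2]
    rw [intervalIntegral.integral_finsetSum
      (fun l _ => Continuous.intervalIntegrable (by fun_prop) _ _)]
    refine Finset.sum_congr rfl fun l _ => ?_
    rw [intervalIntegral.integral_finsetSum
      (fun l _ => Continuous.intervalIntegrable (by fun_prop) _ _)]
    refine Finset.sum_congr rfl fun l' _ => ?_
    rw [intervalIntegral.integral_finsetSum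
      (fun l _ => Continuous.intervalIntegrable (by fun_prop) _ _)]
    have h3 : ∑ i ∈ range (n + 1), fv n ((l, l'), i) =
        ∑ i ∈ range (n - 2 * l), fv n ((l, l'), i) := by
      symm
      refine Finset.sum_subset (range_mono (by omega)) fun i _ hi => ?_
      unfold fv
      rw [if_neg (by simpa using hi)]
    rw [h3]
    refine Finset.sum_congr rfl fun i hi => ?_
    unfold fv Jc
    rw [if_pos (by simpa using hi), intervalIntegral.integral_const_mul]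
    ring
  rw [h1, tsum_eq_sum]
  intro p hp
  rw [Finset.mem_product, Finset.mem_product, not_and_or, not_and_or] at hp
  unfold fv
  split_ifs with hlt
  · rcases hp with (h | h) | h
    · rw [mem_range, not_lt] at h
      rw [gg_zero_of (by omega)]; ring
    · rw [mem_range, not_lt] at h
      rw [gg_zero_of (l := p.1.2) (by omega)]; ring
    · rw [mem_range, not_lt] at h
      omega
  · rfl

lemma fv_even (n : ℕ) (p : (ℕ × ℕ) × ℕ) (h : Even p.2) : fv n p = 0 := by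
  obtain ⟨k, hk⟩ := h
  unfold fv
  have : SS p.2 = 0 := by rw [hk, ← two_mul]; exact SS_even k
  rw [this]; simp

lemma Jc_odd {A B : ℤ} (h : Odd (A + B)) : Jc A B = 1 / ((A : ℝ) + B) + 1 / ((B : ℝ) - A) :=
  integral_cos_sin_odd h

lemma abs_Jc_le {A B : ℤ} (h : Odd (A + B)) (hA : 0 ≤ A) (hB : 0 ≤ B) :
    |Jc A B| ≤ 2 * (1 / |(B : ℝ) - A|) := by
  rw [Jc_odd h]
  have h1 : Odd (B - A) := by
    have : B - A = (A + B) - 2 * A := by ring
    rw [this]
    exact h.sub_even ⟨A, by ring⟩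
  have h2 : (B - A) ≠ 0 := fun h0 => by rw [h0] at h1; exact absurd h1 (by decide)
  have h3 : ((B : ℝ) - A) ≠ 0 := by exact_mod_cast h2
  have h4 : 0 < |(B : ℝ) - A| := abs_pos.2 h3
  have hA' : (0 : ℝ) ≤ A := by exact_mod_cast hA
  have hB' : (0 : ℝ) ≤ B := by exact_mod_cast hB
  have h5 : |(B : ℝ) - A| ≤ (A : ℝ) + B := by rw [abs_le]; constructor <;> linarith
  refine (abs_add_le _ _).trans ?_
  rw [abs_div, abs_div, abs_one, abs_of_nonneg (by linarith : (0 : ℝ) ≤ A + B)]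
  have h6 : 1 / ((A : ℝ) + B) ≤ 1 / |(B : ℝ) - A| := one_div_le_one_div_of_le h4 h5
  linarith

lemma freq_odd {n : ℕ} {p : (ℕ × ℕ) × ℕ} (ho : Odd p.2) (h1 : p.2 < n - 2 * p.1.1)
    (h2 : 2 * p.1.2 ≤ n) :
    Odd (((n - 2 * p.1.2 : ℕ) : ℤ) + (((n - 2 * p.1.1 : ℕ) : ℤ) - p.2)) := by
  obtain ⟨k, hk⟩ := ho
  refine ⟨(n : ℤ) - p.1.2 - p.1.1 - k - 1, ?_⟩
  omega

lemma freq_sub {n : ℕ} {p : (ℕ × ℕ) × ℕ} (h1 : p.2 < n - 2 * p.1.1) (h2 : 2 * p.1.2 ≤ n) :
    ((((n - 2 * p.1.1 : ℕ) : ℤ) - p.2 : ℤ) : ℝ) - (((n - 2 * p.1.2 : ℕ) : ℤ) : ℝ) =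
      -((p.2 : ℝ) + 2 * p.1.1 - 2 * p.1.2) := by
  have h3 : (((n - 2 * p.1.1 : ℕ) : ℤ) - p.2 : ℤ) - ((n - 2 * p.1.2 : ℕ) : ℤ) =
      -((p.2 : ℤ) + 2 * p.1.1 - 2 * p.1.2) := by omega
  have h4 := congrArg (fun z : ℤ => (z : ℝ)) h3
  push_cast at h4 ⊢
  linarith

lemma fv_le {n : ℕ} (hn : 1 ≤ n) (p : (ℕ × ℕ) × ℕ) : ‖fv n p‖ ≤ 128 * bnd p := by
  rcases Nat.even_or_odd p.2 with he | ho
  · rw [fv_even n p he, norm_zero]
    have := bnd_nonneg p
    positivity
  · have hb := bnd_nonneg p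
    unfold fv
    split_ifs with hlt
    · by_cases h2 : n < 2 * p.1.2
      · rw [gg_zero_of (l := p.1.2) h2]
        simp only [mul_zero, zero_mul, norm_zero]
        positivity
      · push Not at h2
        have h3 := abs_Jc_le (freq_odd ho hlt h2) (by omega) (by omega)
        rw [freq_sub hlt h2, abs_neg] at h3
        have k1 := gg_abs_le hn p.1.1
        have k2 := gg_abs_le hn p.1.2
        rw [Real.norm_eq_abs, abs_mul, abs_mul, abs_mul]
        have h4 : |4 * (p.2 : ℝ) * SS p.2| = 4 * |(p.2 : ℝ) * SS p.2| := by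
          rw [mul_assoc, abs_mul, abs_of_pos (by norm_num : (0 : ℝ) < 4)]
        rw [h4]
        unfold bnd
        calc _ ≤ (4 * |ga p.1.1|) * (4 * |ga p.1.2|) * (4 * |(p.2 : ℝ) * SS p.2| *
              (2 * (1 / |(p.2 : ℝ) + 2 * p.1.1 - 2 * p.1.2|))) := by gcongr
          _ = _ := by ring
    · rw [norm_zero]; positivity

/-- The limiting terms. -/
noncomputable def fl (p : (ℕ × ℕ) × ℕ) : ℝ :=
  ga p.1.1 * ga p.1.2 * ((4 * p.2 * SS p.2) * (-(1 / ((p.2 : ℝ) + 2 * p.1.1 - 2 * p.1.2))))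

lemma fv_tendsto (p : (ℕ × ℕ) × ℕ) : Tendsto (fun n => fv n p) atTop (𝓝 (fl p)) := by
  rcases Nat.even_or_odd p.2 with he | ho
  · have h1 : fl p = 0 := by
      obtain ⟨k, hk⟩ := he
      unfold fl
      have : SS p.2 = 0 := by rw [hk, ← two_mul]; exact SS_even k
      rw [this]; simp
    rw [h1]
    refine tendsto_const_nhds.congr fun n => ?_
    rw [fv_even n p he]
  · have g1 := gg_tendsto p.1.1
    have g2 := gg_tendsto p.1.2
    have g3 : Tendsto (fun n : ℕ => 1 / (2 * (n : ℝ) - (2 * p.1.1 + 2 * p.1.2 + p.2)))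
        atTop (𝓝 0) := by
      have h1 : Tendsto (fun n : ℕ => 2 * (n : ℝ) - (2 * p.1.1 + 2 * p.1.2 + p.2)) atTop atTop :=
        tendsto_atTop_add_const_right _ _ (tendsto_natCast_atTop_atTop.const_mul_atTop two_pos)
      exact h1.const_div_atTop 1
    have g4 := (g1.mul g2).mul ((g3.add_const
      (-(1 / ((p.2 : ℝ) + 2 * p.1.1 - 2 * p.1.2)))).const_mul (4 * p.2 * SS p.2))
    rw [zero_add] at g4
    refine g4.congr' ?_
    filter_upwards [eventually_gt_atTop (p.2 + 2 * p.1.1), eventually_ge_atTop (2 * p.1.2)]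
      with n h1 h2
    have hlt : p.2 < n - 2 * p.1.1 := by omega
    unfold fv
    rw [if_pos hlt, Jc_odd (freq_odd ho hlt h2), freq_sub hlt h2]
    have h3 : (((n - 2 * p.1.2 : ℕ) : ℤ) : ℝ) + ((((n - 2 * p.1.1 : ℕ) : ℤ) - p.2 : ℤ) : ℝ) =
        2 * (n : ℝ) - (2 * p.1.1 + 2 * p.1.2 + p.2) := by
      have h4 : ((n - 2 * p.1.2 : ℕ) : ℤ) + (((n - 2 * p.1.1 : ℕ) : ℤ) - p.2) =
          2 * (n : ℤ) - (2 * p.1.1 + 2 * p.1.2 + p.2) := by omega
      have h5 := congrArg (fun z : ℤ => (z : ℝ)) h4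
      push_cast at h5 ⊢
      linarith
    rw [h3, one_div_neg_eq_neg_one_div]

lemma summable_fl : Summable fl := by
  refine Summable.of_norm_bounded (g := fun p => 4 * bnd p) (summable_bnd.mul_left 4) fun p => ?_
  unfold fl bnd
  rw [Real.norm_eq_abs, abs_mul, abs_mul, abs_mul, abs_neg]
  have h4 : |4 * (p.2 : ℝ) * SS p.2| = 4 * |(p.2 : ℝ) * SS p.2| := by
    rw [mul_assoc, abs_mul, abs_of_pos (by norm_num : (0 : ℝ) < 4)]
  rw [h4, abs_div, abs_one]
  refine le_of_eq ?_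
  ring

/-- The value of the limit. -/
lemma tsum_fl : ∑' p, fl p = -(2 * √2 * Tl 1) := by
  have h1 : ∑' p, fl p = ∑' i : ℕ, ∑' q : ℕ × ℕ, fl (q, i) := by
    have h2 := (Equiv.prodComm ℕ (ℕ × ℕ)).tsum_eq fl
    rw [← h2]
    have h3 : Summable fun c : ℕ × (ℕ × ℕ) => fl ((Equiv.prodComm ℕ (ℕ × ℕ)) c) :=
      (Equiv.prodComm ℕ (ℕ × ℕ)).summable_iff.2 summable_fl
    rw [h3.tsum_prod]
    rfl
  have h2 : ∀ i : ℕ, ∑' q : ℕ × ℕ, fl (q, i) = -(2 * √2) * ((i : ℝ) * SS i ^ 2) := by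
    intro i
    rcases Nat.even_or_odd i with he | ho
    · obtain ⟨k, hk⟩ := he
      have h0 : SS i = 0 := by rw [hk, ← two_mul]; exact SS_even k
      unfold fl
      simp only [h0]
      simp
    · have h := (hasSum_recip ho).mul_left (-(4 * (i : ℝ) * SS i))
      have h3 : (fun q : ℕ × ℕ => fl (q, i)) = fun q : ℕ × ℕ => -(4 * (i : ℝ) * SS i) *
          (ga q.1 * ga q.2 * (1 / ((i : ℝ) + 2 * q.1 - 2 * q.2))) := by
        funext q
        unfold fl
        ring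
      rw [h3, h.tsum_eq]
      ring
  rw [h1]
  simp_rw [h2]
  rw [tsum_mul_left]
  have h3 := hasSum_l_SS
  have h4 : HasSum (fun i : ℕ => (i : ℝ) * SS i ^ 2) (Tl 1) := by
    rw [← hasSum_nat_add_iff' 1]
    simp only [Finset.range_one, Finset.sum_singleton, Nat.cast_zero, zero_mul, sub_zero]
    push_cast
    exact h3
  rw [h4.tsum_eq]; ring

lemma tendsto_Vn : Tendsto Vn atTop (𝓝 (-(2 * √2 * Tl 1))) := by
  have h1 : Tendsto (fun n => ∑' p, fv n p) atTop (𝓝 (∑' p, fl p)) := by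
    refine tendsto_tsum_of_dominated_convergence (bound := fun p => 128 * bnd p)
      (summable_bnd.mul_left 128) fv_tendsto ?_
    filter_upwards [eventually_ge_atTop 1] with n hn p
    exact fv_le hn p
  rw [tsum_fl] at h1
  exact h1.congr fun n => (Vn_eq n).symm

end Pool.Agent.H79
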