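import Pool.Agent.H79.G1

/-!
The node polynomial: differential equation and nodes.
-/

open Real MeasureTheory intervalIntegral Finset Filter Topology

namespace Pool.Agent.H79

open Polynomial (C X derivative)
open Polynomial.Chebyshev (T U)

/-- The node polynomial. -/
noncomputable def Wp (n : ℕ) : Polynomial ℝ :=
  ∑ j ∈ range (n + 1), C (gc n j) * T ℝ ((n : ℤ) - 2 * j)

lemma Wp_eval_cos (n : ℕ) (θ : ℝ) : (Wp n).eval (Real.cos θ) =
    ∑ j ∈ range (n + 1), gc n j * Real.cos (((n : ℝ) - 2 * j) * θ) := by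
  unfold Wp
  rw [Polynomial.eval_finsetSum]
  refine Finset.sum_congr rfl fun j _ => ?_
  rw [Polynomial.eval_mul, Polynomial.eval_C, Polynomial.Chebyshev.T_real_cos]
  push_cast
  rfl

/-- One term of the differential equation. -/
lemma ode_term (m : ℤ) (ν : ℝ) :
    (1 - X ^ 2) * derivative^[2] (T ℝ m) - C (1 / 2) * X * derivative (T ℝ m) + C ν * T ℝ m =
      C ((ν - m ^ 2 + m / 2) / 2) * U ℝ m - C ((ν - m ^ 2 - m / 2) / 2) * U ℝ (m - 2) := by
  rw [Polynomial.Chebyshev.one_sub_X_sq_mul_derivative_derivative_T_eq_poly_in_T,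
    Polynomial.Chebyshev.T_derivative_eq_U]
  have h1 := Polynomial.Chebyshev.two_mul_T_eq_U_sub_U (R := ℝ) (m - 2)
  have h2 := Polynomial.Chebyshev.U_add_two (R := ℝ) (m - 2)
  have e1 : m - 2 + 2 = m := by ring
  have e2 : m - 2 + 1 = m - 1 := by ring
  rw [e1] at h1 h2
  rw [e2] at h2
  have c1 : (C ((ν - m ^ 2 + m / 2) / 2) : Polynomial ℝ) =
      C (1 / 2) * (C ν - (m : Polynomial ℝ) ^ 2 + C (1 / 2) * (m : Polynomial ℝ)) := by
    rw [← Polynomial.C_eq_intCast, ← Polynomial.C_pow, ← Polynomial.C_mul, ← Polynomial.C_sub,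
      ← Polynomial.C_add, ← Polynomial.C_mul]
    congr 1; ring
  have c2 : (C ((ν - m ^ 2 - m / 2) / 2) : Polynomial ℝ) =
      C (1 / 2) * (C ν - (m : Polynomial ℝ) ^ 2 - C (1 / 2) * (m : Polynomial ℝ)) := by
    rw [← Polynomial.C_eq_intCast, ← Polynomial.C_pow, ← Polynomial.C_mul, ← Polynomial.C_sub,
      ← Polynomial.C_sub, ← Polynomial.C_mul]
    congr 1; ring
  have c3 : (C (1 / 2) : Polynomial ℝ) * 2 = 1 := by
    have : (2 : Polynomial ℝ) = C 2 := rfl
    rw [this, ← Polynomial.C_mul]; norm_num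
  rw [c1, c2]
  generalize (C (1 / 2) : Polynomial ℝ) = c at c3 ⊢
  generalize U ℝ (m - 1) = u1 at h2 ⊢
  generalize U ℝ (m - 2) = u2 at h1 h2 ⊢
  generalize U ℝ m = u0 at h1 h2 ⊢
  generalize T ℝ m = t at h1 ⊢
  generalize (C ν : Polynomial ℝ) = v
  generalize (m : Polynomial ℝ) = M
  -- `2 t = u0 - u2`, `u0 = 2 X u1 - u2`, `c * 2 = 1`
  have h3 : t = c * (u0 - u2) := by
    rw [← h1]; linear_combination (-t) * c3
  have h4 : X * u1 = c * (u0 + u2) := by
    rw [h2]; linear_combination (-(X * u1)) * c3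
  have h5 : X * (M * u1) = M * (c * (u0 + u2)) := by rw [← h4]; ring
  rw [h3]
  have h6 : c * X * (M * u1) = c * (X * (M * u1)) := by ring
  rw [h6, h5]
  linear_combination (-(M * c * (u0 + u2))) * c3

/-- The differential equation. -/
lemma Wp_ode (n : ℕ) :
    (1 - X ^ 2) * derivative^[2] (Wp n) - C (1 / 2) * X * derivative (Wp n) +
      C ((n : ℝ) * (n - 1 / 2)) * Wp n = 0 := by
  have h0 : (1 - X ^ 2) * derivative^[2] (Wp n) - C (1 / 2) * X * derivative (Wp n) +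
      C ((n : ℝ) * (n - 1 / 2)) * Wp n = ∑ j ∈ range (n + 1), C (gc n j) *
      ((1 - X ^ 2) * derivative^[2] (T ℝ ((n : ℤ) - 2 * j)) -
      C (1 / 2) * X * derivative (T ℝ ((n : ℤ) - 2 * j)) +
      C ((n : ℝ) * (n - 1 / 2)) * T ℝ ((n : ℤ) - 2 * j)) := by
    unfold Wp
    simp only [Function.iterate_succ, Function.iterate_zero, Function.comp_apply, id,
      Polynomial.derivative_sum, Polynomial.derivative_C_mul, Finset.mul_sum]
    rw [← Finset.sum_sub_distrib, ← Finset.sum_add_distrib]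
    refine Finset.sum_congr rfl fun j _ => ?_
    ring
  rw [h0]
  set G : ℕ → Polynomial ℝ := fun j => C (2 * (j : ℝ) * (n - j - 1 / 4) * gc n j) *
    U ℝ ((n : ℤ) - 2 * j) with hG
  set H : ℕ → Polynomial ℝ := fun j => C (2 * ((n : ℝ) - j) * (j - 1 / 4) * gc n j) *
    U ℝ ((n : ℤ) - 2 * j - 2) with hH
  have h1 : ∀ j, C (gc n j) * ((1 - X ^ 2) * derivative^[2] (T ℝ ((n : ℤ) - 2 * j)) -
      C (1 / 2) * X * derivative (T ℝ ((n : ℤ) - 2 * j)) +
      C ((n : ℝ) * (n - 1 / 2)) * T ℝ ((n : ℤ) - 2 * j)) = G j - H j := by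
    intro j
    rw [ode_term, hG, hH, mul_sub, ← mul_assoc, ← mul_assoc, ← Polynomial.C_mul,
      ← Polynomial.C_mul]
    congr 3
    · push_cast; ring
    · push_cast; ring
  simp_rw [h1]
  rw [Finset.sum_sub_distrib, Finset.sum_range_succ', Finset.sum_range_succ (f := H)]
  have hG0 : G 0 = 0 := by rw [hG]; simp
  have hHn : H n = 0 := by rw [hH]; simp
  rw [hG0, hHn, add_zero, add_zero, sub_eq_zero]
  refine Finset.sum_congr rfl fun j hj => ?_
  have hj' : j + 1 ≤ n := mem_range.1 hj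
  have h2 := gc_rec n j hj'
  rw [hG, hH]
  simp only
  have e1 : (n : ℤ) - 2 * ((j + 1 : ℕ) : ℤ) = (n : ℤ) - 2 * j - 2 := by push_cast; ring
  rw [e1]
  congr 2
  push_cast
  linear_combination 2 * h2

lemma Wp_natDegree_le (n : ℕ) : (Wp n).natDegree ≤ n := by
  unfold Wp
  refine Polynomial.natDegree_sum_le_of_forall_le _ _ fun j hj => ?_
  refine (Polynomial.natDegree_C_mul_le _ _).trans ?_
  rw [Polynomial.Chebyshev.natDegree_T]
  have := mem_range.1 hj
  omega

lemma Wp_eval_one_pos {n : ℕ} (hn : 1 ≤ n) : 0 < (Wp n).eval 1 := by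
  have h := Wp_eval_cos n 0
  rw [Real.cos_zero] at h
  rw [h]
  simp only [mul_zero, Real.cos_zero, mul_one]
  exact sum_gc_pos hn

/-- Sign of the node polynomial at equidistant points. -/
lemma Wp_sign {n : ℕ} (hn : 1 ≤ n) (k : ℕ) :
    0 < (-1 : ℝ) ^ k * (Wp n).eval (Real.cos (k * π / n)) := by
  have hn' : (n : ℝ) ≠ 0 := by positivity
  refine lt_of_lt_of_le (sum_gc_pos hn) ?_
  rw [Wp_eval_cos, Finset.mul_sum]
  refine Finset.sum_le_sum fun j hj => ?_
  have hj' : j ≤ n := Nat.lt_succ_iff.1 (mem_range.1 hj)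
  have e1 : ((n : ℝ) - 2 * j) * (k * π / n) = k * π - 2 * j * k * π / n := by
    field_simp
  have e2 : Real.cos (k * π - 2 * j * k * π / n) = (-1) ^ k * Real.cos (2 * j * k * π / n) := by
    rw [Real.cos_sub, Real.cos_nat_mul_pi, Real.sin_nat_mul_pi]; ring
  have e3 : (-1 : ℝ) ^ k * (gc n j * ((-1) ^ k * Real.cos (2 * j * k * π / n))) =
      gc n j * Real.cos (2 * j * k * π / n) := by
    have : ((-1 : ℝ) ^ k) * (-1) ^ k = 1 := by rw [← mul_pow]; norm_num
    linear_combination (gc n j * Real.cos (2 * j * k * π / n)) * this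
  rw [e1, e2, e3]
  rcases Nat.eq_zero_or_pos j with rfl | hj0
  · simp
  rcases hj'.lt_or_eq with hlt | rfl
  · have h1 := gc_neg hj0 hlt
    have h2 := Real.cos_le_one (2 * (j : ℝ) * k * π / n)
    nlinarith
  · have e4 : 2 * (j : ℝ) * k * π / j = k * (2 * π) := by field_simp
    rw [e4, Real.cos_nat_mul_two_pi, mul_one]

/-- Existence of the nodes. -/
lemma exists_nodes {n : ℕ} (hn : 1 ≤ n) : ∃ θ : Fin n → ℝ,
    (∀ k : Fin n, θ k ∈ Set.Ioo (((k : ℕ) : ℝ) * π / n) ((((k : ℕ) : ℝ) + 1) * π / n)) ∧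
    (∀ k, (Wp n).eval (Real.cos (θ k)) = 0) := by
  have hn' : (0 : ℝ) < n := by exact_mod_cast hn
  have key : ∀ k : Fin n, ∃ t, t ∈ Set.Ioo (((k : ℕ) : ℝ) * π / n) ((((k : ℕ) : ℝ) + 1) * π / n) ∧
      (Wp n).eval (Real.cos t) = 0 := by
    intro k
    set f : ℝ → ℝ := fun t => (-1 : ℝ) ^ (k : ℕ) * (Wp n).eval (Real.cos t) with hf
    have hfc : Continuous f := by
      rw [hf]
      exact continuous_const.mul ((Wp n).continuous.comp Real.continuous_cos)
    have h1 : 0 < f (((k : ℕ) : ℝ) * π / n) := Wp_sign hn k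
    have h2 : f ((((k : ℕ) : ℝ) + 1) * π / n) < 0 := by
      have := Wp_sign hn (k + 1)
      push_cast at this
      rw [hf]
      simp only
      rw [pow_succ] at this
      linarith
    have hle : ((k : ℕ) : ℝ) * π / n ≤ (((k : ℕ) : ℝ) + 1) * π / n := by
      have := Real.pi_pos
      gcongr
      linarith
    obtain ⟨t, ht, hft⟩ := intermediate_value_Ioo' hle hfc.continuousOn ⟨h2, h1⟩
    refine ⟨t, ht, ?_⟩
    have h3 : ((-1 : ℝ) ^ (k : ℕ)) ≠ 0 := pow_ne_zero _ (by norm_num)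
    exact (mul_eq_zero.1 hft).resolve_left h3
  choose θ h1 h2 using key
  exact ⟨θ, h1, h2⟩

end Pool.Agent.H79
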