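import Pool.Agent.H79.G2

/-!
The weight functional and orthogonality.
-/

open Real MeasureTheory intervalIntegral Finset Filter Topology

namespace Pool.Agent.H79

open Polynomial (C X derivative)
open Polynomial.Chebyshev (T U)

lemma sin_ge_quarter {t : ℝ} (h0 : 0 ≤ t) (h1 : t ≤ π / 2) : t ≤ 4 * Real.sin t := by
  have h := Real.mul_le_sin h0 h1
  have hpi := Real.pi_pos
  have hpi4 := Real.pi_le_four
  have h2 : t / 2 ≤ 2 / π * t := by
    have : 1 / 2 ≤ 2 / π := by rw [div_le_div_iff₀ (by norm_num) hpi]; linarith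
    nlinarith
  linarith

lemma inv_sqrt_sin_le {t : ℝ} (h0 : 0 < t) (h1 : t ≤ π / 2) :
    1 / √(Real.sin t) ≤ 2 * t ^ (-(1 / 2) : ℝ) := by
  have h2 := sin_ge_quarter h0.le h1
  have hs : 0 < Real.sin t := by linarith
  rw [Real.rpow_neg h0.le, ← Real.sqrt_eq_rpow]
  have h3 : √t ≤ 2 * √(Real.sin t) := by
    calc √t ≤ √(4 * Real.sin t) := Real.sqrt_le_sqrt h2
      _ = 2 * √(Real.sin t) := by
        rw [Real.sqrt_mul (by norm_num), show (4 : ℝ) = 2 ^ 2 by norm_num,
          Real.sqrt_sq (by norm_num)]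
  have h4 : 0 < √t := Real.sqrt_pos.2 h0
  have h5 : 0 < √(Real.sin t) := Real.sqrt_pos.2 hs
  rw [← div_eq_mul_inv, div_le_div_iff₀ h5 h4]
  linarith

lemma integrable_weight : IntervalIntegrable (fun t => 1 / √(Real.sin t)) volume 0 π := by
  have hpi := Real.pi_pos
  have h1 : IntervalIntegrable (fun t : ℝ => 2 * t ^ (-(1 / 2) : ℝ)) volume 0 π :=
    (intervalIntegral.intervalIntegrable_rpow' (by norm_num)).const_mul 2
  have h2 : IntervalIntegrable (fun t : ℝ => 2 * (π - t) ^ (-(1 / 2) : ℝ)) volume 0 π := by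
    have := h1.comp_sub_left π
    simp only [sub_zero, sub_self] at this
    exact this.symm
  refine (h1.add h2).mono_fun' ?_ ?_
  · exact (Measurable.aestronglyMeasurable (by fun_prop))
  · rw [Set.uIoc_of_le hpi.le]
    rw [EventuallyLE, ae_restrict_iff' measurableSet_Ioc]
    refine Eventually.of_forall fun t ht => ?_
    rw [Real.norm_eq_abs, abs_of_nonneg (by positivity)]
    have g1 : 0 ≤ 2 * t ^ (-(1 / 2) : ℝ) := by have := ht.1; positivity
    have g2 : 0 ≤ 2 * (π - t) ^ (-(1 / 2) : ℝ) := by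
      have : 0 ≤ π - t := by linarith [ht.2]
      positivity
    rcases le_total t (π / 2) with h | h
    · have := inv_sqrt_sin_le ht.1 h
      linarith
    · rcases ht.2.lt_or_eq with h3 | h3
      · have := inv_sqrt_sin_le (t := π - t) (by linarith) (by linarith)
        rw [Real.sin_pi_sub] at this
        linarith
      · rw [h3]
        simp only [Real.sin_pi, Real.sqrt_zero, div_zero]
        rw [h3] at g1 g2
        linarith

lemma integrable_weight_mul {f : ℝ → ℝ} (hf : Continuous f) :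
    IntervalIntegrable (fun t => 1 / √(Real.sin t) * f t) volume 0 π :=
  integrable_weight.mul_continuousOn hf.continuousOn

lemma continuous_eval_cos (p : Polynomial ℝ) : Continuous fun t => p.eval (Real.cos t) :=
  p.continuous.comp Real.continuous_cos

/-- The weight functional on polynomials. -/
noncomputable def LP : Polynomial ℝ →ₗ[ℝ] ℝ where
  toFun p := ∫ t in (0 : ℝ)..π, 1 / √(Real.sin t) * p.eval (Real.cos t)
  map_add' p q := by
    rw [← intervalIntegral.integral_add (integrable_weight_mul (continuous_eval_cos p))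
      (integrable_weight_mul (continuous_eval_cos q))]
    refine intervalIntegral.integral_congr fun t _ => ?_
    simp only [Polynomial.eval_add]
    ring
  map_smul' a p := by
    simp only [RingHom.id_apply, smul_eq_mul]
    rw [← intervalIntegral.integral_const_mul]
    refine intervalIntegral.integral_congr fun t _ => ?_
    simp only [Polynomial.eval_smul, smul_eq_mul]
    ring

lemma LP_apply (p : Polynomial ℝ) :
    LP p = ∫ t in (0 : ℝ)..π, 1 / √(Real.sin t) * p.eval (Real.cos t) := rfl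

lemma LP_C_mul (a : ℝ) (p : Polynomial ℝ) : LP (C a * p) = a * LP p := by
  rw [← Polynomial.smul_eq_C_mul, map_smul, smul_eq_mul]

/-- The Pearson identity. -/
lemma LP_pearson (p : Polynomial ℝ) :
    LP ((1 - X ^ 2) * derivative p - C (1 / 2) * X * p) = 0 := by
  have hpi := Real.pi_pos
  set F : ℝ → ℝ := fun t => -(√(Real.sin t) * p.eval (Real.cos t)) with hF
  have hFc : Continuous F := by
    rw [hF]
    exact ((Real.continuous_sqrt.comp Real.continuous_sin).mul (continuous_eval_cos p)).neg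
  have hd : ∀ t ∈ Set.Ioo 0 π, HasDerivAt F (1 / √(Real.sin t) *
      ((1 - X ^ 2) * derivative p - C (1 / 2) * X * p).eval (Real.cos t)) t := by
    intro t ht
    have hs : 0 < Real.sin t := Real.sin_pos_of_mem_Ioo ht
    have h1 : HasDerivAt (fun t => √(Real.sin t)) (Real.cos t / (2 * √(Real.sin t))) t :=
      (Real.hasDerivAt_sin t).sqrt hs.ne'
    have h2 : HasDerivAt (fun t => p.eval (Real.cos t))
        ((derivative p).eval (Real.cos t) * (-Real.sin t)) t :=
      (p.hasDerivAt (Real.cos t)).comp t (Real.hasDerivAt_cos t)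
    have h3 := (h1.mul h2).neg
    refine h3.congr_deriv ?_
    simp only [Polynomial.eval_sub, Polynomial.eval_mul, Polynomial.eval_one, Polynomial.eval_pow,
      Polynomial.eval_X, Polynomial.eval_C]
    have h4 : √(Real.sin t) ^ 2 = Real.sin t := Real.sq_sqrt hs.le
    have h5 : 0 < √(Real.sin t) := Real.sqrt_pos.2 hs
    have h6 : 1 - Real.cos t ^ 2 = Real.sin t ^ 2 := by
      have := Real.sin_sq_add_cos_sq t; linarith
    rw [h6]
    set x := √(Real.sin t)
    rw [← h4]
    field_simp
    ring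
  have hint := intervalIntegral.integral_eq_sub_of_hasDerivAt_of_le hpi.le hFc.continuousOn hd
    (integrable_weight_mul (continuous_eval_cos _))
  rw [LP_apply, hint, hF]
  simp

lemma LP_X_mul_T (j : ℕ) : LP (X * T ℝ j) = 2 * j * SS j := by
  have hpi := Real.pi_pos
  set F : ℝ → ℝ := fun t => 2 * √(Real.sin t) * Real.cos (j * t) with hF
  have hFc : Continuous F := by rw [hF]; fun_prop
  have hd : ∀ t ∈ Set.Ioo 0 π, HasDerivAt F (1 / √(Real.sin t) * (Real.cos t * Real.cos (j * t)) -
      2 * j * (√(Real.sin t) * Real.sin (j * t))) t := by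
    intro t ht
    have hs : 0 < Real.sin t := Real.sin_pos_of_mem_Ioo ht
    have h1 : HasDerivAt (fun t => √(Real.sin t)) (Real.cos t / (2 * √(Real.sin t))) t :=
      (Real.hasDerivAt_sin t).sqrt hs.ne'
    have h2 : HasDerivAt (fun t => Real.cos (j * t)) (-Real.sin (j * t) * (j * 1)) t :=
      ((hasDerivAt_id t).const_mul (j : ℝ)).cos
    have h3 := (h1.const_mul 2).mul h2
    refine h3.congr_deriv ?_
    have h5 : 0 < √(Real.sin t) := Real.sqrt_pos.2 hs
    field_simp
    ring
  have hi1 : IntervalIntegrable (fun t => 1 / √(Real.sin t) * (Real.cos t * Real.cos (j * t)))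
      volume 0 π := integrable_weight_mul (by fun_prop)
  have hi2 : IntervalIntegrable (fun t => 2 * j * (√(Real.sin t) * Real.sin (j * t)))
      volume 0 π := Continuous.intervalIntegrable (by fun_prop) _ _
  have hint := intervalIntegral.integral_eq_sub_of_hasDerivAt_of_le hpi.le hFc.continuousOn hd
    (hi1.sub hi2)
  rw [intervalIntegral.integral_sub hi1 hi2, intervalIntegral.integral_const_mul] at hint
  have hF0 : F 0 = 0 := by rw [hF]; simp
  have hFπ : F π = 0 := by rw [hF]; simp
  rw [hF0, hFπ] at hint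
  rw [LP_apply]
  have h1 : ∫ t in (0 : ℝ)..π, 1 / √(Real.sin t) * (X * T ℝ j).eval (Real.cos t) =
      ∫ t in (0 : ℝ)..π, 1 / √(Real.sin t) * (Real.cos t * Real.cos (j * t)) := by
    refine intervalIntegral.integral_congr fun t _ => ?_
    simp only [Polynomial.eval_mul, Polynomial.eval_X, Polynomial.Chebyshev.T_real_cos,
      Int.cast_natCast]
  rw [h1]
  unfold SS
  linarith

/-- Moments. -/
noncomputable def mu0 (j : ℤ) : ℝ := LP (T ℝ j)

lemma mu0_sub (j : ℕ) : mu0 ((j : ℤ) - 1) - mu0 ((j : ℤ) + 1) = 2 * SS j := by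
  unfold mu0
  rw [← map_sub, LP_apply]
  unfold SS
  rw [← intervalIntegral.integral_const_mul]
  refine intervalIntegral.integral_congr fun t ht => ?_
  rw [Set.uIcc_of_le Real.pi_pos.le] at ht
  have hs := Real.sin_nonneg_of_mem_Icc ht
  simp only [Polynomial.eval_sub, Polynomial.Chebyshev.T_real_cos]
  push_cast
  have e1 : ((j : ℝ) - 1) * t = j * t - t := by ring
  have e2 : ((j : ℝ) + 1) * t = j * t + t := by ring
  rw [e1, e2, Real.cos_add, Real.cos_sub]
  rcases hs.eq_or_lt with h | h
  · rw [← h]; simp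
  · have h5 : 0 < √(Real.sin t) := Real.sqrt_pos.2 h
    have h4 : √(Real.sin t) ^ 2 = Real.sin t := Real.sq_sqrt h.le
    field_simp
    rw [h4]
    ring

lemma mu0_add (j : ℕ) : mu0 ((j : ℤ) - 1) + mu0 ((j : ℤ) + 1) = 4 * j * SS j := by
  unfold mu0
  rw [← map_add]
  have h1 := Polynomial.Chebyshev.T_add_one (R := ℝ) (j : ℤ)
  have h2 : T ℝ ((j : ℤ) - 1) + T ℝ ((j : ℤ) + 1) = C 2 * (X * T ℝ (j : ℤ)) := by
    rw [h1]
    have : (C 2 : Polynomial ℝ) = 2 := rfl
    rw [this]; ring
  rw [h2, LP_C_mul, LP_X_mul_T]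
  ring

lemma mu0_eq (j : ℕ) : mu0 ((j : ℤ) + 1) = (2 * j - 1) * SS j := by
  have h1 := mu0_sub j
  have h2 := mu0_add j
  linarith

lemma mu0_neg (j : ℤ) : mu0 (-j) = mu0 j := by
  unfold mu0; rw [Polynomial.Chebyshev.T_neg]

lemma abs_mu0_le (j : ℤ) : |mu0 j| ≤ mu0 0 := by
  unfold mu0
  rw [LP_apply, LP_apply]
  refine (intervalIntegral.abs_integral_le_integral_abs Real.pi_pos.le).trans ?_
  refine intervalIntegral.integral_mono_on Real.pi_pos.le
    (integrable_weight_mul (continuous_eval_cos _)).abs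
    (integrable_weight_mul (continuous_eval_cos _)) fun t _ => ?_
  rw [abs_mul, abs_of_nonneg (by positivity : 0 ≤ 1 / √(Real.sin t))]
  refine mul_le_mul_of_nonneg_left ?_ (by positivity)
  rw [Polynomial.Chebyshev.T_real_cos]
  simp only [Polynomial.Chebyshev.T_zero, Polynomial.eval_one]
  exact Real.abs_cos_le_one _

lemma tendsto_mu0 : Tendsto (fun j : ℕ => mu0 j) atTop (𝓝 0) := by
  have h1 : Tendsto (fun j : ℕ => √(8 * Tl j)) atTop (𝓝 0) := by
    have := ((tendsto_Tl.const_mul 8).sqrt)
    simpa using this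
  refine (tendsto_add_atTop_iff_nat 1).1 ?_
  refine squeeze_zero_norm (fun j => ?_) h1
  push_cast
  rw [mu0_eq, Real.norm_eq_abs]
  have h2 : 8 * Tl j = ((2 * (j : ℝ) + 1) * SS j) ^ 2 := by unfold Tl; ring
  rw [h2, Real.sqrt_sq_eq_abs, abs_mul, abs_mul]
  refine mul_le_mul_of_nonneg_right ?_ (abs_nonneg _)
  have : (0 : ℝ) ≤ j := Nat.cast_nonneg j
  rw [abs_of_nonneg (by positivity : 0 ≤ 2 * (j : ℝ) + 1)]
  rw [abs_le]; constructor <;> linarith

end Pool.Agent.H79
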