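import Pool.Agent.H79.G3

/-!
Orthogonality of the node polynomial and the quadrature identity.
-/

open Real MeasureTheory intervalIntegral Finset Filter Topology

namespace Pool.Agent.H79

open Polynomial (C X derivative)
open Polynomial.Chebyshev (T U)

/-- The differential operator. -/
noncomputable def Lop (f : Polynomial ℝ) : Polynomial ℝ :=
  (1 - X ^ 2) * derivative^[2] f - C (1 / 2) * X * derivative f

lemma LP_Lop (f g : Polynomial ℝ) :
    LP (g * Lop f) = -LP ((1 - X ^ 2) * (derivative f * derivative g)) := by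
  have h := LP_pearson (derivative f * g)
  have e : (1 - X ^ 2) * derivative (derivative f * g) - C (1 / 2) * X * (derivative f * g) =
      g * Lop f + (1 - X ^ 2) * (derivative f * derivative g) := by
    unfold Lop
    simp only [Function.iterate_succ, Function.iterate_zero, Function.comp_apply, id,
      Polynomial.derivative_mul]
    ring
  rw [e, map_add] at h
  linarith

lemma LP_symm (f g : Polynomial ℝ) : LP (g * Lop f) = LP (f * Lop g) := by
  rw [LP_Lop, LP_Lop, mul_comm (derivative f)]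

lemma Wp_Lop (n : ℕ) : Lop (Wp n) = -(C ((n : ℝ) * (n - 1 / 2)) * Wp n) := by
  have := Wp_ode n
  unfold Lop
  linear_combination this

/-- Orthogonality against the shifted operator. -/
lemma LP_Wp_Lop (n : ℕ) (p : Polynomial ℝ) :
    LP (Wp n * (Lop p + C ((n : ℝ) * (n - 1 / 2)) * p)) = 0 := by
  have h := LP_symm p (Wp n)
  rw [Wp_Lop] at h
  rw [mul_add, map_add, h, ← map_add]
  have : p * -(C ((n : ℝ) * (n - 1 / 2)) * Wp n) + Wp n * (C ((n : ℝ) * (n - 1 / 2)) * p) = 0 := by
    ring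
  rw [this, map_zero]

lemma LP_Wp_X_pow {n : ℕ} (m : ℕ) (hm : m < n) : LP (Wp n * X ^ m) = 0 := by
  induction m using Nat.strong_induction_on with
  | _ m ih =>
    have hmn : ((m : ℝ) + 1) ≤ n := by exact_mod_cast hm
    have hm0 : (0 : ℝ) ≤ m := Nat.cast_nonneg m
    have h := LP_Wp_Lop n (X ^ m)
    have hne : ((n : ℝ) * (n - 1 / 2) - m * (m - 1 / 2)) ≠ 0 := by
      have : (n : ℝ) * (n - 1 / 2) - m * (m - 1 / 2) = (n - m) * (n + m - 1 / 2) := by ring
      rw [this]
      have h1 : 0 < (n : ℝ) - m := by linarith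
      have h2 : 0 < (n : ℝ) + m - 1 / 2 := by linarith
      positivity
    rcases m with _ | _ | m
    · have e : Lop (X ^ 0) + C ((n : ℝ) * (n - 1 / 2)) * X ^ 0 =
          C ((n : ℝ) * (n - 1 / 2) - (0 : ℕ) * ((0 : ℕ) - 1 / 2)) * X ^ 0 := by
        unfold Lop; simp
      rw [e, ← mul_assoc, mul_comm (Wp n), mul_assoc, LP_C_mul] at h
      exact (mul_eq_zero.1 h).resolve_left hne
    · have e : Lop (X ^ (0 + 1)) + C ((n : ℝ) * (n - 1 / 2)) * X ^ (0 + 1) =
          C ((n : ℝ) * (n - 1 / 2) - (0 + 1 : ℕ) * ((0 + 1 : ℕ) - 1 / 2)) * X ^ (0 + 1) := by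
        unfold Lop
        simp only [Function.iterate_succ, Function.iterate_zero, Function.comp_apply, id, zero_add,
          pow_one, Polynomial.derivative_X, Polynomial.derivative_one, mul_zero, mul_one,
          Nat.cast_one]
        rw [Polynomial.C_sub]
        norm_num
        ring
      rw [e, ← mul_assoc, mul_comm (Wp n), mul_assoc, LP_C_mul] at h
      exact (mul_eq_zero.1 h).resolve_left hne
    · have e : Lop (X ^ (m + 1 + 1)) + C ((n : ℝ) * (n - 1 / 2)) * X ^ (m + 1 + 1) =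
          C ((n : ℝ) * (n - 1 / 2) - (m + 1 + 1 : ℕ) * ((m + 1 + 1 : ℕ) - 1 / 2)) *
            X ^ (m + 1 + 1) + C ((m + 2 : ℝ) * (m + 1)) * X ^ m := by
        unfold Lop
        simp only [Function.iterate_succ, Function.iterate_zero, Function.comp_apply, id,
          Polynomial.derivative_X_pow, Polynomial.derivative_C_mul, Nat.add_sub_cancel,
          Nat.cast_add, Nat.cast_one]
        have c1 : (C ((m : ℝ) + 1 + 1) : Polynomial ℝ) = C (m : ℝ) + 2 := by
          rw [Polynomial.C_add, Polynomial.C_add, Polynomial.C_1]; ring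
        have c2 : (C ((m : ℝ) + 1) : Polynomial ℝ) = C (m : ℝ) + 1 := by
          rw [Polynomial.C_add, Polynomial.C_1]
        have c3 : (C ((n : ℝ) * (n - 1 / 2) - ((m : ℝ) + 1 + 1) * ((m : ℝ) + 1 + 1 - 1 / 2)) :
            Polynomial ℝ) = C ((n : ℝ) * (n - 1 / 2)) -
              (C (m : ℝ) + 2) * (C (m : ℝ) + 2 - C (1 / 2)) := by
          rw [Polynomial.C_sub, Polynomial.C_mul (a := (m : ℝ) + 1 + 1),
            Polynomial.C_sub (a := (m : ℝ) + 1 + 1), c1]
        have c4 : (C (((m : ℝ) + 2) * (m + 1)) : Polynomial ℝ) =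
            (C (m : ℝ) + 2) * (C (m : ℝ) + 1) := by
          rw [Polynomial.C_mul, c2, Polynomial.C_add]
          rfl
        have c5 : (C (1 / 2) : Polynomial ℝ) * 2 = 1 := by
          have : (2 : Polynomial ℝ) = C 2 := rfl
          rw [this, ← Polynomial.C_mul]; norm_num
        rw [c3, c4, c1, c2]
        linear_combination (-(X ^ (m + 2) * (C (m : ℝ) + 2))) * c5
      rw [e, mul_add, map_add] at h
      have e2 : Wp n * (C ((m + 2 : ℝ) * (m + 1)) * X ^ m) =
          C ((m + 2 : ℝ) * (m + 1)) * (Wp n * X ^ m) := by ring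
      have e3 : Wp n * (C ((n : ℝ) * (n - 1 / 2) - (m + 1 + 1 : ℕ) * ((m + 1 + 1 : ℕ) - 1 / 2)) *
            X ^ (m + 1 + 1)) = C ((n : ℝ) * (n - 1 / 2) - (m + 1 + 1 : ℕ) *
            ((m + 1 + 1 : ℕ) - 1 / 2)) * (Wp n * X ^ (m + 1 + 1)) := by ring
      rw [e2, e3, LP_C_mul, LP_C_mul, ih m (by omega) (by omega), mul_zero, add_zero] at h
      exact (mul_eq_zero.1 h).resolve_left hne

/-- Orthogonality. -/
lemma LP_Wp_mul {n : ℕ} (p : Polynomial ℝ) (hp : p.natDegree < n) : LP (Wp n * p) = 0 := by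
  rw [p.as_sum_range_C_mul_X_pow, Finset.mul_sum, map_sum]
  refine Finset.sum_eq_zero fun i hi => ?_
  have hi' : i < n := by have := mem_range.1 hi; omega
  have e : Wp n * (C (p.coeff i) * X ^ i) = C (p.coeff i) * (Wp n * X ^ i) := by ring
  rw [e, LP_C_mul, LP_Wp_X_pow i hi', mul_zero]

/-- The squared norm. -/
noncomputable def hn2 (n : ℕ) : ℝ := LP (Wp n * Wp n)

/-- The leading coefficient. -/
noncomputable def kap (n : ℕ) : ℝ := (Wp n).coeff n

lemma LP_Wp_mul_le {n : ℕ} (hn : 1 ≤ n) (p : Polynomial ℝ) (hp : p.natDegree ≤ n) :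
    kap n * LP (Wp n * p) = p.coeff n * hn2 n := by
  set r : Polynomial ℝ := C (kap n) * p - C (p.coeff n) * Wp n with hr
  have hd : r.natDegree ≤ n := by
    rw [hr]
    refine (Polynomial.natDegree_sub_le _ _).trans (max_le ?_ ?_)
    · exact (Polynomial.natDegree_C_mul_le _ _).trans hp
    · exact (Polynomial.natDegree_C_mul_le _ _).trans (Wp_natDegree_le n)
  have hc : r.coeff n = 0 := by
    rw [hr, Polynomial.coeff_sub, Polynomial.coeff_C_mul, Polynomial.coeff_C_mul]
    unfold kap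
    ring
  have hlt : r.natDegree < n := by
    rcases hd.lt_or_eq with h | h
    · exact h
    · have h1 : r.leadingCoeff = 0 := by
        unfold Polynomial.leadingCoeff; rw [h]; exact hc
      rw [Polynomial.leadingCoeff_eq_zero] at h1
      rw [h1, Polynomial.natDegree_zero]
      omega
  have h := LP_Wp_mul r hlt
  have e : Wp n * r = C (kap n) * (Wp n * p) - C (p.coeff n) * (Wp n * Wp n) := by
    rw [hr]; ring
  rw [e, map_sub, LP_C_mul, LP_C_mul] at h
  unfold hn2
  linarith

lemma nodes_inj {n : ℕ} (θ : Fin n → ℝ)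
    (hθ : ∀ k : Fin n, θ k ∈ Set.Ioo (((k : ℕ) : ℝ) * π / n) ((((k : ℕ) : ℝ) + 1) * π / n)) :
    Function.Injective fun k => Real.cos (θ k) := by
  have hpi := Real.pi_pos
  intro i j hij
  have hn : 0 < n := i.pos
  have hn' : (0 : ℝ) < n := by exact_mod_cast hn
  have hmem : ∀ k : Fin n, θ k ∈ Set.Icc 0 π := by
    intro k
    have h1 := hθ k
    have h2 : (((k : ℕ) : ℝ) + 1) ≤ n := by exact_mod_cast k.2
    constructor
    · exact le_trans (by positivity) h1.1.le
    · refine h1.2.le.trans ?_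
      rw [div_le_iff₀ hn']
      nlinarith
  have h3 : θ i = θ j := Real.injOn_cos (hmem i) (hmem j) hij
  have h4 := hθ i
  have h5 := hθ j
  rw [h3] at h4
  have h6 : ((i : ℕ) : ℝ) < ((j : ℕ) : ℝ) + 1 := by
    have := h4.1.trans h5.2
    rw [div_lt_div_iff_of_pos_right hn'] at this
    exact lt_of_mul_lt_mul_right this hpi.le
  have h7 : ((j : ℕ) : ℝ) < ((i : ℕ) : ℝ) + 1 := by
    have := h5.1.trans h4.2
    rw [div_lt_div_iff_of_pos_right hn'] at this
    exact lt_of_mul_lt_mul_right this hpi.le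
  have h8 : (i : ℕ) < (j : ℕ) + 1 := by exact_mod_cast h6
  have h9 : (j : ℕ) < (i : ℕ) + 1 := by exact_mod_cast h7
  exact Fin.ext (by omega)

lemma Wp_ne_zero {n : ℕ} (hn : 1 ≤ n) : Wp n ≠ 0 := by
  intro h
  have := Wp_eval_one_pos hn
  rw [h, Polynomial.eval_zero] at this
  exact lt_irrefl _ this

lemma kap_ne {n : ℕ} (hn : 1 ≤ n) : kap n ≠ 0 := by
  intro h
  obtain ⟨θ, h1, h2⟩ := exists_nodes hn
  have hlt : (Wp n).natDegree < n := by
    rcases (Wp_natDegree_le n).lt_or_eq with h3 | h3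
    · exact h3
    · have h4 : (Wp n).leadingCoeff = 0 := by
        unfold Polynomial.leadingCoeff; rw [h3]; exact h
      rw [Polynomial.leadingCoeff_eq_zero] at h4
      exact absurd h4 (Wp_ne_zero hn)
  have h5 := Polynomial.eq_zero_of_natDegree_lt_card_of_eval_eq_zero (Wp n) (nodes_inj θ h1) h2
    (by rw [Fintype.card_fin]; exact hlt)
  exact Wp_ne_zero hn h5

lemma coeff_one_sub (p : Polynomial ℝ) (j : ℕ) :
    ((1 - X ^ 2) * p).coeff (j + 2) = p.coeff (j + 2) - p.coeff j := by
  rw [sub_mul, one_mul, Polynomial.coeff_sub, Polynomial.coeff_X_pow_mul]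

/-- The quadrature identity at a node. -/
lemma node_identity {m : ℕ} {x : ℝ} {q : Polynomial ℝ}
    (hq : Wp (m + 1) = (X - C x) * q) :
    (1 - x ^ 2) * (derivative (Wp (m + 1))).eval x * LP q =
      (2 * ((m : ℝ) + 1) - 1 / 2) * hn2 (m + 1) := by
  have hn : 1 ≤ m + 1 := by omega
  have hk := kap_ne hn
  have hW := Wp_natDegree_le (m + 1)
  have hW0 : ∀ j, m + 1 < j → (Wp (m + 1)).coeff j = 0 := fun j hj =>
    Polynomial.coeff_eq_zero_of_natDegree_lt (lt_of_le_of_lt hW hj)
  have hq0 : q ≠ 0 := by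
    intro h
    rw [h, mul_zero] at hq
    exact Wp_ne_zero hn hq
  have hqd : q.natDegree ≤ m := by
    have h1 := (Polynomial.monic_X_sub_C x).natDegree_mul' hq0
    rw [← hq, Polynomial.natDegree_X_sub_C] at h1
    omega
  have hqc0 : ∀ j, m < j → q.coeff j = 0 := fun j hj =>
    Polynomial.coeff_eq_zero_of_natDegree_lt (lt_of_le_of_lt hqd hj)
  have hqc : q.coeff m = kap (m + 1) := by
    unfold kap
    rw [hq, sub_mul, Polynomial.coeff_sub, Polynomial.coeff_X_mul, Polynomial.coeff_C_mul,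
      hqc0 (m + 1) (by omega)]
    ring
  obtain ⟨A, hA⟩ : ∃ A, A = (1 - x ^ 2) * (derivative (Wp (m + 1))).eval x := ⟨_, rfl⟩
  -- the remainder
  set V : Polynomial ℝ := (1 - X ^ 2) * derivative (Wp (m + 1)) with hV
  have hVx : (V - C A).IsRoot x := by
    rw [Polynomial.IsRoot, Polynomial.eval_sub, Polynomial.eval_C, hV, hA]
    simp
  obtain ⟨r, hr⟩ := Polynomial.dvd_iff_isRoot.2 hVx
  have hVc : ∀ j, m + 2 < j → V.coeff j = 0 := by
    intro j hj
    obtain ⟨i, rfl⟩ : ∃ i, j = i + 2 := ⟨j - 2, by omega⟩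
    rw [hV, coeff_one_sub, Polynomial.coeff_derivative, Polynomial.coeff_derivative,
      hW0 _ (by omega), hW0 _ (by omega)]
    ring
  have hVc2 : V.coeff (m + 2) = -((m : ℝ) + 1) * kap (m + 1) := by
    rw [hV, coeff_one_sub, Polynomial.coeff_derivative, Polynomial.coeff_derivative,
      hW0 _ (by omega)]
    unfold kap
    ring
  have hVd : (V - C A).natDegree ≤ m + 2 := by
    rw [Polynomial.natDegree_le_iff_coeff_eq_zero]
    intro j hj
    rw [Polynomial.coeff_sub, hVc j hj, Polynomial.coeff_C_ne_zero (by omega), sub_zero]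
  have hrd : r.natDegree ≤ m + 1 := by
    by_cases h : r = 0
    · rw [h, Polynomial.natDegree_zero]; omega
    · have h1 := (Polynomial.monic_X_sub_C x).natDegree_mul' h
      rw [← hr, Polynomial.natDegree_X_sub_C] at h1
      omega
  have hrc0 : r.coeff (m + 2) = 0 :=
    Polynomial.coeff_eq_zero_of_natDegree_lt (lt_of_le_of_lt hrd (by omega))
  have hrc : r.coeff (m + 1) = -((m : ℝ) + 1) * kap (m + 1) := by
    have h1 : (V - C A).coeff (m + 2) = V.coeff (m + 2) := by
      rw [Polynomial.coeff_sub, Polynomial.coeff_C_ne_zero (by omega), sub_zero]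
    rw [hr, sub_mul, Polynomial.coeff_sub, Polynomial.coeff_C_mul, hrc0,
      show m + 2 = (m + 1) + 1 by ring, Polynomial.coeff_X_mul, mul_zero, sub_zero] at h1
    rw [h1]
    exact hVc2
  -- first evaluation
  have e1 : LP (q * V) = A * LP q + LP (Wp (m + 1) * r) := by
    have : q * V = C A * q + Wp (m + 1) * r := by
      rw [hq]
      have : V = C A + (X - C x) * r := by rw [← hr]; ring
      rw [this]; ring
    rw [this, map_add, LP_C_mul]
  have e2 := LP_Wp_mul_le hn r hrd
  rw [hrc] at e2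
  -- second evaluation
  have e3 := LP_pearson (q * Wp (m + 1))
  have e4 : (1 - X ^ 2) * derivative (q * Wp (m + 1)) - C (1 / 2) * X * (q * Wp (m + 1)) =
      q * V + Wp (m + 1) * ((1 - X ^ 2) * derivative q) - C (1 / 2) * (Wp (m + 1) * (X * q)) := by
    rw [hV, Polynomial.derivative_mul]
    ring
  rw [e4, map_sub, map_add, LP_C_mul] at e3
  have hd1 : (X * q).natDegree ≤ m + 1 := by
    refine (Polynomial.natDegree_mul_le).trans ?_
    rw [Polynomial.natDegree_X]
    omega
  have e5 := LP_Wp_mul_le hn (X * q) hd1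
  rw [Polynomial.coeff_X_mul, hqc] at e5
  have hd2 : ((1 - X ^ 2) * derivative q).natDegree ≤ m + 1 := by
    rw [Polynomial.natDegree_le_iff_coeff_eq_zero]
    intro j hj
    obtain ⟨i, rfl⟩ : ∃ i, j = i + 2 := ⟨j - 2, by omega⟩
    rw [coeff_one_sub, Polynomial.coeff_derivative, Polynomial.coeff_derivative,
      hqc0 _ (by omega), hqc0 _ (by omega)]
    ring
  have hc2 : ((1 - X ^ 2) * derivative q).coeff (m + 1) = -(m : ℝ) * kap (m + 1) := by
    rcases m with _ | m
    · rw [sub_mul, one_mul, Polynomial.coeff_sub, Polynomial.coeff_X_pow_mul',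
        Polynomial.coeff_derivative, hqc0 _ (by omega)]
      simp
    · rw [show m + 1 + 1 = m + 2 by ring, coeff_one_sub, Polynomial.coeff_derivative,
        Polynomial.coeff_derivative, hqc0 _ (by omega)]
      rw [show m + 2 = m + 1 + 1 by ring, ← hqc]
      push_cast
      ring
  have e6 := LP_Wp_mul_le hn ((1 - X ^ 2) * derivative q) hd2
  rw [hc2] at e6
  -- combine
  have e7 : kap (m + 1) * (A * LP q) =
      kap (m + 1) * ((2 * ((m : ℝ) + 1) - 1 / 2) * hn2 (m + 1)) := by
    rw [e1] at e3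
    linear_combination kap (m + 1) * e3 - e6 - e2 + (1 / 2) * e5
  have := mul_left_cancel₀ hk e7
  rw [← hA]
  exact this

end Pool.Agent.H79
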