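import Pool.Agent.H79.G4

/-!
The associated polynomial.
-/

open Real MeasureTheory intervalIntegral Finset Filter Topology

namespace Pool.Agent.H79

open Polynomial (C X derivative)
open Polynomial.Chebyshev (T U)

/-- Folded coefficients. -/
noncomputable def gg (n l : ℕ) : ℝ :=
  if 2 * l < n then 2 * gc n l else if 2 * l = n then gc n l else 0

/-- Folding of a symmetric sum. -/
lemma fold_sum {M : Type*} [AddCommGroup M] [Module ℝ M] (n : ℕ) (f : ℕ → M)
    (hf : ∀ j ≤ n, f (n - j) = f j) :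
    ∑ j ∈ range (n + 1), gc n j • f j = ∑ l ∈ range (n + 1), gg n l • f l := by
  have h1 : ∑ j ∈ range (n + 1), gc n j • f j =
      ∑ j ∈ range (n + 1), (if 2 * j < n then gc n j • f j else 0) +
      ∑ j ∈ range (n + 1), (if 2 * j = n then gc n j • f j else 0) +
      ∑ j ∈ range (n + 1), (if n < 2 * j then gc n j • f j else 0) := by
    rw [← Finset.sum_add_distrib, ← Finset.sum_add_distrib]
    refine Finset.sum_congr rfl fun j _ => ?_
    rcases lt_trichotomy (2 * j) n with h | h | h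
    · simp [h, h.ne, h.not_gt]
    · simp [h]
    · simp [h, h.ne', h.not_gt]
  have h2 : ∑ j ∈ range (n + 1), (if n < 2 * j then gc n j • f j else 0) =
      ∑ j ∈ range (n + 1), (if 2 * j < n then gc n j • f j else 0) := by
    rw [← Finset.sum_range_reflect]
    refine Finset.sum_congr rfl fun j hj => ?_
    have hj' : j ≤ n := Nat.lt_succ_iff.1 (mem_range.1 hj)
    have e1 : n + 1 - 1 - j = n - j := by omega
    rw [e1, hf j hj', gc_symm hj']
    have : (n < 2 * (n - j)) ↔ (2 * j < n) := by omega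
    simp only [this]
  rw [h1, h2, ← Finset.sum_add_distrib, ← Finset.sum_add_distrib]
  refine Finset.sum_congr rfl fun j _ => ?_
  unfold gg
  rcases lt_trichotomy (2 * j) n with h | h | h
  · simp only [h, if_true, h.ne, if_false, add_zero]
    rw [two_mul, add_smul]
  · simp [h]
  · have h3 : ¬ (2 * j < n) := h.not_gt
    have h4 : ¬ (2 * j = n) := h.ne'
    simp [h3, h4]

lemma Wp_fold (n : ℕ) : Wp n = ∑ l ∈ range (n + 1), C (gg n l) * T ℝ ((n - 2 * l : ℕ) : ℤ) := by
  have h := fold_sum n (fun j => T ℝ ((n : ℤ) - 2 * j)) (fun j hj => by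
    have : (n : ℤ) - 2 * ((n - j : ℕ) : ℤ) = -((n : ℤ) - 2 * j) := by
      rw [Nat.cast_sub hj]; ring
    simp only [this, Polynomial.Chebyshev.T_neg])
  have h1 : Wp n = ∑ j ∈ range (n + 1), gc n j • T ℝ ((n : ℤ) - 2 * j) := by
    unfold Wp
    exact Finset.sum_congr rfl fun j _ => by rw [Polynomial.smul_eq_C_mul]
  rw [h1, h]
  refine Finset.sum_congr rfl fun l _ => ?_
  rw [Polynomial.smul_eq_C_mul]
  by_cases hl : 2 * l ≤ n
  · congr 2
    push_cast [hl]
    rfl
  · have : gg n l = 0 := by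
      unfold gg
      rw [if_neg (by omega), if_neg (by omega)]
    rw [this]; simp

/-- Difference quotients of the Chebyshev polynomials. -/
noncomputable def DD (x : ℝ) (N : ℕ) : Polynomial ℝ :=
  ∑ i ∈ range N, C ((if i = 0 then 1 else 2) * (U ℝ ((N : ℤ) - 1 - i)).eval x) * T ℝ i

lemma DD_succ_succ (x : ℝ) (N : ℕ) :
    DD x (N + 2) = C (2 * x) * DD x (N + 1) + 2 * T ℝ ((N : ℤ) + 1) - DD x N := by
  have hU : ∀ i : ℕ, (U ℝ (((N + 2 : ℕ) : ℤ) - 1 - i)).eval x =
      2 * x * (U ℝ (((N + 1 : ℕ) : ℤ) - 1 - i)).eval x - (U ℝ ((N : ℤ) - 1 - i)).eval x := by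
    intro i
    have h := Polynomial.Chebyshev.U_add_two (R := ℝ) ((N : ℤ) - 1 - i)
    have e1 : ((N + 2 : ℕ) : ℤ) - 1 - i = (N : ℤ) - 1 - i + 2 := by push_cast; ring
    have e2 : ((N + 1 : ℕ) : ℤ) - 1 - i = (N : ℤ) - 1 - i + 1 := by push_cast; ring
    rw [e1, e2, h]
    simp
  have s1 : DD x (N + 1) = ∑ i ∈ range (N + 2), C ((if i = 0 then 1 else 2) *
      (U ℝ (((N + 1 : ℕ) : ℤ) - 1 - i)).eval x) * T ℝ i := by
    unfold DD
    rw [Finset.sum_range_succ _ (N + 1)]
    have : ((N + 1 : ℕ) : ℤ) - 1 - ((N + 1 : ℕ) : ℤ) = -1 := by ring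
    rw [this, Polynomial.Chebyshev.U_neg_one]
    simp
  have s2 : DD x N - 2 * T ℝ ((N : ℤ) + 1) = ∑ i ∈ range (N + 2), C ((if i = 0 then 1 else 2) *
      (U ℝ ((N : ℤ) - 1 - i)).eval x) * T ℝ i := by
    unfold DD
    rw [Finset.sum_range_succ _ (N + 1), Finset.sum_range_succ _ N]
    have e1 : (N : ℤ) - 1 - ((N + 1 : ℕ) : ℤ) = -2 := by push_cast; ring
    have e2 : (N : ℤ) - 1 - ((N : ℕ) : ℤ) = -1 := by ring
    rw [e1, e2, Polynomial.Chebyshev.U_neg_one, Polynomial.Chebyshev.U_neg_two]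
    have h3 : ¬ (N + 1 = 0) := by omega
    simp only [Polynomial.eval_zero, mul_zero, Polynomial.C_0, zero_mul, add_zero, h3, if_false,
      Polynomial.eval_neg, Polynomial.eval_one]
    push_cast
    have : (C (2 * -1) : Polynomial ℝ) = -2 := by
      rw [show (2 * -1 : ℝ) = -2 by norm_num, Polynomial.C_neg]; rfl
    rw [this]; ring
  have s3 : DD x (N + 2) = C (2 * x) * DD x (N + 1) - (DD x N - 2 * T ℝ ((N : ℤ) + 1)) := by
    rw [s1, s2]
    unfold DD
    rw [Finset.mul_sum, ← Finset.sum_sub_distrib]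
    refine Finset.sum_congr rfl fun i _ => ?_
    rw [hU, ← mul_assoc, ← sub_mul, ← Polynomial.C_mul, ← Polynomial.C_sub]
    congr 2
    ring
  rw [s3]; ring

lemma DD_mul (x : ℝ) (N : ℕ) : (X - C x) * DD x N = T ℝ N - C ((T ℝ N).eval x) := by
  induction N using Nat.twoStepInduction with
  | zero => unfold DD; simp
  | one => unfold DD; simp
  | more N ih1 ih2 =>
    rw [DD_succ_succ]
    have h := Polynomial.Chebyshev.T_add_two (R := ℝ) (N : ℤ)
    have e1 : ((N + 2 : ℕ) : ℤ) = (N : ℤ) + 2 := by push_cast; ring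
    have e2 : ((N + 1 : ℕ) : ℤ) = (N : ℤ) + 1 := by push_cast; ring
    rw [e1, h]
    rw [e2] at ih2
    have h3 : (2 * X * T ℝ ((N : ℤ) + 1) - T ℝ (N : ℤ)).eval x =
        2 * x * (T ℝ ((N : ℤ) + 1)).eval x - (T ℝ (N : ℤ)).eval x := by simp
    have h4 : (C (2 * x) : Polynomial ℝ) = 2 * C x := by rw [Polynomial.C_mul]; rfl
    rw [h3, Polynomial.C_sub, h4, Polynomial.C_mul, h4]
    linear_combination (2 * C x) * ih2 - ih1

/-- The associated polynomial. -/
noncomputable def W1 (n : ℕ) : Polynomial ℝ :=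
  ∑ l ∈ range (n + 1), C (gg n l) * ∑ i ∈ range (n - 2 * l),
    C (4 * i * SS i) * U ℝ (((n - 2 * l : ℕ) : ℤ) - 1 - i)

lemma LP_X_DD (x : ℝ) (N : ℕ) : LP (X * DD x N) =
    ∑ i ∈ range N, 4 * i * SS i * (U ℝ ((N : ℤ) - 1 - i)).eval x := by
  unfold DD
  rw [Finset.mul_sum, map_sum]
  refine Finset.sum_congr rfl fun i _ => ?_
  have e : X * (C ((if i = 0 then 1 else 2) * (U ℝ ((N : ℤ) - 1 - i)).eval x) * T ℝ (i : ℤ)) =
      C ((if i = 0 then 1 else 2) * (U ℝ ((N : ℤ) - 1 - i)).eval x) * (X * T ℝ (i : ℤ)) := by ring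
  rw [e, LP_C_mul, LP_X_mul_T]
  split_ifs with h
  · rw [h]; simp
  · ring

lemma W1_eval {n : ℕ} (hn : 1 ≤ n) {x : ℝ} (hx : (Wp n).eval x = 0) {q : Polynomial ℝ}
    (hq : Wp n = (X - C x) * q) : (W1 n).eval x = x * LP q := by
  have h1 : q = ∑ l ∈ range (n + 1), C (gg n l) * DD x (n - 2 * l) := by
    have h2 : (X - C x) * q = (X - C x) * ∑ l ∈ range (n + 1), C (gg n l) * DD x (n - 2 * l) := by
      rw [← hq, Finset.mul_sum]
      have h3 : ∀ l, (X - C x) * (C (gg n l) * DD x (n - 2 * l)) =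
          C (gg n l) * T ℝ ((n - 2 * l : ℕ) : ℤ) -
          C (gg n l * (T ℝ ((n - 2 * l : ℕ) : ℤ)).eval x) := by
        intro l
        rw [Polynomial.C_mul, ← mul_sub, ← DD_mul]; ring
      simp_rw [h3]
      rw [Finset.sum_sub_distrib, ← Wp_fold, ← map_sum]
      have h4 : ∑ l ∈ range (n + 1), gg n l * (T ℝ ((n - 2 * l : ℕ) : ℤ)).eval x =
          (Wp n).eval x := by
        conv_rhs => rw [Wp_fold, Polynomial.eval_finsetSum]
        exact Finset.sum_congr rfl fun l _ => by rw [Polynomial.eval_mul, Polynomial.eval_C]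
      rw [h4, hx]; simp
    exact mul_left_cancel₀ (Polynomial.X_sub_C_ne_zero x) h2
  have h5 : LP (X * q) = x * LP q := by
    have e : X * q = Wp n * 1 + C x * q := by rw [hq]; ring
    rw [e, map_add, LP_C_mul, LP_Wp_mul 1 (by rw [Polynomial.natDegree_one]; omega), zero_add]
  have h6 : LP (X * q) = (W1 n).eval x := by
    rw [h1, Finset.mul_sum, map_sum]
    unfold W1
    rw [Polynomial.eval_finsetSum]
    refine Finset.sum_congr rfl fun l _ => ?_
    have e : X * (C (gg n l) * DD x (n - 2 * l)) = C (gg n l) * (X * DD x (n - 2 * l)) := by ring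
    rw [e, LP_C_mul, LP_X_DD, Polynomial.eval_mul, Polynomial.eval_C, Polynomial.eval_finsetSum]
    congr 1
    refine Finset.sum_congr rfl fun i _ => ?_
    rw [Polynomial.eval_mul, Polynomial.eval_C]
  rw [← h6, h5]

lemma W1_natDegree {n : ℕ} (hn : 1 ≤ n) : (W1 n).natDegree < n := by
  have : (W1 n).natDegree ≤ n - 1 := by
    unfold W1
    refine Polynomial.natDegree_sum_le_of_forall_le _ _ fun l _ => ?_
    refine (Polynomial.natDegree_C_mul_le _ _).trans ?_
    refine Polynomial.natDegree_sum_le_of_forall_le _ _ fun i hi => ?_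
    refine (Polynomial.natDegree_C_mul_le _ _).trans ?_
    have hi' := mem_range.1 hi
    have e : ((n - 2 * l : ℕ) : ℤ) - 1 - i = ((n - 2 * l - 1 - i : ℕ) : ℤ) := by omega
    rw [e, Polynomial.Chebyshev.natDegree_U_natCast]
    omega
  omega

end Pool.Agent.H79
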