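import Pool.Agent.H79.G5

/-!
The exact energy of the Gegenbauer nodes.
-/

open Real MeasureTheory intervalIntegral Finset Filter Topology

namespace Pool.Agent.H79

open Polynomial (C X derivative)
open Polynomial.Chebyshev (T U)

lemma hn2_pos {n : ℕ} (hn : 1 ≤ n) : 0 < hn2 n := by
  have hpi := Real.pi_pos
  unfold hn2
  rw [LP_apply]
  have h1 : 0 < ∫ t in (0 : ℝ)..π, (Wp n).eval (Real.cos t) ^ 2 := by
    refine intervalIntegral.integral_pos hpi ((continuous_eval_cos _).pow 2).continuousOn
      (fun t _ => sq_nonneg _) ⟨0, ⟨le_rfl, hpi.le⟩, ?_⟩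
    rw [Real.cos_zero]
    have := Wp_eval_one_pos hn
    positivity
  refine lt_of_lt_of_le h1 ?_
  refine intervalIntegral.integral_mono_on_of_le_Ioo hpi.le
    (Continuous.intervalIntegrable ((continuous_eval_cos _).pow 2) _ _)
    (integrable_weight_mul (continuous_eval_cos _)) fun t ht => ?_
  have hs : 0 < Real.sin t := Real.sin_pos_of_mem_Ioo ht
  have h2 : √(Real.sin t) ≤ 1 := by rw [Real.sqrt_le_one]; exact Real.sin_le_one _
  have h3 : 0 < √(Real.sin t) := Real.sqrt_pos.2 hs
  have h4 : 1 ≤ 1 / √(Real.sin t) := by rw [le_div_iff₀ h3]; linarith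
  rw [Polynomial.eval_mul, ← sq]
  have := mul_le_mul_of_nonneg_right h4 (sq_nonneg ((Wp n).eval (Real.cos t)))
  linarith

/-- A polynomial of degree less than `2 n` with `n` double roots vanishes. -/
lemma double_roots {n : ℕ} (F : Polynomial ℝ) (x : Fin n → ℝ)
    (hx : Function.Injective x) (h0 : ∀ k, F.eval (x k) = 0)
    (h1 : ∀ k, (derivative F).eval (x k) = 0) (hd : F.natDegree < 2 * n) : F = 0 := by
  by_contra hF
  have h2 : ∀ k, (X - C (x k)) ^ 2 ∣ F := by
    intro k
    have h3 := (Polynomial.one_lt_rootMultiplicity_iff_isRoot hF (t := x k)).2 ⟨h0 k, h1 k⟩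
    exact (Polynomial.le_rootMultiplicity_iff hF).1 h3
  have h4 : (∏ k, (X - C (x k)) ^ 2) ∣ F := by
    refine Finset.prod_dvd_of_coprime ?_ fun k _ => h2 k
    intro i _ j _ hij
    exact (Polynomial.pairwise_coprime_X_sub_C hx hij).pow
  have h5 : (∏ k, (X - C (x k)) ^ 2 : Polynomial ℝ).natDegree = 2 * n := by
    rw [Polynomial.natDegree_prod_of_monic _ _ fun k _ => (Polynomial.monic_X_sub_C (x k)).pow 2]
    simp [Polynomial.natDegree_pow, mul_comm]
  have h6 := Polynomial.natDegree_le_of_dvd h4 hF
  omega

/-- The pointwise identity. -/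
theorem sum_sq_identity {n : ℕ} (hn : 1 ≤ n) (θ : Fin n → ℝ)
    (hθ : ∀ k : Fin n, θ k ∈ Set.Ioo (((k : ℕ) : ℝ) * π / n) ((((k : ℕ) : ℝ) + 1) * π / n))
    (hz : ∀ k, (Wp n).eval (Real.cos (θ k)) = 0) :
    ∑ k, (Lagrange.basis univ (fun k => Real.cos (θ k)) k) ^ 2 =
      1 + C (1 / (2 * ((2 * n - 1 / 2) * hn2 n))) * (Wp n * W1 n) := by
  have hpi := Real.pi_pos
  have hn' : (0 : ℝ) < n := by exact_mod_cast hn
  have hinj := nodes_inj θ hθ
  obtain ⟨x, hxdef⟩ : ∃ x : Fin n → ℝ, x = fun k => Real.cos (θ k) := ⟨_, rfl⟩
  have hxk : ∀ k, Real.cos (θ k) = x k := fun k => by rw [hxdef]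
  rw [← hxdef] at hinj ⊢
  simp only [hxk] at hz
  have hx2 : ∀ k, 0 < 1 - x k ^ 2 := by
    intro k
    have h1 := hθ k
    have h2 : (((k : ℕ) : ℝ) + 1) ≤ n := by exact_mod_cast k.2
    have h3 : 0 < θ k := lt_of_le_of_lt (by positivity) h1.1
    have h4 : θ k < π := by
      refine lt_of_lt_of_le h1.2 ?_
      rw [div_le_iff₀ hn']
      nlinarith
    have h5 := Real.sin_pos_of_pos_of_lt_pi h3 h4
    rw [← hxk]
    have h6 := Real.sin_sq_add_cos_sq (θ k)
    have : 1 - Real.cos (θ k) ^ 2 = Real.sin (θ k) ^ 2 := by linarith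
    rw [this]; positivity
  obtain ⟨c, hc⟩ : ∃ c, c = (2 * (n : ℝ) - 1 / 2) * hn2 n := ⟨_, rfl⟩
  have hc0 : 0 < c := by
    rw [hc]
    have h1 := hn2_pos hn
    have h2 : (1 : ℝ) ≤ n := by exact_mod_cast hn
    have h3 : 0 < 2 * (n : ℝ) - 1 / 2 := by linarith
    positivity
  rw [← hc]
  obtain ⟨m, rfl⟩ : ∃ m, n = m + 1 := ⟨n - 1, by omega⟩
  -- factorisations
  have hfac : ∀ k, ∃ q, Wp (m + 1) = (X - C (x k)) * q := fun k =>
    Polynomial.dvd_iff_isRoot.2 (hz k)
  choose q hq using hfac
  -- values of the derivatives
  have hd1 : ∀ k, (derivative (Wp (m + 1))).eval (x k) = (q k).eval (x k) := by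
    intro k
    have h := congrArg (fun p => (derivative p).eval (x k)) (hq k)
    simp only [Polynomial.derivative_mul, Polynomial.eval_add, Polynomial.eval_mul,
      Polynomial.eval_sub, Polynomial.eval_X, Polynomial.eval_C, sub_self, zero_mul, add_zero,
      Polynomial.derivative_sub, Polynomial.derivative_X, Polynomial.derivative_C, sub_zero,
      Polynomial.eval_one, one_mul] at h
    exact h
  have hd2 : ∀ k, (derivative (derivative (Wp (m + 1)))).eval (x k) =
      2 * (derivative (q k)).eval (x k) := by
    intro k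
    have h := congrArg (fun p => (derivative (derivative p)).eval (x k)) (hq k)
    simp only [Polynomial.derivative_mul, Polynomial.eval_add, Polynomial.eval_mul,
      Polynomial.eval_sub, Polynomial.eval_X, Polynomial.eval_C, sub_self, zero_mul, add_zero,
      Polynomial.derivative_sub, Polynomial.derivative_X, Polynomial.derivative_C, sub_zero,
      Polynomial.eval_one, one_mul, Polynomial.derivative_add, Polynomial.derivative_one,
      zero_add] at h
    rw [h]; ring
  -- the differential equation at the nodes
  have hode : ∀ k, (1 - x k ^ 2) * (derivative (derivative (Wp (m + 1)))).eval (x k) =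
      1 / 2 * x k * (derivative (Wp (m + 1))).eval (x k) := by
    intro k
    have h := congrArg (fun p => p.eval (x k)) (Wp_ode (m + 1))
    simp only [Function.iterate_succ, Function.iterate_zero, Function.comp_apply, id,
      Polynomial.eval_add, Polynomial.eval_sub, Polynomial.eval_mul, Polynomial.eval_one,
      Polynomial.eval_pow, Polynomial.eval_X, Polynomial.eval_C, hz k, mul_zero, add_zero,
      Polynomial.eval_zero] at h
    linarith
  -- the quadrature identity
  have hnode : ∀ k, (1 - x k ^ 2) * (derivative (Wp (m + 1))).eval (x k) *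
      (W1 (m + 1)).eval (x k) = c * x k := by
    intro k
    have h1 := node_identity (hq k)
    have h2 := W1_eval (by omega) (hz k) (hq k)
    rw [h2, hc]
    push_cast
    linear_combination x k * h1
  have hW'ne : ∀ k, (derivative (Wp (m + 1))).eval (x k) ≠ 0 := by
    intro k h
    have h1 := node_identity (hq k)
    rw [h, mul_zero, zero_mul] at h1
    rw [hc] at hc0
    push_cast at hc0
    rw [← h1] at hc0
    exact lt_irrefl _ hc0
  -- the basis polynomials
  have hbasis : ∀ k, q k = C ((q k).eval (x k)) * Lagrange.basis univ x k := by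
    intro k
    have hqd : (q k).degree < ((univ : Finset (Fin (m + 1))).card : ℕ) := by
      rw [card_univ, Fintype.card_fin]
      have hq0 : q k ≠ 0 := by
        intro h
        have := hq k
        rw [h, mul_zero] at this
        exact Wp_ne_zero (by omega) this
      have h1 := (Polynomial.monic_X_sub_C (x k)).natDegree_mul' hq0
      rw [← hq k, Polynomial.natDegree_X_sub_C] at h1
      have h2 := Wp_natDegree_le (m + 1)
      rw [Polynomial.degree_eq_natDegree hq0]
      have : (q k).natDegree < m + 1 := by omega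
      exact_mod_cast this
    have hbd : (C ((q k).eval (x k)) * Lagrange.basis univ x k).degree <
        ((univ : Finset (Fin (m + 1))).card : ℕ) := by
      rw [card_univ, Fintype.card_fin]
      refine lt_of_le_of_lt ?_ (degree_basis x hinj k)
      refine (Polynomial.degree_mul_le _ _).trans ?_
      calc _ ≤ 0 + (Lagrange.basis univ x k).degree := by
            gcongr; exact Polynomial.degree_C_le
        _ = _ := zero_add _
    refine Polynomial.eq_of_degrees_lt_of_eval_index_eq (v := x) univ hinj.injOn hqd hbd ?_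
    intro j _
    rw [Polynomial.eval_mul, Polynomial.eval_C]
    by_cases hjk : j = k
    · subst hjk
      rw [Lagrange.eval_basis_self hinj.injOn (mem_univ j), mul_one]
    · rw [Lagrange.eval_basis_of_ne (Ne.symm hjk) (mem_univ j), mul_zero]
      have h1 := congrArg (fun p => p.eval (x j)) (hq k)
      simp only [hz j, Polynomial.eval_mul, Polynomial.eval_sub, Polynomial.eval_X,
        Polynomial.eval_C] at h1
      have h2 : x j - x k ≠ 0 := sub_ne_zero.2 fun h => hjk (hinj h)
      exact (mul_eq_zero.1 h1.symm).resolve_left h2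
  have hbd : ∀ k, (derivative (Lagrange.basis univ x k)).eval (x k) =
      1 / 4 * x k / (1 - x k ^ 2) := by
    intro k
    have h1 := congrArg (fun p => (derivative p).eval (x k)) (hbasis k)
    simp only [Polynomial.derivative_C_mul, Polynomial.eval_mul, Polynomial.eval_C] at h1
    have h2 := hd1 k
    have h3 := hd2 k
    have h4 := hode k
    have h5 := hW'ne k
    rw [h2] at h4 h5
    rw [h3] at h4
    rw [eq_div_iff (hx2 k).ne']
    have h6 : (q k).eval (x k) * ((derivative (Lagrange.basis univ x k)).eval (x k) *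
        (1 - x k ^ 2)) = (q k).eval (x k) * (1 / 4 * x k) := by
      rw [← mul_assoc, ← h1]
      linarith
    exact mul_left_cancel₀ h5 h6
  -- the difference
  have hF : ∑ k, (Lagrange.basis univ x k) ^ 2 -
      (1 + C (1 / (2 * c)) * (Wp (m + 1) * W1 (m + 1))) = 0 := by
    refine double_roots _ x hinj ?_ ?_ ?_
    · intro j
      simp only [Polynomial.eval_sub, Polynomial.eval_finsetSum, Polynomial.eval_pow,
        Polynomial.eval_add, Polynomial.eval_one, Polynomial.eval_mul, hz j, zero_mul, mul_zero,
        add_zero]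
      rw [Finset.sum_eq_single j]
      · rw [Lagrange.eval_basis_self hinj.injOn (mem_univ j)]; ring
      · intro k _ hkj
        rw [Lagrange.eval_basis_of_ne hkj (mem_univ j)]; ring
      · intro h; exact absurd (mem_univ j) h
    · intro j
      simp only [Polynomial.derivative_sub, Polynomial.derivative_sum, Polynomial.derivative_add,
        Polynomial.derivative_one, Polynomial.derivative_C_mul, Polynomial.derivative_mul,
        Polynomial.eval_sub, Polynomial.eval_finsetSum, Polynomial.eval_add, Polynomial.eval_mul,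
        Polynomial.eval_C, hz j, zero_mul, zero_add, add_zero, Polynomial.derivative_pow,
        Polynomial.eval_pow, Polynomial.eval_zero]
      rw [Finset.sum_eq_single j]
      · rw [Lagrange.eval_basis_self hinj.injOn (mem_univ j), hbd j]
        have h1 := hnode j
        have h2 := (hx2 j).ne'
        have h3 : (derivative (Wp (m + 1))).eval (x j) * (W1 (m + 1)).eval (x j) =
            c * x j / (1 - x j ^ 2) := by
          rw [eq_div_iff h2]; linarith
        rw [h3]
        have := hc0.ne'
        field_simp
        norm_num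
        ring
      · intro k _ hkj
        rw [Lagrange.eval_basis_of_ne hkj (mem_univ j)]; ring
      · intro h; exact absurd (mem_univ j) h
    · have hb : ∀ k, ((Lagrange.basis univ x k) ^ 2).natDegree ≤ 2 * m + 1 := by
        intro k
        refine (Polynomial.natDegree_pow_le).trans ?_
        have h1 := degree_basis x hinj k
        have h2 : (Lagrange.basis univ x k).natDegree < m + 1 :=
          (Polynomial.natDegree_lt_iff_degree_lt (by
            intro h
            have := Lagrange.eval_basis_self hinj.injOn (mem_univ k)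
            rw [h, Polynomial.eval_zero] at this
            exact zero_ne_one this)).2 h1
        omega
      have h1 : (∑ k, (Lagrange.basis univ x k) ^ 2).natDegree ≤ 2 * m + 1 :=
        Polynomial.natDegree_sum_le_of_forall_le _ _ fun k _ => hb k
      have h2 : (1 + C (1 / (2 * c)) * (Wp (m + 1) * W1 (m + 1))).natDegree ≤ 2 * m + 1 := by
        refine (Polynomial.natDegree_add_le _ _).trans (max_le ?_ ?_)
        · rw [Polynomial.natDegree_one]; omega
        · refine (Polynomial.natDegree_C_mul_le _ _).trans ?_
          refine (Polynomial.natDegree_mul_le).trans ?_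
          have h3 := Wp_natDegree_le (m + 1)
          have h4 := W1_natDegree (by omega : 1 ≤ m + 1)
          omega
      have := (Polynomial.natDegree_sub_le (∑ k, (Lagrange.basis univ x k) ^ 2)
        (1 + C (1 / (2 * c)) * (Wp (m + 1) * W1 (m + 1)))).trans (max_le h1 h2)
      omega
  exact sub_eq_zero.1 hF

/-- The exact energy of the nodes. -/
theorem gegen_energy {n : ℕ} (hn : 1 ≤ n) (θ : Fin n → ℝ)
    (hθ : ∀ k : Fin n, θ k ∈ Set.Ioo (((k : ℕ) : ℝ) * π / n) ((((k : ℕ) : ℝ) + 1) * π / n))
    (hz : ∀ k, (Wp n).eval (Real.cos (θ k)) = 0) :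
    energy (fun k => Real.cos (θ k)) = 2 + 1 / (2 * ((2 * n - 1 / 2) * hn2 n)) *
      ∫ t in (0 : ℝ)..π, (Wp n).eval (Real.cos t) * ((W1 n).eval (Real.cos t) * Real.sin t) := by
  have h := sum_sq_identity hn θ hθ hz
  rw [energy_eq, ← intervalIntegral.integral_finsetSum
    (fun k _ => Continuous.intervalIntegrable (by fun_prop) _ _)]
  have h1 : ∀ t, ∑ k, E θ k t ^ 2 * Real.sin t = Real.sin t +
      1 / (2 * ((2 * n - 1 / 2) * hn2 n)) *
      ((Wp n).eval (Real.cos t) * ((W1 n).eval (Real.cos t) * Real.sin t)) := by
    intro t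
    have h2 := congrArg (fun p => p.eval (Real.cos t)) h
    simp only [Polynomial.eval_finsetSum, Polynomial.eval_pow, Polynomial.eval_add,
      Polynomial.eval_one, Polynomial.eval_mul, Polynomial.eval_C, ← E_eq] at h2
    rw [← Finset.sum_mul, h2]
    ring
  simp_rw [h1]
  have hc1 := continuous_eval_cos (Wp n)
  have hc2 := continuous_eval_cos (W1 n)
  rw [intervalIntegral.integral_add (Continuous.intervalIntegrable (by fun_prop) _ _)
    (Continuous.intervalIntegrable (by fun_prop) _ _), intervalIntegral.integral_const_mul,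
    integral_sin]
  simp
  norm_num

end Pool.Agent.H79
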