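import Pool.Agent.H79.G6

/-!
Asymptotics of the coefficients; the generating function on the unit circle.
-/

open Real MeasureTheory intervalIntegral Finset Filter Topology

namespace Pool.Agent.H79

lemma summable_abs_ga : Summable fun l => |ga l| := by
  refine summable_of_sum_range_le (c := 2) (fun l => abs_nonneg _) fun n => ?_
  rcases n with _ | n
  · simp
  · have h1 : ∑ i ∈ range (n + 1), |ga i| = 2 - ∑ i ∈ range (n + 1), ga i := by
      rw [Finset.sum_range_succ', Finset.sum_range_succ' ga]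
      have : ∑ k ∈ range n, |ga (k + 1)| = -∑ k ∈ range n, ga (k + 1) := by
        rw [← Finset.sum_neg_distrib]
        exact Finset.sum_congr rfl fun k _ => abs_of_neg (ga_neg k)
      rw [this, ga_zero]
      norm_num
      ring
    rw [h1, sum_ga]
    have h2 := ga_neg n
    have h3 : (0 : ℝ) < (n : ℝ) + 1 := by positivity
    nlinarith

lemma ga_mono (i : ℕ) : ((i : ℝ) + 1) ^ 2 * |ga (i + 1)| ≤ ((i : ℝ) + 2) ^ 2 * |ga (i + 2)| := by
  have h := ga_succ (i + 1)
  push_cast at h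
  have h0 : (0 : ℝ) ≤ i := Nat.cast_nonneg i
  have h1 : ((i : ℝ) + 1 + 1) * |ga (i + 2)| = ((i : ℝ) + 1 - 1 / 4) * |ga (i + 1)| := by
    have e1 : |((i : ℝ) + 1 + 1) * ga (i + 1 + 1)| = |((i : ℝ) + 1 - 1 / 4) * ga (i + 1)| := by
      rw [h]
    rw [abs_mul, abs_mul, abs_of_nonneg (by positivity : 0 ≤ (i : ℝ) + 1 + 1),
      abs_of_nonneg (by linarith : 0 ≤ (i : ℝ) + 1 - 1 / 4)] at e1
    exact e1
  have h2 : ((i : ℝ) + 2) ^ 2 * |ga (i + 2)| =
      ((i : ℝ) + 2) * (((i : ℝ) + 1 - 1 / 4) * |ga (i + 1)|) := by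
    rw [← h1]; ring
  rw [h2, ← mul_assoc]
  refine mul_le_mul_of_nonneg_right ?_ (abs_nonneg _)
  nlinarith

lemma ga_mono' {m n : ℕ} (hm : 1 ≤ m) (hmn : m ≤ n) :
    (m : ℝ) ^ 2 * |ga m| ≤ (n : ℝ) ^ 2 * |ga n| := by
  induction n, hmn using Nat.le_induction with
  | base => exact le_rfl
  | succ n hmn ih =>
    refine ih.trans ?_
    obtain ⟨i, rfl⟩ : ∃ i, n = i + 1 := ⟨n - 1, by omega⟩
    have := ga_mono i
    push_cast
    have e : (i : ℝ) + 1 + 1 = i + 2 := by ring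
    rw [e]
    exact this

lemma ga_double {m n : ℕ} (hm : 1 ≤ m) (hmn : m ≤ n) (hn : n ≤ 2 * m) : |ga m| ≤ 4 * |ga n| := by
  have h := ga_mono' hm hmn
  have hm' : (0 : ℝ) < m := by exact_mod_cast hm
  have hn' : (n : ℝ) ≤ 2 * m := by exact_mod_cast hn
  have hn0 : (0 : ℝ) ≤ n := Nat.cast_nonneg n
  have h2 : (n : ℝ) ^ 2 ≤ 4 * (m : ℝ) ^ 2 := by nlinarith
  have h3 : (n : ℝ) ^ 2 * |ga n| ≤ 4 * (m : ℝ) ^ 2 * |ga n| :=
    mul_le_mul_of_nonneg_right h2 (abs_nonneg _)
  have h4 : (m : ℝ) ^ 2 * |ga m| ≤ (m : ℝ) ^ 2 * (4 * |ga n|) := by linarith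
  exact le_of_mul_le_mul_left h4 (by positivity)

lemma gg_abs_le {n : ℕ} (hn : 1 ≤ n) (l : ℕ) : |gg n l| ≤ 4 * |ga l| := by
  have key : 2 * l ≤ n → |2 * gc n l| ≤ 4 * |ga l| := by
    intro h
    unfold gc
    have h1 := ga_double (m := n - l) (n := n) (by omega) (by omega) (by omega)
    have h2 := ga_ne n
    have h3 : 0 < |ga n| := abs_pos.2 h2
    have e : 2 * (ga l * ga (n - l) / (2 * ga n)) = ga l * ga (n - l) / ga n := by
      field_simp
    rw [e, abs_div, abs_mul, div_le_iff₀ h3]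
    have := mul_le_mul_of_nonneg_left h1 (abs_nonneg (ga l))
    linarith
  unfold gg
  split_ifs with h1 h2
  · exact key h1.le
  · have := key h2.le
    rw [abs_mul, abs_two] at this
    have h4 := abs_nonneg (gc n l)
    linarith
  · rw [abs_zero]; positivity

lemma ratio_tendsto : Tendsto (fun n => ga n / ga (n + 1)) atTop (𝓝 1) := by
  have h1 : ∀ᶠ n : ℕ in atTop, 1 + 5 / 4 * (1 / ((n : ℝ) - 1 / 4)) = ga n / ga (n + 1) := by
    filter_upwards [eventually_ge_atTop 1] with n hn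
    have hn' : (1 : ℝ) ≤ n := by exact_mod_cast hn
    have h := ga_succ n
    have h2 := ga_ne (n + 1)
    have h3 : (n : ℝ) - 1 / 4 ≠ 0 := by
      have : 0 < (n : ℝ) - 1 / 4 := by linarith
      exact this.ne'
    have e : 1 + 5 / 4 * (1 / ((n : ℝ) - 1 / 4)) = ((n : ℝ) + 1) / ((n : ℝ) - 1 / 4) := by
      rw [eq_div_iff h3, add_mul, mul_assoc, one_div_mul_cancel h3]
      ring
    rw [eq_div_iff h2, e, div_mul_eq_mul_div, div_eq_iff h3]
    linarith
  refine Tendsto.congr' h1 ?_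
  have h2 : Tendsto (fun n : ℕ => (n : ℝ) - 1 / 4) atTop atTop :=
    tendsto_atTop_add_const_right _ _ tendsto_natCast_atTop_atTop
  have h3 := (h2.const_div_atTop 1).const_mul (5 / 4)
  have h4 := h3.const_add 1
  simpa using h4

lemma ratio_tendsto' (l : ℕ) : Tendsto (fun n => ga n / ga (n + l)) atTop (𝓝 1) := by
  induction l with
  | zero =>
    refine tendsto_const_nhds.congr fun n => ?_
    rw [add_zero, div_self (ga_ne n)]
  | succ l ih =>
    have h1 := (tendsto_add_atTop_iff_nat l).2 ratio_tendsto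
    have h2 := ih.mul h1
    rw [one_mul] at h2
    refine h2.congr fun n => ?_
    have := ga_ne (n + l)
    have := ga_ne (n + l + 1)
    rw [show n + (l + 1) = n + l + 1 by ring]
    field_simp

lemma gg_tendsto (l : ℕ) : Tendsto (fun n => gg n l) atTop (𝓝 (ga l)) := by
  refine (tendsto_add_atTop_iff_nat l).1 ?_
  have h1 := (ratio_tendsto' l).const_mul (ga l)
  rw [mul_one] at h1
  refine h1.congr' ?_
  filter_upwards [eventually_gt_atTop l] with n hn
  unfold gg
  rw [if_pos (by omega)]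
  unfold gc
  rw [Nat.add_sub_cancel]
  have := ga_ne (n + l)
  field_simp

/-- Convolution squares satisfy a recurrence. -/
lemma conv_rec (f : ℕ → ℝ) (α : ℝ) (hf : ∀ j : ℕ, ((j : ℝ) + 1) * f (j + 1) = ((j : ℝ) - α) * f j)
    (n : ℕ) : ((n : ℝ) + 1) * ∑ i ∈ range (n + 1 + 1), f i * f (n + 1 - i) =
      ((n : ℝ) - 2 * α) * ∑ i ∈ range (n + 1), f i * f (n - i) := by
  have mom : ∀ n : ℕ, ∑ i ∈ range (n + 1), (i : ℝ) * (f i * f (n - i)) =
      (n : ℝ) / 2 * ∑ i ∈ range (n + 1), f i * f (n - i) := by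
    intro n
    have h1 : ∑ i ∈ range (n + 1), (i : ℝ) * (f i * f (n - i)) =
        ∑ i ∈ range (n + 1), ((n : ℝ) - i) * (f i * f (n - i)) := by
      rw [← Finset.sum_range_reflect]
      refine Finset.sum_congr rfl fun i hi => ?_
      have hi' : i ≤ n := Nat.lt_succ_iff.1 (mem_range.1 hi)
      have e1 : n + 1 - 1 - i = n - i := by omega
      have e2 : n - (n - i) = i := by omega
      rw [e1, e2, Nat.cast_sub hi']
      ring
    have h2 : ∑ i ∈ range (n + 1), ((n : ℝ) - i) * (f i * f (n - i)) =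
        n * (∑ i ∈ range (n + 1), f i * f (n - i)) -
        ∑ i ∈ range (n + 1), (i : ℝ) * (f i * f (n - i)) := by
      rw [Finset.mul_sum, ← Finset.sum_sub_distrib]
      exact Finset.sum_congr rfl fun i _ => by ring
    linarith
  have h1 := mom (n + 1)
  rw [Finset.sum_range_succ'] at h1
  have h2 : ∑ i ∈ range (n + 1), ((i + 1 : ℕ) : ℝ) * (f (i + 1) * f (n + 1 - (i + 1))) =
      ∑ i ∈ range (n + 1), ((i : ℝ) - α) * (f i * f (n - i)) := by
    refine Finset.sum_congr rfl fun i _ => ?_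
    have e1 : n + 1 - (i + 1) = n - i := by omega
    rw [e1]
    have := hf i
    push_cast
    linear_combination f (n - i) * this
  rw [h2] at h1
  have h3 : ∑ i ∈ range (n + 1), ((i : ℝ) - α) * (f i * f (n - i)) =
      (n : ℝ) / 2 * (∑ i ∈ range (n + 1), f i * f (n - i)) -
        α * ∑ i ∈ range (n + 1), f i * f (n - i) := by
    rw [← mom n]
    rw [Finset.mul_sum, ← Finset.sum_sub_distrib]
    exact Finset.sum_congr rfl fun i _ => by ring
  rw [h3] at h1
  push_cast at h1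
  linarith

/-- Second convolution square. -/
noncomputable def gd (n : ℕ) : ℝ := ∑ i ∈ range (n + 1), gb i * gb (n - i)

lemma gb_zero : gb 0 = 1 := by unfold gb; simp [ga_zero]

lemma gd_zero : gd 0 = 1 := by unfold gd; simp [gb_zero]

lemma gd_succ (n : ℕ) : ((n : ℝ) + 1) * gd (n + 1) = ((n : ℝ) - 1) * gd n := by
  have := conv_rec gb (1 / 2) (fun j => gb_succ j) n
  unfold gd
  rw [this]; norm_num

lemma gd_one : gd 1 = -1 := by
  have := gd_succ 0
  rw [gd_zero] at this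
  push_cast at this
  linarith

lemma gd_ge_two (n : ℕ) : gd (n + 2) = 0 := by
  induction n with
  | zero =>
    have h := gd_succ 1
    push_cast at h
    linarith
  | succ n ih =>
    have h := gd_succ (n + 2)
    rw [ih, mul_zero] at h
    have : ((n + 2 : ℕ) : ℝ) + 1 ≠ 0 := by positivity
    exact (mul_eq_zero.1 h).resolve_left this

/-- The generating function. -/
noncomputable def Fz (z : ℂ) : ℂ := ∑' l, (ga l : ℂ) * z ^ l

lemma summable_Fz {z : ℂ} (hz : ‖z‖ ≤ 1) : Summable fun l => ‖(ga l : ℂ) * z ^ l‖ := by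
  refine Summable.of_nonneg_of_le (fun l => norm_nonneg _) (fun l => ?_) summable_abs_ga
  rw [norm_mul, norm_pow, Complex.norm_real, Real.norm_eq_abs]
  calc |ga l| * ‖z‖ ^ l ≤ |ga l| * 1 :=
        mul_le_mul_of_nonneg_left (pow_le_one₀ (norm_nonneg _) hz) (abs_nonneg _)
    _ = _ := mul_one _

lemma Fz_sq {z : ℂ} (hz : ‖z‖ ≤ 1) :
    (Fz z ^ 2 = ∑' n, (gb n : ℂ) * z ^ n) ∧ Summable fun n => ‖(gb n : ℂ) * z ^ n‖ := by
  have h := summable_Fz hz
  have e : ∀ n, ∑ k ∈ range (n + 1), ((ga k : ℂ) * z ^ k) * ((ga (n - k) : ℂ) * z ^ (n - k)) =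
      (gb n : ℂ) * z ^ n := by
    intro n
    unfold gb
    push_cast
    rw [Finset.sum_mul]
    refine Finset.sum_congr rfl fun k hk => ?_
    have hk' : k ≤ n := Nat.lt_succ_iff.1 (mem_range.1 hk)
    have : z ^ n = z ^ k * z ^ (n - k) := by rw [← pow_add]; congr 1; omega
    rw [this]; ring
  constructor
  · rw [sq]
    unfold Fz
    rw [tsum_mul_tsum_eq_tsum_sum_range_of_summable_norm h h]
    exact tsum_congr e
  · have := summable_norm_sum_mul_range_of_summable_norm h h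
    simp_rw [e] at this
    exact this

lemma Fz_four {z : ℂ} (hz : ‖z‖ ≤ 1) : Fz z ^ 4 = 1 - z := by
  obtain ⟨h1, h2⟩ := Fz_sq hz
  have e : ∀ n, ∑ k ∈ range (n + 1), ((gb k : ℂ) * z ^ k) * ((gb (n - k) : ℂ) * z ^ (n - k)) =
      (gd n : ℂ) * z ^ n := by
    intro n
    unfold gd
    push_cast
    rw [Finset.sum_mul]
    refine Finset.sum_congr rfl fun k hk => ?_
    have hk' : k ≤ n := Nat.lt_succ_iff.1 (mem_range.1 hk)
    have : z ^ n = z ^ k * z ^ (n - k) := by rw [← pow_add]; congr 1; omega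
    rw [this]; ring
  have h3 : Fz z ^ 4 = (Fz z ^ 2) * (Fz z ^ 2) := by ring
  rw [h3, h1, tsum_mul_tsum_eq_tsum_sum_range_of_summable_norm h2 h2]
  simp_rw [e]
  rw [tsum_eq_sum (s := range 2)]
  · rw [Finset.sum_range_succ, Finset.sum_range_one, gd_zero, gd_one]
    push_cast; ring
  · intro n hn
    obtain ⟨m, rfl⟩ : ∃ m, n = m + 2 := ⟨n - 2, by
      have : ¬ (n < 2) := fun h => hn (mem_range.2 h)
      omega⟩
    rw [gd_ge_two]; simp

lemma norm_Fz_sq {z : ℂ} (hz : ‖z‖ ≤ 1) : ‖Fz z‖ ^ 2 = √‖1 - z‖ := by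
  rw [← Fz_four hz, norm_pow]
  have : ‖Fz z‖ ^ 4 = (‖Fz z‖ ^ 2) ^ 2 := by ring
  rw [this, Real.sqrt_sq (by positivity)]

end Pool.Agent.H79
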