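import Pool.Agent.H79.G7

/-!
The double series on the boundary and its integrals.
-/

open Real MeasureTheory intervalIntegral Finset Filter Topology

namespace Pool.Agent.H79

lemma summable_pair : Summable fun p : ℕ × ℕ => |ga p.1| * |ga p.2| :=
  summable_abs_ga.mul_of_nonneg summable_abs_ga (fun _ => abs_nonneg _) (fun _ => abs_nonneg _)

/-- The boundary values. -/
lemma hasSum_boundary {θ : ℝ} (hθ : θ ∈ Set.Icc 0 π) :
    HasSum (fun p : ℕ × ℕ => ga p.1 * ga p.2 * Real.cos (2 * ((p.1 : ℝ) - p.2) * θ))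
      (√2 * √(Real.sin θ)) := by
  obtain ⟨z, hzdef⟩ : ∃ z : ℂ, z = Complex.exp (Complex.I * ((2 * θ : ℝ) : ℂ)) := ⟨_, rfl⟩
  have hz1 : ‖z‖ = 1 := by
    rw [hzdef, mul_comm]; exact Complex.norm_exp_ofReal_mul_I _
  have hw1 : ‖(starRingEnd ℂ) z‖ = 1 := by rw [Complex.norm_conj]; exact hz1
  have hs1 := summable_Fz hz1.le
  have hs2 := summable_Fz hw1.le
  have hprod := summable_mul_of_summable_norm hs1 hs2
  have hconj : Fz ((starRingEnd ℂ) z) = (starRingEnd ℂ) (Fz z) := by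
    unfold Fz
    rw [Complex.conj_tsum]
    refine tsum_congr fun l => ?_
    rw [map_mul, map_pow, Complex.conj_ofReal]
  have hval : (∑' p : ℕ × ℕ, (ga p.1 : ℂ) * z ^ p.1 * ((ga p.2 : ℂ) * (starRingEnd ℂ) z ^ p.2)) =
      ((√2 * √(Real.sin θ) : ℝ) : ℂ) := by
    rw [← tsum_mul_tsum_of_summable_norm hs1 hs2]
    change Fz z * Fz ((starRingEnd ℂ) z) = _
    rw [hconj, Complex.mul_conj, Complex.normSq_eq_norm_sq, norm_Fz_sq hz1.le]
    have h1 : ‖1 - z‖ = 2 * Real.sin θ := by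
      rw [norm_sub_rev, hzdef, Complex.norm_exp_I_mul_ofReal_sub_one, Real.norm_eq_abs,
        mul_div_cancel_left₀ _ (two_ne_zero), abs_of_nonneg]
      have := Real.sin_nonneg_of_mem_Icc hθ
      positivity
    rw [h1, Real.sqrt_mul (by norm_num)]
  have h2 := hprod.hasSum
  rw [hval] at h2
  have h3 := Complex.hasSum_re h2
  rw [Complex.ofReal_re] at h3
  have h4 : ∀ p : ℕ × ℕ, ((ga p.1 : ℂ) * z ^ p.1 * ((ga p.2 : ℂ) * (starRingEnd ℂ) z ^ p.2)).re =
      ga p.1 * ga p.2 * Real.cos (2 * ((p.1 : ℝ) - p.2) * θ) := by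
    intro p
    have e1 : z ^ p.1 = Complex.exp ((p.1 : ℂ) * (Complex.I * ((2 * θ : ℝ) : ℂ))) := by
      rw [hzdef, ← Complex.exp_nat_mul]
    have e2 : (starRingEnd ℂ) z ^ p.2 =
        Complex.exp ((p.2 : ℂ) * (-(Complex.I * ((2 * θ : ℝ) : ℂ)))) := by
      rw [hzdef, ← Complex.exp_conj, ← Complex.exp_nat_mul]
      congr 2
      rw [map_mul, Complex.conj_I, Complex.conj_ofReal]
      ring
    have e3 : (ga p.1 : ℂ) * z ^ p.1 * ((ga p.2 : ℂ) * (starRingEnd ℂ) z ^ p.2) =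
        ((ga p.1 * ga p.2 : ℝ) : ℂ) * Complex.exp (((2 * ((p.1 : ℝ) - p.2) * θ : ℝ) : ℂ) *
          Complex.I) := by
      rw [e1, e2]
      have e4 : (((2 * ((p.1 : ℝ) - p.2) * θ : ℝ) : ℂ) * Complex.I) =
          (p.1 : ℂ) * (Complex.I * ((2 * θ : ℝ) : ℂ)) +
          (p.2 : ℂ) * (-(Complex.I * ((2 * θ : ℝ) : ℂ))) := by
        push_cast; ring
      rw [e4, Complex.exp_add]
      push_cast
      ring
    rw [e3, Complex.re_ofReal_mul, Complex.exp_ofReal_mul_I_re]
  simp_rw [h4] at h3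
  exact h3

/-- Termwise integration against a weight. -/
lemma hasSum_weighted (w : ℝ → ℝ) (hw : IntervalIntegrable w volume 0 π) (g : ℝ → ℝ)
    (hg : Continuous g) (hg1 : ∀ t, |g t| ≤ 1) :
    HasSum (fun p : ℕ × ℕ => ∫ t in (0 : ℝ)..π,
      w t * (ga p.1 * ga p.2 * Real.cos (2 * ((p.1 : ℝ) - p.2) * t) * g t))
      (∫ t in (0 : ℝ)..π, w t * (√2 * √(Real.sin t) * g t)) := by
  have hpi := Real.pi_pos
  refine intervalIntegral.hasSum_integral_of_dominated_convergence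
    (fun p t => |ga p.1| * |ga p.2| * |w t|) ?_ ?_ ?_ ?_ ?_
  · intro p
    have h1 : IntervalIntegrable (fun t => w t *
        (ga p.1 * ga p.2 * Real.cos (2 * ((p.1 : ℝ) - p.2) * t) * g t)) volume 0 π :=
      hw.mul_continuousOn (Continuous.continuousOn (by fun_prop))
    exact (intervalIntegrable_iff.1 h1).aestronglyMeasurable
  · intro p
    refine Eventually.of_forall fun t _ => ?_
    rw [Real.norm_eq_abs, abs_mul, abs_mul, abs_mul, abs_mul]
    have h1 := hg1 t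
    have h2 := Real.abs_cos_le_one (2 * ((p.1 : ℝ) - p.2) * t)
    calc |w t| * (|ga p.1| * |ga p.2| * |Real.cos (2 * ((p.1 : ℝ) - p.2) * t)| * |g t|) ≤
        |w t| * (|ga p.1| * |ga p.2| * 1 * 1) := by gcongr
      _ = _ := by ring
  · refine Eventually.of_forall fun t _ => ?_
    exact summable_pair.mul_right _
  · simp_rw [tsum_mul_right]
    exact hw.abs.const_mul _
  · refine Eventually.of_forall fun t ht => ?_
    rw [Set.uIoc_of_le hpi.le] at ht
    have h1 := (hasSum_boundary ⟨ht.1.le, ht.2⟩).mul_right (g t)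
    exact h1.mul_left (w t)

/-- The sums with the moments. -/
lemma hasSum_mu0 : HasSum (fun p : ℕ × ℕ => ga p.1 * ga p.2 *
    mu0 (2 * (p.1 : ℤ) - 2 * p.2)) (√2 * π) := by
  have hpi := Real.pi_pos
  have h := hasSum_weighted (fun t => 1 / √(Real.sin t)) integrable_weight (fun _ => 1)
    continuous_const (fun _ => by simp)
  have h1 : ∫ t in (0 : ℝ)..π, 1 / √(Real.sin t) * (√2 * √(Real.sin t) * 1) = √2 * π := by
    have h2 : ∫ t in (0 : ℝ)..π, 1 / √(Real.sin t) * (√2 * √(Real.sin t) * 1) =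
        ∫ t in (0 : ℝ)..π, √2 := by
      refine intervalIntegral.integral_congr_Ioo_of_le hpi.le fun t ht => ?_
      have hs : 0 < Real.sin t := Real.sin_pos_of_mem_Ioo ht
      have h5 : 0 < √(Real.sin t) := Real.sqrt_pos.2 hs
      field_simp
    rw [h2, intervalIntegral.integral_const, sub_zero, smul_eq_mul, mul_comm]
  rw [h1] at h
  have h3 : ∀ p : ℕ × ℕ, ∫ t in (0 : ℝ)..π, 1 / √(Real.sin t) *
      (ga p.1 * ga p.2 * Real.cos (2 * ((p.1 : ℝ) - p.2) * t) * 1) =
      ga p.1 * ga p.2 * mu0 (2 * (p.1 : ℤ) - 2 * p.2) := by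
    intro p
    unfold mu0
    rw [LP_apply, ← intervalIntegral.integral_const_mul]
    refine intervalIntegral.integral_congr fun t _ => ?_
    simp only [Polynomial.Chebyshev.T_real_cos]
    push_cast
    have : (2 * (p.1 : ℝ) - 2 * (p.2 : ℝ)) * t = 2 * ((p.1 : ℝ) - p.2) * t := by ring
    rw [this]; ring
  simp_rw [h3] at h
  exact h

lemma integral_sin_oddz {m : ℤ} (hm : Odd m) :
    ∫ t in (0 : ℝ)..π, Real.sin (m * t) = 2 / m := by
  have hm0 : (m : ℝ) ≠ 0 := by
    intro h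
    have : m = 0 := by exact_mod_cast h
    rw [this] at hm
    exact absurd hm (by decide)
  rw [intervalIntegral.integral_comp_mul_left (fun x => Real.sin x) hm0, integral_sin, mul_zero,
    Real.cos_zero]
  have h1 : Real.cos ((m : ℝ) * π) = -1 := by
    rw [Real.cos_int_mul_pi, Odd.neg_one_zpow hm]
  rw [h1, smul_eq_mul]
  field_simp
  ring

/-- Integral of a product of a cosine and a sine, total frequency odd. -/
lemma integral_cos_sin_odd {A B : ℤ} (h : Odd (A + B)) :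
    ∫ t in (0 : ℝ)..π, Real.cos (A * t) * Real.sin (B * t) =
      1 / ((A : ℝ) + B) + 1 / ((B : ℝ) - A) := by
  have h1 : Odd (B - A) := by
    have : B - A = (A + B) - 2 * A := by ring
    rw [this]
    exact h.sub_even ⟨A, by ring⟩
  have h2 : ∀ t : ℝ, Real.cos (A * t) * Real.sin (B * t) =
      (1 / 2) * Real.sin (((A + B : ℤ) : ℝ) * t) + (1 / 2) * Real.sin (((B - A : ℤ) : ℝ) * t) := by
    intro t
    push_cast
    have e1 : ((A : ℝ) + B) * t = A * t + B * t := by ring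
    have e2 : ((B : ℝ) - A) * t = B * t - A * t := by ring
    rw [e1, e2, Real.sin_add, Real.sin_sub]; ring
  simp_rw [h2]
  rw [intervalIntegral.integral_add (Continuous.intervalIntegrable (by fun_prop) _ _)
    (Continuous.intervalIntegrable (by fun_prop) _ _), intervalIntegral.integral_const_mul,
    intervalIntegral.integral_const_mul, integral_sin_oddz h, integral_sin_oddz h1]
  push_cast
  ring

/-- The sums with the reciprocals. -/
lemma hasSum_recip {i : ℕ} (hi : Odd i) : HasSum (fun p : ℕ × ℕ => ga p.1 * ga p.2 *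
    (1 / ((i : ℝ) + 2 * p.1 - 2 * p.2))) (√2 / 2 * SS i) := by
  have h := hasSum_weighted (fun _ => 1) (continuous_const.intervalIntegrable _ _)
    (fun t => Real.sin (i * t)) (by fun_prop) (fun t => Real.abs_sin_le_one _)
  have h1 : ∫ t in (0 : ℝ)..π, 1 * (√2 * √(Real.sin t) * Real.sin (i * t)) = √2 * SS i := by
    unfold SS
    rw [← intervalIntegral.integral_const_mul]
    exact intervalIntegral.integral_congr fun t _ => by ring
  rw [h1] at h
  set f : ℕ × ℕ → ℝ := fun p => ga p.1 * ga p.2 * (1 / ((i : ℝ) + 2 * p.1 - 2 * p.2)) with hf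
  have h2 : ∀ p : ℕ × ℕ, ∫ t in (0 : ℝ)..π, 1 *
      (ga p.1 * ga p.2 * Real.cos (2 * ((p.1 : ℝ) - p.2) * t) * Real.sin (i * t)) =
      f p + f p.swap := by
    intro p
    have h3 : ∫ t in (0 : ℝ)..π, 1 *
        (ga p.1 * ga p.2 * Real.cos (2 * ((p.1 : ℝ) - p.2) * t) * Real.sin (i * t)) =
        ga p.1 * ga p.2 * ∫ t in (0 : ℝ)..π, Real.cos (((2 * (p.1 : ℤ) - 2 * p.2 : ℤ) : ℝ) * t) *
          Real.sin (((i : ℤ) : ℝ) * t) := by
      rw [← intervalIntegral.integral_const_mul]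
      refine intervalIntegral.integral_congr fun t _ => ?_
      push_cast
      have : (2 * (p.1 : ℝ) - 2 * (p.2 : ℝ)) * t = 2 * ((p.1 : ℝ) - p.2) * t := by ring
      rw [this]; ring
    have hodd : Odd (2 * (p.1 : ℤ) - 2 * p.2 + (i : ℤ)) := by
      have hi' : Odd (i : ℤ) := by exact_mod_cast hi
      have : Even (2 * (p.1 : ℤ) - 2 * p.2) := ⟨(p.1 : ℤ) - p.2, by ring⟩
      exact this.add_odd hi'
    rw [h3, integral_cos_sin_odd hodd, hf]
    simp only [Prod.fst_swap, Prod.snd_swap]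
    push_cast
    have e1 : 2 * (p.1 : ℝ) - 2 * p.2 + i = i + 2 * p.1 - 2 * p.2 := by ring
    have e2 : (i : ℝ) - (2 * (p.1 : ℝ) - 2 * p.2) = i + 2 * p.2 - 2 * p.1 := by ring
    rw [e1, e2]; ring
  simp_rw [h2] at h
  have hodd2 : ∀ p : ℕ × ℕ, 1 ≤ |(i : ℝ) + 2 * p.1 - 2 * p.2| := by
    intro p
    have h3 : (i : ℝ) + 2 * p.1 - 2 * p.2 = (((i : ℤ) + 2 * p.1 - 2 * p.2 : ℤ) : ℝ) := by
      push_cast; ring
    rw [h3]
    have h4 : ((i : ℤ) + 2 * p.1 - 2 * p.2) ≠ 0 := by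
      obtain ⟨k, hk⟩ := hi
      omega
    have := Int.one_le_abs h4
    exact_mod_cast this
  have hfs : Summable f := by
    refine Summable.of_norm_bounded summable_pair fun p => ?_
    rw [Real.norm_eq_abs, hf]
    simp only
    rw [abs_mul, abs_mul, abs_div, abs_one]
    have h3 := hodd2 p
    have h4 : 1 / |(i : ℝ) + 2 * p.1 - 2 * p.2| ≤ 1 := by
      rw [div_le_one (by linarith)]; exact h3
    calc |ga p.1| * |ga p.2| * (1 / |(i : ℝ) + 2 * p.1 - 2 * p.2|) ≤
        |ga p.1| * |ga p.2| * 1 := by gcongr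
      _ = _ := mul_one _
  have h5 : HasSum (fun p : ℕ × ℕ => f p.swap) (∑' p, f p) :=
    (Equiv.prodComm ℕ ℕ).hasSum_iff.2 hfs.hasSum
  have h6 := hfs.hasSum.add h5
  have h7 := h6.unique h
  have h8 := hfs.hasSum
  have h9 : ∑' p, f p = √2 / 2 * SS i := by linarith
  rwa [h9] at h8

end Pool.Agent.H79
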