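import Pool.Agent.H79.G8

/-!
Limit of the squared norm.
-/

open Real MeasureTheory intervalIntegral Finset Filter Topology

namespace Pool.Agent.H79

open Polynomial (C X derivative)
open Polynomial.Chebyshev (T U)

lemma gg_zero_of {n l : ℕ} (h : n < 2 * l) : gg n l = 0 := by
  unfold gg
  rw [if_neg (by omega), if_neg (by omega)]

lemma LP_T_mul_T (a b : ℤ) : LP (T ℝ a * T ℝ b) = 1 / 2 * (mu0 (a + b) + mu0 (a - b)) := by
  have h := Polynomial.Chebyshev.T_mul_T ℝ a b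
  have h1 : T ℝ a * T ℝ b = C (1 / 2) * (T ℝ (a + b) + T ℝ (a - b)) := by
    rw [← h]
    have c3 : (C (1 / 2) : Polynomial ℝ) * 2 = 1 := by
      have : (2 : Polynomial ℝ) = C 2 := rfl
      rw [this, ← Polynomial.C_mul]; norm_num
    linear_combination (-(T ℝ a * T ℝ b)) * c3
  rw [h1, LP_C_mul, map_add]
  rfl

/-- Terms of the double sum for the squared norm. -/
noncomputable def fh (n : ℕ) (p : ℕ × ℕ) : ℝ :=
  gg n p.1 * gg n p.2 * (1 / 2 * (mu0 (((n - 2 * p.1 : ℕ) : ℤ) + ((n - 2 * p.2 : ℕ) : ℤ)) +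
    mu0 (((n - 2 * p.1 : ℕ) : ℤ) - ((n - 2 * p.2 : ℕ) : ℤ))))

lemma hn2_eq (n : ℕ) : hn2 n = ∑' p, fh n p := by
  have h1 : hn2 n = ∑ p ∈ range (n + 1) ×ˢ range (n + 1), fh n p := by
    rw [Finset.sum_product]
    unfold hn2
    rw [Wp_fold, Finset.sum_mul_sum, map_sum]
    refine Finset.sum_congr rfl fun l _ => ?_
    rw [map_sum]
    refine Finset.sum_congr rfl fun l' _ => ?_
    have e : C (gg n l) * T ℝ ((n - 2 * l : ℕ) : ℤ) * (C (gg n l') * T ℝ ((n - 2 * l' : ℕ) : ℤ)) =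
        C (gg n l * gg n l') * (T ℝ ((n - 2 * l : ℕ) : ℤ) * T ℝ ((n - 2 * l' : ℕ) : ℤ)) := by
      rw [Polynomial.C_mul]; ring
    rw [e, LP_C_mul, LP_T_mul_T]
    rfl
  rw [h1, tsum_eq_sum]
  intro p hp
  rw [Finset.mem_product, not_and_or] at hp
  unfold fh
  rcases hp with h | h
  · rw [mem_range, not_lt] at h
    rw [gg_zero_of (by omega)]; ring
  · rw [mem_range, not_lt] at h
    rw [gg_zero_of (l := p.2) (by omega)]; ring

lemma tendsto_hn2 : Tendsto hn2 atTop (𝓝 (√2 * π / 2)) := by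
  have h0 : (∑' p : ℕ × ℕ, ga p.1 * ga p.2 * (1 / 2 * mu0 (2 * (p.1 : ℤ) - 2 * p.2))) =
      √2 * π / 2 := by
    have h := (hasSum_mu0.mul_left (1 / 2)).tsum_eq
    have h2 : √2 * π / 2 = 1 / 2 * (√2 * π) := by ring
    rw [h2, ← h]
    exact tsum_congr fun p => by ring
  have h1 : Tendsto (fun n => ∑' p, fh n p) atTop (𝓝 (√2 * π / 2)) := by
    rw [← h0]
    refine tendsto_tsum_of_dominated_convergence
      (bound := fun p => |ga p.1| * |ga p.2| * (16 * mu0 0)) (summable_pair.mul_right _) ?_ ?_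
    · intro p
      have g1 := gg_tendsto p.1
      have g2 := gg_tendsto p.2
      have g3 : Tendsto (fun n : ℕ => mu0 (((n - 2 * p.1 : ℕ) : ℤ) + ((n - 2 * p.2 : ℕ) : ℤ)))
          atTop (𝓝 0) := by
        have k1 : Tendsto (fun n : ℕ => (n - 2 * p.1) + (n - 2 * p.2)) atTop atTop := by
          refine tendsto_atTop_mono (fun n => Nat.le_add_right _ _) ?_
          exact tendsto_sub_atTop_nat _
        have k2 := tendsto_mu0.comp k1
        refine k2.congr fun n => ?_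
        simp only [Function.comp_apply]
        push_cast
        rfl
      have g4 : Tendsto (fun n : ℕ => mu0 (((n - 2 * p.1 : ℕ) : ℤ) - ((n - 2 * p.2 : ℕ) : ℤ)))
          atTop (𝓝 (mu0 (2 * (p.1 : ℤ) - 2 * p.2))) := by
        refine tendsto_const_nhds.congr' ?_
        filter_upwards [eventually_ge_atTop (2 * p.1), eventually_ge_atTop (2 * p.2)] with n k1 k2
        rw [← mu0_neg]
        congr 1
        omega
      have g5 := (g1.mul g2).mul ((g3.add g4).const_mul (1 / 2))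
      rw [zero_add] at g5
      exact g5
    · filter_upwards [eventually_ge_atTop 1] with n hn p
      unfold fh
      rw [Real.norm_eq_abs, abs_mul, abs_mul]
      have k1 := gg_abs_le hn p.1
      have k2 := gg_abs_le hn p.2
      have k3 := abs_mu0_le (((n - 2 * p.1 : ℕ) : ℤ) + ((n - 2 * p.2 : ℕ) : ℤ))
      have k4 := abs_mu0_le (((n - 2 * p.1 : ℕ) : ℤ) - ((n - 2 * p.2 : ℕ) : ℤ))
      have k5 : |1 / 2 * (mu0 (((n - 2 * p.1 : ℕ) : ℤ) + ((n - 2 * p.2 : ℕ) : ℤ)) +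
          mu0 (((n - 2 * p.1 : ℕ) : ℤ) - ((n - 2 * p.2 : ℕ) : ℤ)))| ≤ mu0 0 := by
        rw [abs_le] at *
        constructor <;> linarith [k3.1, k3.2, k4.1, k4.2]
      have k6 : 0 ≤ mu0 0 := (abs_nonneg _).trans k3
      calc _ ≤ (4 * |ga p.1|) * (4 * |ga p.2|) * mu0 0 := by gcongr
        _ = _ := by ring
  exact h1.congr fun n => (hn2_eq n).symm

end Pool.Agent.H79
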