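import Pool.Agent.H79.Base

/-!
Trial kernels and the exact values of their inner products with the Lagrange basis.
-/

open Real MeasureTheory intervalIntegral Finset

namespace Pool.Agent.H79

variable {n : ℕ}

/-- The cosine part of the trial kernel. -/
noncomputable def Aker (a : ℝ) (n : ℕ) (φ θ : ℝ) : ℝ :=
  (1 / n) * (∑ j ∈ range n, (1 - a ^ (n - j)) * (Real.cos (j * φ) * Real.cos (j * θ)) -
    (1 - a ^ n) / 2)

/-- The sine part of the trial kernel. -/
noncomputable def Bker (a : ℝ) (n : ℕ) (φ θ : ℝ) : ℝ :=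
  (1 / n) * (∑ j ∈ range n, Real.sin ((j + 1 : ℕ) * φ) * Real.sin ((j + 1 : ℕ) * θ) +
    ∑ i ∈ range n, a ^ (i + 1) * (Real.sin ((n + i + 1 : ℕ) * φ) *
      Real.sin ((n + i + 1 : ℕ) * θ)))

/-- The Dirichlet type kernel. -/
noncomputable def D (n : ℕ) (t : ℝ) : ℝ :=
  (1 / n) * (∑ j ∈ range n, Real.cos (j * t) - 1 / 2 + Real.cos (n * t) / 2)

@[fun_prop]
lemma continuous_Aker (a : ℝ) (n : ℕ) : Continuous fun p : ℝ × ℝ => Aker a n p.1 p.2 := by
  unfold Aker; fun_prop

@[fun_prop]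
lemma continuous_Aker_right (a : ℝ) (n : ℕ) (φ : ℝ) : Continuous fun t => Aker a n φ t := by
  unfold Aker; fun_prop

@[fun_prop]
lemma continuous_Aker_diag (a : ℝ) (n : ℕ) : Continuous fun t => Aker a n t t := by
  unfold Aker; fun_prop

@[fun_prop]
lemma continuous_Bker_right (a : ℝ) (n : ℕ) (φ : ℝ) : Continuous fun t => Bker a n φ t := by
  unfold Bker; fun_prop

@[fun_prop]
lemma continuous_D (n : ℕ) : Continuous (D n) := by
  unfold D; fun_prop

/-- Type A identity with arbitrary multiplier in the variable `t`. -/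
lemma sum_Aker_mul_E (a : ℝ) (hn : 1 ≤ n) (θ : Fin n → ℝ)
    (hx : Function.Injective fun k => Real.cos (θ k)) (t : ℝ) :
    ∑ k, Aker a n (θ k) t * E θ k t = Aker a n t t := by
  have h0 : ∑ k, E θ k t = 1 := by
    have := sum_cos_mul_E θ hx (j := 0) (by omega) t
    simpa using this
  unfold Aker
  have h1 : ∀ k, (1 / (n : ℝ)) * (∑ j ∈ range n, (1 - a ^ (n - j)) *
      (Real.cos (j * θ k) * Real.cos (j * t)) - (1 - a ^ n) / 2) * E θ k t =
      (1 / (n : ℝ)) * (∑ j ∈ range n, (1 - a ^ (n - j)) * Real.cos (j * t) *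
      (Real.cos (j * θ k) * E θ k t) - (1 - a ^ n) / 2 * E θ k t) := by
    intro k
    rw [mul_assoc, sub_mul, Finset.sum_mul]
    congr 2
    exact Finset.sum_congr rfl fun j _ => by ring
  simp_rw [h1]
  rw [← Finset.mul_sum, Finset.sum_sub_distrib, Finset.sum_comm, ← Finset.mul_sum, h0]
  congr 2
  · refine Finset.sum_congr rfl fun j hj => ?_
    rw [← Finset.mul_sum, sum_cos_mul_E θ hx (mem_range.1 hj)]
    ring
  · ring

lemma sum_integral_Aker (a : ℝ) (hn : 1 ≤ n) (θ : Fin n → ℝ)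
    (hx : Function.Injective fun k => Real.cos (θ k)) (q : ℝ → ℝ) (hq : Continuous q) :
    ∑ k, ∫ t in (0 : ℝ)..π, E θ k t * (q t * Aker a n (θ k) t) * Real.sin t =
      ∫ t in (0 : ℝ)..π, q t * Aker a n t t * Real.sin t := by
  rw [← intervalIntegral.integral_finsetSum
    (fun k _ => Continuous.intervalIntegrable (by fun_prop) _ _)]
  refine intervalIntegral.integral_congr fun t _ => ?_
  show ∑ k, E θ k t * (q t * Aker a n (θ k) t) * Real.sin t = q t * Aker a n t t * Real.sin t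
  rw [← sum_Aker_mul_E a hn θ hx t, Finset.mul_sum, Finset.sum_mul]
  exact Finset.sum_congr rfl fun k _ => by ring

lemma integral_Bker (a : ℝ) (θ : Fin n → ℝ)
    (hx : Function.Injective fun k => Real.cos (θ k)) (k : Fin n) :
    ∫ t in (0 : ℝ)..π, E θ k t * Bker a n (θ k) t * Real.sin t =
      π / (2 * n) * Real.sin (θ k) := by
  have h1 : ∀ t, E θ k t * Bker a n (θ k) t * Real.sin t =
      (1 / n) * (∑ j ∈ range n, Real.sin ((j + 1 : ℕ) * θ k) *
        (E θ k t * Real.sin t * Real.sin ((j + 1 : ℕ) * t)) +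
        ∑ i ∈ range n, a ^ (i + 1) * Real.sin ((n + i + 1 : ℕ) * θ k) *
        (E θ k t * Real.sin t * Real.sin ((n + i + 1 : ℕ) * t))) := by
    intro t
    unfold Bker
    have e1 : ∑ j ∈ range n, Real.sin ((j + 1 : ℕ) * θ k) *
        (E θ k t * Real.sin t * Real.sin ((j + 1 : ℕ) * t)) =
        E θ k t * Real.sin t * ∑ j ∈ range n, Real.sin ((j + 1 : ℕ) * θ k) *
        Real.sin ((j + 1 : ℕ) * t) := by
      rw [Finset.mul_sum]; exact Finset.sum_congr rfl fun j _ => by ring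
    have e2 : ∑ i ∈ range n, a ^ (i + 1) * Real.sin ((n + i + 1 : ℕ) * θ k) *
        (E θ k t * Real.sin t * Real.sin ((n + i + 1 : ℕ) * t)) =
        E θ k t * Real.sin t * ∑ i ∈ range n, a ^ (i + 1) * (Real.sin ((n + i + 1 : ℕ) * θ k) *
        Real.sin ((n + i + 1 : ℕ) * t)) := by
      rw [Finset.mul_sum]; exact Finset.sum_congr rfl fun j _ => by ring
    rw [e1, e2]; ring
  simp_rw [h1]
  rw [intervalIntegral.integral_const_mul, intervalIntegral.integral_add
    (Continuous.intervalIntegrable (by fun_prop) _ _)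
    (Continuous.intervalIntegrable (by fun_prop) _ _),
    intervalIntegral.integral_finsetSum
      (fun i _ => Continuous.intervalIntegrable (by fun_prop) _ _),
    intervalIntegral.integral_finsetSum
      (fun i _ => Continuous.intervalIntegrable (by fun_prop) _ _)]
  simp_rw [intervalIntegral.integral_const_mul]
  rw [sum_sin_mul_sc θ hx k]
  have : ∑ i ∈ range n, a ^ (i + 1) * Real.sin ((n + i + 1 : ℕ) * θ k) *
      ∫ t in (0 : ℝ)..π, E θ k t * Real.sin t * Real.sin ((n + i + 1 : ℕ) * t) = 0 := by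
    refine Finset.sum_eq_zero fun i _ => ?_
    rw [sc_zero θ hx k (j := n + i) (by omega)]
    simp
  rw [this]
  ring

lemma integral_sin_odd (j : ℕ) :
    ∫ t in (0 : ℝ)..π, Real.sin ((2 * j + 1 : ℕ) * t) = 2 / (2 * j + 1) := by
  have h0 : ((2 * j + 1 : ℕ) : ℝ) ≠ 0 := by positivity
  have h := intervalIntegral.integral_comp_mul_left (a := 0) (b := π) (fun x => Real.sin x) h0
  rw [h, integral_sin]
  have : Real.cos (((2 * j + 1 : ℕ) : ℝ) * π) = -1 := by
    push_cast
    have : (2 * (j : ℝ) + 1) * π = π + (j : ℝ) * (2 * π) := by ring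
    rw [this, Real.cos_add_nat_mul_two_pi, Real.cos_pi]
  rw [this]
  simp
  ring

lemma integral_cos_sq_mul_sin (j : ℕ) :
    ∫ t in (0 : ℝ)..π, Real.cos (j * t) * Real.cos (j * t) * Real.sin t =
      1 - 1 / (4 * (j : ℝ) ^ 2 - 1) := by
  rcases Nat.eq_zero_or_pos j with h | h
  · subst h
    simp
  · obtain ⟨i, rfl⟩ := Nat.exists_eq_succ_of_ne_zero h.ne'
    have h1 : ∀ t : ℝ, Real.cos (((i + 1 : ℕ) : ℝ) * t) * Real.cos (((i + 1 : ℕ) : ℝ) * t) *
        Real.sin t = Real.sin t / 2 + Real.sin ((2 * (i + 1) + 1 : ℕ) * t) / 4 -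
        Real.sin ((2 * i + 1 : ℕ) * t) / 4 := by
      intro t
      push_cast
      have e1 : (2 * ((i : ℝ) + 1) + 1) * t = 2 * (((i : ℝ) + 1) * t) + t := by ring
      have e2 : (2 * (i : ℝ) + 1) * t = 2 * (((i : ℝ) + 1) * t) - t := by ring
      rw [e1, e2, Real.sin_add, Real.sin_sub, Real.cos_two_mul]
      ring
    simp only [Nat.succ_eq_add_one]
    simp_rw [h1]
    rw [intervalIntegral.integral_sub
      (Continuous.intervalIntegrable (by fun_prop) _ _)
      (Continuous.intervalIntegrable (by fun_prop) _ _),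
      intervalIntegral.integral_add
      (Continuous.intervalIntegrable (by fun_prop) _ _)
      (Continuous.intervalIntegrable (by fun_prop) _ _),
      intervalIntegral.integral_div, intervalIntegral.integral_div,
      intervalIntegral.integral_div, integral_sin_odd, integral_sin_odd, integral_sin]
    simp only [Real.cos_zero, Real.cos_pi]
    push_cast
    have e1 : (2 * ((i : ℝ) + 1) + 1) ≠ 0 := by positivity
    have e2 : (2 * (i : ℝ) + 1) ≠ 0 := by positivity
    have e3 : 4 * ((i : ℝ) + 1) ^ 2 - 1 = (2 * ((i : ℝ) + 1) + 1) * (2 * (i : ℝ) + 1) := by ring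
    rw [e3]
    field_simp
    ring

lemma integral_Aker_diag (a : ℝ) (n : ℕ) :
    ∫ t in (0 : ℝ)..π, Aker a n t t * Real.sin t =
      (1 / n) * (∑ j ∈ range n, (1 - a ^ (n - j)) * (1 - 1 / (4 * (j : ℝ) ^ 2 - 1)) -
        (1 - a ^ n)) := by
  have h1 : ∀ t, Aker a n t t * Real.sin t = (1 / n) * (∑ j ∈ range n, (1 - a ^ (n - j)) *
      (Real.cos (j * t) * Real.cos (j * t) * Real.sin t) - (1 - a ^ n) / 2 * Real.sin t) := by
    intro t
    unfold Aker
    have e1 : ∑ j ∈ range n, (1 - a ^ (n - j)) *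
      (Real.cos (j * t) * Real.cos (j * t) * Real.sin t) =
      (∑ j ∈ range n, (1 - a ^ (n - j)) *
      (Real.cos (j * t) * Real.cos (j * t))) * Real.sin t := by
      rw [Finset.sum_mul]; exact Finset.sum_congr rfl fun j _ => by ring
    rw [e1]; ring
  simp_rw [h1]
  rw [intervalIntegral.integral_const_mul, intervalIntegral.integral_sub
    (Continuous.intervalIntegrable (by fun_prop) _ _)
    (Continuous.intervalIntegrable (by fun_prop) _ _),
    intervalIntegral.integral_finsetSum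
      (fun i _ => Continuous.intervalIntegrable (by fun_prop) _ _)]
  simp_rw [intervalIntegral.integral_const_mul, integral_cos_sq_mul_sin]
  rw [integral_sin]
  simp only [Real.cos_zero, Real.cos_pi]
  ring

lemma sum_telescope (n : ℕ) (hn : 1 ≤ n) :
    ∑ j ∈ range n, 1 / (4 * (j : ℝ) ^ 2 - 1) = - (n : ℝ) / (2 * n - 1) := by
  induction n, hn using Nat.le_induction with
  | base => simp; norm_num
  | succ m hm ih =>
    rw [Finset.sum_range_succ, ih]
    have h1 : (1 : ℝ) ≤ m := by exact_mod_cast hm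
    have e1 : (2 * (m : ℝ) - 1) ≠ 0 := by linarith
    have e2 : (2 * (m : ℝ) + 1) ≠ 0 := by linarith
    have e3 : (4 * (m : ℝ) ^ 2 - 1) = (2 * m - 1) * (2 * m + 1) := by ring
    have e4 : (2 * ((m : ℝ) + 1) - 1) = 2 * m + 1 := by ring
    push_cast
    rw [e3, e4, div_add_div _ _ e1 (mul_ne_zero e1 e2), div_eq_div_iff
      (mul_ne_zero e1 (mul_ne_zero e1 e2)) e2]
    ring

/-- Lower bound for the diagonal integral of the cosine part. -/
lemma integral_Aker_diag_ge (a : ℝ) (ha0 : 0 ≤ a) (ha1 : a < 1) (n : ℕ) (hn : 1 ≤ n) :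
    1 - (1 / n) * (1 / 2 + a / (1 - a)) ≤ ∫ t in (0 : ℝ)..π, Aker a n t t * Real.sin t := by
  rw [integral_Aker_diag]
  have hn' : (1 : ℝ) ≤ n := by exact_mod_cast hn
  have hgeo : ∑ j ∈ range n, a ^ (n - j) ≤ a / (1 - a) := by
    have h1 : ∑ j ∈ range n, a ^ (n - j) = a * ∑ j ∈ range n, a ^ j := by
      rw [← Finset.sum_range_reflect, Finset.mul_sum]
      refine Finset.sum_congr rfl fun j hj => ?_
      have := mem_range.1 hj
      rw [← pow_succ']
      congr 1
      omega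
    rw [h1, div_eq_mul_inv]
    refine mul_le_mul_of_nonneg_left ?_ ha0
    have h2 := geom_sum_mul_neg a n
    rw [← one_div, le_div_iff₀ (by linarith), h2]
    have := pow_nonneg ha0 n
    linarith
  have hsum : (n : ℝ) - a / (1 - a) + (n : ℝ) / (2 * n - 1) - a ^ n ≤
      ∑ j ∈ range n, (1 - a ^ (n - j)) * (1 - 1 / (4 * (j : ℝ) ^ 2 - 1)) := by
    have e1 : ∑ j ∈ range n, (1 - a ^ (n - j)) * (1 - 1 / (4 * (j : ℝ) ^ 2 - 1)) =
        n - ∑ j ∈ range n, a ^ (n - j) - ∑ j ∈ range n, 1 / (4 * (j : ℝ) ^ 2 - 1) +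
        ∑ j ∈ range n, a ^ (n - j) * (1 / (4 * (j : ℝ) ^ 2 - 1)) := by
      have : ((n : ℕ) : ℝ) = ∑ j ∈ range n, (1 : ℝ) := by simp
      conv_rhs => rw [this]
      rw [← Finset.sum_sub_distrib, ← Finset.sum_sub_distrib, ← Finset.sum_add_distrib]
      exact Finset.sum_congr rfl fun j _ => by ring
    have e2 : - a ^ n ≤ ∑ j ∈ range n, a ^ (n - j) * (1 / (4 * (j : ℝ) ^ 2 - 1)) := by
      obtain ⟨m, rfl⟩ := Nat.exists_eq_succ_of_ne_zero (by omega : n ≠ 0)
      rw [Finset.sum_range_succ']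
      have : (0 : ℝ) ≤ ∑ j ∈ range m, a ^ (m + 1 - (j + 1)) *
          (1 / (4 * ((j + 1 : ℕ) : ℝ) ^ 2 - 1)) := by
        refine Finset.sum_nonneg fun j _ => mul_nonneg (pow_nonneg ha0 _) ?_
        apply div_nonneg zero_le_one
        push_cast
        nlinarith [Nat.cast_nonneg (α := ℝ) j]
      simp only [Nat.succ_eq_add_one] at *
      have h3 : a ^ (m + 1 - 0) * (1 / (4 * ((0 : ℕ) : ℝ) ^ 2 - 1)) = - a ^ (m + 1) := by
        simp
      linarith
    rw [e1, sum_telescope n hn]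
    have : - (n : ℝ) / (2 * n - 1) = - ((n : ℝ) / (2 * n - 1)) := neg_div _ _
    rw [this]
    linarith
  have h4 : (1 : ℝ) / 2 ≤ (n : ℝ) / (2 * n - 1) := by
    rw [div_le_div_iff₀ (by norm_num) (by linarith)]
    linarith
  have h5 : 1 - (1 / (n : ℝ)) * (1 / 2 + a / (1 - a)) =
      (1 / n) * (n - (1 / 2 + a / (1 - a))) := by
    field_simp
  rw [h5]
  refine mul_le_mul_of_nonneg_left ?_ (by positivity)
  linarith

end Pool.Agent.H79
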