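import Pool.Agent.H79.Poisson

/-!
Near part, first estimates: inner products with the trial kernel, norm of the weighted kernel.
-/

open Real MeasureTheory intervalIntegral Finset

namespace Pool.Agent.H79

variable {n : ℕ}

@[fun_prop]
lemma continuous_TK (a : ℝ) (n : ℕ) (φ : ℝ) : Continuous (TK a n φ) := by
  unfold TK; fun_prop

lemma sum_inner_TK (a : ℝ) (hn : 1 ≤ n) (θ : Fin n → ℝ)
    (hx : Function.Injective fun k => Real.cos (θ k)) :
    ∑ k, ∫ t in (0 : ℝ)..π, E θ k t * TK a n (θ k) t * Real.sin t =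
      (∫ t in (0 : ℝ)..π, Aker a n t t * Real.sin t) + π / (2 * n) * ∑ k, Real.sin (θ k) := by
  have h1 : ∀ k, ∫ t in (0 : ℝ)..π, E θ k t * TK a n (θ k) t * Real.sin t =
      (∫ t in (0 : ℝ)..π, E θ k t * (1 * Aker a n (θ k) t) * Real.sin t) +
      π / (2 * n) * Real.sin (θ k) := by
    intro k
    rw [← integral_Bker a θ hx k, ← intervalIntegral.integral_add
      (Continuous.intervalIntegrable (by fun_prop) _ _)
      (Continuous.intervalIntegrable (by fun_prop) _ _)]
    refine intervalIntegral.integral_congr fun t _ => ?_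
    simp only [TK]
    ring
  simp_rw [h1]
  rw [Finset.sum_add_distrib, sum_integral_Aker a hn θ hx (fun _ => 1) continuous_const,
    ← Finset.mul_sum]
  simp

lemma geom_sum_rev {a : ℝ} (ha1 : a < 1) (n : ℕ) :
    ∑ j ∈ range n, a ^ (n - j) = a * (1 - a ^ n) / (1 - a) := by
  have h1 : ∑ j ∈ range n, a ^ (n - j) = a * ∑ j ∈ range n, a ^ j := by
    rw [← Finset.sum_range_reflect, Finset.mul_sum]
    refine Finset.sum_congr rfl fun j hj => ?_
    have := mem_range.1 hj
    rw [← pow_succ']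
    congr 1
    omega
  have h2 := geom_sum_mul_neg a n
  have h3 : (1 - a) ≠ 0 := by linarith
  rw [h1, eq_div_iff h3, mul_assoc, h2]

lemma integral_cossum_mul_D (hn : 1 ≤ n) (c : ℕ → ℝ) (m : ℕ) :
    ∫ t in (0 : ℝ)..π, (c m * Real.cos (m * t)) * D n t =
      if m < n then π / (2 * n) * c m else if m = n then π / (4 * n) * c m else 0 := by
  have h1 : ∀ t, (c m * Real.cos (m * t)) * D n t = ∑ j ∈ range (n + 1),
      ((1 / n) * (1 - (if j = 0 then 1 / 2 else 0) -
      (if j = n then 1 / 2 else 0))) * c m * (Real.cos (m * t) * Real.cos (j * t)) := by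
    intro t
    rw [D_eq_sum hn, Finset.mul_sum]
    exact Finset.sum_congr rfl fun j _ => by ring
  simp_rw [h1]
  rw [intervalIntegral.integral_finsetSum
      (fun i _ => Continuous.intervalIntegrable (by fun_prop) _ _)]
  simp_rw [intervalIntegral.integral_const_mul, integral_cos_mul_cos', mul_ite, mul_zero]
  rw [Finset.sum_ite_eq (range (n + 1)) m]
  have hn0 : ¬ (0 = n) := by omega
  rcases lt_trichotomy m n with h | h | h
  · have h2 : m ∈ range (n + 1) := mem_range.2 (by omega)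
    have h4 : ¬ (m = n) := h.ne
    simp only [h2, if_true, h, h4, if_false]
    split_ifs with h3
    · ring
    · ring
  · subst h
    have h2 : m ∈ range (m + 1) := mem_range.2 (by omega)
    have h3 : ¬ (m = 0) := by omega
    simp only [h2, if_true, lt_irrefl, if_false, h3]
    ring
  · have h2 : ¬ (m ∈ range (n + 1)) := by rw [mem_range]; omega
    have h3 : ¬ (m < n) := by omega
    have h4 : ¬ (m = n) := by omega
    simp only [h2, h3, h4, if_false]

lemma integral_nu_D_sq (hn : 1 ≤ n) {a : ℝ} (ha0 : 0 ≤ a) (ha1 : a < 1) :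
    |(∫ t in (-π)..π, nu a t * D n t ^ 2) - (π / n - 1 / n ^ 2 * (π / 4 * ((1 + a) / (1 - a))))| ≤
      15 / (1 - a) ^ 2 * (a ^ n / n) := by
  have hn' : (0 : ℝ) < n := by exact_mod_cast hn
  have hn1 : (1 : ℝ) ≤ n := by exact_mod_cast hn
  have hb : 0 < 1 - a := by linarith
  have hcnu := continuous_nu ha0 ha1
  have hcQ := continuous_QK ha0 ha1
  have hcP := continuous_PK ha0 ha1
  have hcG := continuous_Gp ha0 ha1 (n + n)
  -- reduce to `[0, π]`
  have hdouble : ∫ t in (-π)..π, nu a t * D n t ^ 2 = 2 * ∫ t in (0 : ℝ)..π, nu a t * D n t ^ 2 := by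
    rw [← intervalIntegral.integral_add_adjacent_intervals (b := 0)
      (Continuous.intervalIntegrable (by fun_prop) _ _)
      (Continuous.intervalIntegrable (by fun_prop) _ _)]
    have h1 : ∫ t in (-π)..0, nu a t * D n t ^ 2 = ∫ t in (0 : ℝ)..π, nu a t * D n t ^ 2 := by
      have := intervalIntegral.integral_comp_neg (a := 0) (b := π) (fun t => nu a t * D n t ^ 2)
      simp only [D_neg, nu_neg, neg_zero] at this
      exact this.symm
    rw [h1]; ring
  set R : ℝ → ℝ := fun t => (-1 / 4 + PK a t / 4 - Gp a (n + n) t / 2) * D n t with hR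
  have hRc : Continuous R := by rw [hR]; fun_prop
  have h1 : ∀ t, nu a t * D n t ^ 2 = D n t ^ 2 -
      1 / (2 * n) * ∑ j ∈ range n, (a ^ (n - j) * Real.cos (j * t)) * D n t +
      1 / (2 * n) * ∑ i ∈ range n, (a ^ (i + 1) * Real.cos ((n + i + 1 : ℕ) * t)) * D n t -
      a ^ n / n * R t := by
    intro t
    have e1 := nu_mul_D hn ha0 ha1 t
    have e2 := geomA ha0 ha1 n t
    have e3 := geomB ha0 ha1 n n t
    have e4 : Gp a n t = Real.cos (n * t) * PC a t - Real.sin (n * t) * QK a t := rfl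
    rw [← Finset.sum_mul, ← Finset.sum_mul, e2, e3, e4, hR]
    have e5 : nu a t * D n t ^ 2 = (nu a t * D n t) * D n t := by ring
    rw [e5, e1]
    generalize Real.sin (n * t) = S
    generalize Real.cos (n * t) = C
    field_simp
    ring
  have h2 : ∫ t in (0 : ℝ)..π, nu a t * D n t ^ 2 =
      π / (2 * n ^ 2) * (n - 1 / 4) - 1 / (2 * n) * (π / (2 * n) * (a * (1 - a ^ n) / (1 - a))) -
      a ^ n / n * ∫ t in (0 : ℝ)..π, R t := by
    simp_rw [h1]
    rw [intervalIntegral.integral_sub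
      (Continuous.intervalIntegrable (by fun_prop) _ _)
      (Continuous.intervalIntegrable (by fun_prop) _ _), intervalIntegral.integral_add
      (Continuous.intervalIntegrable (by fun_prop) _ _)
      (Continuous.intervalIntegrable (by fun_prop) _ _), intervalIntegral.integral_sub
      (Continuous.intervalIntegrable (by fun_prop) _ _)
      (Continuous.intervalIntegrable (by fun_prop) _ _),
      intervalIntegral.integral_const_mul, intervalIntegral.integral_const_mul,
      intervalIntegral.integral_const_mul, intervalIntegral.integral_finsetSum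
      (fun i _ => Continuous.intervalIntegrable (by fun_prop) _ _),
      intervalIntegral.integral_finsetSum
      (fun i _ => Continuous.intervalIntegrable (by fun_prop) _ _), integral_D_sq_zero_pi hn]
    have s1 : ∑ i ∈ range n, ∫ t in (0 : ℝ)..π, (a ^ (n - i) * Real.cos (i * t)) * D n t =
        π / (2 * n) * (a * (1 - a ^ n) / (1 - a)) := by
      rw [← geom_sum_rev ha1, Finset.mul_sum]
      refine Finset.sum_congr rfl fun i hi => ?_
      rw [integral_cossum_mul_D hn (fun i => a ^ (n - i)) i]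
      simp [mem_range.1 hi]
    have s2 : ∑ i ∈ range n, ∫ t in (0 : ℝ)..π,
        (a ^ (i + 1) * Real.cos ((n + i + 1 : ℕ) * t)) * D n t = 0 := by
      refine Finset.sum_eq_zero fun i hi => ?_
      have := integral_cossum_mul_D hn (fun _ => a ^ (i + 1)) (n + i + 1)
      rw [if_neg (by omega), if_neg (by omega)] at this
      exact this
    rw [s1, s2]
    ring
  have hRb : |∫ t in (0 : ℝ)..π, R t| ≤ 2 / (1 - a) ^ 2 * π := by
    have h3 : ∀ t ∈ Set.uIoc (0 : ℝ) π, ‖R t‖ ≤ 2 / (1 - a) ^ 2 := by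
      intro t _
      rw [Real.norm_eq_abs, hR]
      simp only
      rw [abs_mul]
      have h0 : ∀ x, |1 / Del a x| ≤ 1 / (1 - a) ^ 2 := by
        intro x
        have := Del_pos ha0 ha1 x
        rw [abs_of_pos (by positivity)]
        exact one_div_le_one_div_of_le (by positivity) (Del_ge ha0 x)
      have hx1 : 1 ≤ 1 / (1 - a) ^ 2 := by
        rw [le_div_iff₀ (by positivity)]; nlinarith
      have hP : |PK a t| ≤ 1 / (1 - a) ^ 2 := by
        have h1 : PK a t = (1 - a ^ 2) * (1 / Del a t) := by unfold PK; ring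
        rw [h1, abs_mul]
        have h2 : |1 - a ^ 2| ≤ 1 := by rw [abs_le]; constructor <;> nlinarith
        calc _ ≤ 1 * (1 / (1 - a) ^ 2) := mul_le_mul h2 (h0 t) (abs_nonneg _) (by norm_num)
          _ = _ := one_mul _
      have hG : |Gp a (n + n) t| ≤ 3 / (1 - a) ^ 2 := by
        unfold Gp
        refine (abs_sub _ _).trans ?_
        rw [abs_mul, abs_mul]
        have h1 := Real.abs_cos_le_one ((n + n : ℕ) * t)
        have h2 := Real.abs_sin_le_one ((n + n : ℕ) * t)
        have hPC : |PC a t| ≤ 2 / (1 - a) ^ 2 := by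
          have h1 : PC a t = (a * Real.cos t - a ^ 2) * (1 / Del a t) := by unfold PC; ring
          rw [h1, abs_mul]
          have h2 : |a * Real.cos t - a ^ 2| ≤ 2 := by
            have := Real.abs_cos_le_one t
            rw [abs_le] at this ⊢
            constructor <;> nlinarith [this.1, this.2]
          calc _ ≤ 2 * (1 / (1 - a) ^ 2) := mul_le_mul h2 (h0 t) (abs_nonneg _) (by norm_num)
            _ = _ := by ring
        have hQ : |QK a t| ≤ 1 / (1 - a) ^ 2 := by
          have h1 : QK a t = (a * Real.sin t) * (1 / Del a t) := by unfold QK; ring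
          rw [h1, abs_mul]
          have h2 : |a * Real.sin t| ≤ 1 := by
            have := Real.abs_sin_le_one t
            rw [abs_le] at this ⊢
            constructor <;> nlinarith [this.1, this.2]
          calc _ ≤ 1 * (1 / (1 - a) ^ 2) := mul_le_mul h2 (h0 t) (abs_nonneg _) (by norm_num)
            _ = _ := by ring
        calc _ ≤ 1 * (2 / (1 - a) ^ 2) + 1 * (1 / (1 - a) ^ 2) :=
              add_le_add (mul_le_mul h1 hPC (abs_nonneg _) (by norm_num))
                (mul_le_mul h2 hQ (abs_nonneg _) (by norm_num))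
          _ = _ := by ring
      have hD := abs_D_le_one hn t
      have e2 : 3 / (1 - a) ^ 2 = 3 * (1 / (1 - a) ^ 2) := by ring
      have e3 : 2 / (1 - a) ^ 2 = 2 * (1 / (1 - a) ^ 2) := by ring
      rw [e2] at hG
      rw [e3]
      have h5 : |-1 / 4 + PK a t / 4 - Gp a (n + n) t / 2| ≤ 2 * (1 / (1 - a) ^ 2) := by
        rw [abs_le] at *
        constructor <;> linarith [hP.1, hP.2, hG.1, hG.2]
      calc _ ≤ 2 * (1 / (1 - a) ^ 2) * 1 := mul_le_mul h5 hD (abs_nonneg _) (by positivity)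
        _ = _ := mul_one _
    have h4 := intervalIntegral.norm_integral_le_of_norm_le_const h3
    rw [Real.norm_eq_abs, sub_zero, abs_of_pos Real.pi_pos] at h4
    exact h4
  rw [hdouble, h2]
  set I0 := ∫ t in (0 : ℝ)..π, R t
  have h6 : 2 * (π / (2 * (n : ℝ) ^ 2) * (n - 1 / 4) -
      1 / (2 * n) * (π / (2 * n) * (a * (1 - a ^ n) / (1 - a))) - a ^ n / n * I0) -
      (π / n - 1 / n ^ 2 * (π / 4 * ((1 + a) / (1 - a)))) =
      a ^ n / n * (π / 2 * (1 / n) * (a / (1 - a)) - 2 * I0) := by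
    field_simp
    ring
  rw [h6, abs_mul, abs_of_nonneg (by positivity : 0 ≤ a ^ n / (n : ℝ)), mul_comm]
  refine mul_le_mul_of_nonneg_right ?_ (by positivity)
  have hpi := Real.pi_lt_d2
  have hpi0 := Real.pi_pos
  have h7 : |π / 2 * (1 / n) * (a / (1 - a))| ≤ 2 / (1 - a) ^ 2 := by
    rw [abs_of_nonneg (by positivity)]
    have i1 : 1 / (n : ℝ) ≤ 1 := by rw [div_le_one hn']; exact hn1
    have i2 : a / (1 - a) ≤ 1 / (1 - a) ^ 2 := by
      rw [div_le_div_iff₀ hb (by positivity)]; nlinarith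
    calc π / 2 * (1 / n) * (a / (1 - a)) ≤ 2 * 1 * (1 / (1 - a) ^ 2) := by
          gcongr
          linarith
      _ = _ := by ring
  calc |π / 2 * (1 / n) * (a / (1 - a)) - 2 * I0| ≤
      |π / 2 * (1 / n) * (a / (1 - a))| + |2 * I0| := abs_sub _ _
    _ ≤ 2 / (1 - a) ^ 2 + 2 * (2 / (1 - a) ^ 2 * π) := by
      have h8 : |2 * I0| = 2 * |I0| := by rw [abs_mul, abs_two]
      rw [h8]
      gcongr
    _ = (2 + 4 * π) * (1 / (1 - a) ^ 2) := by ring
    _ ≤ 15 * (1 / (1 - a) ^ 2) := by gcongr; linarith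
    _ = _ := by ring

/-- Distance to the end points. -/
noncomputable def md (φ : ℝ) : ℝ := min φ (π - φ)

noncomputable def mom (a : ℝ) (n : ℕ) (φ : ℝ) : ℝ :=
  |∫ u in (-(min φ (π - φ)))..(π - min φ (π - φ)), nu a u * D n u ^ 2 * u|

lemma md_nonneg {φ : ℝ} (hφ : φ ∈ Set.Icc 0 π) : 0 ≤ md φ := le_min hφ.1 (by linarith [hφ.2])

lemma md_le (φ : ℝ) : md φ ≤ π / 2 := by
  unfold md
  rcases le_total φ (π / 2) with h | h
  · exact (min_le_left _ _).trans h
  · exact (min_le_right _ _).trans (by linarith)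

lemma mom_le_aux (hn : 1 ≤ n) {a : ℝ} (ha0 : 0 ≤ a) (ha1 : a < 1) {φ : ℝ}
    (hφ : φ ∈ Set.Icc 0 π) : mom a n φ ≤ ∫ u in (md φ)..π, nu a u * D n u ^ 2 * u := by
  have hm0 := md_nonneg hφ
  have hm1 := md_le φ
  have hcnu := continuous_nu ha0 ha1
  unfold mom
  change |∫ u in (-(md φ))..(π - md φ), nu a u * D n u ^ 2 * u| ≤ _
  have h4 := moment_aux hn (nu a) hcnu (nu_neg a) (nu_nonneg ha0 ha1) hm0 hm1
  have h6 : 0 ≤ ∫ u in (-(md φ))..(π - md φ), nu a u * D n u ^ 2 * u := by
    rw [← intervalIntegral.integral_add_adjacent_intervals (b := md φ)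
      (Continuous.intervalIntegrable (by fun_prop) _ _)
      (Continuous.intervalIntegrable (by fun_prop) _ _)]
    have h7 : ∫ u in (-(md φ))..(md φ), nu a u * D n u ^ 2 * u = 0 := by
      have := intervalIntegral.integral_comp_neg (a := -(md φ)) (b := md φ)
        (fun u => nu a u * D n u ^ 2 * u)
      simp only [D_neg, nu_neg, neg_neg, mul_neg, intervalIntegral.integral_neg] at this
      linarith
    rw [h7, zero_add]
    refine intervalIntegral.integral_nonneg (by linarith) fun u hu => ?_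
    have : 0 ≤ u := hm0.trans hu.1
    have := nu_nonneg ha0 ha1 u
    positivity
  rw [abs_of_nonneg h6]
  exact h4

lemma mom_le (hn : 1 ≤ n) {a : ℝ} (ha0 : 0 ≤ a) (ha1 : a < 1) {φ : ℝ}
    (hφ : φ ∈ Set.Icc 0 π) : mom a n φ ≤ (1 / n ^ 2) * (1 / 2 + L n φ) :=
  (mom_le_aux hn ha0 ha1 hφ).trans
    (moment_bound hn (nu a) (continuous_nu ha0 ha1) (nu_nonneg ha0 ha1) (nu_le_one ha0 ha1)
      (md_nonneg hφ) (md_le φ))

/-- The near weight is small away from zero. -/
lemma nu_le_of_ge {a : ℝ} (ha0 : 1 / 4 ≤ a) {δ u : ℝ} (hδ : 0 < δ) (hu : δ ≤ u)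
    (hu1 : u ≤ π) : nu a u ≤ 16 * (1 - a) ^ 2 / δ ^ 2 := by
  have hs : u / π ≤ Real.sin (u / 2) := by
    have h := Real.mul_le_sin (x := u / 2) (by linarith) (by linarith)
    have e : 2 / π * (u / 2) = u / π := by ring
    rwa [e] at h
  have hpi := Real.pi_pos
  have hpi4 := Real.pi_le_four
  have h1 : δ / 4 ≤ Real.sin (u / 2) := by
    refine le_trans ?_ hs
    rw [div_le_div_iff₀ (by norm_num) hpi]
    nlinarith
  have h2 : δ ^ 2 / 16 ≤ Del a u := by
    rw [Del_eq]
    have h3 : (δ / 4) ^ 2 ≤ Real.sin (u / 2) ^ 2 := by gcongr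
    have h4 : Real.sin (u / 2) ^ 2 ≤ 4 * a * Real.sin (u / 2) ^ 2 := by
      have := sq_nonneg (Real.sin (u / 2)); nlinarith
    have h5 := sq_nonneg (1 - a)
    calc δ ^ 2 / 16 = (δ / 4) ^ 2 := by ring
      _ ≤ _ := by linarith
  unfold nu
  have h6 : 16 * (1 - a) ^ 2 / δ ^ 2 = (1 - a) ^ 2 / (δ ^ 2 / 16) := by field_simp
  rw [h6]
  exact div_le_div_of_nonneg_left (sq_nonneg _) (by positivity) h2

lemma mom_le_far (hn : 1 ≤ n) {a : ℝ} (ha0 : 1 / 4 ≤ a) (ha1 : a < 1) {δ φ : ℝ} (hδ : 0 < δ)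
    (hφ : φ ∈ Set.Icc 0 π) (hd : δ ≤ md φ) :
    mom a n φ ≤ (1 / n ^ 2) * (64 * (1 - a) ^ 2 / δ ^ 3) := by
  have ha0' : 0 ≤ a := by linarith
  have hn' : (0 : ℝ) < n := by exact_mod_cast hn
  have hcnu := continuous_nu ha0' ha1
  refine (mom_le_aux hn ha0' ha1 hφ).trans ?_
  have hmpi : md φ ≤ π := (md_le φ).trans (by linarith [Real.pi_pos])
  have h1 : ∫ u in (md φ)..π, nu a u * D n u ^ 2 * u ≤
      ∫ u in (md φ)..π, (1 / (n : ℝ) ^ 2) * (16 * (1 - a) ^ 2 / δ ^ 3) := by
    refine intervalIntegral.integral_mono_on hmpi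
      (Continuous.intervalIntegrable (by fun_prop) _ _)
      (Continuous.intervalIntegrable (by fun_prop) _ _) fun u hu => ?_
    have hu0 : 0 < u := lt_of_lt_of_le hδ (hd.trans hu.1)
    have h2 := nu_le_of_ge ha0 hδ (hd.trans hu.1) hu.2
    have h3 := D_mul_le hn hu0.le hu.2
    have h4 : (n * |D n u| * u) ^ 2 ≤ 1 := by
      have : 0 ≤ n * |D n u| * u := by positivity
      nlinarith
    rw [mul_pow, mul_pow, sq_abs] at h4
    have h5 : D n u ^ 2 * u ≤ 1 / (n ^ 2 * δ) := by
      rw [le_div_iff₀ (by positivity)]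
      have h6 : δ ≤ u := hd.trans hu.1
      calc D n u ^ 2 * u * (n ^ 2 * δ) ≤ D n u ^ 2 * u * (n ^ 2 * u) := by gcongr
        _ = n ^ 2 * D n u ^ 2 * u ^ 2 := by ring
        _ ≤ 1 := h4
    calc nu a u * D n u ^ 2 * u = nu a u * (D n u ^ 2 * u) := by ring
      _ ≤ (16 * (1 - a) ^ 2 / δ ^ 2) * (1 / (n ^ 2 * δ)) := by
        have := nu_nonneg ha0' ha1 u
        gcongr
      _ = _ := by field_simp
  refine h1.trans ?_
  rw [intervalIntegral.integral_const, smul_eq_mul]
  have h7 : π - md φ ≤ 4 := by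
    have := md_nonneg hφ
    have := Real.pi_le_four
    linarith
  calc (π - md φ) * ((1 / (n : ℝ) ^ 2) * (16 * (1 - a) ^ 2 / δ ^ 3)) ≤
      4 * ((1 / (n : ℝ) ^ 2) * (16 * (1 - a) ^ 2 / δ ^ 3)) := by gcongr
    _ = _ := by ring

end Pool.Agent.H79
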