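import Pool.Agent.H79.Sums2

/-!
Near part: the reflected term.
-/

open Real MeasureTheory intervalIntegral Finset Filter Topology

namespace Pool.Agent.H79

variable {n : ℕ}

lemma quad_cs {A B C : ℝ} (hA : 0 ≤ A) (hB : 0 ≤ B) (h : ∀ x : ℝ, 0 ≤ A - 2 * x * C + x ^ 2 * B) :
    |C| ≤ √A * √B := by
  rw [← Real.sqrt_mul hA]
  apply Real.le_sqrt_of_sq_le
  rw [sq_abs]
  rcases eq_or_lt_of_le hB with h0 | h0
  · -- `B = 0`
    by_contra hcon
    push Not at hcon
    rw [← h0, mul_zero] at hcon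
    have hC : C ≠ 0 := by
      intro h2; rw [h2] at hcon; norm_num at hcon
    have h3 := h ((A + 1) / (2 * C))
    rw [← h0] at h3
    have h4 : 2 * ((A + 1) / (2 * C)) * C = A + 1 := by field_simp
    rw [h4] at h3
    linarith
  · have h3 := h (C / B)
    have h4 : A - 2 * (C / B) * C + (C / B) ^ 2 * B = A - C ^ 2 / B := by
      field_simp
      ring
    rw [h4] at h3
    have h5 : C ^ 2 / B ≤ A := by linarith
    rw [div_le_iff₀ h0] at h5
    exact h5

/-- Cauchy-Schwarz for sums of integrals. -/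
lemma cs_sum {ι : Type*} (S : Finset ι) (f g : ι → ℝ → ℝ) (hf : ∀ k, Continuous (f k))
    (hg : ∀ k, Continuous (g k)) (w : ℝ → ℝ) (hw : Continuous w)
    (hw0 : ∀ t ∈ Set.Icc 0 π, 0 ≤ w t) :
    |∑ k ∈ S, ∫ t in (0 : ℝ)..π, f k t * g k t * w t| ≤
      √(∑ k ∈ S, ∫ t in (0 : ℝ)..π, f k t ^ 2 * w t) *
      √(∑ k ∈ S, ∫ t in (0 : ℝ)..π, g k t ^ 2 * w t) := by
  have hnn : ∀ h : ℝ → ℝ, 0 ≤ ∫ t in (0 : ℝ)..π, h t ^ 2 * w t := fun h =>
    intervalIntegral.integral_nonneg Real.pi_pos.le fun t ht => by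
      have := hw0 t ht
      positivity
  refine quad_cs (Finset.sum_nonneg fun k _ => hnn _) (Finset.sum_nonneg fun k _ => hnn _)
    fun x => ?_
  have h1 : ∑ k ∈ S, ∫ t in (0 : ℝ)..π, (f k t - x * g k t) ^ 2 * w t =
      ∑ k ∈ S, (∫ t in (0 : ℝ)..π, f k t ^ 2 * w t) -
      2 * x * ∑ k ∈ S, (∫ t in (0 : ℝ)..π, f k t * g k t * w t) +
      x ^ 2 * ∑ k ∈ S, (∫ t in (0 : ℝ)..π, g k t ^ 2 * w t) := by
    rw [Finset.mul_sum, Finset.mul_sum, ← Finset.sum_sub_distrib, ← Finset.sum_add_distrib]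
    refine Finset.sum_congr rfl fun k _ => ?_
    have := hf k
    have := hg k
    rw [← intervalIntegral.integral_const_mul, ← intervalIntegral.integral_const_mul,
      ← intervalIntegral.integral_sub
      (Continuous.intervalIntegrable (by fun_prop) _ _)
      (Continuous.intervalIntegrable (by fun_prop) _ _), ← intervalIntegral.integral_add
      (Continuous.intervalIntegrable (by fun_prop) _ _)
      (Continuous.intervalIntegrable (by fun_prop) _ _)]
    refine intervalIntegral.integral_congr fun t _ => ?_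
    ring
  rw [← h1]
  exact Finset.sum_nonneg fun k _ => hnn _

/-! ### Geometry of the kernel near the corners -/

lemma sin_le_two_sin {φ t : ℝ} (hφ : φ ∈ Set.Icc 0 π) (ht : t ∈ Set.Icc 0 π) :
    Real.sin t ≤ 2 * Real.sin ((φ + t) / 2) := by
  have a1 : 0 ≤ Real.sin (φ / 2) :=
    Real.sin_nonneg_of_nonneg_of_le_pi (by linarith [hφ.1]) (by linarith [hφ.2, Real.pi_pos])
  have a2 : 0 ≤ Real.sin (t / 2) :=
    Real.sin_nonneg_of_nonneg_of_le_pi (by linarith [ht.1]) (by linarith [ht.2, Real.pi_pos])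
  have a3 : 0 ≤ Real.cos (φ / 2) :=
    Real.cos_nonneg_of_mem_Icc ⟨by linarith [hφ.1, Real.pi_pos], by linarith [hφ.2]⟩
  have a4 : 0 ≤ Real.cos (t / 2) :=
    Real.cos_nonneg_of_mem_Icc ⟨by linarith [ht.1, Real.pi_pos], by linarith [ht.2]⟩
  have e1 : (φ + t) / 2 = φ / 2 + t / 2 := by ring
  have e2 : Real.sin t = 2 * Real.sin (t / 2) * Real.cos (t / 2) := by
    rw [← Real.sin_two_mul]; congr 1; ring
  rw [e1, e2, Real.sin_add]
  have b1 := Real.sin_sq_add_cos_sq (φ / 2)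
  have b2 := Real.sin_sq_add_cos_sq (t / 2)
  have c1 : Real.sin (t / 2) ≤ 1 := Real.sin_le_one _
  have c2 : Real.cos (t / 2) ≤ 1 := Real.cos_le_one _
  have c3 : Real.sin (φ / 2) ≤ 1 := Real.sin_le_one _
  have c4 : Real.cos (φ / 2) ≤ 1 := Real.cos_le_one _
  have d1 : 1 ≤ Real.sin (φ / 2) + Real.cos (φ / 2) := by nlinarith
  have d2 : Real.sin (t / 2) * Real.cos (t / 2) ≤ Real.cos (t / 2) := by nlinarith
  have d3 : Real.sin (t / 2) * Real.cos (t / 2) ≤ Real.sin (t / 2) := by nlinarith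
  have d4 : 0 ≤ Real.sin (t / 2) * Real.cos (t / 2) := mul_nonneg a2 a4
  have d5 : Real.sin (φ / 2) * (Real.sin (t / 2) * Real.cos (t / 2)) ≤
      Real.sin (φ / 2) * Real.cos (t / 2) := mul_le_mul_of_nonneg_left d2 a1
  have d6 : Real.cos (φ / 2) * (Real.sin (t / 2) * Real.cos (t / 2)) ≤
      Real.cos (φ / 2) * Real.sin (t / 2) := mul_le_mul_of_nonneg_left d3 a3
  nlinarith

lemma Del_ge_sin {a φ t : ℝ} (ha0 : 0 ≤ a) (hφ : φ ∈ Set.Icc 0 π) (ht : t ∈ Set.Icc 0 π) :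
    (1 - a) ^ 2 + a * Real.sin t ^ 2 ≤ Del a (φ + t) := by
  rw [Del_eq]
  have h1 := sin_le_two_sin hφ ht
  have h2 := Real.sin_nonneg_of_mem_Icc ht
  have h3 : Real.sin t ^ 2 ≤ (2 * Real.sin ((φ + t) / 2)) ^ 2 := by gcongr
  have h4 : a * Real.sin t ^ 2 ≤ a * (2 * Real.sin ((φ + t) / 2)) ^ 2 := by gcongr
  calc _ ≤ (1 - a) ^ 2 + a * (2 * Real.sin ((φ + t) / 2)) ^ 2 := by linarith
    _ = _ := by ring

/-- Upper bound for `PK a (φ + t)` in terms of `φ` only. -/
lemma PK_le {a φ t : ℝ} (ha0 : 0 ≤ a) (ha1 : a < 1) (hφ : φ ∈ Set.Icc 0 π)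
    (ht : t ∈ Set.Icc 0 π) :
    PK a (φ + t) ≤ 2 * (1 - a) / ((1 - a) ^ 2 + a * Real.sin φ ^ 2) := by
  have h1 := Del_ge_sin ha0 ht hφ
  rw [add_comm] at h1
  unfold PK
  have hb : 0 < 1 - a := by linarith
  have h2 : 0 < (1 - a) ^ 2 + a * Real.sin φ ^ 2 := by positivity
  have h3 : 1 - a ^ 2 ≤ 2 * (1 - a) := by nlinarith
  have hD := Del_pos ha0 ha1 (φ + t)
  rw [add_comm φ t] at hD ⊢
  have h1' : (1 - a) ^ 2 + a * Real.sin φ ^ 2 ≤ Del a (t + φ) := by
    rw [add_comm (a * Real.sin φ ^ 2)] at h1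
    exact h1
  calc (1 - a ^ 2) / Del a (t + φ) ≤ 2 * (1 - a) / Del a (t + φ) := by gcongr
    _ ≤ _ := div_le_div_of_nonneg_left (by positivity) h2 h1'

/-- The function entering the reflected term. -/
noncomputable def hh (a φ t : ℝ) : ℝ := PK a (φ + t) * Real.sin t

noncomputable def hhd (a φ t : ℝ) : ℝ :=
  -(PK a (φ + t) * (2 * a * Real.sin (φ + t)) / Del a (φ + t)) * Real.sin t +
    PK a (φ + t) * Real.cos t

lemma hasDerivAt_PK {a : ℝ} (ha0 : 0 ≤ a) (ha1 : a < 1) (t : ℝ) :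
    HasDerivAt (PK a) (-(PK a t * (2 * a * Real.sin t) / Del a t)) t := by
  have h1 : HasDerivAt (Del a) (2 * a * Real.sin t) t := by
    have := (((Real.hasDerivAt_cos t).const_mul (2 * a)).const_sub 1).add_const (a ^ 2)
    have e : -(2 * a * -Real.sin t) = 2 * a * Real.sin t := by ring
    rw [e] at this
    exact this
  have hD := (Del_pos ha0 ha1 t).ne'
  have h2 := (hasDerivAt_const t (1 - a ^ 2)).div h1 hD
  have e2 : (0 * Del a t - (1 - a ^ 2) * (2 * a * Real.sin t)) / Del a t ^ 2 =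
      -(PK a t * (2 * a * Real.sin t) / Del a t) := by
    unfold PK; field_simp; ring
  rw [e2] at h2
  exact h2

lemma hasDerivAt_hh {a : ℝ} (ha0 : 0 ≤ a) (ha1 : a < 1) (φ t : ℝ) :
    HasDerivAt (hh a φ) (hhd a φ t) t := by
  have h1 : HasDerivAt (fun t => PK a (φ + t))
      (-(PK a (φ + t) * (2 * a * Real.sin (φ + t)) / Del a (φ + t))) t :=
    HasDerivAt.comp_const_add φ t (hasDerivAt_PK ha0 ha1 (φ + t))
  exact h1.mul (Real.hasDerivAt_sin t)

lemma continuous_hh {a : ℝ} (ha0 : 0 ≤ a) (ha1 : a < 1) (φ : ℝ) : Continuous (hh a φ) := by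
  unfold hh
  have := continuous_PK ha0 ha1
  fun_prop

lemma continuous_hhd {a : ℝ} (ha0 : 0 ≤ a) (ha1 : a < 1) (φ : ℝ) : Continuous (hhd a φ) := by
  unfold hhd
  have := continuous_PK ha0 ha1
  refine Continuous.add (Continuous.mul (Continuous.neg (Continuous.div (by fun_prop)
    (by fun_prop) fun t => (Del_pos ha0 ha1 _).ne')) (by fun_prop)) (by fun_prop)

lemma abs_hhd_le {a φ t : ℝ} (ha0 : 0 ≤ a) (ha1 : a < 1) (hφ : φ ∈ Set.Icc 0 π)
    (ht : t ∈ Set.Icc 0 π) : |hhd a φ t| ≤ 3 * PK a (φ + t) := by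
  have hP := PK_nonneg ha0 ha1 (φ + t)
  have hD := Del_pos ha0 ha1 (φ + t)
  have hs0 : 0 ≤ Real.sin t := Real.sin_nonneg_of_mem_Icc ht
  have hs1 := sin_le_two_sin hφ ht
  have hh0 : 0 ≤ Real.sin ((φ + t) / 2) := by linarith
  have h1 : |Real.sin (φ + t)| ≤ 2 * Real.sin ((φ + t) / 2) := by
    have e : Real.sin (φ + t) = 2 * Real.sin ((φ + t) / 2) * Real.cos ((φ + t) / 2) := by
      rw [← Real.sin_two_mul]; congr 1; ring
    rw [e, abs_mul, abs_of_nonneg (by positivity : 0 ≤ 2 * Real.sin ((φ + t) / 2))]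
    exact mul_le_of_le_one_right (by positivity) (Real.abs_cos_le_one _)
  have h2 : 2 * a * |Real.sin (φ + t)| * Real.sin t ≤ 2 * Del a (φ + t) := by
    rw [Del_eq]
    calc 2 * a * |Real.sin (φ + t)| * Real.sin t ≤
        2 * a * (2 * Real.sin ((φ + t) / 2)) * (2 * Real.sin ((φ + t) / 2)) := by gcongr
      _ = 2 * (4 * a * Real.sin ((φ + t) / 2) ^ 2) := by ring
      _ ≤ _ := by have := sq_nonneg (1 - a); linarith
  unfold hhd
  refine (abs_add_le _ _).trans ?_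
  have h3 : |-(PK a (φ + t) * (2 * a * Real.sin (φ + t)) / Del a (φ + t)) * Real.sin t| ≤
      2 * PK a (φ + t) := by
    rw [abs_mul, abs_neg, abs_div, abs_mul, abs_mul, abs_of_nonneg hP, abs_of_pos hD,
      abs_of_nonneg hs0, abs_of_nonneg (by positivity : 0 ≤ 2 * a)]
    rw [div_mul_eq_mul_div, div_le_iff₀ hD]
    calc PK a (φ + t) * (2 * a * |Real.sin (φ + t)|) * Real.sin t =
        PK a (φ + t) * (2 * a * |Real.sin (φ + t)| * Real.sin t) := by ring
      _ ≤ PK a (φ + t) * (2 * Del a (φ + t)) := by gcongr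
      _ = _ := by ring
  have h4 : |PK a (φ + t) * Real.cos t| ≤ PK a (φ + t) := by
    rw [abs_mul, abs_of_nonneg hP]
    exact mul_le_of_le_one_right hP (Real.abs_cos_le_one _)
  linarith

lemma hh_nonneg {a φ t : ℝ} (ha0 : 0 ≤ a) (ha1 : a < 1) (ht : t ∈ Set.Icc 0 π) :
    0 ≤ hh a φ t := mul_nonneg (PK_nonneg ha0 ha1 _) (Real.sin_nonneg_of_mem_Icc ht)

lemma hh_le_two {a φ t : ℝ} (ha0 : 1 / 4 ≤ a) (ha1 : a < 1) (hφ : φ ∈ Set.Icc 0 π)
    (ht : t ∈ Set.Icc 0 π) : hh a φ t ≤ 2 := by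
  have ha0' : 0 ≤ a := by linarith
  have hD := Del_pos ha0' ha1 (φ + t)
  have h1 := Del_ge_sin ha0' hφ ht
  have hs := Real.sin_nonneg_of_mem_Icc ht
  unfold hh PK
  rw [div_mul_eq_mul_div, div_le_iff₀ hD]
  have h2 : (1 - a ^ 2) * Real.sin t ≤ 2 * ((1 - a) ^ 2 + a * Real.sin t ^ 2) := by
    set s := Real.sin t
    set b := 1 - a with hb
    have hb0 : 0 ≤ b := by linarith
    have e : 1 - a ^ 2 = b * (1 + a) := by rw [hb]; ring
    have h3 : b * (1 + a) * s ≤ 2 * b * s := by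
      have : b * s * (1 + a) ≤ b * s * 2 := by gcongr; linarith
      linarith
    have h4 : 2 * b * s ≤ 2 * b ^ 2 + 1 / 2 * s ^ 2 := by
      have := sq_nonneg (2 * b - s); nlinarith
    have h5 : 1 / 2 * s ^ 2 ≤ 2 * (a * s ^ 2) := by
      have := sq_nonneg s; nlinarith
    rw [e]; linarith
  linarith

lemma sin_ge_half_md {φ : ℝ} (hφ : φ ∈ Set.Icc 0 π) : md φ / 2 ≤ Real.sin φ := by
  have hpi := Real.pi_pos
  have hpi4 := Real.pi_le_four
  have hm := md_nonneg hφ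
  unfold md at *
  rcases le_total φ (π - φ) with h | h
  · rw [min_eq_left h] at *
    have h1 := Real.mul_le_sin (x := φ) hφ.1 (by linarith)
    refine le_trans ?_ h1
    rw [div_mul_eq_mul_div, div_le_div_iff₀ (by norm_num) hpi]
    nlinarith
  · rw [min_eq_right h] at *
    have h1 := Real.mul_le_sin (x := π - φ) (by linarith [hφ.2]) (by linarith)
    rw [Real.sin_pi_sub] at h1
    refine le_trans ?_ h1
    rw [div_mul_eq_mul_div, div_le_div_iff₀ (by norm_num) hpi]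
    nlinarith

lemma PK_le_far {a φ t δ : ℝ} (ha0 : 1 / 4 ≤ a) (ha1 : a < 1) (hφ : φ ∈ Set.Icc 0 π)
    (ht : t ∈ Set.Icc 0 π) (hδ : 0 < δ) (hd : δ ≤ md φ) :
    PK a (φ + t) ≤ 32 * (1 - a) / δ ^ 2 := by
  have ha0' : 0 ≤ a := by linarith
  refine (PK_le ha0' ha1 hφ ht).trans ?_
  have h1 : δ / 2 ≤ Real.sin φ := le_trans (by linarith) (sin_ge_half_md hφ)
  have h2 : δ ^ 2 / 16 ≤ (1 - a) ^ 2 + a * Real.sin φ ^ 2 := by
    have h3 : (δ / 2) ^ 2 ≤ Real.sin φ ^ 2 := by gcongr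
    have h4 := sq_nonneg (1 - a)
    have h5 := sq_nonneg (Real.sin φ)
    nlinarith
  have e : 32 * (1 - a) / δ ^ 2 = 2 * (1 - a) / (δ ^ 2 / 16) := by field_simp; ring
  rw [e]
  exact div_le_div_of_nonneg_left (by linarith) (by positivity) h2

lemma PK_le_q (hn : 1 ≤ n) {a φ t : ℝ} (ha0 : 1 / 4 ≤ a) (ha1 : a < 1) (hna : 1 / (1 - a) ≤ n)
    (hφ : φ ∈ Set.Icc 0 π) (ht : t ∈ Set.Icc 0 π) : PK a (φ + t) ≤ 4 * (1 / qd n φ) := by
  have ha0' : 0 ≤ a := by linarith
  have hb : 0 < 1 - a := by linarith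
  refine (PK_le ha0' ha1 hφ ht).trans ?_
  have hn' : (0 : ℝ) < n := by exact_mod_cast hn
  have hs := sin_ge_half_md hφ
  have hm0 := md_nonneg hφ
  have hq : qd n φ = max (md φ) (1 / n) := rfl
  rcases le_total (1 / (n : ℝ)) (md φ) with h | h
  · rw [hq, max_eq_left h]
    have hm : 0 < md φ := lt_of_lt_of_le (by positivity) h
    have h2 : (1 - a) * md φ / 2 ≤ (1 - a) ^ 2 + a * Real.sin φ ^ 2 := by
      have h3 : (md φ / 2) ^ 2 ≤ Real.sin φ ^ 2 := by gcongr
      have h4 := sq_nonneg (1 - a - md φ / 4)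
      have h5 := sq_nonneg (Real.sin φ)
      nlinarith
    calc 2 * (1 - a) / ((1 - a) ^ 2 + a * Real.sin φ ^ 2) ≤ 2 * (1 - a) / ((1 - a) * md φ / 2) :=
          div_le_div_of_nonneg_left (by linarith) (by positivity) h2
      _ = _ := by field_simp; norm_num
  · rw [hq, max_eq_right h]
    have h2 : (1 - a) ^ 2 ≤ (1 - a) ^ 2 + a * Real.sin φ ^ 2 := by
      have : 0 ≤ a * Real.sin φ ^ 2 := by positivity
      linarith
    calc 2 * (1 - a) / ((1 - a) ^ 2 + a * Real.sin φ ^ 2) ≤ 2 * (1 - a) / (1 - a) ^ 2 :=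
          div_le_div_of_nonneg_left (by linarith) (by positivity) h2
      _ = 2 * (1 / (1 - a)) := by field_simp
      _ ≤ 2 * n := by gcongr
      _ ≤ 4 * (1 / (1 / n)) := by
        rw [one_div_one_div]; linarith

lemma integral_PC {a : ℝ} (ha0 : 0 ≤ a) (ha1 : a < 1) : ∫ t in (-π)..π, PC a t = 0 := by
  have hb : 0 < 1 - a := by linarith
  have hcPC := continuous_PC ha0 ha1
  have hcQ := continuous_QK ha0 ha1
  have key : ∀ N : ℕ, |∫ t in (-π)..π, PC a t| ≤ a ^ N * (3 / (1 - a) ^ 2 * (2 * π)) := by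
    intro N
    have hcG := continuous_Gp ha0 ha1 (0 + N)
    have h1 : ∀ t, PC a t = ∑ i ∈ range N, a ^ (i + 1) * Real.cos ((0 + i + 1 : ℕ) * t) +
        a ^ N * Gp a (0 + N) t := by
      intro t
      rw [geomB ha0 ha1 0 N t]
      have : Gp a 0 t = PC a t := by unfold Gp; simp
      rw [this]; ring
    have h2 : ∫ t in (-π)..π, PC a t = a ^ N * ∫ t in (-π)..π, Gp a (0 + N) t := by
      simp_rw [h1]
      rw [intervalIntegral.integral_add
        (Continuous.intervalIntegrable (by fun_prop) _ _)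
        (Continuous.intervalIntegrable (by fun_prop) _ _), intervalIntegral.integral_const_mul,
        intervalIntegral.integral_finsetSum
        (fun i _ => Continuous.intervalIntegrable (by fun_prop) _ _)]
      have h3 : ∑ i ∈ range N, ∫ t in (-π)..π, a ^ (i + 1) * Real.cos ((0 + i + 1 : ℕ) * t) = 0 := by
        refine Finset.sum_eq_zero fun i _ => ?_
        rw [intervalIntegral.integral_const_mul, intervalIntegral.integral_comp_mul_left
          (fun x => Real.cos x) (by positivity : ((0 + i + 1 : ℕ) : ℝ) ≠ 0), integral_cos]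
        have e1 : ((0 + i + 1 : ℕ) : ℝ) * -π = -(((0 + i + 1 : ℕ) : ℝ) * π) := by ring
        rw [e1, Real.sin_neg, Real.sin_nat_mul_pi]
        simp
      rw [h3, zero_add]
    have h4 : ∀ t ∈ Set.uIoc (-π) π, ‖Gp a (0 + N) t‖ ≤ 3 / (1 - a) ^ 2 := by
      intro t _
      rw [Real.norm_eq_abs]
      unfold Gp
      refine (abs_sub _ _).trans ?_
      rw [abs_mul, abs_mul]
      have h0 : ∀ x, |1 / Del a x| ≤ 1 / (1 - a) ^ 2 := by
        intro x
        have := Del_pos ha0 ha1 x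
        rw [abs_of_pos (by positivity)]
        exact one_div_le_one_div_of_le (by positivity) (Del_ge ha0 x)
      have g1 := Real.abs_cos_le_one ((0 + N : ℕ) * t)
      have g2 := Real.abs_sin_le_one ((0 + N : ℕ) * t)
      have hPC : |PC a t| ≤ 2 / (1 - a) ^ 2 := by
        have h1 : PC a t = (a * Real.cos t - a ^ 2) * (1 / Del a t) := by unfold PC; ring
        rw [h1, abs_mul]
        have h2 : |a * Real.cos t - a ^ 2| ≤ 2 := by
          have := Real.abs_cos_le_one t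
          rw [abs_le] at this ⊢
          constructor <;> nlinarith [this.1, this.2]
        calc _ ≤ 2 * (1 / (1 - a) ^ 2) := mul_le_mul h2 (h0 t) (abs_nonneg _) (by norm_num)
          _ = _ := by ring
      have hQ : |QK a t| ≤ 1 / (1 - a) ^ 2 := by
        have h1 : QK a t = (a * Real.sin t) * (1 / Del a t) := by unfold QK; ring
        rw [h1, abs_mul]
        have h2 : |a * Real.sin t| ≤ 1 := by
          have := Real.abs_sin_le_one t
          rw [abs_le] at this ⊢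
          constructor <;> nlinarith [this.1, this.2]
        calc _ ≤ 1 * (1 / (1 - a) ^ 2) := mul_le_mul h2 (h0 t) (abs_nonneg _) (by norm_num)
          _ = _ := by ring
      calc _ ≤ 1 * (2 / (1 - a) ^ 2) + 1 * (1 / (1 - a) ^ 2) :=
            add_le_add (mul_le_mul g1 hPC (abs_nonneg _) (by norm_num))
              (mul_le_mul g2 hQ (abs_nonneg _) (by norm_num))
        _ = _ := by ring
    have h5 := intervalIntegral.norm_integral_le_of_norm_le_const h4
    have e2 : |π - -π| = 2 * π := by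
      rw [abs_of_pos (by linarith [Real.pi_pos])]; ring
    rw [Real.norm_eq_abs, e2] at h5
    rw [h2, abs_mul, abs_of_nonneg (by positivity : 0 ≤ a ^ N)]
    gcongr
  have hlim : Tendsto (fun N : ℕ => a ^ N * (3 / (1 - a) ^ 2 * (2 * π))) atTop (𝓝 0) := by
    have := (tendsto_pow_atTop_nhds_zero_of_lt_one ha0 ha1).mul_const (3 / (1 - a) ^ 2 * (2 * π))
    rwa [zero_mul] at this
  have h6 : |∫ t in (-π)..π, PC a t| ≤ 0 := ge_of_tendsto' hlim key
  exact abs_nonpos_iff.1 h6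

lemma integral_PK {a : ℝ} (ha0 : 0 ≤ a) (ha1 : a < 1) : ∫ t in (-π)..π, PK a t = 2 * π := by
  have hcPC := continuous_PC ha0 ha1
  have h1 : ∀ t, PK a t = 2 * PC a t + 1 := by
    intro t; rw [PC_eq ha0 ha1]; ring
  simp_rw [h1]
  rw [intervalIntegral.integral_add
    (Continuous.intervalIntegrable (by fun_prop) _ _)
    (Continuous.intervalIntegrable (by fun_prop) _ _), intervalIntegral.integral_const_mul,
    integral_PC ha0 ha1, intervalIntegral.integral_const]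
  simp; ring

lemma integral_PK_shift {a : ℝ} (ha0 : 0 ≤ a) (ha1 : a < 1) (φ : ℝ) :
    ∫ t in (0 : ℝ)..π, PK a (φ + t) ≤ 2 * π := by
  have hcP := continuous_PK ha0 ha1
  rw [intervalIntegral.integral_comp_add_left (fun u => PK a u) φ, add_zero]
  have hper : Function.Periodic (PK a) (2 * π) := by
    intro t; unfold PK; rw [Del_periodic]
  have h1 := hper.intervalIntegral_add_eq (-π) φ
  have e : -π + 2 * π = π := by ring
  rw [e, integral_PK ha0 ha1] at h1
  rw [h1, ← intervalIntegral.integral_add_adjacent_intervals (a := φ) (b := φ + π)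
    (c := φ + 2 * π) (hcP.intervalIntegrable _ _) (hcP.intervalIntegrable _ _)]
  have : 0 ≤ ∫ u in (φ + π)..(φ + 2 * π), PK a u :=
    intervalIntegral.integral_nonneg (by linarith [Real.pi_pos]) fun u _ => PK_nonneg ha0 ha1 u
  linarith

lemma integral_PK_sq_le {a φ s : ℝ} (ha0 : 0 ≤ a) (ha1 : a < 1)
    (hs : ∀ t ∈ Set.Icc 0 π, PK a (φ + t) ≤ s) :
    ∫ t in (0 : ℝ)..π, PK a (φ + t) ^ 2 ≤ s * (2 * π) := by
  have hcP := continuous_PK ha0 ha1
  have hs0 : 0 ≤ s := (PK_nonneg ha0 ha1 _).trans (hs 0 ⟨le_rfl, Real.pi_pos.le⟩)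
  calc ∫ t in (0 : ℝ)..π, PK a (φ + t) ^ 2 ≤ ∫ t in (0 : ℝ)..π, s * PK a (φ + t) := by
        refine intervalIntegral.integral_mono_on Real.pi_pos.le
          (Continuous.intervalIntegrable (by fun_prop) _ _)
          (Continuous.intervalIntegrable (by fun_prop) _ _) fun t ht => ?_
        have h1 := PK_nonneg ha0 ha1 (φ + t)
        have h2 := hs t ht
        nlinarith
    _ = s * ∫ t in (0 : ℝ)..π, PK a (φ + t) := intervalIntegral.integral_const_mul _ _
    _ ≤ _ := by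
        have := integral_PK_shift ha0 ha1 φ
        gcongr

lemma integral_hhd_sq_le {a φ : ℝ} (ha0 : 0 ≤ a) (ha1 : a < 1) (hφ : φ ∈ Set.Icc 0 π) :
    ∫ t in (0 : ℝ)..π, hhd a φ t ^ 2 ≤ 9 * ∫ t in (0 : ℝ)..π, PK a (φ + t) ^ 2 := by
  have hcP := continuous_PK ha0 ha1
  have hch := continuous_hhd ha0 ha1 φ
  rw [← intervalIntegral.integral_const_mul]
  refine intervalIntegral.integral_mono_on Real.pi_pos.le
    (Continuous.intervalIntegrable (by fun_prop) _ _)
    (Continuous.intervalIntegrable (by fun_prop) _ _) fun t ht => ?_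
  have h1 := abs_hhd_le ha0 ha1 hφ ht
  have h2 := abs_nonneg (hhd a φ t)
  rw [← sq_abs]
  calc |hhd a φ t| ^ 2 ≤ (3 * PK a (φ + t)) ^ 2 := by gcongr
    _ = _ := by ring

/-- Bounds for a node away from the end points. -/
lemma hhd_norm_far {a φ δ : ℝ} (ha0 : 1 / 4 ≤ a) (ha1 : a < 1) (hφ : φ ∈ Set.Icc 0 π)
    (hδ : 0 < δ) (hd : δ ≤ md φ) :
    √(∫ t in (0 : ℝ)..π, hhd a φ t ^ 2) ≤ 6 * (32 * (1 - a) / δ ^ 2) := by
  have ha0' : 0 ≤ a := by linarith
  have hb : 0 < 1 - a := by linarith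
  have hcP := continuous_PK ha0' ha1
  set η := 32 * (1 - a) / δ ^ 2 with hη
  have hη0 : 0 ≤ η := by positivity
  rw [Real.sqrt_le_left (by positivity)]
  refine (integral_hhd_sq_le ha0' ha1 hφ).trans ?_
  have h1 : ∫ t in (0 : ℝ)..π, PK a (φ + t) ^ 2 ≤ ∫ t in (0 : ℝ)..π, η ^ 2 := by
    refine intervalIntegral.integral_mono_on Real.pi_pos.le
      (Continuous.intervalIntegrable (by fun_prop) _ _)
      (Continuous.intervalIntegrable (by fun_prop) _ _) fun t ht => ?_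
    have h2 := PK_le_far ha0 ha1 hφ ht hδ hd
    have h3 := PK_nonneg ha0' ha1 (φ + t)
    gcongr
  rw [intervalIntegral.integral_const, smul_eq_mul, sub_zero] at h1
  have := Real.pi_le_four
  have h4 : 0 ≤ η ^ 2 := sq_nonneg _
  nlinarith

/-- Bounds for a node close to the end points. -/
lemma hhd_norm_near (hn : 1 ≤ n) {a φ : ℝ} (ha0 : 1 / 4 ≤ a) (ha1 : a < 1)
    (hna : 1 / (1 - a) ≤ n) (hφ : φ ∈ Set.Icc 0 π) :
    √(∫ t in (0 : ℝ)..π, hhd a φ t ^ 2) ≤ 17 * √(1 / qd n φ) := by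
  have ha0' : 0 ≤ a := by linarith
  have hq := qd_pos hn φ
  have h1 := integral_hhd_sq_le ha0' ha1 hφ
  have h2 := integral_PK_sq_le (φ := φ) (s := 4 * (1 / qd n φ)) ha0' ha1
    (fun t ht => PK_le_q hn ha0 ha1 hna hφ ht)
  have h3 : (17 : ℝ) * √(1 / qd n φ) = √(17 ^ 2 * (1 / qd n φ)) := by
    rw [Real.sqrt_mul (by norm_num), Real.sqrt_sq (by norm_num)]
  rw [h3]
  apply Real.sqrt_le_sqrt
  refine h1.trans ?_
  have h4 : 0 ≤ 1 / qd n φ := by positivity
  have h5 := Real.pi_le_four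
  nlinarith

end Pool.Agent.H79
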