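import Pool.Agent.H79.Near2

/-!
Near part: sum of the reflected terms and equidistribution of the nodes.
-/

open Real MeasureTheory intervalIntegral Finset Filter Topology

namespace Pool.Agent.H79

variable {n : ℕ}

/-- The reflected term. -/
noncomputable def RR (a : ℝ) (θ : Fin n → ℝ) (k : Fin n) : ℝ :=
  ∫ t in (0 : ℝ)..π, E θ k t * (Real.cos (n * (θ k + t)) * PK a (θ k + t)) * Real.sin t

lemma card_Sd_le (hn : 1 ≤ n) (θ : Fin n → ℝ) (hg : Good θ) {δ : ℝ} (hδ : 0 ≤ δ) :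
    ((Sd θ δ).card : ℝ) ≤ n * (8 * δ + 8 / √n) := by
  have h1 := card_Sd θ hg δ hδ
  have hn' : (0 : ℝ) < n := by exact_mod_cast hn
  have h2 : (n : ℝ) * (8 / √n) = 8 * √n := by
    have h3 : √(n : ℝ) * √n = n := Real.mul_self_sqrt hn'.le
    have h4 : √(n : ℝ) ≠ 0 := (Real.sqrt_pos.2 hn').ne'
    field_simp
    rw [sq, h3]
  calc _ ≤ _ := h1
    _ = _ := by rw [mul_add, h2]; ring

lemma not_mem_Sd {θ : Fin n → ℝ} {δ : ℝ} {k : Fin n} (hk : k ∉ Sd θ δ) : δ ≤ md (θ k) := by
  unfold Sd at hk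
  simp only [mem_filter, mem_univ, true_and, not_le] at hk
  exact hk.le

/-- Split a sum according to the distance to the end points. -/
lemma sum_split (θ : Fin n → ℝ) (δ : ℝ) (g : Fin n → ℝ) (A B : ℝ) (hB0 : 0 ≤ B)
    (hA : ∀ k ∈ Sd θ δ, g k ≤ A) (hB : ∀ k, k ∉ Sd θ δ → g k ≤ B) :
    ∑ k, g k ≤ (Sd θ δ).card * A + n * B := by
  classical
  rw [← Finset.sum_add_sum_compl (Sd θ δ)]
  have h1 : ∑ k ∈ Sd θ δ, g k ≤ (Sd θ δ).card * A := by
    rw [← nsmul_eq_mul]; exact Finset.sum_le_card_nsmul _ _ _ hA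
  have h2 : ∑ k ∈ (Sd θ δ)ᶜ, g k ≤ (Sd θ δ)ᶜ.card * B := by
    rw [← nsmul_eq_mul]
    exact Finset.sum_le_card_nsmul _ _ _ fun k hk => hB k (Finset.mem_compl.1 hk)
  have h3 : ((Sd θ δ)ᶜ.card : ℝ) ≤ n := by
    have := Finset.card_le_univ (Sd θ δ)ᶜ
    rw [Fintype.card_fin] at this
    exact_mod_cast this
  have h4 : ((Sd θ δ)ᶜ.card : ℝ) * B ≤ n * B := by gcongr
  linarith

lemma sum_RR_le (hn : 1 ≤ n) (θ : Fin n → ℝ) (hg : Good θ) {a δ K : ℝ} (ha0 : 1 / 4 ≤ a)
    (ha1 : a < 1) (hna : 1 / (1 - a) ≤ n) (hδ : 1 / (n : ℝ) ≤ δ) (hK0 : 0 ≤ K)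
    (hK : ∑ k, ∫ t in (0 : ℝ)..π, ff θ k t ^ 2 * Real.sin t ≤ K / n) :
    |∑ k, RR a θ k| ≤ √K * √(2 * (32 * (1 - a) / δ ^ 2) ^ 2 + 16 * (8 * δ + 8 / √n)) +
      51 * (32 * (1 - a) / δ ^ 2) + 12 * (8 * δ + 8 / √n) + 60928 * √(√δ) := by
  have ha0' : 0 ≤ a := by linarith
  have hb : 0 < 1 - a := by linarith
  have hn' : (0 : ℝ) < n := by exact_mod_cast hn
  have hδ0 : 0 < δ := lt_of_lt_of_le (by positivity) hδ
  have hcP := continuous_PK ha0' ha1
  set η := 32 * (1 - a) / δ ^ 2 with hη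
  have hη0 : 0 ≤ η := by positivity
  set κ := 8 * δ + 8 / √(n : ℝ) with hκ
  have hκ0 : 0 ≤ κ := by positivity
  have hcard : ((Sd θ δ).card : ℝ) ≤ n * κ := card_Sd_le hn θ hg hδ0.le
  -- decomposition
  have hdec : ∀ k, RR a θ k = (∫ t in (0 : ℝ)..π, ff θ k t *
        (Real.cos (n * (θ k + t)) * PK a (θ k + t)) * Real.sin t) +
      (∫ t in (0 : ℝ)..π, D n (θ k - t) * Real.cos (n * (θ k + t)) * hh a (θ k) t) -
      1 / (2 * n) * ∫ t in (0 : ℝ)..π, Real.cos (n * (θ k + t)) ^ 2 * hh a (θ k) t := by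
    intro k
    have hch := continuous_hh ha0' ha1 (θ k)
    unfold RR
    rw [← intervalIntegral.integral_const_mul, ← intervalIntegral.integral_add
      (Continuous.intervalIntegrable (by fun_prop) _ _)
      (Continuous.intervalIntegrable (by fun_prop) _ _), ← intervalIntegral.integral_sub
      (Continuous.intervalIntegrable (by fun_prop) _ _)
      (Continuous.intervalIntegrable (by fun_prop) _ _)]
    refine intervalIntegral.integral_congr fun t _ => ?_
    have : E θ k t = ff θ k t + D n (θ k - t) - 1 / (2 * n) * Real.cos (n * (θ k + t)) := by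
      unfold ff F0; ring
    simp only [this, hh]
    ring
  -- individual bounds
  have hint_hh : ∀ k, ∫ t in (0 : ℝ)..π, |hh a (θ k) t| = ∫ t in (0 : ℝ)..π, hh a (θ k) t := by
    intro k
    refine intervalIntegral.integral_congr fun t ht => ?_
    rw [Set.uIcc_of_le Real.pi_pos.le] at ht
    exact abs_of_nonneg (hh_nonneg ha0' ha1 ht)
  have hh_in : ∀ k ∈ Sd θ δ, ∫ t in (0 : ℝ)..π, hh a (θ k) t ≤ 8 := by
    intro k _
    have hch := continuous_hh ha0' ha1 (θ k)
    calc ∫ t in (0 : ℝ)..π, hh a (θ k) t ≤ ∫ t in (0 : ℝ)..π, (2 : ℝ) :=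
          intervalIntegral.integral_mono_on Real.pi_pos.le
            (Continuous.intervalIntegrable (by fun_prop) _ _)
            (Continuous.intervalIntegrable (by fun_prop) _ _)
            fun t ht => hh_le_two ha0 ha1 (hg.mem k) ht
      _ ≤ 8 := by
        rw [intervalIntegral.integral_const, smul_eq_mul, sub_zero]
        linarith [Real.pi_le_four]
  have hh_out : ∀ k, k ∉ Sd θ δ → ∫ t in (0 : ℝ)..π, hh a (θ k) t ≤ 2 * η := by
    intro k hk
    have hch := continuous_hh ha0' ha1 (θ k)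
    calc ∫ t in (0 : ℝ)..π, hh a (θ k) t ≤ ∫ t in (0 : ℝ)..π, η * Real.sin t := by
          refine intervalIntegral.integral_mono_on Real.pi_pos.le
            (Continuous.intervalIntegrable (by fun_prop) _ _)
            (Continuous.intervalIntegrable (by fun_prop) _ _) fun t ht => ?_
          have h1 := PK_le_far ha0 ha1 (hg.mem k) ht hδ0 (not_mem_Sd hk)
          have h2 := Real.sin_nonneg_of_mem_Icc ht
          unfold hh
          gcongr
      _ = 2 * η := by
        rw [intervalIntegral.integral_const_mul, integral_sin]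
        simp; ring
  have hsq_in : ∀ k ∈ Sd θ δ, ∫ t in (0 : ℝ)..π,
      (Real.cos (n * (θ k + t)) * PK a (θ k + t)) ^ 2 * Real.sin t ≤ 16 := by
    intro k _
    calc ∫ t in (0 : ℝ)..π, (Real.cos (n * (θ k + t)) * PK a (θ k + t)) ^ 2 * Real.sin t ≤
        ∫ t in (0 : ℝ)..π, 2 * PK a (θ k + t) := by
          refine intervalIntegral.integral_mono_on Real.pi_pos.le
            (Continuous.intervalIntegrable (by fun_prop) _ _)
            (Continuous.intervalIntegrable (by fun_prop) _ _) fun t ht => ?_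
          have h1 := hh_le_two ha0 ha1 (hg.mem k) ht
          have h2 := Real.sin_nonneg_of_mem_Icc ht
          have h3 := PK_nonneg ha0' ha1 (θ k + t)
          have h4 := Real.cos_sq_le_one (n * (θ k + t))
          have h5 := sq_nonneg (Real.cos (n * (θ k + t)))
          have h6 : 0 ≤ PK a (θ k + t) * hh a (θ k) t :=
            mul_nonneg h3 (hh_nonneg ha0' ha1 ht)
          calc (Real.cos (n * (θ k + t)) * PK a (θ k + t)) ^ 2 * Real.sin t =
              Real.cos (n * (θ k + t)) ^ 2 * (PK a (θ k + t) * hh a (θ k) t) := by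
                unfold hh; ring
            _ ≤ 1 * (PK a (θ k + t) * hh a (θ k) t) := by gcongr
            _ ≤ 1 * (PK a (θ k + t) * 2) := by gcongr
            _ = _ := by ring
      _ = 2 * ∫ t in (0 : ℝ)..π, PK a (θ k + t) := intervalIntegral.integral_const_mul _ _
      _ ≤ 2 * (2 * π) := by
        have := integral_PK_shift ha0' ha1 (θ k)
        gcongr
      _ ≤ 16 := by linarith [Real.pi_le_four]
  have hsq_out : ∀ k, k ∉ Sd θ δ → ∫ t in (0 : ℝ)..π,
      (Real.cos (n * (θ k + t)) * PK a (θ k + t)) ^ 2 * Real.sin t ≤ 2 * η ^ 2 := by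
    intro k hk
    calc ∫ t in (0 : ℝ)..π, (Real.cos (n * (θ k + t)) * PK a (θ k + t)) ^ 2 * Real.sin t ≤
        ∫ t in (0 : ℝ)..π, η ^ 2 * Real.sin t := by
          refine intervalIntegral.integral_mono_on Real.pi_pos.le
            (Continuous.intervalIntegrable (by fun_prop) _ _)
            (Continuous.intervalIntegrable (by fun_prop) _ _) fun t ht => ?_
          have h1 := PK_le_far ha0 ha1 (hg.mem k) ht hδ0 (not_mem_Sd hk)
          have h2 := Real.sin_nonneg_of_mem_Icc ht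
          have h3 := PK_nonneg ha0' ha1 (θ k + t)
          have h4 := Real.cos_sq_le_one (n * (θ k + t))
          have h5 := sq_nonneg (Real.cos (n * (θ k + t)))
          calc (Real.cos (n * (θ k + t)) * PK a (θ k + t)) ^ 2 * Real.sin t =
              Real.cos (n * (θ k + t)) ^ 2 * (PK a (θ k + t) ^ 2 * Real.sin t) := by ring
            _ ≤ 1 * (η ^ 2 * Real.sin t) := by gcongr
            _ = _ := one_mul _
      _ = 2 * η ^ 2 := by
        rw [intervalIntegral.integral_const_mul, integral_sin]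
        simp; ring
  -- first sum
  have s1 : |∑ k, ∫ t in (0 : ℝ)..π, ff θ k t *
        (Real.cos (n * (θ k + t)) * PK a (θ k + t)) * Real.sin t| ≤
      √K * √(2 * η ^ 2 + 16 * κ) := by
    have h1 := cs_sum univ (fun k => ff θ k) (fun k t => Real.cos (n * (θ k + t)) * PK a (θ k + t))
      (fun k => by fun_prop) (fun k => by fun_prop) Real.sin Real.continuous_sin
      (fun t ht => Real.sin_nonneg_of_mem_Icc ht)
    refine h1.trans ?_
    have h2 := sum_split θ δ (fun k => ∫ t in (0 : ℝ)..π,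
      (Real.cos (n * (θ k + t)) * PK a (θ k + t)) ^ 2 * Real.sin t) 16 (2 * η ^ 2) (by positivity)
      hsq_in hsq_out
    have h3 : ∑ k, ∫ t in (0 : ℝ)..π,
      (Real.cos (n * (θ k + t)) * PK a (θ k + t)) ^ 2 * Real.sin t ≤
        n * (2 * η ^ 2 + 16 * κ) := by
      calc _ ≤ _ := h2
        _ ≤ (n * κ) * 16 + n * (2 * η ^ 2) := by gcongr
        _ = _ := by ring
    calc _ ≤ √(K / n) * √(n * (2 * η ^ 2 + 16 * κ)) := by
          gcongr
      _ = _ := by
        rw [← Real.sqrt_mul (by positivity), ← Real.sqrt_mul hK0]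
        congr 1
        field_simp
  -- second sum
  have s2 : |∑ k, ∫ t in (0 : ℝ)..π, D n (θ k - t) * Real.cos (n * (θ k + t)) * hh a (θ k) t| ≤
      50 * η + 8 * κ + 60928 * √(√δ) := by
    have h1 : ∀ k, |∫ t in (0 : ℝ)..π, D n (θ k - t) * Real.cos (n * (θ k + t)) * hh a (θ k) t| ≤
        (1 / n) * ((∫ t in (0 : ℝ)..π, hh a (θ k) t) + 8 * √(∫ t in (0 : ℝ)..π, hhd a (θ k) t ^ 2)) := by
      intro k
      have := D_mul_cos_integral hn (θ k) (hh a (θ k)) (hhd a (θ k))
        (hasDerivAt_hh ha0' ha1 (θ k)) (continuous_hhd ha0' ha1 (θ k)) (by unfold hh; simp)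
        (by unfold hh; simp)
      rwa [hint_hh k] at this
    have h2 : ∑ k, ((∫ t in (0 : ℝ)..π, hh a (θ k) t) +
        8 * √(∫ t in (0 : ℝ)..π, hhd a (θ k) t ^ 2)) ≤
        n * (50 * η + 8 * κ + 60928 * √(√δ)) := by
      rw [Finset.sum_add_distrib, ← Finset.mul_sum]
      have g1 := sum_split θ δ (fun k => ∫ t in (0 : ℝ)..π, hh a (θ k) t) 8 (2 * η)
        (by positivity) hh_in hh_out
      have g2 : ∑ k, √(∫ t in (0 : ℝ)..π, hhd a (θ k) t ^ 2) ≤
          n * (6 * η) + 17 * (√(√δ) * (448 * n)) := by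
        classical
        rw [← Finset.sum_compl_add_sum (Sd θ δ)]
        have i1 : ∑ k ∈ (Sd θ δ)ᶜ, √(∫ t in (0 : ℝ)..π, hhd a (θ k) t ^ 2) ≤ n * (6 * η) := by
          have i2 : ∑ k ∈ (Sd θ δ)ᶜ, √(∫ t in (0 : ℝ)..π, hhd a (θ k) t ^ 2) ≤
              (Sd θ δ)ᶜ.card * (6 * η) := by
            rw [← nsmul_eq_mul]
            exact Finset.sum_le_card_nsmul _ _ _ fun k hk =>
              hhd_norm_far ha0 ha1 (hg.mem k) hδ0 (not_mem_Sd (Finset.mem_compl.1 hk))
          have i3 : ((Sd θ δ)ᶜ.card : ℝ) ≤ n := by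
            have := Finset.card_le_univ (Sd θ δ)ᶜ
            rw [Fintype.card_fin] at this
            exact_mod_cast this
          calc _ ≤ _ := i2
            _ ≤ _ := by gcongr
        have i4 : ∑ k ∈ Sd θ δ, √(∫ t in (0 : ℝ)..π, hhd a (θ k) t ^ 2) ≤
            17 * (√(√δ) * (448 * n)) := by
          calc ∑ k ∈ Sd θ δ, √(∫ t in (0 : ℝ)..π, hhd a (θ k) t ^ 2) ≤
              ∑ k ∈ Sd θ δ, 17 * √(1 / qd n (θ k)) :=
                Finset.sum_le_sum fun k _ => hhd_norm_near hn ha0 ha1 hna (hg.mem k)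
            _ = 17 * ∑ k ∈ Sd θ δ, √(1 / qd n (θ k)) := by rw [Finset.mul_sum]
            _ ≤ _ := by
              have := sum_r_Sd hn θ hg hδ
              gcongr
        linarith
      calc _ ≤ ((Sd θ δ).card * 8 + n * (2 * η)) +
            8 * (n * (6 * η) + 17 * (√(√δ) * (448 * n))) := by gcongr
        _ ≤ ((n * κ) * 8 + n * (2 * η)) + 8 * (n * (6 * η) + 17 * (√(√δ) * (448 * n))) := by
          gcongr
        _ = _ := by ring
    calc _ ≤ ∑ k, |∫ t in (0 : ℝ)..π,
          D n (θ k - t) * Real.cos (n * (θ k + t)) * hh a (θ k) t| :=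
          Finset.abs_sum_le_sum_abs _ _
      _ ≤ ∑ k, (1 / (n : ℝ)) * ((∫ t in (0 : ℝ)..π, hh a (θ k) t) +
          8 * √(∫ t in (0 : ℝ)..π, hhd a (θ k) t ^ 2)) := Finset.sum_le_sum fun k _ => h1 k
      _ = (1 / (n : ℝ)) * ∑ k, ((∫ t in (0 : ℝ)..π, hh a (θ k) t) +
          8 * √(∫ t in (0 : ℝ)..π, hhd a (θ k) t ^ 2)) := by rw [Finset.mul_sum]
      _ ≤ (1 / (n : ℝ)) * (n * (50 * η + 8 * κ + 60928 * √(√δ))) := by gcongr
      _ = _ := by field_simp
  -- third sum
  have s3 : |1 / (2 * (n : ℝ)) * ∑ k, ∫ t in (0 : ℝ)..π,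
      Real.cos (n * (θ k + t)) ^ 2 * hh a (θ k) t| ≤ η + 4 * κ := by
    have h0 : 0 ≤ ∑ k, ∫ t in (0 : ℝ)..π, Real.cos (n * (θ k + t)) ^ 2 * hh a (θ k) t :=
      Finset.sum_nonneg fun k _ => intervalIntegral.integral_nonneg Real.pi_pos.le fun t ht =>
        mul_nonneg (sq_nonneg _) (hh_nonneg ha0' ha1 ht)
    rw [abs_of_nonneg (mul_nonneg (by positivity) h0)]
    have h1 : ∑ k, ∫ t in (0 : ℝ)..π, Real.cos (n * (θ k + t)) ^ 2 * hh a (θ k) t ≤
        ∑ k, ∫ t in (0 : ℝ)..π, hh a (θ k) t := by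
      refine Finset.sum_le_sum fun k _ => ?_
      have hch := continuous_hh ha0' ha1 (θ k)
      refine intervalIntegral.integral_mono_on Real.pi_pos.le
        (Continuous.intervalIntegrable (by fun_prop) _ _)
        (Continuous.intervalIntegrable (by fun_prop) _ _) fun t ht => ?_
      exact mul_le_of_le_one_left (hh_nonneg ha0' ha1 ht) (Real.cos_sq_le_one _)
    have g1 := sum_split θ δ (fun k => ∫ t in (0 : ℝ)..π, hh a (θ k) t) 8 (2 * η)
      (by positivity) hh_in hh_out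
    calc _ ≤ 1 / (2 * (n : ℝ)) * ((n * κ) * 8 + n * (2 * η)) := by
          have : ∑ k, ∫ t in (0 : ℝ)..π, Real.cos (n * (θ k + t)) ^ 2 * hh a (θ k) t ≤
              (n * κ) * 8 + n * (2 * η) := by
            calc _ ≤ _ := h1
              _ ≤ _ := g1
              _ ≤ _ := by gcongr
          gcongr
      _ = _ := by field_simp; ring
  simp_rw [hdec]
  rw [Finset.sum_sub_distrib, Finset.sum_add_distrib, ← Finset.mul_sum]
  refine (abs_sub _ _).trans ?_
  refine (add_le_add_left (abs_add_le _ _) _).trans ?_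
  linarith

end Pool.Agent.H79
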