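import Pool.Agent.H79.Equi

/-!
The near part.
-/

open Real MeasureTheory intervalIntegral Finset Filter Topology

namespace Pool.Agent.H79

variable {n : ℕ}

/-- The near part of the energy. -/
noncomputable def near (a : ℝ) (θ : Fin n → ℝ) : ℝ :=
  ∑ k, ∫ t in (0 : ℝ)..π, nu a (θ k - t) * E θ k t ^ 2 * Real.sin t

/-- The far part of the energy. -/
noncomputable def far (a : ℝ) (θ : Fin n → ℝ) : ℝ :=
  ∑ k, ∫ t in (0 : ℝ)..π, (1 - nu a (θ k - t)) * E θ k t ^ 2 * Real.sin t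

lemma near_add_far {a : ℝ} (ha0 : 0 ≤ a) (ha1 : a < 1) (θ : Fin n → ℝ) :
    near a θ + far a θ = energy (fun k => Real.cos (θ k)) := by
  have hc := continuous_nu ha0 ha1
  rw [energy_eq]
  unfold near far
  rw [← Finset.sum_add_distrib]
  refine Finset.sum_congr rfl fun k _ => ?_
  rw [← intervalIntegral.integral_add
      (Continuous.intervalIntegrable (by fun_prop) _ _)
      (Continuous.intervalIntegrable (by fun_prop) _ _)]
  refine intervalIntegral.integral_congr fun t _ => ?_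
  ring

lemma continuous_errK {a : ℝ} (ha0 : 0 ≤ a) (ha1 : a < 1) (φ : ℝ) :
    Continuous (errK a n φ) := by
  have := continuous_PK ha0 ha1
  have := continuous_Gp ha0 ha1 (n + n)
  unfold errK
  fun_prop

/-- The sum of the inner products with the weighted kernel. -/
lemma sum_inner_nuD (hn : 1 ≤ n) {a : ℝ} (ha0 : 0 ≤ a) (ha1 : a < 1) (θ : Fin n → ℝ)
    (hx : Function.Injective fun k => Real.cos (θ k)) :
    ∑ k, ∫ t in (0 : ℝ)..π, nu a (θ k - t) * D n (θ k - t) * E θ k t * Real.sin t =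
      (∫ t in (0 : ℝ)..π, Aker a n t t * Real.sin t) + π / (2 * n) * ∑ k, Real.sin (θ k) +
      1 / (2 * n) * (∑ k, RR a θ k) -
      ∑ k, ∫ t in (0 : ℝ)..π, E θ k t * errK a n (θ k) t * Real.sin t := by
  have hc := continuous_nu ha0 ha1
  have hcP := continuous_PK ha0 ha1
  rw [← sum_inner_TK a hn θ hx, Finset.mul_sum, ← Finset.sum_add_distrib,
    ← Finset.sum_sub_distrib]
  refine Finset.sum_congr rfl fun k _ => ?_
  have hce := continuous_errK (n := n) ha0 ha1 (θ k)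
  unfold RR
  rw [← intervalIntegral.integral_const_mul, ← intervalIntegral.integral_add
      (Continuous.intervalIntegrable (by fun_prop) _ _)
      (Continuous.intervalIntegrable (by fun_prop) _ _), ← intervalIntegral.integral_sub
      (Continuous.intervalIntegrable (by fun_prop) _ _)
      (Continuous.intervalIntegrable (by fun_prop) _ _)]
  refine intervalIntegral.integral_congr fun t _ => ?_
  simp only [TK_eq hn ha0 ha1]
  ring

lemma sum_errK_le (hn : 1 ≤ n) {a : ℝ} (ha0 : 0 ≤ a) (ha1 : a < 1) (θ : Fin n → ℝ)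
    (hE : energy (fun k => Real.cos (θ k)) ≤ 3) :
    |∑ k, ∫ t in (0 : ℝ)..π, E θ k t * errK a n (θ k) t * Real.sin t| ≤
      10 * a ^ n / (1 - a) ^ 2 := by
  have hb : 0 < 1 - a := by linarith
  have hn' : (0 : ℝ) < n := by exact_mod_cast hn
  rw [energy_eq] at hE
  have h1 : ∀ k, |∫ t in (0 : ℝ)..π, E θ k t * errK a n (θ k) t * Real.sin t| ≤
      4 / (1 - a) ^ 2 * (a ^ n / n) * (5 / 2) := by
    intro k
    have hE' : ∫ t in (0 : ℝ)..π, E θ k t ^ 2 * Real.sin t ≤ 3 :=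
      (Finset.single_le_sum (f := fun k => ∫ t in (0 : ℝ)..π, E θ k t ^ 2 * Real.sin t)
        (fun k _ => integral_E_nonneg θ k) (mem_univ k)).trans hE
    have hce := continuous_errK (n := n) ha0 ha1 (θ k)
    refine (intervalIntegral.abs_integral_le_integral_abs Real.pi_pos.le).trans ?_
    calc ∫ t in (0 : ℝ)..π, |E θ k t * errK a n (θ k) t * Real.sin t| ≤
        ∫ t in (0 : ℝ)..π, 4 / (1 - a) ^ 2 * (a ^ n / n) *
          ((E θ k t ^ 2 * Real.sin t + Real.sin t) / 2) := by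
          refine intervalIntegral.integral_mono_on Real.pi_pos.le
            (Continuous.intervalIntegrable (by fun_prop) _ _)
            (Continuous.intervalIntegrable (by fun_prop) _ _) fun t ht => ?_
          have hs : 0 ≤ Real.sin t := Real.sin_nonneg_of_mem_Icc ht
          rw [abs_mul, abs_mul, abs_of_nonneg hs]
          have h2 := abs_errK_le hn ha0 ha1 (θ k) t
          have h3 : |E θ k t| ≤ (E θ k t ^ 2 + 1) / 2 := by
            have := sq_nonneg (|E θ k t| - 1)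
            have h4 := sq_abs (E θ k t)
            nlinarith
          calc |E θ k t| * |errK a n (θ k) t| * Real.sin t ≤
              (E θ k t ^ 2 + 1) / 2 * (4 / (1 - a) ^ 2 * (a ^ n / n)) * Real.sin t := by gcongr
            _ = _ := by ring
      _ = 4 / (1 - a) ^ 2 * (a ^ n / n) *
          (((∫ t in (0 : ℝ)..π, E θ k t ^ 2 * Real.sin t) + 2) / 2) := by
          rw [intervalIntegral.integral_const_mul, intervalIntegral.integral_div,
            intervalIntegral.integral_add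
            (Continuous.intervalIntegrable (by fun_prop) _ _)
            (Continuous.intervalIntegrable (by fun_prop) _ _), integral_sin]
          norm_num
      _ ≤ _ := by
          gcongr
          linarith
  calc _ ≤ ∑ k, |∫ t in (0 : ℝ)..π, E θ k t * errK a n (θ k) t * Real.sin t| :=
        Finset.abs_sum_le_sum_abs _ _
    _ ≤ ∑ k : Fin n, 4 / (1 - a) ^ 2 * (a ^ n / n) * (5 / 2) := Finset.sum_le_sum fun k _ => h1 k
    _ = _ := by
      rw [Finset.sum_const, Finset.card_univ, Fintype.card_fin, nsmul_eq_mul]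
      field_simp
      ring

/-- Upper bound for the norm of the weighted kernel. -/
lemma sum_nuDsq_le (hn : 1 ≤ n) (θ : Fin n → ℝ) (hg : Good θ) {a δ : ℝ} (ha0 : 1 / 4 ≤ a)
    (ha1 : a < 1) (hδ : 0 < δ) :
    ∑ k, ∫ t in (0 : ℝ)..π, nu a (θ k - t) * D n (θ k - t) ^ 2 * Real.sin t ≤
      (π / n - 1 / n ^ 2 * (π / 4 * ((1 + a) / (1 - a))) + 15 / (1 - a) ^ 2 * (a ^ n / n)) *
        ∑ k, Real.sin (θ k) + (1 / n) * (1 / 2 * (8 * δ + 8 / √n) + 60 * √(8 * δ + 8 / √n) +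
        64 * (1 - a) ^ 2 / δ ^ 3) := by
  have ha0' : 0 ≤ a := by linarith
  have hb : 0 < 1 - a := by linarith
  have hn' : (0 : ℝ) < n := by exact_mod_cast hn
  have h1 : ∀ k, ∫ t in (0 : ℝ)..π, nu a (θ k - t) * D n (θ k - t) ^ 2 * Real.sin t ≤
      (∫ u in (-π)..π, nu a u * D n u ^ 2) * Real.sin (θ k) + mom a n (θ k) := fun k =>
    weighted_norm_bound (nu a) (continuous_nu ha0' ha1) (nu_neg a) (nu_periodic a)
      (nu_nonneg ha0' ha1) (hg.mem k)
  have h2 := (abs_le.1 (integral_nu_D_sq hn ha0' ha1)).2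
  have hsum0 : 0 ≤ ∑ k, Real.sin (θ k) :=
    Finset.sum_nonneg fun k _ => Real.sin_nonneg_of_mem_Icc (hg.mem k)
  set κ := 8 * δ + 8 / √(n : ℝ) with hκ
  have hκ0 : 0 ≤ κ := by positivity
  have hcard : ((Sd θ δ).card : ℝ) ≤ n * κ := card_Sd_le hn θ hg hδ.le
  have h3 : ∑ k, mom a n (θ k) ≤ (1 / n) * (1 / 2 * κ + 60 * √κ + 64 * (1 - a) ^ 2 / δ ^ 3) := by
    classical
    rw [← Finset.sum_add_sum_compl (Sd θ δ)]
    have g1 : ∑ k ∈ Sd θ δ, mom a n (θ k) ≤ (1 / n ^ 2) * (n * (1 / 2 * κ + 60 * √κ)) := by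
      calc ∑ k ∈ Sd θ δ, mom a n (θ k) ≤ ∑ k ∈ Sd θ δ, (1 / (n : ℝ) ^ 2) * (1 / 2 + L n (θ k)) :=
            Finset.sum_le_sum fun k _ => mom_le hn ha0' ha1 (hg.mem k)
        _ = (1 / (n : ℝ) ^ 2) * ((Sd θ δ).card * (1 / 2) + ∑ k ∈ Sd θ δ, L n (θ k)) := by
            rw [← Finset.mul_sum, Finset.sum_add_distrib, Finset.sum_const, nsmul_eq_mul]
        _ ≤ (1 / (n : ℝ) ^ 2) * ((n * κ) * (1 / 2) + 60 * (√(n * κ) * √n)) := by
            have g2 := sum_L_le hn θ hg (Sd θ δ)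
            have g3 : √((Sd θ δ).card : ℝ) ≤ √(n * κ) := Real.sqrt_le_sqrt hcard
            have g4 : 60 * (√((Sd θ δ).card : ℝ) * √n) ≤ 60 * (√(n * κ) * √n) := by gcongr
            have g5 := g2.trans g4
            gcongr
        _ = _ := by
            have g6 : √(n * κ) * √(n : ℝ) = n * √κ := by
              rw [Real.sqrt_mul hn'.le]
              calc √(n : ℝ) * √κ * √n = (√(n : ℝ) * √n) * √κ := by ring
                _ = _ := by rw [Real.mul_self_sqrt hn'.le]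
            rw [g6]; ring
    have g7 : ∑ k ∈ (Sd θ δ)ᶜ, mom a n (θ k) ≤
        (1 / n ^ 2) * (n * (64 * (1 - a) ^ 2 / δ ^ 3)) := by
      have i1 : ∑ k ∈ (Sd θ δ)ᶜ, mom a n (θ k) ≤
          (Sd θ δ)ᶜ.card * ((1 / (n : ℝ) ^ 2) * (64 * (1 - a) ^ 2 / δ ^ 3)) := by
        rw [← nsmul_eq_mul]
        exact Finset.sum_le_card_nsmul _ _ _ fun k hk =>
          mom_le_far hn ha0 ha1 hδ (hg.mem k) (not_mem_Sd (Finset.mem_compl.1 hk))
      have i3 : ((Sd θ δ)ᶜ.card : ℝ) ≤ n := by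
        have := Finset.card_le_univ (Sd θ δ)ᶜ
        rw [Fintype.card_fin] at this
        exact_mod_cast this
      calc _ ≤ _ := i1
        _ ≤ n * ((1 / (n : ℝ) ^ 2) * (64 * (1 - a) ^ 2 / δ ^ 3)) := by gcongr
        _ = _ := by ring
    have e1 : (1 / (n : ℝ)) * (1 / 2 * κ + 60 * √κ + 64 * (1 - a) ^ 2 / δ ^ 3) =
        (1 / n ^ 2) * (n * (1 / 2 * κ + 60 * √κ)) +
        (1 / n ^ 2) * (n * (64 * (1 - a) ^ 2 / δ ^ 3)) := by
      field_simp
    rw [e1]
    exact add_le_add g1 g7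
  calc _ ≤ ∑ k, ((∫ u in (-π)..π, nu a u * D n u ^ 2) * Real.sin (θ k) + mom a n (θ k)) :=
        Finset.sum_le_sum fun k _ => h1 k
    _ = (∫ u in (-π)..π, nu a u * D n u ^ 2) * ∑ k, Real.sin (θ k) + ∑ k, mom a n (θ k) := by
        rw [Finset.sum_add_distrib, Finset.mul_sum]
    _ ≤ _ := by
        have h4 : (∫ u in (-π)..π, nu a u * D n u ^ 2) ≤
          π / n - 1 / n ^ 2 * (π / 4 * ((1 + a) / (1 - a))) + 15 / (1 - a) ^ 2 * (a ^ n / n) := by
          linarith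
        have h5 := mul_le_mul_of_nonneg_right h4 hsum0
        linarith

lemma near_explicit (hn : 1 ≤ n) (θ : Fin n → ℝ) (hg : Good θ)
    (hE : energy (fun k => Real.cos (θ k)) ≤ 3) {a δ : ℝ} (ha0 : 1 / 4 ≤ a)
    (ha1 : a < 1) (hδ : 0 < δ) :
    2 - (1 / n) * (1 / 2 * ((1 + a) / (1 - a)) +
      1 / 4 * ((1 + a) / (1 - a)) * |π / n * (∑ k, Real.sin (θ k)) - 2| + |∑ k, RR a θ k| +
      35 * (n * a ^ n) / (1 - a) ^ 2 + (1 / 2 * (8 * δ + 8 / √n) + 60 * √(8 * δ + 8 / √n) +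
        64 * (1 - a) ^ 2 / δ ^ 3)) ≤ near a θ := by
  have ha0' : 0 ≤ a := by linarith
  have hb : 0 < 1 - a := by linarith
  have hn' : (0 : ℝ) < n := by exact_mod_cast hn
  have hc := continuous_nu ha0' ha1
  have h1 : 2 * (∑ k, ∫ t in (0 : ℝ)..π, nu a (θ k - t) * D n (θ k - t) * E θ k t * Real.sin t) -
      ∑ k, ∫ t in (0 : ℝ)..π, nu a (θ k - t) * D n (θ k - t) ^ 2 * Real.sin t ≤ near a θ := by
    unfold near
    rw [Finset.mul_sum, ← Finset.sum_sub_distrib]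
    refine Finset.sum_le_sum fun k _ => ?_
    rw [← intervalIntegral.integral_const_mul, ← intervalIntegral.integral_sub
      (Continuous.intervalIntegrable (by fun_prop) _ _)
      (Continuous.intervalIntegrable (by fun_prop) _ _)]
    refine intervalIntegral.integral_mono_on Real.pi_pos.le
      (Continuous.intervalIntegrable (by fun_prop) _ _)
      (Continuous.intervalIntegrable (by fun_prop) _ _) fun t ht => ?_
    have hs := Real.sin_nonneg_of_mem_Icc ht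
    have hnu := nu_nonneg ha0' ha1 (θ k - t)
    have h2 : 0 ≤ nu a (θ k - t) * (E θ k t - D n (θ k - t)) ^ 2 * Real.sin t := by positivity
    nlinarith
  rw [sum_inner_nuD hn ha0' ha1 θ hg.inj] at h1
  have h2 := integral_Aker_diag_ge a ha0' ha1 n hn
  have h3 := (abs_le.1 (sum_errK_le hn ha0' ha1 θ hE)).2
  have h4 := sum_nuDsq_le hn θ hg ha0 ha1 hδ
  have h5 := neg_abs_le (∑ k, RR a θ k)
  set Ss := ∑ k, Real.sin (θ k) with hSs
  have hsum0 : 0 ≤ Ss :=
    Finset.sum_nonneg fun k _ => Real.sin_nonneg_of_mem_Icc (hg.mem k)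
  have hsum1 : Ss ≤ n := by
    calc Ss ≤ ∑ k : Fin n, (1 : ℝ) := Finset.sum_le_sum fun k _ => Real.sin_le_one _
      _ = n := by simp
  have h6 := neg_abs_le (π / n * Ss - 2)
  set X := |∑ k, RR a θ k|
  set Y := |π / n * Ss - 2|
  set Z := 1 / 2 * (8 * δ + 8 / √(n : ℝ)) + 60 * √(8 * δ + 8 / √n) + 64 * (1 - a) ^ 2 / δ ^ 3
  have h7 : 15 / (1 - a) ^ 2 * (a ^ n / n) * Ss ≤ 15 * a ^ n / (1 - a) ^ 2 := by
    calc 15 / (1 - a) ^ 2 * (a ^ n / n) * Ss ≤ 15 / (1 - a) ^ 2 * (a ^ n / n) * n := by gcongr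
      _ = _ := by field_simp
  have h8 : 1 / (n : ℝ) ^ 2 * (π / 4 * ((1 + a) / (1 - a))) * Ss =
      (1 / n) * (1 / 4 * ((1 + a) / (1 - a)) * (π / n * Ss)) := by
    field_simp
  have h9 : (1 / (n : ℝ)) * (1 / 4 * ((1 + a) / (1 - a)) * (2 - Y)) ≤
      (1 / n) * (1 / 4 * ((1 + a) / (1 - a)) * (π / n * Ss)) := by
    gcongr
    linarith
  have h10 : 1 / (2 * (n : ℝ)) * (-X) ≤ 1 / (2 * n) * ∑ k, RR a θ k := by gcongr
  have h11 : 2 * (1 - (1 / (n : ℝ)) * (1 / 2 + a / (1 - a))) =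
      2 - (1 / n) * ((1 + a) / (1 - a)) := by
    field_simp; ring
  have h12 : (1 / (n : ℝ)) * (35 * (n * a ^ n) / (1 - a) ^ 2) = 35 * a ^ n / (1 - a) ^ 2 := by
    field_simp
  have h13 : π / n * Ss = 2 * (π / (2 * n) * Ss) := by ring
  have h14 : 35 * a ^ n / (1 - a) ^ 2 = 2 * (10 * a ^ n / (1 - a) ^ 2) +
      15 * a ^ n / (1 - a) ^ 2 := by ring
  have h15 : (1 / (n : ℝ)) * (1 / 2 * ((1 + a) / (1 - a)) +
      1 / 4 * ((1 + a) / (1 - a)) * Y + X + 35 * (n * a ^ n) / (1 - a) ^ 2 + Z) =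
      (1 / n) * ((1 + a) / (1 - a)) - (1 / n) * (1 / 4 * ((1 + a) / (1 - a)) * (2 - Y)) +
      2 * (1 / (2 * n) * X) + (1 / (n : ℝ)) * (35 * (n * a ^ n) / (1 - a) ^ 2) + (1 / n) * Z := by
    field_simp; ring
  rw [h15, h12, h14]
  have h16 : (π / n - 1 / n ^ 2 * (π / 4 * ((1 + a) / (1 - a))) + 15 / (1 - a) ^ 2 * (a ^ n / n)) *
      Ss = π / n * Ss - 1 / (n : ℝ) ^ 2 * (π / 4 * ((1 + a) / (1 - a))) * Ss +
      15 / (1 - a) ^ 2 * (a ^ n / n) * Ss := by ring
  rw [h16, h8] at h4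
  linarith

/-- Lower bound for the near part. -/
lemma near_ge {K ε : ℝ} (hK0 : 0 ≤ K) (hε : 0 < ε) :
    ∃ a₀ : ℝ, 1 / 4 ≤ a₀ ∧ a₀ < 1 ∧ ∀ a, a₀ < a → a < 1 → ∀ᶠ n : ℕ in atTop,
      ∀ θ : Fin n → ℝ, Good θ → energy (fun k => Real.cos (θ k)) ≤ 3 →
      ∑ k, ∫ t in (0 : ℝ)..π, ff θ k t ^ 2 * Real.sin t ≤ K / n →
      2 - (1 / n) * (1 / 2 * ((1 + a) / (1 - a)) + ε) ≤ near a θ := by
  -- the continuous control function
  set Ψ : ℝ × ℝ × ℝ → ℝ := fun p =>
    (√K * √(2 * p.1 ^ 2 + 16 * (8 * p.2.1 + p.2.2)) + 51 * p.1 + 12 * (8 * p.2.1 + p.2.2) +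
      60928 * √(√p.2.1)) + (1 / 2 * (8 * p.2.1 + p.2.2) + 60 * √(8 * p.2.1 + p.2.2)) with hΨ
  have hΨc : Continuous Ψ := by rw [hΨ]; fun_prop
  have hΨ0 : Ψ (0, 0, 0) = 0 := by simp [hΨ]
  have hev : ∀ᶠ p in 𝓝 ((0, 0, 0) : ℝ × ℝ × ℝ), Ψ p < ε / 4 := by
    have := hΨc.tendsto (0, 0, 0)
    rw [hΨ0] at this
    exact this.eventually (Iio_mem_nhds (by positivity))
  rw [Metric.eventually_nhds_iff] at hev
  obtain ⟨ρ, hρ, hball⟩ := hev
  set δ := ρ / 2 with hδdef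
  have hδ : 0 < δ := by positivity
  -- the condition on `a`
  have ha_ev : ∀ᶠ b in 𝓝 (0 : ℝ), |32 * b / δ ^ 2| < ρ ∧ 64 * b ^ 2 / δ ^ 3 < ε / 4 := by
    have c1 : Continuous fun b : ℝ => |32 * b / δ ^ 2| := by fun_prop
    have c2 : Continuous fun b : ℝ => 64 * b ^ 2 / δ ^ 3 := by fun_prop
    have t1 := c1.tendsto 0
    have t2 := c2.tendsto 0
    simp only [mul_zero, zero_div, abs_zero, ne_eq, OfNat.ofNat_ne_zero, not_false_eq_true,
      zero_pow] at t1 t2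
    exact (t1.eventually (Iio_mem_nhds hρ)).and (t2.eventually (Iio_mem_nhds (by positivity)))
  rw [Metric.eventually_nhds_iff] at ha_ev
  obtain ⟨r, hr, har⟩ := ha_ev
  refine ⟨max (1 / 4) (1 - r), le_max_left _ _, max_lt (by norm_num) (by linarith), ?_⟩
  intro a haa ha1
  have ha0 : 1 / 4 ≤ a := ((le_max_left _ _).trans_lt haa).le
  have har' : 1 - r < a := (le_max_right _ _).trans_lt haa
  have hb : 0 < 1 - a := by linarith
  obtain ⟨hη, hmom⟩ := har (y := 1 - a) (by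
    rw [Real.dist_eq, sub_zero, abs_of_pos hb]; linarith)
  -- the conditions on `n`
  have e1 := equidist (fun _ => 1) continuous_const
    (ε := ε / ((1 + a) / (1 - a))) (by have : 0 < 1 + a := by linarith
                                       positivity)
  have e2 : ∀ᶠ n : ℕ in atTop, 35 * (n * a ^ n) / (1 - a) ^ 2 < ε / 4 := by
    have t1 := tendsto_self_mul_const_pow_of_lt_one (by linarith : 0 ≤ a) ha1
    have t2 := (t1.const_mul 35).div_const ((1 - a) ^ 2)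
    rw [mul_zero, zero_div] at t2
    exact t2.eventually (Iio_mem_nhds (by positivity))
  have e3 : ∀ᶠ n : ℕ in atTop, 8 / √(n : ℝ) < ρ := by
    have h0 : Tendsto (fun n : ℕ => √(n : ℝ)) atTop atTop :=
      Real.tendsto_sqrt_atTop.comp tendsto_natCast_atTop_atTop
    exact (h0.const_div_atTop 8).eventually (Iio_mem_nhds hρ)
  have e4 : ∀ᶠ n : ℕ in atTop, 1 / (n : ℝ) < δ := by
    exact (tendsto_natCast_atTop_atTop.const_div_atTop 1).eventually (Iio_mem_nhds hδ)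
  have e5 : ∀ᶠ n : ℕ in atTop, 1 / (1 - a) ≤ (n : ℝ) :=
    tendsto_natCast_atTop_atTop.eventually_ge_atTop _
  filter_upwards [e1, e2, e3, e4, e5, eventually_ge_atTop 1] with n h1 h2 h3 h4 h5 hn θ hg hE hK
  have hn' : (0 : ℝ) < n := by exact_mod_cast hn
  have hex := near_explicit hn θ hg hE ha0 ha1 hδ
  have hRR := sum_RR_le hn θ hg ha0 ha1 h5 h4.le hK0 hK
  have hσ := h1 θ hg hE
  have hint : ∫ t in (0 : ℝ)..π, (1 : ℝ) * Real.sin t = 2 := by
    simp
    norm_num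
  rw [hint] at hσ
  simp only [one_mul] at hσ
  have hx0 : 0 ≤ 8 / √(n : ℝ) := by positivity
  have hΨn := hball (y := (32 * (1 - a) / δ ^ 2, δ, 8 / √(n : ℝ))) (by
    rw [Prod.dist_eq, Prod.dist_eq]
    simp only [Real.dist_eq, sub_zero]
    refine max_lt hη (max_lt ?_ ?_)
    · rw [abs_of_pos hδ]; linarith
    · rw [abs_of_nonneg hx0]; exact h3)
  simp only [hΨ] at hΨn
  have hq : 0 < (1 + a) / (1 - a) := by
    have : 0 < 1 + a := by linarith
    positivity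
  have hσ2 : 1 / 4 * ((1 + a) / (1 - a)) * |π / n * (∑ k, Real.sin (θ k)) - 2| ≤ ε / 4 := by
    calc _ ≤ 1 / 4 * ((1 + a) / (1 - a)) * (ε / ((1 + a) / (1 - a))) := by gcongr
      _ = _ := by field_simp
  refine le_trans ?_ hex
  have hfin : 1 / 2 * ((1 + a) / (1 - a)) +
      1 / 4 * ((1 + a) / (1 - a)) * |π / n * (∑ k, Real.sin (θ k)) - 2| + |∑ k, RR a θ k| +
      35 * (n * a ^ n) / (1 - a) ^ 2 + (1 / 2 * (8 * δ + 8 / √n) + 60 * √(8 * δ + 8 / √n) +
        64 * (1 - a) ^ 2 / δ ^ 3) ≤ 1 / 2 * ((1 + a) / (1 - a)) + ε := by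
    linarith
  have := mul_le_mul_of_nonneg_left hfin (by positivity : 0 ≤ 1 / (n : ℝ))
  linarith

end Pool.Agent.H79
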