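import Pool.Agent.H79.Sums

/-!
The energy is at least `2 - C / n`, and the Lagrange basis is close to the kernel `F0`.
-/

open Real MeasureTheory intervalIntegral Finset

namespace Pool.Agent.H79

variable {n : ℕ}

/-- The basic trial kernel. -/
noncomputable def F0 (n : ℕ) (φ t : ℝ) : ℝ :=
  D n (φ - t) - 1 / (2 * n) * Real.cos (n * (φ + t))

@[fun_prop]
lemma continuous_F0 (n : ℕ) (φ : ℝ) : Continuous (F0 n φ) := by
  unfold F0; fun_prop

lemma F0_eq (hn : 1 ≤ n) (φ t : ℝ) : Aker 0 n φ t + Bker 0 n φ t = F0 n φ t := by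
  unfold F0 Aker Bker D
  have hn' : (n : ℝ) ≠ 0 := by positivity
  have e1 : ∑ j ∈ range n, (1 - (0 : ℝ) ^ (n - j)) * (Real.cos (j * φ) * Real.cos (j * t)) =
      ∑ j ∈ range n, Real.cos (j * φ) * Real.cos (j * t) := by
    refine Finset.sum_congr rfl fun j hj => ?_
    have := mem_range.1 hj
    rw [zero_pow (by omega)]; ring
  have e2 : ∑ i ∈ range n, (0 : ℝ) ^ (i + 1) * (Real.sin ((n + i + 1 : ℕ) * φ) *
      Real.sin ((n + i + 1 : ℕ) * t)) = 0 := by
    refine Finset.sum_eq_zero fun j hj => ?_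
    rw [zero_pow (by omega)]; ring
  rw [e1, e2, zero_pow (by omega)]
  have e3 : ∑ j ∈ range n, Real.sin ((j + 1 : ℕ) * φ) * Real.sin ((j + 1 : ℕ) * t) =
      ∑ j ∈ range n, Real.sin (j * φ) * Real.sin (j * t) + Real.sin (n * φ) * Real.sin (n * t) := by
    have h1 := Finset.sum_range_succ (fun j : ℕ => Real.sin (j * φ) * Real.sin (j * t)) n
    have h2 := Finset.sum_range_succ' (fun j : ℕ => Real.sin (j * φ) * Real.sin (j * t)) n
    simp only [Nat.cast_zero, zero_mul, Real.sin_zero, add_zero] at h2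
    rw [← h2, h1]
  have e4 : ∑ j ∈ range n, Real.cos (j * (φ - t)) =
      ∑ j ∈ range n, Real.cos (j * φ) * Real.cos (j * t) +
      ∑ j ∈ range n, Real.sin (j * φ) * Real.sin (j * t) := by
    rw [← Finset.sum_add_distrib]
    refine Finset.sum_congr rfl fun j _ => ?_
    rw [mul_sub, Real.cos_sub]
  have e5 : Real.cos (n * (φ - t)) = Real.cos (n * φ) * Real.cos (n * t) +
      Real.sin (n * φ) * Real.sin (n * t) := by rw [mul_sub, Real.cos_sub]
  have e6 : Real.cos (n * (φ + t)) = Real.cos (n * φ) * Real.cos (n * t) -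
      Real.sin (n * φ) * Real.sin (n * t) := by rw [mul_add, Real.cos_add]
  rw [e3, e4, e5, e6]
  generalize ∑ j ∈ range n, Real.sin (j * φ) * Real.sin (j * t) = A
  generalize ∑ j ∈ range n, Real.cos (j * φ) * Real.cos (j * t) = B
  field_simp
  ring

lemma F0_norm (hn : 1 ≤ n) {φ : ℝ} (hφ : φ ∈ Set.Icc 0 π) :
    ∫ t in (0 : ℝ)..π, F0 n φ t ^ 2 * Real.sin t ≤
      π / n * Real.sin φ + (1 / n ^ 2) * (L n φ + 16) := by
  have hn' : (1 : ℝ) ≤ n := by exact_mod_cast hn
  have hsin : 0 ≤ Real.sin φ := Real.sin_nonneg_of_mem_Icc hφ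
  have e1 : ∀ t, F0 n φ t ^ 2 * Real.sin t = (fun _ => (1 : ℝ)) (φ - t) * D n (φ - t) ^ 2 * Real.sin t -
      (1 / n) * (D n (φ - t) * Real.cos (n * (φ + t)) * Real.sin t) +
      (1 / (4 * n ^ 2)) * (Real.cos (n * (φ + t)) ^ 2 * Real.sin t) := by
    intro t; unfold F0
    field_simp
    ring
  simp_rw [e1]
  rw [intervalIntegral.integral_add
    (Continuous.intervalIntegrable (by fun_prop) _ _)
    (Continuous.intervalIntegrable (by fun_prop) _ _),
    intervalIntegral.integral_sub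
    (Continuous.intervalIntegrable (by fun_prop) _ _)
    (Continuous.intervalIntegrable (by fun_prop) _ _),
    intervalIntegral.integral_const_mul, intervalIntegral.integral_const_mul]
  have h1 := weighted_norm_bound (n := n) (fun _ => (1 : ℝ)) (by fun_prop) (fun _ => rfl)
    (fun _ => rfl) (fun _ => zero_le_one) hφ
  have h2 : ∫ u in (-π)..π, (1 : ℝ) * D n u ^ 2 ≤ π / n := by
    simp_rw [one_mul]
    rw [integral_D_sq hn]
    have : π / n ^ 2 * ((n : ℝ) - 1 / 4) = π / n - π / (4 * n ^ 2) := by field_simp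
    rw [this]
    have : 0 ≤ π / (4 * (n : ℝ) ^ 2) := by positivity
    linarith
  set m := min φ (π - φ) with hm
  have hm0 : 0 ≤ m := le_min hφ.1 (by linarith [hφ.2])
  have hm1 : m ≤ π / 2 := by
    rcases le_total φ (π / 2) with h | h
    · exact (min_le_left _ _).trans h
    · exact (min_le_right _ _).trans (by linarith)
  have h3 : |∫ u in (-m)..(π - m), (1 : ℝ) * D n u ^ 2 * u| ≤ (1 / n ^ 2) * (1 / 2 + L n φ) := by
    have h4 := moment_aux hn (fun _ => (1 : ℝ)) (by fun_prop) (fun _ => rfl)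
      (fun _ => zero_le_one) hm0 hm1
    have h5 := moment_bound hn (fun _ => (1 : ℝ)) (by fun_prop)
      (fun _ => zero_le_one) (fun _ => le_rfl) hm0 hm1
    have h6 : 0 ≤ ∫ u in (-m)..(π - m), (1 : ℝ) * D n u ^ 2 * u := by
      rw [← intervalIntegral.integral_add_adjacent_intervals (b := m)
        (Continuous.intervalIntegrable (by fun_prop) _ _)
        (Continuous.intervalIntegrable (by fun_prop) _ _)]
      have h7 : ∫ u in (-m)..m, (1 : ℝ) * D n u ^ 2 * u = 0 := by
        have := intervalIntegral.integral_comp_neg (a := -m) (b := m)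
          (fun u => (1 : ℝ) * D n u ^ 2 * u)
        simp only [D_neg, neg_neg, mul_neg, intervalIntegral.integral_neg] at this
        linarith
      rw [h7, zero_add]
      refine intervalIntegral.integral_nonneg (by linarith) fun u hu => ?_
      have : 0 ≤ u := hm0.trans hu.1
      positivity
    rw [abs_of_nonneg h6]
    exact h4.trans h5
  have h8 : |∫ t in (0 : ℝ)..π, D n (φ - t) * Real.cos (n * (φ + t)) * Real.sin t| ≤
      (1 / n) * 15 := by
    refine (D_mul_cos_integral hn φ Real.sin Real.cos Real.hasDerivAt_sin Real.continuous_cos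
      Real.sin_zero Real.sin_pi).trans ?_
    have i1 : ∫ t in (0 : ℝ)..π, |Real.sin t| = 2 := by
      have : ∫ t in (0 : ℝ)..π, |Real.sin t| = ∫ t in (0 : ℝ)..π, Real.sin t := by
        refine intervalIntegral.integral_congr fun t ht => ?_
        rw [Set.uIcc_of_le Real.pi_pos.le] at ht
        exact abs_of_nonneg (Real.sin_nonneg_of_mem_Icc ht)
      rw [this, integral_sin]
      norm_num
    have i2 : √(∫ t in (0 : ℝ)..π, Real.cos t ^ 2) ≤ 3 / 2 := by
      rw [integral_cos_sq, Real.sqrt_le_left (by norm_num)]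
      simp
      linarith [Real.pi_le_four]
    rw [i1]
    have : (0 : ℝ) ≤ 1 / n := by positivity
    nlinarith
  have h9 : ∫ t in (0 : ℝ)..π, Real.cos (n * (φ + t)) ^ 2 * Real.sin t ≤ 2 := by
    calc ∫ t in (0 : ℝ)..π, Real.cos (n * (φ + t)) ^ 2 * Real.sin t ≤
        ∫ t in (0 : ℝ)..π, Real.sin t := by
          refine intervalIntegral.integral_mono_on Real.pi_pos.le
            (Continuous.intervalIntegrable (by fun_prop) _ _)
            (Continuous.intervalIntegrable (by fun_prop) _ _) fun t ht => ?_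
          have hs : 0 ≤ Real.sin t := Real.sin_nonneg_of_mem_Icc ht
          have hc := Real.cos_sq_le_one (n * (φ + t))
          nlinarith
      _ = 2 := by rw [integral_sin]; norm_num
  have h10 : -((1 / (n : ℝ)) * ∫ t in (0 : ℝ)..π, D n (φ - t) * Real.cos (n * (φ + t)) * Real.sin t) ≤
      (1 / n ^ 2) * 15 := by
    have h11 := neg_le_abs ((1 / (n : ℝ)) *
      ∫ t in (0 : ℝ)..π, D n (φ - t) * Real.cos (n * (φ + t)) * Real.sin t)
    rw [abs_mul, abs_of_pos (by positivity : (0 : ℝ) < 1 / n)] at h11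
    calc _ ≤ _ := h11
      _ ≤ 1 / n * (1 / n * 15) := by gcongr
      _ = _ := by field_simp
  have h12 : 1 / (4 * (n : ℝ) ^ 2) * ∫ t in (0 : ℝ)..π, Real.cos (n * (φ + t)) ^ 2 * Real.sin t ≤
      (1 / n ^ 2) * (1 / 2) := by
    calc _ ≤ 1 / (4 * (n : ℝ) ^ 2) * 2 := by gcongr
      _ = _ := by field_simp; norm_num
  have h13 : (∫ u in (-π)..π, (1 : ℝ) * D n u ^ 2) * Real.sin φ ≤ π / n * Real.sin φ := by gcongr
  have h14 : (1 / (n : ℝ) ^ 2) * (L n φ + 16) = (1 / n ^ 2) * (1 / 2 + L n φ) +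
      (1 / n ^ 2) * 15 + (1 / n ^ 2) * (1 / 2) := by ring
  rw [h14]
  linarith

/-- The error functions. -/
noncomputable def ff (θ : Fin n → ℝ) (k : Fin n) (t : ℝ) : ℝ := E θ k t - F0 n (θ k) t

@[fun_prop]
lemma continuous_ff (θ : Fin n → ℝ) (k : Fin n) : Continuous (ff θ k) := by
  unfold ff; fun_prop

lemma sum_inner_F0 (hn : 1 ≤ n) (θ : Fin n → ℝ)
    (hx : Function.Injective fun k => Real.cos (θ k)) :
    ∑ k, ∫ t in (0 : ℝ)..π, E θ k t * F0 n (θ k) t * Real.sin t =
      (∫ t in (0 : ℝ)..π, Aker 0 n t t * Real.sin t) + π / (2 * n) * ∑ k, Real.sin (θ k) := by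
  have h1 : ∀ k, ∫ t in (0 : ℝ)..π, E θ k t * F0 n (θ k) t * Real.sin t =
      (∫ t in (0 : ℝ)..π, E θ k t * (1 * Aker 0 n (θ k) t) * Real.sin t) +
      π / (2 * n) * Real.sin (θ k) := by
    intro k
    rw [← integral_Bker 0 θ hx k, ← intervalIntegral.integral_add
      (Continuous.intervalIntegrable (by fun_prop) _ _)
      (Continuous.intervalIntegrable (by fun_prop) _ _)]
    refine intervalIntegral.integral_congr fun t _ => ?_
    simp only [← F0_eq hn]
    ring
  simp_rw [h1]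
  rw [Finset.sum_add_distrib, sum_integral_Aker 0 hn θ hx (fun _ => 1) continuous_const,
    ← Finset.mul_sum]
  simp

/-- Main inequality: the sum of the squared errors. -/
lemma sum_ff_le (hn : 1 ≤ n) (θ : Fin n → ℝ)
    (hx : Function.Injective fun k => Real.cos (θ k)) (hθ : ∀ k, θ k ∈ Set.Icc 0 π) :
    ∑ k, ∫ t in (0 : ℝ)..π, ff θ k t ^ 2 * Real.sin t ≤
      energy (fun k => Real.cos (θ k)) - 2 + 1 / n + (1 / n ^ 2) * ∑ k, (L n (θ k) + 16) := by
  have hn' : (1 : ℝ) ≤ n := by exact_mod_cast hn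
  rw [energy_eq]
  have h1 : ∀ k, ∫ t in (0 : ℝ)..π, ff θ k t ^ 2 * Real.sin t =
      (∫ t in (0 : ℝ)..π, E θ k t ^ 2 * Real.sin t) -
      2 * (∫ t in (0 : ℝ)..π, E θ k t * F0 n (θ k) t * Real.sin t) +
      ∫ t in (0 : ℝ)..π, F0 n (θ k) t ^ 2 * Real.sin t := by
    intro k
    rw [← intervalIntegral.integral_const_mul, ← intervalIntegral.integral_sub
      (Continuous.intervalIntegrable (by fun_prop) _ _)
      (Continuous.intervalIntegrable (by fun_prop) _ _), ← intervalIntegral.integral_add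
      (Continuous.intervalIntegrable (by fun_prop) _ _)
      (Continuous.intervalIntegrable (by fun_prop) _ _)]
    refine intervalIntegral.integral_congr fun t _ => ?_
    simp only [ff]
    ring
  simp_rw [h1]
  rw [Finset.sum_add_distrib, Finset.sum_sub_distrib, ← Finset.mul_sum, sum_inner_F0 hn θ hx]
  have h2 := integral_Aker_diag_ge 0 le_rfl one_pos n hn
  have h3 : ∑ k, ∫ t in (0 : ℝ)..π, F0 n (θ k) t ^ 2 * Real.sin t ≤
      π / n * ∑ k, Real.sin (θ k) + (1 / n ^ 2) * ∑ k, (L n (θ k) + 16) := by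
    rw [Finset.mul_sum, Finset.mul_sum, ← Finset.sum_add_distrib]
    exact Finset.sum_le_sum fun k _ => F0_norm hn (hθ k)
  have h4 : 2 * (π / (2 * n) * ∑ k, Real.sin (θ k)) = π / n * ∑ k, Real.sin (θ k) := by
    field_simp
  have h5 : (1 / (n : ℝ)) * (1 / 2 + 0 / (1 - 0)) = (1 / n) / 2 := by ring
  rw [h5] at h2
  linarith

lemma integral_E_nonneg (θ : Fin n → ℝ) (k : Fin n) :
    0 ≤ ∫ t in (0 : ℝ)..π, E θ k t ^ 2 * Real.sin t :=
  intervalIntegral.integral_nonneg Real.pi_pos.le fun t ht => by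
    have := Real.sin_nonneg_of_mem_Icc ht
    positivity

lemma good_of_energy (θ : Fin n → ℝ)
    (hx : Function.Injective fun k => Real.cos (θ k)) (hθ : ∀ k, θ k ∈ Set.Icc 0 π)
    (hE : energy (fun k => Real.cos (θ k)) ≤ 3) : Good θ := by
  refine ⟨hx, hθ, fun k j => abs_sc_le θ k ?_ j⟩
  rw [energy_eq] at hE
  exact (Finset.single_le_sum (f := fun k => ∫ t in (0 : ℝ)..π, E θ k t ^ 2 * Real.sin t)
    (fun k _ => integral_E_nonneg θ k) (mem_univ k)).trans hE

lemma sum_L_univ (hn : 1 ≤ n) (θ : Fin n → ℝ) (hg : Good θ) :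
    ∑ k, (L n (θ k) + 16) ≤ 76 * n := by
  have h1 := sum_L_le hn θ hg univ
  have h2 : √((univ : Finset (Fin n)).card : ℝ) * √n = n := by
    rw [Finset.card_univ, Fintype.card_fin]
    exact Real.mul_self_sqrt (by positivity)
  rw [h2] at h1
  rw [Finset.sum_add_distrib]
  simp only [Finset.sum_const, Finset.card_univ, Fintype.card_fin, nsmul_eq_mul]
  linarith

/-- The errors are small in the mean. -/
lemma sum_ff_le' (hn : 1 ≤ n) (θ : Fin n → ℝ) (hg : Good θ) :
    ∑ k, ∫ t in (0 : ℝ)..π, ff θ k t ^ 2 * Real.sin t ≤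
      energy (fun k => Real.cos (θ k)) - 2 + 77 / n := by
  have hn' : (1 : ℝ) ≤ n := by exact_mod_cast hn
  refine (sum_ff_le hn θ hg.inj hg.mem).trans ?_
  have h1 := sum_L_univ hn θ hg
  have h2 : (1 / (n : ℝ) ^ 2) * ∑ k, (L n (θ k) + 16) ≤ 76 / (n : ℝ) := by
    calc (1 / (n : ℝ) ^ 2) * ∑ k, (L n (θ k) + 16) ≤ (1 / (n : ℝ) ^ 2) * (76 * n) := by gcongr
      _ = (76 : ℝ) / n := by field_simp
  have h3 : (77 : ℝ) / n = 1 / n + 76 / n := by ring
  rw [h3]
  linarith

lemma energy_ge (hn : 1 ≤ n) (θ : Fin n → ℝ)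
    (hx : Function.Injective fun k => Real.cos (θ k)) (hθ : ∀ k, θ k ∈ Set.Icc 0 π) :
    2 - 77 / n ≤ energy (fun k => Real.cos (θ k)) := by
  rcases le_or_gt (energy (fun k => Real.cos (θ k))) 3 with h | h
  · have hg := good_of_energy θ hx hθ h
    have h1 := sum_ff_le' hn θ hg
    have h2 : 0 ≤ ∑ k, ∫ t in (0 : ℝ)..π, ff θ k t ^ 2 * Real.sin t :=
      Finset.sum_nonneg fun k _ => intervalIntegral.integral_nonneg Real.pi_pos.le fun t ht => by
        have := Real.sin_nonneg_of_mem_Icc ht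
        positivity
    linarith
  · have : (0 : ℝ) ≤ 77 / n := by positivity
    linarith

/-- Every node system comes from angles. -/
lemma exists_angles (x : Fin n → ℝ) (hx : Function.Injective x)
    (hx1 : ∀ k, x k ∈ Set.Icc (-1 : ℝ) 1) :
    ∃ θ : Fin n → ℝ, (∀ k, θ k ∈ Set.Icc 0 π) ∧ (fun k => Real.cos (θ k)) = x ∧
      Function.Injective fun k => Real.cos (θ k) := by
  have h : (fun k => Real.cos (Real.arccos (x k))) = x := by
    funext k
    exact Real.cos_arccos (hx1 k).1 (hx1 k).2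
  refine ⟨fun k => Real.arccos (x k), fun k => ⟨Real.arccos_nonneg _, Real.arccos_le_pi _⟩, h, ?_⟩
  rw [h]; exact hx

theorem order_bound (hn : 1 ≤ n) (x : Fin n → ℝ) (hx : Function.Injective x)
    (hx1 : ∀ k, x k ∈ Set.Icc (-1 : ℝ) 1) : 2 - 77 / n ≤ energy x := by
  obtain ⟨θ, h1, h2, h3⟩ := exists_angles x hx hx1
  have := energy_ge hn θ h3 h1
  rwa [h2] at this

end Pool.Agent.H79
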