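import Pool.Agent.H79.Kernel

/-!
Bessel inequality and oscillatory integrals.
-/

open Real MeasureTheory intervalIntegral Finset

namespace Pool.Agent.H79

variable {n : ℕ}

lemma integral_cos_mul_cos (i j : ℕ) :
    ∫ t in (0 : ℝ)..π, Real.cos ((i + 1 : ℕ) * t) * Real.cos ((j + 1 : ℕ) * t) =
      if i = j then π / 2 else 0 := by
  have h1 : ∀ t : ℝ, Real.cos ((i + 1 : ℕ) * t) * Real.cos ((j + 1 : ℕ) * t) =
      (Real.cos (((i : ℤ) - j : ℤ) * t) + Real.cos (((i : ℤ) + j + 2 : ℤ) * t)) / 2 := by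
    intro t
    push_cast
    have e1 : ((i : ℝ) - j) * t = (i + 1) * t - (j + 1) * t := by ring
    have e2 : ((i : ℝ) + j + 2) * t = (i + 1) * t + (j + 1) * t := by ring
    rw [e1, e2, Real.cos_sub, Real.cos_add]; ring
  simp_rw [h1]
  rw [intervalIntegral.integral_div, intervalIntegral.integral_add
    (Continuous.intervalIntegrable (by fun_prop) _ _)
    (Continuous.intervalIntegrable (by fun_prop) _ _)]
  rw [integral_cos_int (m := (i : ℤ) + j + 2) (by omega)]
  split_ifs with h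
  · subst h; simp
  · rw [integral_cos_int (by omega)]; simp

lemma bessel_gen (u : ℕ → ℝ → ℝ) (hu : ∀ m, Continuous (u m))
    (horth : ∀ i j, ∫ t in (0 : ℝ)..π, u i t * u j t = if i = j then π / 2 else 0)
    (g : ℝ → ℝ) (hg : Continuous g) (M : ℕ) :
    ∑ m ∈ range M, (∫ t in (0 : ℝ)..π, g t * u m t) ^ 2 ≤ π / 2 * ∫ t in (0 : ℝ)..π, g t ^ 2 := by
  set I : ℕ → ℝ := fun m => ∫ t in (0 : ℝ)..π, g t * u m t with hI
  have h0 : 0 ≤ ∫ t in (0 : ℝ)..π, (g t - ∑ m ∈ range M, (2 / π * I m) * u m t) ^ 2 :=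
    intervalIntegral.integral_nonneg Real.pi_pos.le fun t _ => sq_nonneg _
  have h1 : ∀ t, (g t - ∑ m ∈ range M, (2 / π * I m) * u m t) ^ 2 =
      g t ^ 2 - ∑ m ∈ range M, (2 * (2 / π * I m)) * (g t * u m t) +
      ∑ i ∈ range M, ∑ j ∈ range M, (2 / π * I i) * (2 / π * I j) * (u i t * u j t) := by
    intro t
    have e1 : ∑ m ∈ range M, (2 * (2 / π * I m)) * (g t * u m t) =
      2 * g t * ∑ m ∈ range M, (2 / π * I m) * u m t := by
      rw [Finset.mul_sum]; exact Finset.sum_congr rfl fun m _ => by ring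
    have e2 : ∑ i ∈ range M, ∑ j ∈ range M, (2 / π * I i) * (2 / π * I j) * (u i t * u j t) =
      (∑ m ∈ range M, (2 / π * I m) * u m t) * (∑ m ∈ range M, (2 / π * I m) * u m t) := by
      rw [Finset.sum_mul_sum]
      exact Finset.sum_congr rfl fun i _ => Finset.sum_congr rfl fun j _ => by ring
    rw [e1, e2]; ring
  simp_rw [h1] at h0
  have hc : ∀ m, IntervalIntegrable (u m) volume 0 π := fun m => (hu m).intervalIntegrable _ _
  rw [intervalIntegral.integral_add
    (Continuous.intervalIntegrable (by fun_prop) _ _)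
    (Continuous.intervalIntegrable (by fun_prop) _ _),
    intervalIntegral.integral_sub
    (Continuous.intervalIntegrable (by fun_prop) _ _)
    (Continuous.intervalIntegrable (by fun_prop) _ _),
    intervalIntegral.integral_finsetSum
      (fun i _ => Continuous.intervalIntegrable (by fun_prop) _ _),
    intervalIntegral.integral_finsetSum
      (fun i _ => Continuous.intervalIntegrable (by fun_prop) _ _)] at h0
  have e3 : ∑ i ∈ range M, ∫ t in (0 : ℝ)..π, ∑ j ∈ range M,
      (2 / π * I i) * (2 / π * I j) * (u i t * u j t) = ∑ i ∈ range M, 2 / π * I i ^ 2 := by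
    refine Finset.sum_congr rfl fun i hi => ?_
    rw [intervalIntegral.integral_finsetSum
      (fun i _ => Continuous.intervalIntegrable (by fun_prop) _ _)]
    simp_rw [intervalIntegral.integral_const_mul, horth, mul_ite, mul_zero]
    rw [Finset.sum_ite_eq (range M) i]
    simp only [hi, if_true]
    have := Real.pi_pos.ne'
    field_simp
  have e4 : ∑ i ∈ range M, ∫ t in (0 : ℝ)..π, (2 * (2 / π * I i)) * (g t * u i t) =
      ∑ i ∈ range M, 4 / π * I i ^ 2 := by
    refine Finset.sum_congr rfl fun i hi => ?_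
    rw [intervalIntegral.integral_const_mul]
    simp only [hI]
    ring
  rw [e3, e4] at h0
  have e5 : ∑ i ∈ range M, 4 / π * I i ^ 2 = 4 / π * ∑ i ∈ range M, I i ^ 2 := by
    rw [Finset.mul_sum]
  have e6 : ∑ i ∈ range M, 2 / π * I i ^ 2 = 2 / π * ∑ i ∈ range M, I i ^ 2 := by
    rw [Finset.mul_sum]
  rw [e5, e6] at h0
  set G := ∫ t in (0 : ℝ)..π, g t ^ 2
  set S := ∑ i ∈ range M, I i ^ 2
  have hpi := Real.pi_pos
  have h7 : 2 / π * S ≤ G := by
    have : 4 / π * S = 2 * (2 / π * S) := by ring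
    rw [this] at h0
    linarith
  have h8 : S = π / 2 * (2 / π * S) := by field_simp
  rw [h8]
  exact mul_le_mul_of_nonneg_left h7 (by positivity)

lemma bessel_sin (g : ℝ → ℝ) (hg : Continuous g) (M : ℕ) :
    ∑ m ∈ range M, (∫ t in (0 : ℝ)..π, g t * Real.sin ((m + 1 : ℕ) * t)) ^ 2 ≤
      π / 2 * ∫ t in (0 : ℝ)..π, g t ^ 2 :=
  bessel_gen (fun m t => Real.sin ((m + 1 : ℕ) * t)) (fun m => by fun_prop)
    integral_sin_mul_sin g hg M

lemma bessel_cos (g : ℝ → ℝ) (hg : Continuous g) (M : ℕ) :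
    ∑ m ∈ range M, (∫ t in (0 : ℝ)..π, g t * Real.cos ((m + 1 : ℕ) * t)) ^ 2 ≤
      π / 2 * ∫ t in (0 : ℝ)..π, g t ^ 2 :=
  bessel_gen (fun m t => Real.cos ((m + 1 : ℕ) * t)) (fun m => by fun_prop)
    integral_cos_mul_cos g hg M

lemma sum_inv_sq_le (M : ℕ) : ∑ m ∈ range M, (1 / ((m : ℝ) + 1)) ^ 2 ≤ 2 := by
  rcases Nat.eq_zero_or_pos M with h | h
  · subst h; simp
  · have key : ∀ M : ℕ, 1 ≤ M → ∑ m ∈ range M, (1 / ((m : ℝ) + 1)) ^ 2 ≤ 2 - 1 / (M : ℝ) := by
      intro M hM
      induction M, hM using Nat.le_induction with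
      | base => simp; norm_num
      | succ m hm ih =>
        rw [Finset.sum_range_succ]
        have hm' : (0 : ℝ) < m := by exact_mod_cast hm
        have h2 : (1 / ((m : ℝ) + 1)) ^ 2 ≤ 1 / m - 1 / ((m : ℝ) + 1) := by
          rw [div_sub_div _ _ hm'.ne' (by positivity), div_pow, div_le_div_iff₀ (by positivity)
            (by positivity)]
          nlinarith
        push_cast
        linarith
    have := key M h
    have h3 : (0 : ℝ) ≤ 1 / M := by positivity
    linarith

/-- Bound for the sum of the oscillatory integrals. -/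
lemma sum_osc (h h' : ℝ → ℝ) (hd : ∀ t, HasDerivAt h (h' t) t) (hc : Continuous h')
    (h0 : h 0 = 0) (hpi : h π = 0) (M : ℕ) :
    ∑ m ∈ range M, (|∫ t in (0 : ℝ)..π, h t * Real.cos ((m + 1 : ℕ) * t)| +
      |∫ t in (0 : ℝ)..π, h t * Real.sin ((m + 1 : ℕ) * t)|) ≤
      4 * √(∫ t in (0 : ℝ)..π, h' t ^ 2) := by
  have hhc : Continuous h := continuous_iff_continuousAt.2 fun t => (hd t).continuousAt
  set G := ∫ t in (0 : ℝ)..π, h' t ^ 2
  have hG : 0 ≤ G := intervalIntegral.integral_nonneg Real.pi_pos.le fun t _ => sq_nonneg _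
  have e1 : ∀ m : ℕ, |∫ t in (0 : ℝ)..π, h t * Real.cos ((m + 1 : ℕ) * t)| =
      (1 / ((m : ℝ) + 1)) * |∫ t in (0 : ℝ)..π, h' t * Real.sin ((m + 1 : ℕ) * t)| := by
    intro m
    have hm : ((m + 1 : ℕ) : ℝ) ≠ 0 := by positivity
    have hv : ∀ t : ℝ, HasDerivAt (fun t : ℝ => Real.sin ((m + 1 : ℕ) * t) / (m + 1 : ℕ))
        (Real.cos ((m + 1 : ℕ) * t)) t := by
      intro t
      have h1 : HasDerivAt (fun t : ℝ => ((m + 1 : ℕ) : ℝ) * t) ((m + 1 : ℕ) : ℝ) t := by
        simpa using ((hasDerivAt_id t).const_mul ((m + 1 : ℕ) : ℝ))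
      have h2 := (h1.sin).div_const ((m + 1 : ℕ) : ℝ)
      rw [mul_div_cancel_right₀ _ hm] at h2
      exact h2
    rw [intervalIntegral.integral_mul_deriv_eq_deriv_mul (fun t _ => hd t) (fun t _ => hv t)
      (hc.intervalIntegrable _ _) (Continuous.intervalIntegrable (by fun_prop) _ _), h0, hpi]
    have : ∀ t : ℝ, h' t * (Real.sin ((m + 1 : ℕ) * t) / (m + 1 : ℕ)) =
        (1 / ((m : ℝ) + 1)) * (h' t * Real.sin ((m + 1 : ℕ) * t)) := by
      intro t; push_cast; ring
    simp_rw [this]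
    rw [intervalIntegral.integral_const_mul, zero_mul, zero_mul, sub_zero, zero_sub, abs_neg,
      abs_mul, abs_of_pos (by positivity : (0 : ℝ) < 1 / ((m : ℝ) + 1))]
  have e2 : ∀ m : ℕ, |∫ t in (0 : ℝ)..π, h t * Real.sin ((m + 1 : ℕ) * t)| =
      (1 / ((m : ℝ) + 1)) * |∫ t in (0 : ℝ)..π, h' t * Real.cos ((m + 1 : ℕ) * t)| := by
    intro m
    have hm : ((m + 1 : ℕ) : ℝ) ≠ 0 := by positivity
    have hv : ∀ t : ℝ, HasDerivAt (fun t : ℝ => -(Real.cos ((m + 1 : ℕ) * t)) / (m + 1 : ℕ))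
        (Real.sin ((m + 1 : ℕ) * t)) t := by
      intro t
      have h1 : HasDerivAt (fun t : ℝ => ((m + 1 : ℕ) : ℝ) * t) ((m + 1 : ℕ) : ℝ) t := by
        simpa using ((hasDerivAt_id t).const_mul ((m + 1 : ℕ) : ℝ))
      have h2 := (h1.cos.neg).div_const ((m + 1 : ℕ) : ℝ)
      have h3 : -(-Real.sin (((m + 1 : ℕ) : ℝ) * t) * ((m + 1 : ℕ) : ℝ)) / ((m + 1 : ℕ) : ℝ) =
          Real.sin (((m + 1 : ℕ) : ℝ) * t) := by
        field_simp
      rw [h3] at h2
      exact h2
    rw [intervalIntegral.integral_mul_deriv_eq_deriv_mul (fun t _ => hd t) (fun t _ => hv t)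
      (hc.intervalIntegrable _ _) (Continuous.intervalIntegrable (by fun_prop) _ _), h0, hpi]
    have : ∀ t : ℝ, h' t * (-(Real.cos ((m + 1 : ℕ) * t)) / (m + 1 : ℕ)) =
        -((1 / ((m : ℝ) + 1)) * (h' t * Real.cos ((m + 1 : ℕ) * t))) := by
      intro t; push_cast; ring
    simp_rw [this]
    rw [intervalIntegral.integral_neg, intervalIntegral.integral_const_mul, zero_mul, zero_mul,
      sub_zero, zero_sub, neg_neg,
      abs_mul, abs_of_pos (by positivity : (0 : ℝ) < 1 / ((m : ℝ) + 1))]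
  simp_rw [e1, e2]
  rw [Finset.sum_add_distrib]
  have hs : √(∑ m ∈ range M, (1 / ((m : ℝ) + 1)) ^ 2) ≤ √2 := Real.sqrt_le_sqrt (sum_inv_sq_le M)
  have hb : ∀ I : ℕ → ℝ, (∑ m ∈ range M, I m ^ 2 ≤ π / 2 * G) →
      ∑ m ∈ range M, (1 / ((m : ℝ) + 1)) * |I m| ≤ 2 * √G := by
    intro I hI
    have h1 := Real.sum_mul_le_sqrt_mul_sqrt (range M) (fun m : ℕ => 1 / ((m : ℝ) + 1))
      (fun m => |I m|)
    have h2 : ∑ m ∈ range M, |I m| ^ 2 ≤ π / 2 * G := by simpa using hI
    refine h1.trans ?_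
    have h3 : √(∑ m ∈ range M, |I m| ^ 2) ≤ √(2 * G) := by
      refine Real.sqrt_le_sqrt (h2.trans ?_)
      have := Real.pi_le_four
      nlinarith
    calc _ ≤ √2 * √(2 * G) := mul_le_mul hs h3 (Real.sqrt_nonneg _) (Real.sqrt_nonneg _)
      _ = 2 * √G := by
        rw [← Real.sqrt_mul (by norm_num), ← mul_assoc, Real.sqrt_mul (by norm_num)]
        have : (2 : ℝ) * 2 = 2 ^ 2 := by norm_num
        rw [this, Real.sqrt_sq (by norm_num)]
  have h3 := hb _ (bessel_sin h' hc M)
  have h4 := hb _ (bessel_cos h' hc M)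
  linarith

/-- Size of an oscillatory integral. -/
noncomputable def J (h : ℝ → ℝ) (m : ℕ) : ℝ :=
  |∫ t in (0 : ℝ)..π, h t * Real.cos (m * t)| + |∫ t in (0 : ℝ)..π, h t * Real.sin (m * t)|

lemma J_nonneg (h : ℝ → ℝ) (m : ℕ) : 0 ≤ J h m := by unfold J; positivity

lemma abs_integral_cos_le (h : ℝ → ℝ) (hh : Continuous h) (m : ℕ) (α : ℝ) :
    |∫ t in (0 : ℝ)..π, h t * Real.cos (m * t + α)| ≤ J h m := by
  have h1 : ∀ t, h t * Real.cos (m * t + α) = Real.cos α * (h t * Real.cos (m * t)) -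
      Real.sin α * (h t * Real.sin (m * t)) := by
    intro t; rw [Real.cos_add]; ring
  simp_rw [h1]
  rw [intervalIntegral.integral_sub
    (Continuous.intervalIntegrable (by fun_prop) _ _)
    (Continuous.intervalIntegrable (by fun_prop) _ _),
    intervalIntegral.integral_const_mul, intervalIntegral.integral_const_mul]
  refine (abs_sub _ _).trans ?_
  rw [abs_mul, abs_mul]
  unfold J
  have h2 := Real.abs_cos_le_one α
  have h3 := Real.abs_sin_le_one α
  gcongr
  · exact mul_le_of_le_one_left (abs_nonneg _) h2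
  · exact mul_le_of_le_one_left (abs_nonneg _) h3

lemma J_zero_le (h : ℝ → ℝ) : J h 0 ≤ ∫ t in (0 : ℝ)..π, |h t| := by
  unfold J
  simp only [Nat.cast_zero, zero_mul, Real.cos_zero, mul_one, Real.sin_zero, mul_zero,
    intervalIntegral.integral_zero, abs_zero, add_zero]
  exact intervalIntegral.abs_integral_le_integral_abs Real.pi_pos.le

/-- The kernel `D (φ - θ) cos (n (φ + θ))` is oscillating. -/
lemma D_mul_cos_integral (hn : 1 ≤ n) (φ : ℝ) (h h' : ℝ → ℝ) (hd : ∀ t, HasDerivAt h (h' t) t)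
    (hc : Continuous h') (h0 : h 0 = 0) (hpi : h π = 0) :
    |∫ t in (0 : ℝ)..π, D n (φ - t) * Real.cos (n * (φ + t)) * h t| ≤
      (1 / n) * ((∫ t in (0 : ℝ)..π, |h t|) + 8 * √(∫ t in (0 : ℝ)..π, h' t ^ 2)) := by
  have hhc : Continuous h := continuous_iff_continuousAt.2 fun t => (hd t).continuousAt
  have hn' : (0 : ℝ) < n := by exact_mod_cast hn
  have e1 : ∀ t, D n (φ - t) * Real.cos (n * (φ + t)) * h t =
      (1 / n) * (∑ j ∈ range n, ((h t * Real.cos ((n - j : ℕ) * t + (n + j) * φ)) / 2 +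
        (h t * Real.cos ((n + j : ℕ) * t + (n - j) * φ)) / 2) -
        (h t * Real.cos (n * t + n * φ)) / 2 +
        ((h t * Real.cos ((0 : ℕ) * t + 2 * n * φ)) / 4 +
        (h t * Real.cos ((n + n : ℕ) * t + 0)) / 4)) := by
    intro t
    unfold D
    have e2 : ∑ j ∈ range n, ((h t * Real.cos ((n - j : ℕ) * t + (n + j) * φ)) / 2 +
        (h t * Real.cos ((n + j : ℕ) * t + (n - j) * φ)) / 2) =
        (∑ j ∈ range n, Real.cos (j * (φ - t))) * (Real.cos (n * (φ + t)) * h t) := by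
      rw [Finset.sum_mul]
      refine Finset.sum_congr rfl fun j hj => ?_
      rw [Nat.cast_sub (mem_range.1 hj).le]
      push_cast
      have a1 : ((n : ℝ) - j) * t + (n + j) * φ = n * (φ + t) + j * (φ - t) := by ring
      have a2 : ((n : ℝ) + j) * t + (n - j) * φ = n * (φ + t) - j * (φ - t) := by ring
      rw [a1, a2, Real.cos_add (n * (φ + t)), Real.cos_sub (n * (φ + t))]
      ring
    rw [e2]
    have a3 : ((0 : ℕ) : ℝ) * t + 2 * n * φ = n * (φ + t) + n * (φ - t) := by push_cast; ring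
    have a4 : ((n + n : ℕ) : ℝ) * t + 0 = n * (φ + t) - n * (φ - t) := by push_cast; ring
    have a5 : (n : ℝ) * t + n * φ = n * (φ + t) := by ring
    rw [a3, a4, a5, Real.cos_add (n * (φ + t)), Real.cos_sub (n * (φ + t))]
    ring
  simp_rw [e1]
  rw [intervalIntegral.integral_const_mul, abs_mul, abs_of_pos (by positivity : (0 : ℝ) < 1 / n)]
  refine mul_le_mul_of_nonneg_left ?_ (by positivity)
  rw [intervalIntegral.integral_add
    (Continuous.intervalIntegrable (by fun_prop) _ _)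
    (Continuous.intervalIntegrable (by fun_prop) _ _),
    intervalIntegral.integral_sub
    (Continuous.intervalIntegrable (by fun_prop) _ _)
    (Continuous.intervalIntegrable (by fun_prop) _ _),
    intervalIntegral.integral_finsetSum
      (fun i _ => Continuous.intervalIntegrable (by fun_prop) _ _)]
  have e3 : ∀ j ∈ range n, |∫ t in (0 : ℝ)..π, ((h t * Real.cos ((n - j : ℕ) * t + (n + j) * φ)) / 2 +
        (h t * Real.cos ((n + j : ℕ) * t + (n - j) * φ)) / 2)| ≤
        J h (n - j) / 2 + J h (n + j) / 2 := by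
    intro j hj
    rw [intervalIntegral.integral_add
      (Continuous.intervalIntegrable (by fun_prop) _ _)
      (Continuous.intervalIntegrable (by fun_prop) _ _), intervalIntegral.integral_div,
      intervalIntegral.integral_div]
    refine (abs_add_le _ _).trans ?_
    rw [abs_div, abs_div, abs_of_pos (by norm_num : (0 : ℝ) < 2)]
    have := abs_integral_cos_le h hhc (n - j) ((n + j) * φ)
    have := abs_integral_cos_le h hhc (n + j) ((n - j) * φ)
    gcongr
  have e4 : |∑ j ∈ range n, ∫ t in (0 : ℝ)..π, ((h t * Real.cos ((n - j : ℕ) * t + (n + j) * φ)) / 2 +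
        (h t * Real.cos ((n + j : ℕ) * t + (n - j) * φ)) / 2)| ≤
        ∑ j ∈ range n, (J h (n - j) / 2 + J h (n + j) / 2) :=
    (Finset.abs_sum_le_sum_abs _ _).trans (Finset.sum_le_sum e3)
  have e5 : |∫ t in (0 : ℝ)..π, (h t * Real.cos (n * t + n * φ)) / 2| ≤ J h n / 2 := by
    rw [intervalIntegral.integral_div, abs_div, abs_of_pos (by norm_num : (0 : ℝ) < 2)]
    have := abs_integral_cos_le h hhc n (n * φ)
    gcongr
  have e6 : |∫ t in (0 : ℝ)..π, ((h t * Real.cos ((0 : ℕ) * t + 2 * n * φ)) / 4 +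
        (h t * Real.cos ((n + n : ℕ) * t + 0)) / 4)| ≤ J h 0 / 4 + J h (n + n) / 4 := by
    rw [intervalIntegral.integral_add
      (Continuous.intervalIntegrable (by fun_prop) _ _)
      (Continuous.intervalIntegrable (by fun_prop) _ _), intervalIntegral.integral_div,
      intervalIntegral.integral_div]
    refine (abs_add_le _ _).trans ?_
    rw [abs_div, abs_div, abs_of_pos (by norm_num : (0 : ℝ) < 4)]
    have := abs_integral_cos_le h hhc 0 (2 * n * φ)
    have := abs_integral_cos_le h hhc (n + n) 0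
    gcongr
  set S := ∑ m ∈ range (n + n), J h (m + 1) with hS
  have hSle : S ≤ 4 * √(∫ t in (0 : ℝ)..π, h' t ^ 2) := sum_osc h h' hd hc h0 hpi (n + n)
  have s1 : ∑ j ∈ range n, J h (n - j) ≤ S := by
    rw [← Finset.sum_range_reflect]
    have : ∑ j ∈ range n, J h (n - (n - 1 - j)) = ∑ j ∈ range n, J h (j + 1) := by
      refine Finset.sum_congr rfl fun j hj => ?_
      have := mem_range.1 hj
      congr 1; omega
    rw [this]
    refine Finset.sum_le_sum_of_subset_of_nonneg ?_ fun _ _ _ => J_nonneg _ _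
    intro x hx
    simp only [mem_range] at *
    omega
  have s2 : ∑ j ∈ range n, J h (n + j) ≤ S := by
    obtain ⟨m, rfl⟩ := Nat.exists_eq_succ_of_ne_zero (by omega : n ≠ 0)
    have h1 : ∑ j ∈ range (m + 1), J h (m + 1 + j) =
        ∑ j ∈ range (m + 1), J h (m + j + 1) :=
      Finset.sum_congr rfl fun j _ => by congr 1; omega
    have h2 : ∑ x ∈ range (m + (m + 1)), J h (x + 1) =
        ∑ x ∈ range m, J h (x + 1) + ∑ j ∈ range (m + 1), J h (m + j + 1) := by
      rw [Finset.sum_range_add]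
    simp only [Nat.succ_eq_add_one] at *
    rw [h1]
    have h3 : ∑ x ∈ range (m + (m + 1)), J h (x + 1) ≤ S := by
      refine Finset.sum_le_sum_of_subset_of_nonneg ?_ fun _ _ _ => J_nonneg _ _
      intro x hx
      simp only [mem_range] at *
      omega
    have h4 : 0 ≤ ∑ x ∈ range m, J h (x + 1) := Finset.sum_nonneg fun _ _ => J_nonneg _ _
    linarith
  have hJ : ∀ m, 1 ≤ m → m ≤ n + n → J h m ≤ S := by
    intro m hm hm2
    have : J h m = J h ((m - 1) + 1) := by congr 1; omega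
    rw [this]
    exact Finset.single_le_sum (f := fun m => J h (m + 1)) (fun _ _ => J_nonneg _ _)
      (mem_range.2 (by omega))
  have s3 := hJ n hn (by omega)
  have s4 := hJ (n + n) (by omega) le_rfl
  have s0 := J_zero_le h
  have s5 : ∑ j ∈ range n, (J h (n - j) / 2 + J h (n + j) / 2) ≤ S := by
    rw [Finset.sum_add_distrib, ← Finset.sum_div, ← Finset.sum_div]
    linarith
  have s6 : (0 : ℝ) ≤ ∫ t in (0 : ℝ)..π, |h t| :=
    intervalIntegral.integral_nonneg Real.pi_pos.le fun t _ => abs_nonneg _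
  have hSn : 0 ≤ S := Finset.sum_nonneg fun _ _ => J_nonneg _ _
  calc _ ≤ ∑ j ∈ range n, (J h (n - j) / 2 + J h (n + j) / 2) + J h n / 2 +
        (J h 0 / 4 + J h (n + n) / 4) :=
        (abs_add_le _ _).trans (add_le_add ((abs_sub _ _).trans (add_le_add e4 e5)) e6)
    _ ≤ _ := by linarith

end Pool.Agent.H79
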