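import Pool.Agent.H79.Order

/-!
The Poisson type weight and the closed form of the trial kernels.
-/

open Real MeasureTheory intervalIntegral Finset

namespace Pool.Agent.H79

variable {n : ℕ}

/-- The denominator of the Poisson kernel. -/
noncomputable def Del (a t : ℝ) : ℝ := 1 - 2 * a * Real.cos t + a ^ 2

/-- The near weight. -/
noncomputable def nu (a t : ℝ) : ℝ := (1 - a) ^ 2 / Del a t

/-- The Poisson kernel. -/
noncomputable def PK (a t : ℝ) : ℝ := (1 - a ^ 2) / Del a t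

/-- The conjugate Poisson kernel. -/
noncomputable def QK (a t : ℝ) : ℝ := a * Real.sin t / Del a t

noncomputable def PC (a t : ℝ) : ℝ := (a * Real.cos t - a ^ 2) / Del a t

noncomputable def ups (a t : ℝ) : ℝ := a / Del a t

noncomputable def Gp (a : ℝ) (m : ℕ) (x : ℝ) : ℝ :=
  Real.cos (m * x) * PC a x - Real.sin (m * x) * QK a x

lemma Del_eq (a t : ℝ) : Del a t = (1 - a) ^ 2 + 4 * a * Real.sin (t / 2) ^ 2 := by
  unfold Del
  have h1 : Real.cos t = 1 - 2 * Real.sin (t / 2) ^ 2 := by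
    have := Real.cos_two_mul (t / 2)
    have h2 := Real.sin_sq_add_cos_sq (t / 2)
    have h3 : 2 * (t / 2) = t := by ring
    rw [h3] at this
    rw [this]; linarith
  rw [h1]; ring

lemma Del_ge {a : ℝ} (ha0 : 0 ≤ a) (t : ℝ) : (1 - a) ^ 2 ≤ Del a t := by
  rw [Del_eq]
  have : 0 ≤ 4 * a * Real.sin (t / 2) ^ 2 := by positivity
  linarith

lemma Del_pos {a : ℝ} (ha0 : 0 ≤ a) (ha1 : a < 1) (t : ℝ) : 0 < Del a t :=
  lt_of_lt_of_le (by have : 0 < 1 - a := by linarith
                     positivity) (Del_ge ha0 t)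

lemma Del_neg (a t : ℝ) : Del a (-t) = Del a t := by unfold Del; rw [Real.cos_neg]

lemma Del_periodic (a : ℝ) : Function.Periodic (Del a) (2 * π) := by
  intro t; unfold Del; rw [Real.cos_add_two_pi]

@[fun_prop]
lemma continuous_Del (a : ℝ) : Continuous (Del a) := by unfold Del; fun_prop

lemma continuous_nu {a : ℝ} (ha0 : 0 ≤ a) (ha1 : a < 1) : Continuous (nu a) :=
  continuous_const.div (continuous_Del a) fun t => (Del_pos ha0 ha1 t).ne'

lemma continuous_PK {a : ℝ} (ha0 : 0 ≤ a) (ha1 : a < 1) : Continuous (PK a) :=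
  continuous_const.div (continuous_Del a) fun t => (Del_pos ha0 ha1 t).ne'

lemma continuous_QK {a : ℝ} (ha0 : 0 ≤ a) (ha1 : a < 1) : Continuous (QK a) :=
  (by fun_prop : Continuous fun t => a * Real.sin t).div (continuous_Del a)
    fun t => (Del_pos ha0 ha1 t).ne'

lemma continuous_PC {a : ℝ} (ha0 : 0 ≤ a) (ha1 : a < 1) : Continuous (PC a) :=
  (by fun_prop : Continuous fun t => a * Real.cos t - a ^ 2).div (continuous_Del a)
    fun t => (Del_pos ha0 ha1 t).ne'

lemma continuous_ups {a : ℝ} (ha0 : 0 ≤ a) (ha1 : a < 1) : Continuous (ups a) :=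
  continuous_const.div (continuous_Del a) fun t => (Del_pos ha0 ha1 t).ne'

lemma continuous_Gp {a : ℝ} (ha0 : 0 ≤ a) (ha1 : a < 1) (m : ℕ) : Continuous (Gp a m) := by
  unfold Gp
  have := continuous_PC ha0 ha1
  have := continuous_QK ha0 ha1
  fun_prop

lemma nu_nonneg {a : ℝ} (ha0 : 0 ≤ a) (ha1 : a < 1) (t : ℝ) : 0 ≤ nu a t := by
  unfold nu; have := Del_pos ha0 ha1 t; positivity

lemma nu_le_one {a : ℝ} (ha0 : 0 ≤ a) (ha1 : a < 1) (t : ℝ) : nu a t ≤ 1 := by
  unfold nu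
  rw [div_le_one (Del_pos ha0 ha1 t)]
  exact Del_ge ha0 t

lemma nu_neg (a t : ℝ) : nu a (-t) = nu a t := by unfold nu; rw [Del_neg]

lemma nu_periodic (a : ℝ) : Function.Periodic (nu a) (2 * π) := by
  intro t; unfold nu; rw [Del_periodic]

lemma one_sub_nu {a : ℝ} (ha0 : 0 ≤ a) (ha1 : a < 1) (t : ℝ) :
    1 - nu a t = 4 * Real.sin (t / 2) ^ 2 * ups a t := by
  unfold nu ups
  have h := (Del_pos ha0 ha1 t).ne'
  field_simp
  rw [Del_eq]; ring

lemma PK_nonneg {a : ℝ} (ha0 : 0 ≤ a) (ha1 : a < 1) (t : ℝ) : 0 ≤ PK a t := by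
  unfold PK
  have := Del_pos ha0 ha1 t
  have : 0 ≤ 1 - a ^ 2 := by nlinarith
  positivity

lemma PC_eq {a : ℝ} (ha0 : 0 ≤ a) (ha1 : a < 1) (t : ℝ) : PC a t = (PK a t - 1) / 2 := by
  unfold PC PK
  have h := (Del_pos ha0 ha1 t).ne'
  field_simp
  unfold Del; ring

lemma rec1 {a : ℝ} (ha0 : 0 ≤ a) (ha1 : a < 1) (t : ℝ) :
    Real.cos t * PC a t + Real.sin t * QK a t = a * PC a t + a := by
  unfold PC QK
  have h := (Del_pos ha0 ha1 t).ne'
  field_simp
  unfold Del
  have h2 := Real.sin_sq_add_cos_sq t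
  linear_combination a * h2

lemma rec2 {a : ℝ} (ha0 : 0 ≤ a) (ha1 : a < 1) (t : ℝ) :
    - Real.sin t * PC a t + Real.cos t * QK a t = a * QK a t := by
  unfold PC QK
  have h := (Del_pos ha0 ha1 t).ne'
  field_simp
  ring

lemma rec3 {a : ℝ} (ha0 : 0 ≤ a) (ha1 : a < 1) (m : ℕ) (x : ℝ) :
    Gp a m x - a * Gp a (m + 1) x = a * Real.cos ((m + 1 : ℕ) * x) := by
  unfold Gp
  push_cast
  have e1 : ((m : ℝ) + 1) * x = m * x + x := by ring
  rw [e1, Real.cos_add, Real.sin_add]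
  have h1 := rec1 ha0 ha1 x
  have h2 := rec2 ha0 ha1 x
  have h3 := Real.sin_sq_add_cos_sq x
  -- solve for PC and QK in terms of the rotated ones
  have h4 : PC a x = a * (Real.cos x * PC a x - Real.sin x * QK a x) + a * Real.cos x := by
    unfold PC QK
    have h := (Del_pos ha0 ha1 x).ne'
    field_simp
    unfold Del
    linear_combination (a ^ 2) * h3
  have h5 : QK a x = a * (Real.sin x * PC a x + Real.cos x * QK a x) + a * Real.sin x := by
    unfold PC QK
    have h := (Del_pos ha0 ha1 x).ne'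
    field_simp
    unfold Del
    ring
  linear_combination (Real.cos (m * x)) * h4 - (Real.sin (m * x)) * h5

lemma geomB {a : ℝ} (ha0 : 0 ≤ a) (ha1 : a < 1) (m N : ℕ) (x : ℝ) :
    ∑ i ∈ range N, a ^ (i + 1) * Real.cos ((m + i + 1 : ℕ) * x) =
      Gp a m x - a ^ N * Gp a (m + N) x := by
  induction N with
  | zero => simp
  | succ N ih =>
    rw [Finset.sum_range_succ, ih]
    have := rec3 ha0 ha1 (m + N) x
    have h2 : m + (N + 1) = m + N + 1 := by ring
    rw [h2, pow_succ]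
    linear_combination (-a ^ N) * this

lemma geomA {a : ℝ} (ha0 : 0 ≤ a) (ha1 : a < 1) (n : ℕ) (x : ℝ) :
    ∑ j ∈ range n, a ^ (n - j) * Real.cos (j * x) =
      a ^ n / 2 + Real.cos (n * x) * PC a x + Real.sin (n * x) * QK a x - a ^ n / 2 * PK a x := by
  induction n with
  | zero =>
    simp
    rw [PC_eq ha0 ha1]; ring
  | succ n ih =>
    rw [Finset.sum_range_succ]
    have h1 : ∑ j ∈ range n, a ^ (n + 1 - j) * Real.cos (j * x) =
        a * ∑ j ∈ range n, a ^ (n - j) * Real.cos (j * x) := by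
      rw [Finset.mul_sum]
      refine Finset.sum_congr rfl fun j hj => ?_
      have : n + 1 - j = (n - j) + 1 := by have := mem_range.1 hj; omega
      rw [this, pow_succ]; ring
    rw [h1, ih]
    have h2 : n + 1 - n = 1 := by omega
    rw [h2, pow_one]
    push_cast
    have e1 : ((n : ℝ) + 1) * x = n * x + x := by ring
    rw [e1, Real.cos_add, Real.sin_add, pow_succ]
    have h3 := rec1 ha0 ha1 x
    have h4 := rec2 ha0 ha1 x
    linear_combination (-Real.cos (n * x)) * h3 - (Real.sin (n * x)) * h4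

/-- The trial kernel. -/
noncomputable def TK (a : ℝ) (n : ℕ) (φ t : ℝ) : ℝ := Aker a n φ t + Bker a n φ t

noncomputable def errK (a : ℝ) (n : ℕ) (φ t : ℝ) : ℝ :=
  a ^ n / n * ((PK a (φ - t) + PK a (φ + t)) / 4 - Gp a (n + n) (φ - t) / 2 +
    Gp a (n + n) (φ + t) / 2)

lemma nu_mul_D (hn : 1 ≤ n) {a : ℝ} (ha0 : 0 ≤ a) (ha1 : a < 1) (t : ℝ) :
    nu a t * D n t = D n t - 1 / n * (Real.sin (n * t) * QK a t) := by
  have hn' : (n : ℝ) ≠ 0 := by positivity
  have h1 := one_sub_nu ha0 ha1 t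
  have h2 := D_closed hn t
  have h3 : (1 - nu a t) * D n t = 1 / n * (Real.sin (n * t) * QK a t) := by
    rw [h1]
    unfold ups QK
    have h := (Del_pos ha0 ha1 t).ne'
    have h4 : Real.sin t = 2 * Real.sin (t / 2) * Real.cos (t / 2) := by
      rw [← Real.sin_two_mul]; congr 1; ring
    rw [h4]
    generalize Real.sin ((n : ℝ) * t) = S at h2 ⊢
    field_simp
    linear_combination (2 * a * Real.sin (t / 2)) * h2
  linear_combination -h3

lemma TK_eq (hn : 1 ≤ n) {a : ℝ} (ha0 : 0 ≤ a) (ha1 : a < 1) (φ t : ℝ) :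
    TK a n φ t = nu a (φ - t) * D n (φ - t) -
      1 / (2 * n) * (Real.cos (n * (φ + t)) * PK a (φ + t)) + errK a n φ t := by
  rw [nu_mul_D hn ha0 ha1]
  have hF := F0_eq hn φ t
  unfold F0 at hF
  have hn' : (n : ℝ) ≠ 0 := by positivity
  have hA : Aker a n φ t = Aker 0 n φ t + 1 / n * (a ^ n / 2 -
      (∑ j ∈ range n, a ^ (n - j) * Real.cos (j * (φ - t)) +
      ∑ j ∈ range n, a ^ (n - j) * Real.cos (j * (φ + t))) / 2) := by
    unfold Aker
    have e1 : ∑ j ∈ range n, (1 - a ^ (n - j)) * (Real.cos (j * φ) * Real.cos (j * t)) =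
        ∑ j ∈ range n, (1 - (0 : ℝ) ^ (n - j)) * (Real.cos (j * φ) * Real.cos (j * t)) -
        (∑ j ∈ range n, a ^ (n - j) * Real.cos (j * (φ - t)) +
        ∑ j ∈ range n, a ^ (n - j) * Real.cos (j * (φ + t))) / 2 := by
      rw [← Finset.sum_add_distrib, Finset.sum_div, ← Finset.sum_sub_distrib]
      refine Finset.sum_congr rfl fun j hj => ?_
      have := mem_range.1 hj
      rw [zero_pow (by omega), mul_sub, mul_add, Real.cos_sub, Real.cos_add]; ring
    rw [e1, zero_pow (by omega)]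
    ring
  have hB : Bker a n φ t = Bker 0 n φ t + 1 / n * (
      (∑ i ∈ range n, a ^ (i + 1) * Real.cos ((n + i + 1 : ℕ) * (φ - t)) -
      ∑ i ∈ range n, a ^ (i + 1) * Real.cos ((n + i + 1 : ℕ) * (φ + t))) / 2) := by
    unfold Bker
    have e1 : ∑ i ∈ range n, a ^ (i + 1) * (Real.sin ((n + i + 1 : ℕ) * φ) *
        Real.sin ((n + i + 1 : ℕ) * t)) = ∑ i ∈ range n, (0 : ℝ) ^ (i + 1) *
        (Real.sin ((n + i + 1 : ℕ) * φ) * Real.sin ((n + i + 1 : ℕ) * t)) +
        (∑ i ∈ range n, a ^ (i + 1) * Real.cos ((n + i + 1 : ℕ) * (φ - t)) -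
        ∑ i ∈ range n, a ^ (i + 1) * Real.cos ((n + i + 1 : ℕ) * (φ + t))) / 2 := by
      rw [← Finset.sum_sub_distrib, Finset.sum_div, ← Finset.sum_add_distrib]
      refine Finset.sum_congr rfl fun j hj => ?_
      rw [zero_pow (by omega), mul_sub, mul_add, Real.cos_sub, Real.cos_add]; ring
    rw [e1]
    ring
  unfold TK errK
  rw [hA, hB, geomA ha0 ha1, geomA ha0 ha1, geomB ha0 ha1, geomB ha0 ha1]
  have hG1 : Gp a n (φ - t) = Real.cos (n * (φ - t)) * PC a (φ - t) -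
    Real.sin (n * (φ - t)) * QK a (φ - t) := rfl
  have hG2 : Gp a n (φ + t) = Real.cos (n * (φ + t)) * PC a (φ + t) -
    Real.sin (n * (φ + t)) * QK a (φ + t) := rfl
  have hPC : PC a (φ + t) = (PK a (φ + t) - 1) / 2 := PC_eq ha0 ha1 _
  rw [hG1, hG2, hPC]
  linear_combination hF

lemma abs_errK_le (hn : 1 ≤ n) {a : ℝ} (ha0 : 0 ≤ a) (ha1 : a < 1) (φ t : ℝ) :
    |errK a n φ t| ≤ 4 / (1 - a) ^ 2 * (a ^ n / n) := by
  have hb : 0 < 1 - a := by linarith
  have hn' : (0 : ℝ) < n := by exact_mod_cast hn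
  have h0 : ∀ x, |1 / Del a x| ≤ 1 / (1 - a) ^ 2 := by
    intro x
    have := Del_pos ha0 ha1 x
    rw [abs_of_pos (by positivity)]
    exact one_div_le_one_div_of_le (by positivity) (Del_ge ha0 x)
  have hP : ∀ x, |PK a x| ≤ 1 / (1 - a) ^ 2 := by
    intro x
    have h1 : PK a x = (1 - a ^ 2) * (1 / Del a x) := by unfold PK; ring
    rw [h1, abs_mul]
    have h2 : |1 - a ^ 2| ≤ 1 := by rw [abs_le]; constructor <;> nlinarith
    calc _ ≤ 1 * (1 / (1 - a) ^ 2) := mul_le_mul h2 (h0 x) (abs_nonneg _) (by norm_num)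
      _ = _ := one_mul _
  have hPC : ∀ x, |PC a x| ≤ 2 / (1 - a) ^ 2 := by
    intro x
    have h1 : PC a x = (a * Real.cos x - a ^ 2) * (1 / Del a x) := by unfold PC; ring
    rw [h1, abs_mul]
    have h2 : |a * Real.cos x - a ^ 2| ≤ 2 := by
      have := Real.abs_cos_le_one x
      rw [abs_le] at this ⊢
      constructor <;> nlinarith [this.1, this.2]
    calc _ ≤ 2 * (1 / (1 - a) ^ 2) := mul_le_mul h2 (h0 x) (abs_nonneg _) (by norm_num)
      _ = _ := by ring
  have hQ : ∀ x, |QK a x| ≤ 1 / (1 - a) ^ 2 := by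
    intro x
    have h1 : QK a x = (a * Real.sin x) * (1 / Del a x) := by unfold QK; ring
    rw [h1, abs_mul]
    have h2 : |a * Real.sin x| ≤ 1 := by
      have := Real.abs_sin_le_one x
      rw [abs_le] at this ⊢
      constructor <;> nlinarith [this.1, this.2]
    calc _ ≤ 1 * (1 / (1 - a) ^ 2) := mul_le_mul h2 (h0 x) (abs_nonneg _) (by norm_num)
      _ = _ := by ring
  have hG : ∀ m x, |Gp a m x| ≤ 3 / (1 - a) ^ 2 := by
    intro m x
    unfold Gp
    refine (abs_sub _ _).trans ?_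
    rw [abs_mul, abs_mul]
    have h1 := Real.abs_cos_le_one (m * x)
    have h2 := Real.abs_sin_le_one (m * x)
    calc _ ≤ 1 * (2 / (1 - a) ^ 2) + 1 * (1 / (1 - a) ^ 2) :=
          add_le_add (mul_le_mul h1 (hPC x) (abs_nonneg _) (by norm_num))
            (mul_le_mul h2 (hQ x) (abs_nonneg _) (by norm_num))
      _ = _ := by ring
  unfold errK
  rw [abs_mul, abs_of_nonneg (by positivity : 0 ≤ a ^ n / (n : ℝ)), mul_comm]
  refine mul_le_mul_of_nonneg_right ?_ (by positivity)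
  have h1 := hP (φ - t)
  have h2 := hP (φ + t)
  have h3 := hG (n + n) (φ - t)
  have h4 := hG (n + n) (φ + t)
  rw [abs_le] at *
  have e1 : 4 / (1 - a) ^ 2 = 4 * (1 / (1 - a) ^ 2) := by ring
  have e2 : 3 / (1 - a) ^ 2 = 3 * (1 / (1 - a) ^ 2) := by ring
  rw [e1]
  rw [e2] at h3 h4
  have h5 : 0 ≤ 1 / (1 - a) ^ 2 := by positivity
  constructor <;> linarith [h1.1, h1.2, h2.1, h2.2, h3.1, h3.2, h4.1, h4.2]

end Pool.Agent.H79
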