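import Pool.Agent.H79.Cluster

/-!
Sums over the nodes of functions which are singular at the end points.
-/

open Real MeasureTheory intervalIntegral Finset

namespace Pool.Agent.H79

variable {n : ℕ}

/-- Distance to the end points, cut off at `1 / n`. -/
noncomputable def qd (n : ℕ) (φ : ℝ) : ℝ := max (min φ (π - φ)) (1 / n)

lemma L_eq (n : ℕ) (φ : ℝ) : L n φ = Real.log (π / qd n φ) := rfl

lemma qd_pos (hn : 1 ≤ n) (φ : ℝ) : 0 < qd n φ :=
  lt_of_lt_of_le (by positivity) (le_max_right _ _)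

lemma qd_le (hn : 1 ≤ n) {φ : ℝ} (hφ : φ ∈ Set.Icc 0 π) : qd n φ ≤ 4 := by
  have hn' : (1 : ℝ) ≤ n := by exact_mod_cast hn
  refine max_le ((min_le_left _ _).trans (hφ.2.trans Real.pi_le_four)) ?_
  have : 1 / (n : ℝ) ≤ 1 := by rw [div_le_one (by positivity)]; exact hn'
  linarith

/-- The hypotheses on the nodes used throughout. -/
structure Good (θ : Fin n → ℝ) : Prop where
  inj : Function.Injective fun k => Real.cos (θ k)
  mem : ∀ k, θ k ∈ Set.Icc 0 π
  sc_le : ∀ k j, |sc θ k j| ≤ 2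

lemma count_min (θ : Fin n → ℝ) (hg : Good θ) (t : ℝ) (ht : 0 ≤ t) :
    ((univ.filter fun k => min (θ k) (π - θ k) ≤ t).card : ℝ) ≤ 8 * n * t + 8 * √n := by
  have h1 := cluster θ hg.inj hg.sc_le θ (Or.inl fun _ => rfl) (fun k => (hg.mem k).1) t ht
  have h2 := cluster θ hg.inj hg.sc_le (fun k => π - θ k) (Or.inr fun _ => rfl)
    (fun k => by have := (hg.mem k).2; linarith) t ht
  have h3 : (univ.filter fun k => min (θ k) (π - θ k) ≤ t) ⊆
      (univ.filter fun k => θ k ≤ t) ∪ (univ.filter fun k => π - θ k ≤ t) := by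
    intro k hk
    simp only [mem_filter, mem_univ, true_and, mem_union, min_le_iff] at *
    exact hk
  have h4 := (Finset.card_le_card h3).trans (Finset.card_union_le _ _)
  have h5 : ((univ.filter fun k => min (θ k) (π - θ k) ≤ t).card : ℝ) ≤
      ((univ.filter fun k => θ k ≤ t).card : ℝ) + ((univ.filter fun k => π - θ k ≤ t).card : ℝ) := by
    exact_mod_cast h4
  linarith

lemma sum_r_le (hn : 1 ≤ n) (θ : Fin n → ℝ) (hg : Good θ) :
    ∑ k, √(1 / qd n (θ k)) ≤ 96 * n := by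
  have hn' : (1 : ℝ) ≤ n := by exact_mod_cast hn
  set I := Nat.log 4 (4 * n) with hI
  have hI1 : 4 ^ I ≤ 4 * n := Nat.pow_log_le_self 4 (by omega)
  have hI2 : 4 * n < 4 ^ (I + 1) := Nat.lt_pow_succ_log_self (by norm_num) _
  have key : ∀ k, √(1 / qd n (θ k)) ≤
      ∑ i ∈ range (I + 1), if min (θ k) (π - θ k) ≤ 4 / 4 ^ i then (2 : ℝ) ^ i else 0 := by
    intro k
    set q := qd n (θ k) with hq
    have hqpos : 0 < q := qd_pos hn _
    have hq4 : q ≤ 4 := qd_le hn (hg.mem k)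
    have hqn : 1 / (n : ℝ) ≤ q := le_max_right _ _
    have hex : ∃ j, 4 / (4 : ℝ) ^ j < q := by
      refine ⟨I + 1, lt_of_lt_of_le ?_ hqn⟩
      rw [div_lt_div_iff₀ (by positivity) (by positivity), one_mul]
      exact_mod_cast hI2
    classical
    set j := Nat.find hex with hj
    have hj1 : 4 / (4 : ℝ) ^ j < q := Nat.find_spec hex
    have hj0 : j ≠ 0 := by
      intro h
      rw [h] at hj1
      norm_num at hj1
      linarith
    have hjI : j ≤ I + 1 := by
      refine Nat.find_min' hex (lt_of_lt_of_le ?_ hqn)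
      rw [div_lt_div_iff₀ (by positivity) (by positivity), one_mul]
      exact_mod_cast hI2
    obtain ⟨i, hi⟩ := Nat.exists_eq_succ_of_ne_zero hj0
    have hi1 : q ≤ 4 / 4 ^ i := by
      have := Nat.find_min hex (m := i) (by omega)
      exact not_lt.1 this
    have hsingle : (2 : ℝ) ^ i ≤ ∑ i ∈ range (I + 1),
        if min (θ k) (π - θ k) ≤ 4 / 4 ^ i then (2 : ℝ) ^ i else 0 := by
      have h1 : (2 : ℝ) ^ i = if min (θ k) (π - θ k) ≤ 4 / 4 ^ i then (2 : ℝ) ^ i else 0 := by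
        rw [if_pos]
        exact (le_max_left _ _).trans hi1
      rw [h1]
      refine Finset.single_le_sum (f := fun i => if min (θ k) (π - θ k) ≤ 4 / 4 ^ i then
        (2 : ℝ) ^ i else 0) (fun i _ => ?_) (mem_range.2 (by omega))
      split_ifs <;> positivity
    refine le_trans ?_ hsingle
    rw [Real.sqrt_le_left (by positivity)]
    rw [hi] at hj1
    rw [div_le_iff₀ hqpos]
    have h2 : (4 : ℝ) / 4 ^ (i + 1) = 1 / 4 ^ i := by rw [pow_succ]; field_simp
    rw [Nat.succ_eq_add_one, h2] at hj1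
    have h3 : ((2 : ℝ) ^ i) ^ 2 = 4 ^ i := by
      rw [← pow_mul, mul_comm, pow_mul]; norm_num
    rw [h3]
    have h4 : (4 : ℝ) ^ i * (1 / 4 ^ i) ≤ 4 ^ i * q := by gcongr
    have h5 : (4 : ℝ) ^ i * (1 / 4 ^ i) = 1 := by field_simp
    linarith
  calc ∑ k, √(1 / qd n (θ k)) ≤ ∑ k, ∑ i ∈ range (I + 1),
        (if min (θ k) (π - θ k) ≤ 4 / 4 ^ i then (2 : ℝ) ^ i else 0) :=
        Finset.sum_le_sum fun k _ => key k
    _ = ∑ i ∈ range (I + 1), 2 ^ i *
        ((univ.filter fun k => min (θ k) (π - θ k) ≤ 4 / 4 ^ i).card : ℝ) := by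
        rw [Finset.sum_comm]
        refine Finset.sum_congr rfl fun i _ => ?_
        rw [← Finset.sum_filter, Finset.sum_const, nsmul_eq_mul, mul_comm]
    _ ≤ ∑ i ∈ range (I + 1), 2 ^ i * (8 * n * (4 / 4 ^ i) + 8 * √n) := by
        refine Finset.sum_le_sum fun i _ => ?_
        have := count_min θ hg (4 / 4 ^ i) (by positivity)
        gcongr
    _ = 32 * n * ∑ i ∈ range (I + 1), (1 / 2 : ℝ) ^ i +
        8 * √n * ∑ i ∈ range (I + 1), (2 : ℝ) ^ i := by
        rw [Finset.mul_sum, Finset.mul_sum, ← Finset.sum_add_distrib]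
        refine Finset.sum_congr rfl fun i _ => ?_
        have h4 : (4 : ℝ) ^ i = 2 ^ i * 2 ^ i := by rw [← mul_pow]; norm_num
        rw [h4, one_div, inv_pow]
        field_simp
        ring
    _ ≤ 32 * n * 2 + 8 * √n * (2 * (2 * √n)) := by
        have h1 : ∑ i ∈ range (I + 1), (1 / 2 : ℝ) ^ i ≤ 2 := by
          have := geom_sum_mul_neg (1 / 2 : ℝ) (I + 1)
          have h3 : (0 : ℝ) ≤ (1 / 2) ^ (I + 1) := by positivity
          linarith
        have h2 : ∑ i ∈ range (I + 1), (2 : ℝ) ^ i ≤ 2 * (2 * √n) := by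
          have h3 := geom_sum_mul (2 : ℝ) (I + 1)
          have h4 : (2 : ℝ) ^ I ≤ 2 * √n := by
            have h5 : (2 : ℝ) ^ I = √((4 : ℝ) ^ I) := by
              have : (4 : ℝ) ^ I = (2 ^ I) ^ 2 := by rw [← pow_mul, mul_comm, pow_mul]; norm_num
              rw [this, Real.sqrt_sq (by positivity)]
            have h6 : (2 : ℝ) * √n = √(4 * n) := by
              rw [Real.sqrt_mul (by norm_num)]
              congr 1
              rw [show (4 : ℝ) = 2 ^ 2 by norm_num, Real.sqrt_sq (by norm_num)]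
            rw [h5, h6]
            exact Real.sqrt_le_sqrt (by exact_mod_cast hI1)
          have h7 : (2 : ℝ) ^ (I + 1) = 2 * 2 ^ I := by rw [pow_succ]; ring
          rw [h7] at h3
          linarith
        gcongr
    _ = 96 * n := by
        have : √(n : ℝ) * √n = n := Real.mul_self_sqrt (by positivity)
        calc 32 * (n : ℝ) * 2 + 8 * √n * (2 * (2 * √n)) = 64 * n + 32 * (√n * √n) := by ring
          _ = 96 * n := by rw [this]; ring

lemma L_nonneg (hn : 1 ≤ n) {φ : ℝ} (hφ : φ ∈ Set.Icc 0 π) : 0 ≤ L n φ := by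
  rw [L_eq]
  apply Real.log_nonneg
  rw [le_div_iff₀ (qd_pos hn φ), one_mul]
  have hn' : (1 : ℝ) ≤ n := by exact_mod_cast hn
  refine max_le ((min_le_left _ _).trans hφ.2) ?_
  have : 1 / (n : ℝ) ≤ 1 := by rw [div_le_one (by positivity)]; exact hn'
  linarith [Real.pi_gt_three]

lemma L_le (hn : 1 ≤ n) (φ : ℝ) : L n φ ≤ 6 * √(√(1 / qd n φ)) := by
  have hq := qd_pos hn φ
  rw [L_eq]
  have hx : 0 < π / qd n φ := by positivity
  have h1 : Real.log (π / qd n φ) = 2 * Real.log (√(π / qd n φ)) := by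
    rw [Real.log_sqrt hx.le]; ring
  have h2 := log_le_two_sqrt (Real.sqrt_pos.2 hx)
  have h3 : √(√(π / qd n φ)) ≤ 3 / 2 * √(√(1 / qd n φ)) := by
    have h4 : √(π / qd n φ) ≤ 2 * √(1 / qd n φ) := by
      rw [div_eq_mul_one_div, Real.sqrt_mul Real.pi_pos.le]
      gcongr
      rw [Real.sqrt_le_left (by norm_num)]
      have := Real.pi_le_four
      linarith
    calc √(√(π / qd n φ)) ≤ √(2 * √(1 / qd n φ)) := Real.sqrt_le_sqrt h4
      _ = √2 * √(√(1 / qd n φ)) := Real.sqrt_mul (by norm_num) _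
      _ ≤ _ := by
        gcongr
        rw [Real.sqrt_le_left (by norm_num)]
        norm_num
  linarith

lemma sum_sqrt_r_le (hn : 1 ≤ n) (θ : Fin n → ℝ) (hg : Good θ) (S : Finset (Fin n)) :
    ∑ k ∈ S, √(√(1 / qd n (θ k))) ≤ √(S.card) * √(96 * n) := by
  have h1 := Real.sum_mul_le_sqrt_mul_sqrt S (fun _ => (1 : ℝ)) (fun k => √(√(1 / qd n (θ k))))
  simp only [one_mul, one_pow, Finset.sum_const, nsmul_eq_mul, mul_one] at h1
  refine h1.trans ?_
  gcongr
  have h2 : ∀ k, √(√(1 / qd n (θ k))) ^ 2 = √(1 / qd n (θ k)) :=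
    fun k => Real.sq_sqrt (Real.sqrt_nonneg _)
  simp_rw [h2]
  calc ∑ k ∈ S, √(1 / qd n (θ k)) ≤ ∑ k, √(1 / qd n (θ k)) :=
        Finset.sum_le_sum_of_subset_of_nonneg (Finset.subset_univ _) fun _ _ _ => Real.sqrt_nonneg _
    _ ≤ _ := sum_r_le hn θ hg

lemma sum_L_le (hn : 1 ≤ n) (θ : Fin n → ℝ) (hg : Good θ) (S : Finset (Fin n)) :
    ∑ k ∈ S, L n (θ k) ≤ 60 * (√(S.card) * √n) := by
  have h1 : ∑ k ∈ S, L n (θ k) ≤ 6 * ∑ k ∈ S, √(√(1 / qd n (θ k))) := by
    rw [Finset.mul_sum]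
    exact Finset.sum_le_sum fun k _ => L_le hn _
  have h2 := sum_sqrt_r_le hn θ hg S
  have h3 : √(96 * (n : ℝ)) ≤ 10 * √n := by
    rw [Real.sqrt_mul (by norm_num)]
    gcongr
    rw [Real.sqrt_le_left (by norm_num)]
    norm_num
  calc ∑ k ∈ S, L n (θ k) ≤ 6 * (√(S.card) * √(96 * n)) := by linarith
    _ ≤ 6 * (√(S.card) * (10 * √n)) := by gcongr
    _ = _ := by ring

end Pool.Agent.H79
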