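import Pool.Agent.H79.Near1

/-!
Refined counting bound and the sum with exponent `3 / 4`.
-/

open Real MeasureTheory intervalIntegral Finset

namespace Pool.Agent.H79

variable {n : ℕ}

lemma log_le_four_sqrt {x : ℝ} (hx : 0 < x) : Real.log x ≤ 4 * (√(√x) - 1) := by
  have h1 : Real.log x = 2 * Real.log (√x) := by
    rw [Real.log_sqrt hx.le]; ring
  have h2 := log_le_two_sqrt (Real.sqrt_pos.2 hx)
  linarith

/-- Counting bound for the nodes close to an end point. -/
lemma cluster4 (θ : Fin n → ℝ) (hx : Function.Injective fun k => Real.cos (θ k))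
    (hsc : ∀ k j, |sc θ k j| ≤ 2) (ψ : Fin n → ℝ)
    (hψ : (∀ k, ψ k = θ k) ∨ (∀ k, ψ k = π - θ k)) (hψ0 : ∀ k, 0 ≤ ψ k) (t : ℝ) (ht : 0 ≤ t) :
    ((univ.filter fun k => ψ k ≤ t).card : ℝ) ≤ 4 * n * t + 6 * √(√n) := by
  set S := univ.filter fun k => ψ k ≤ t with hS
  rcases Nat.eq_zero_or_pos S.card with h0 | h0
  · rw [h0]; simp only [Nat.cast_zero]; positivity
  obtain ⟨p, hp⟩ : ∃ p, S.card = p + 1 := ⟨S.card - 1, by omega⟩
  have hcn : S.card ≤ n := by
    have := Finset.card_le_univ S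
    simpa using this
  have hn : 1 ≤ n := by omega
  have hn' : (1 : ℝ) ≤ n := by exact_mod_cast hn
  have hsq : 1 ≤ √(√(n : ℝ)) := by rw [Real.one_le_sqrt, Real.one_le_sqrt]; exact hn'
  rw [hp]
  push_cast
  by_cases hpT : (p : ℝ) < 4 * (n * t)
  · linarith
  push Not at hpT
  have h1 := cluster_aux θ hx hsc ψ hψ S (n * t) (by positivity) (fun k hk => by
    rw [hS, mem_filter] at hk
    exact ⟨hψ0 k, by have := hk.2; gcongr⟩) p hp hpT
  have h2 := factorial_bound (n * t) (by positivity) p hpT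
  have hpn : (p : ℝ) + 1 ≤ n := by
    have : p + 1 ≤ n := by omega
    exact_mod_cast this
  have h3 : Real.exp (2 * p) ≤ 4 * (n : ℝ) ^ 3 := by
    have h4 : 1 ≤ 4 * (n : ℝ) ^ 2 * n * Real.exp (-(2 * p)) := by
      calc 1 ≤ _ := h1
        _ ≤ 4 * (n : ℝ) ^ 2 * n * Real.exp (-(2 * p)) := by gcongr
    rw [Real.exp_neg, ← div_eq_mul_inv, le_div_iff₀ (Real.exp_pos _), one_mul] at h4
    calc _ ≤ _ := h4
      _ = _ := by ring
  have h4 : 2 * (p : ℝ) ≤ Real.log 4 + 3 * Real.log n := by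
    have h5 := Real.log_le_log (Real.exp_pos _) h3
    rw [Real.log_exp, Real.log_mul (by norm_num) (by positivity), Real.log_pow] at h5
    exact_mod_cast h5
  have h5 := log_le_four_sqrt (x := n) (by positivity)
  have h6 : Real.log 4 ≤ 2 := by
    have := log_le_two_sqrt (x := 4) (by norm_num)
    have h7 : √(4 : ℝ) = 2 := by
      rw [show (4 : ℝ) = 2 ^ 2 by norm_num, Real.sqrt_sq (by norm_num)]
    rw [h7] at this
    linarith
  have h8 : 0 ≤ 4 * (n : ℝ) * t := by positivity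
  linarith

lemma count_min4 (θ : Fin n → ℝ) (hg : Good θ) (t : ℝ) (ht : 0 ≤ t) :
    ((univ.filter fun k => min (θ k) (π - θ k) ≤ t).card : ℝ) ≤ 8 * n * t + 12 * √(√n) := by
  have h1 := cluster4 θ hg.inj hg.sc_le θ (Or.inl fun _ => rfl) (fun k => (hg.mem k).1) t ht
  have h2 := cluster4 θ hg.inj hg.sc_le (fun k => π - θ k) (Or.inr fun _ => rfl)
    (fun k => by have := (hg.mem k).2; linarith) t ht
  have h3 : (univ.filter fun k => min (θ k) (π - θ k) ≤ t) ⊆
      (univ.filter fun k => θ k ≤ t) ∪ (univ.filter fun k => π - θ k ≤ t) := by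
    intro k hk
    simp only [mem_filter, mem_univ, true_and, mem_union, min_le_iff] at *
    exact hk
  have h4 := (Finset.card_le_card h3).trans (Finset.card_union_le _ _)
  have h5 : ((univ.filter fun k => min (θ k) (π - θ k) ≤ t).card : ℝ) ≤
      ((univ.filter fun k => θ k ≤ t).card : ℝ) + ((univ.filter fun k => π - θ k ≤ t).card : ℝ) := by
    exact_mod_cast h4
  linarith

lemma sum_r3_le (hn : 1 ≤ n) (θ : Fin n → ℝ) (hg : Good θ) :
    ∑ k, (√(√(1 / qd n (θ k)))) ^ 3 ≤ 448 * n := by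
  have hn' : (1 : ℝ) ≤ n := by exact_mod_cast hn
  set I := Nat.log 16 (16 * n) with hI
  have hI1 : 16 ^ I ≤ 16 * n := Nat.pow_log_le_self 16 (by omega)
  have hI2 : 16 * n < 16 ^ (I + 1) := Nat.lt_pow_succ_log_self (by norm_num) _
  have key : ∀ k, (√(√(1 / qd n (θ k)))) ^ 3 ≤
      ∑ i ∈ range (I + 1), if min (θ k) (π - θ k) ≤ 16 / 16 ^ i then (8 : ℝ) ^ i else 0 := by
    intro k
    set q := qd n (θ k) with hq
    have hqpos : 0 < q := qd_pos hn _
    have hq4 : q ≤ 4 := qd_le hn (hg.mem k)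
    have hqn : 1 / (n : ℝ) ≤ q := le_max_right _ _
    have hex : ∃ j, 16 / (16 : ℝ) ^ j < q := by
      refine ⟨I + 1, lt_of_lt_of_le ?_ hqn⟩
      rw [div_lt_div_iff₀ (by positivity) (by positivity), one_mul]
      exact_mod_cast hI2
    classical
    set j := Nat.find hex with hj
    have hj1 : 16 / (16 : ℝ) ^ j < q := Nat.find_spec hex
    have hj0 : j ≠ 0 := by
      intro h
      rw [h] at hj1
      norm_num at hj1
      linarith
    have hjI : j ≤ I + 1 := by
      refine Nat.find_min' hex (lt_of_lt_of_le ?_ hqn)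
      rw [div_lt_div_iff₀ (by positivity) (by positivity), one_mul]
      exact_mod_cast hI2
    obtain ⟨i, hi⟩ := Nat.exists_eq_succ_of_ne_zero hj0
    have hi1 : q ≤ 16 / 16 ^ i := by
      have := Nat.find_min hex (m := i) (by omega)
      exact not_lt.1 this
    have hsingle : (8 : ℝ) ^ i ≤ ∑ i ∈ range (I + 1),
        if min (θ k) (π - θ k) ≤ 16 / 16 ^ i then (8 : ℝ) ^ i else 0 := by
      have h1 : (8 : ℝ) ^ i = if min (θ k) (π - θ k) ≤ 16 / 16 ^ i then (8 : ℝ) ^ i else 0 := by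
        rw [if_pos]
        exact (le_max_left _ _).trans hi1
      rw [h1]
      refine Finset.single_le_sum (f := fun i => if min (θ k) (π - θ k) ≤ 16 / 16 ^ i then
        (8 : ℝ) ^ i else 0) (fun i _ => ?_) (mem_range.2 (by omega))
      split_ifs <;> positivity
    refine le_trans ?_ hsingle
    rw [hi] at hj1
    have h2 : (16 : ℝ) / 16 ^ (i + 1) = 1 / 16 ^ i := by rw [pow_succ]; field_simp
    rw [Nat.succ_eq_add_one, h2] at hj1
    have h3 : 1 / q ≤ 16 ^ i := by
      rw [div_le_iff₀ hqpos]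
      have h4 : (16 : ℝ) ^ i * (1 / 16 ^ i) ≤ 16 ^ i * q := by gcongr
      have h5 : (16 : ℝ) ^ i * (1 / 16 ^ i) = 1 := by field_simp
      linarith
    have h6 : √(√(1 / q)) ≤ 2 ^ i := by
      have h7 : (16 : ℝ) ^ i = ((2 ^ i) ^ 2) ^ 2 := by
        rw [← pow_mul, ← pow_mul, mul_comm i, pow_mul]; norm_num
      calc √(√(1 / q)) ≤ √(√(((2 ^ i) ^ 2) ^ 2)) := by
            apply Real.sqrt_le_sqrt; apply Real.sqrt_le_sqrt; rw [← h7]; exact h3
        _ = 2 ^ i := by rw [Real.sqrt_sq (by positivity), Real.sqrt_sq (by positivity)]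
    calc (√(√(1 / q))) ^ 3 ≤ (2 ^ i) ^ 3 := by gcongr
      _ = 8 ^ i := by rw [← pow_mul, mul_comm, pow_mul]; norm_num
  calc ∑ k, (√(√(1 / qd n (θ k)))) ^ 3 ≤ ∑ k, ∑ i ∈ range (I + 1),
        (if min (θ k) (π - θ k) ≤ 16 / 16 ^ i then (8 : ℝ) ^ i else 0) :=
        Finset.sum_le_sum fun k _ => key k
    _ = ∑ i ∈ range (I + 1), 8 ^ i *
        ((univ.filter fun k => min (θ k) (π - θ k) ≤ 16 / 16 ^ i).card : ℝ) := by
        rw [Finset.sum_comm]
        refine Finset.sum_congr rfl fun i _ => ?_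
        rw [← Finset.sum_filter, Finset.sum_const, nsmul_eq_mul, mul_comm]
    _ ≤ ∑ i ∈ range (I + 1), 8 ^ i * (8 * n * (16 / 16 ^ i) + 12 * √(√n)) := by
        refine Finset.sum_le_sum fun i _ => ?_
        have := count_min4 θ hg (16 / 16 ^ i) (by positivity)
        gcongr
    _ = 128 * n * ∑ i ∈ range (I + 1), (1 / 2 : ℝ) ^ i +
        12 * √(√n) * ∑ i ∈ range (I + 1), (8 : ℝ) ^ i := by
        rw [Finset.mul_sum, Finset.mul_sum, ← Finset.sum_add_distrib]
        refine Finset.sum_congr rfl fun i _ => ?_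
        have h4 : (16 : ℝ) ^ i = 2 ^ i * 8 ^ i := by rw [← mul_pow]; norm_num
        rw [h4, one_div, inv_pow]
        field_simp
        ring
    _ ≤ 128 * n * 2 + 12 * √(√n) * (2 * (8 * (√(√n)) ^ 3)) := by
        have h1 : ∑ i ∈ range (I + 1), (1 / 2 : ℝ) ^ i ≤ 2 := by
          have := geom_sum_mul_neg (1 / 2 : ℝ) (I + 1)
          have h3 : (0 : ℝ) ≤ (1 / 2) ^ (I + 1) := by positivity
          linarith
        have h2 : ∑ i ∈ range (I + 1), (8 : ℝ) ^ i ≤ 2 * (8 * (√(√n)) ^ 3) := by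
          have h3 := geom_sum_mul (8 : ℝ) (I + 1)
          have h4 : (2 : ℝ) ^ I ≤ 2 * √(√n) := by
            have h5 : (2 : ℝ) ^ I = √(√((16 : ℝ) ^ I)) := by
              have : (16 : ℝ) ^ I = ((2 ^ I) ^ 2) ^ 2 := by
                rw [← pow_mul, ← pow_mul, mul_comm I, pow_mul]; norm_num
              rw [this, Real.sqrt_sq (by positivity), Real.sqrt_sq (by positivity)]
            have h6 : (2 : ℝ) * √(√n) = √(√(16 * n)) := by
              rw [Real.sqrt_mul (by norm_num), Real.sqrt_mul (by positivity)]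
              congr 1
              rw [show (16 : ℝ) = (2 ^ 2) ^ 2 by norm_num, Real.sqrt_sq (by norm_num),
                Real.sqrt_sq (by norm_num)]
            rw [h5, h6]
            exact Real.sqrt_le_sqrt (Real.sqrt_le_sqrt (by exact_mod_cast hI1))
          have h8 : (8 : ℝ) ^ I = (2 ^ I) ^ 3 := by
            rw [← pow_mul, mul_comm, pow_mul]; norm_num
          have h9 : (8 : ℝ) ^ I ≤ (2 * √(√n)) ^ 3 := by rw [h8]; gcongr
          have h10 : (2 * √(√(n : ℝ))) ^ 3 = 8 * (√(√n)) ^ 3 := by ring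
          rw [h10] at h9
          have h7 : (8 : ℝ) ^ (I + 1) = 8 * 8 ^ I := by rw [pow_succ]; ring
          rw [h7] at h3
          have h11 : (0 : ℝ) ≤ 8 * (√(√n)) ^ 3 := by positivity
          linarith
        gcongr
    _ = 448 * n := by
        have h1 : √(√(n : ℝ)) * (√(√n)) ^ 3 = n := by
          have h2 : √(√(n : ℝ)) * √(√n) = √n := Real.mul_self_sqrt (by positivity)
          have h3 : √(n : ℝ) * √n = n := Real.mul_self_sqrt (by positivity)
          calc √(√(n : ℝ)) * (√(√n)) ^ 3 = (√(√(n : ℝ)) * √(√n)) * (√(√(n : ℝ)) * √(√n)) := by ring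
            _ = n := by rw [h2, h3]
        calc 128 * (n : ℝ) * 2 + 12 * √(√n) * (2 * (8 * (√(√n)) ^ 3)) =
            256 * n + 192 * (√(√(n : ℝ)) * (√(√n)) ^ 3) := by ring
          _ = 448 * (n : ℝ) := by rw [h1]; ring

/-- The nodes at distance at most `δ` from the end points. -/
noncomputable def Sd (θ : Fin n → ℝ) (δ : ℝ) : Finset (Fin n) := univ.filter fun k => md (θ k) ≤ δ

lemma card_Sd (θ : Fin n → ℝ) (hg : Good θ) (δ : ℝ) (hδ : 0 ≤ δ) :
    ((Sd θ δ).card : ℝ) ≤ 8 * n * δ + 8 * √n := count_min θ hg δ hδ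

/-- Sum of `q ^ (-1/2)` over the nodes close to the end points. -/
lemma sum_r_Sd (hn : 1 ≤ n) (θ : Fin n → ℝ) (hg : Good θ) {δ : ℝ} (hδ : 1 / (n : ℝ) ≤ δ) :
    ∑ k ∈ Sd θ δ, √(1 / qd n (θ k)) ≤ √(√δ) * (448 * n) := by
  have hδ0 : 0 ≤ δ := le_trans (by positivity) hδ
  calc ∑ k ∈ Sd θ δ, √(1 / qd n (θ k)) ≤
      ∑ k ∈ Sd θ δ, √(√δ) * (√(√(1 / qd n (θ k)))) ^ 3 := by
        refine Finset.sum_le_sum fun k hk => ?_
        have hk' : md (θ k) ≤ δ := (mem_filter.1 hk).2
        have hq : qd n (θ k) ≤ δ := max_le hk' hδ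
        have hqpos := qd_pos hn (θ k)
        set y := √(√(1 / qd n (θ k))) with hy
        have hy2 : √(1 / qd n (θ k)) = y ^ 2 := (Real.sq_sqrt (Real.sqrt_nonneg _)).symm
        have hy0 : 0 ≤ y := Real.sqrt_nonneg _
        have h1 : 1 ≤ √(√δ) * y := by
          rw [hy, ← Real.sqrt_mul (Real.sqrt_nonneg _), ← Real.sqrt_mul hδ0, Real.one_le_sqrt,
            Real.one_le_sqrt, mul_one_div, le_div_iff₀ hqpos, one_mul]
          exact hq
        rw [hy2]
        calc y ^ 2 = 1 * y ^ 2 := (one_mul _).symm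
          _ ≤ (√(√δ) * y) * y ^ 2 := by gcongr
          _ = _ := by ring
    _ = √(√δ) * ∑ k ∈ Sd θ δ, (√(√(1 / qd n (θ k)))) ^ 3 := by rw [Finset.mul_sum]
    _ ≤ √(√δ) * ∑ k, (√(√(1 / qd n (θ k)))) ^ 3 := by
        refine mul_le_mul_of_nonneg_left ?_ (Real.sqrt_nonneg _)
        exact Finset.sum_le_sum_of_subset_of_nonneg (Finset.subset_univ _)
          fun _ _ _ => by positivity
    _ ≤ _ := by
        have := sum_r3_le hn θ hg
        gcongr

end Pool.Agent.H79
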